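import Mathlib

/-!
Running minimum and last argmin of a continuous function.
-/

open Set Filter Topology

namespace Helper78.BW

/-- The rationals of `[0,1]`. -/
abbrev Q01 := {q : ℚ // 0 ≤ q ∧ q ≤ 1}

/-- The minimum of `w` on `[a, b]` (computed on a countable dense set). -/
noncomputable def mn (w : ℝ → ℝ) (a b : ℝ) : ℝ := ⨅ q : Q01, w (a + (q.1 : ℝ) * (b - a))

instance : Nonempty Q01 := ⟨⟨0, le_rfl, zero_le_one⟩⟩

theorem q01_mem {a b : ℝ} (hab : a ≤ b) (q : Q01) : a + (q.1 : ℝ) * (b - a) ∈ Icc a b := by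
  obtain ⟨q, h0, h1⟩ := q
  have h0' : (0 : ℝ) ≤ q := by exact_mod_cast h0
  have h1' : (q : ℝ) ≤ 1 := by exact_mod_cast h1
  constructor <;> nlinarith

theorem exists_mn {w : ℝ → ℝ} (hw : Continuous w) {a b : ℝ} (hab : a ≤ b) :
    ∃ t ∈ Icc a b, w t = mn w a b ∧ ∀ s ∈ Icc a b, w t ≤ w s := by
  obtain ⟨t, ht, hmin⟩ := isCompact_Icc.exists_isMinOn (nonempty_Icc.2 hab) hw.continuousOn
  have hmin' : ∀ s ∈ Icc a b, w t ≤ w s := fun s hs => hmin hs
  refine ⟨t, ht, ?_, hmin'⟩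
  apply le_antisymm
  · exact le_ciInf fun q => hmin' _ (q01_mem hab q)
  · apply le_of_forall_pos_lt_add
    intro ε hε
    obtain ⟨s0, hs0, hs1, hst⟩ : ∃ s0 : ℝ, 0 ≤ s0 ∧ s0 ≤ 1 ∧ a + s0 * (b - a) = t := by
      rcases eq_or_lt_of_le hab with h | h
      · refine ⟨0, le_rfl, zero_le_one, ?_⟩
        obtain ⟨h1, h2⟩ := ht
        linarith
      · have hpos : 0 < b - a := by linarith
        refine ⟨(t - a) / (b - a), div_nonneg (by linarith [ht.1]) hpos.le, ?_, ?_⟩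
        · rw [div_le_one hpos]; linarith [ht.2]
        · field_simp; ring
    have hcont : Continuous fun s : ℝ => w (a + s * (b - a)) := by fun_prop
    have hopen : IsOpen {s : ℝ | w (a + s * (b - a)) < w t + ε} :=
      isOpen_lt hcont continuous_const
    have hmem : s0 ∈ {s : ℝ | w (a + s * (b - a)) < w t + ε} := by
      simp only [Set.mem_ofPred_eq, hst]
      linarith
    obtain ⟨η, hη, hball⟩ := Metric.isOpen_iff.1 hopen s0 hmem
    have hlt : max 0 (s0 - η) < min 1 (s0 + η) := by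
      rw [max_lt_iff, lt_min_iff, lt_min_iff]
      refine ⟨⟨one_pos, by linarith⟩, by linarith, by linarith⟩
    obtain ⟨q, hq1, hq2⟩ := exists_rat_btwn hlt
    rw [max_lt_iff] at hq1
    rw [lt_min_iff] at hq2
    have hq0 : 0 ≤ q := by exact_mod_cast hq1.1.le
    have hq1' : q ≤ 1 := by exact_mod_cast hq2.1.le
    have hq : (q : ℝ) ∈ {s : ℝ | w (a + s * (b - a)) < w t + ε} := by
      apply hball
      rw [Metric.mem_ball, Real.dist_eq, abs_lt]
      constructor <;> linarith [hq1.2, hq2.2]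
    have hbdd : BddBelow (range fun q : Q01 => w (a + (q.1 : ℝ) * (b - a))) := by
      refine ⟨w t, ?_⟩
      rintro _ ⟨q, rfl⟩
      exact hmin' _ (q01_mem hab q)
    exact lt_of_le_of_lt (ciInf_le hbdd ⟨q, hq0, hq1'⟩) hq

theorem mn_le {w : ℝ → ℝ} (hw : Continuous w) {a b t : ℝ} (ht : t ∈ Icc a b) :
    mn w a b ≤ w t := by
  obtain ⟨s, _, hs, hmin⟩ := exists_mn hw (ht.1.trans ht.2)
  rw [← hs]
  exact hmin t ht

theorem le_mn_iff {w : ℝ → ℝ} (hw : Continuous w) {a b x : ℝ} (hab : a ≤ b) :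
    x ≤ mn w a b ↔ ∀ t ∈ Icc a b, x ≤ w t := by
  constructor
  · intro h t ht
    exact h.trans (mn_le hw ht)
  · intro h
    obtain ⟨s, hs1, hs, _⟩ := exists_mn hw hab
    rw [← hs]
    exact h s hs1

theorem lt_mn_iff {w : ℝ → ℝ} (hw : Continuous w) {a b x : ℝ} (hab : a ≤ b) :
    x < mn w a b ↔ ∀ t ∈ Icc a b, x < w t := by
  constructor
  · intro h t ht
    exact h.trans_le (mn_le hw ht)
  · intro h
    obtain ⟨s, hs1, hs, _⟩ := exists_mn hw hab
    rw [← hs]
    exact h s hs1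

theorem mn_self {w : ℝ → ℝ} (a : ℝ) : mn w a a = w a := by
  unfold mn
  simp

/-- The minimum over a smaller interval is larger. -/
theorem mn_mono {w : ℝ → ℝ} (hw : Continuous w) {a b c d : ℝ} (h1 : a ≤ c) (h2 : c ≤ d)
    (h3 : d ≤ b) : mn w a b ≤ mn w c d := by
  rw [le_mn_iff hw h2]
  intro t ht
  exact mn_le hw ⟨h1.trans ht.1, ht.2.trans h3⟩

/-- shifting and adding a constant -/
theorem mn_shift {w : ℝ → ℝ} (hw : Continuous w) (s c : ℝ) {a b : ℝ} (hab : a ≤ b) :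
    mn (fun t => w (s + t) + c) a b = mn w (s + a) (s + b) + c := by
  have hw' : Continuous fun t => w (s + t) + c := by fun_prop
  apply le_antisymm
  · obtain ⟨t, ht, h1, _⟩ := exists_mn hw (show s + a ≤ s + b by linarith)
    rw [← h1]
    have := mn_le hw' (a := a) (b := b) (t := t - s) ⟨by linarith [ht.1], by linarith [ht.2]⟩
    simpa using this
  · rw [le_mn_iff hw' hab]
    intro t ht
    have := mn_le hw (a := s + a) (b := s + b) (t := s + t)
      ⟨by linarith [ht.1], by linarith [ht.2]⟩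
    linarith

/-- The last time in `[0, δ]` at which `w` attains its minimum over `[0, δ]`. -/
noncomputable def la (w : ℝ → ℝ) (δ : ℝ) : ℝ := sSup {t | t ∈ Icc 0 δ ∧ w t = mn w 0 δ}

theorem la_spec {w : ℝ → ℝ} (hw : Continuous w) {δ : ℝ} (hδ : 0 ≤ δ) :
    la w δ ∈ Icc 0 δ ∧ w (la w δ) = mn w 0 δ ∧ ∀ s ∈ Ioc (la w δ) δ, mn w 0 δ < w s := by
  set S : Set ℝ := {t | t ∈ Icc 0 δ ∧ w t = mn w 0 δ} with hS
  have hne : S.Nonempty := by
    obtain ⟨t, ht, h, _⟩ := exists_mn hw hδ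
    exact ⟨t, ht, h⟩
  have hbdd : BddAbove S := ⟨δ, fun t ht => ht.1.2⟩
  have hcl : IsClosed S := by
    have : S = Icc 0 δ ∩ {t | w t = mn w 0 δ} := by ext; rfl
    rw [this]
    exact isClosed_Icc.inter (isClosed_eq hw continuous_const)
  have hmem : sSup S ∈ S := hcl.csSup_mem hne hbdd
  refine ⟨hmem.1, hmem.2, ?_⟩
  intro s hs
  have hs' : s ∈ Icc 0 δ := ⟨hmem.1.1.trans hs.1.le, hs.2⟩
  rcases lt_or_eq_of_le (mn_le hw hs') with h | h
  · exact h
  · exfalso
    have : s ≤ sSup S := le_csSup hbdd ⟨hs', h.symm⟩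
    exact absurd hs.1 (not_lt.2 this)

theorem la_lt_iff {w : ℝ → ℝ} (hw : Continuous w) {δ c : ℝ} (hc : c ∈ Icc 0 δ) :
    la w δ < c ↔ mn w 0 δ < mn w c δ := by
  obtain ⟨h1, h2, h3⟩ := la_spec hw (hc.1.trans hc.2)
  rw [lt_mn_iff hw hc.2]
  constructor
  · intro h t ht
    exact h3 t ⟨h.trans_le ht.1, ht.2⟩
  · intro h
    by_contra hcon
    push Not at hcon
    have := h _ ⟨hcon, h1.2⟩
    rw [h2] at this
    exact lt_irrefl _ this

/-- The candidate event: after its last minimum over `[0, δ]`, the path stays strictly above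
this minimum for one unit of time. -/
def cand (w : ℝ → ℝ) (δ : ℝ) : Prop := mn w 0 δ < mn w δ (la w δ + 1)

/-- The grid version of the candidate event, for the cell `[k h, (k+1) h]`. -/
def gev (w : ℝ → ℝ) (h : ℝ) (k : ℕ) : Prop :=
  mn w (k * h) ((k + 1) * h) ≤ mn w 0 (k * h) ∧
    mn w 0 ((k + 1) * h) < mn w ((k + 1) * h) ((k + 1) * h + 1)

theorem gev_la {w : ℝ → ℝ} (hw : Continuous w) {δ h : ℝ} (hδ1 : δ ≤ 1) (hh : 0 < h)
    {k : ℕ} (hk : (k + 1) * h ≤ δ) (hg : gev w h k) :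
    k * h ≤ la w δ ∧ la w δ < (k + 1) * h ∧ mn w 0 δ = mn w 0 ((k + 1) * h) := by
  have hk0 : (0 : ℝ) ≤ k * h := by positivity
  have hk1 : (k : ℝ) * h ≤ (k + 1) * h := by nlinarith
  have hδ0 : 0 ≤ δ := by linarith
  obtain ⟨hg1, hg2⟩ := hg
  rw [lt_mn_iff hw (by linarith)] at hg2
  obtain ⟨t0, ht0, ht0e, ht0m⟩ := exists_mn hw hk1
  -- the minimum over `[0, (k+1)h]` is attained at `t0`
  have hmin : ∀ s ∈ Icc 0 ((k + 1) * h), w t0 ≤ w s := by
    intro s hs
    rcases le_total s (k * h) with hs' | hs'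
    · rw [ht0e]
      exact hg1.trans (mn_le hw ⟨hs.1, hs'⟩)
    · exact ht0m s ⟨hs', hs.2⟩
  have hI : mn w 0 ((k + 1) * h) = w t0 := by
    apply le_antisymm
    · exact mn_le hw ⟨hk0.trans ht0.1, ht0.2⟩
    · exact (le_mn_iff hw (by linarith)).2 hmin
  rw [hI] at hg2
  have hI2 : mn w 0 δ = w t0 := by
    apply le_antisymm
    · exact mn_le hw ⟨hk0.trans ht0.1, ht0.2.trans hk⟩
    · rw [le_mn_iff hw hδ0]
      intro s hs
      rcases le_total s ((k + 1) * h) with hs' | hs'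
      · exact hmin s ⟨hs.1, hs'⟩
      · exact (hg2 s ⟨hs', by linarith [hs.2]⟩).le
  obtain ⟨hl1, hl2, hl3⟩ := la_spec hw hδ0
  rw [hI2] at hl2 hl3
  refine ⟨?_, ?_, ?_⟩
  · by_contra hcon
    push Not at hcon
    have := hl3 t0 ⟨hcon.trans_le ht0.1, ht0.2.trans hk⟩
    exact lt_irrefl _ this
  · by_contra hcon
    push Not at hcon
    have := hg2 (la w δ) ⟨hcon, by linarith [hl1.2]⟩
    rw [hl2] at this
    exact lt_irrefl _ this
  · rw [hI, hI2]

/-- If the grid event holds at a fine enough scale, the path is a candidate. -/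
theorem cand_of_gev {w : ℝ → ℝ} (hw : Continuous w) {δ : ℝ} (hδ1 : δ ≤ 1)
    (h : ∃ᶠ n : ℕ in atTop, ∃ k : ℕ, k < n ∧ gev w (δ / n) k) (hδ : 0 < δ) : cand w δ := by
  -- first, `la w δ < δ`
  have hstep : ∀ n : ℕ, ∀ k : ℕ, k < n → gev w (δ / n) k →
      (k : ℝ) * (δ / n) ≤ la w δ ∧ la w δ < (k + 1) * (δ / n) ∧
      mn w 0 δ = mn w 0 ((k + 1) * (δ / n)) ∧ ((k : ℝ) + 1) * (δ / n) ≤ δ := by
    intro n k hkn hg
    have hn : (0 : ℝ) < n := by exact_mod_cast (Nat.zero_lt_of_lt hkn)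
    have hle : ((k : ℝ) + 1) * (δ / n) ≤ δ := by
      have : (k : ℝ) + 1 ≤ n := by exact_mod_cast hkn
      calc ((k : ℝ) + 1) * (δ / n) ≤ n * (δ / n) := by gcongr
        _ = δ := by field_simp
    obtain ⟨h1, h2, h3⟩ := gev_la hw hδ1 (by positivity) hle hg
    exact ⟨h1, h2, h3, hle⟩
  have hlt : la w δ < δ := by
    obtain ⟨n, k, hkn, hg⟩ := h.exists
    obtain ⟨_, h2, _, h4⟩ := hstep n k hkn hg
    exact h2.trans_le h4
  have hla0 : 0 ≤ la w δ := (la_spec hw hδ.le).1.1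
  unfold cand
  rw [lt_mn_iff hw (by linarith)]
  intro s hs
  -- pick `n` with `δ / n ≤ δ - la`
  have hev : ∀ᶠ n : ℕ in atTop, δ / n ≤ δ - la w δ := by
    have : Tendsto (fun n : ℕ => δ / (n : ℝ)) atTop (𝓝 0) :=
      tendsto_const_div_atTop_nhds_zero_nat δ
    exact this.eventually (ge_mem_nhds (by linarith))
  obtain ⟨n, ⟨k, hkn, hg⟩, hn⟩ := (h.and_eventually hev).exists
  obtain ⟨h1, h2, h3, h4⟩ := hstep n k hkn hg
  obtain ⟨_, hg2⟩ := hg
  rw [lt_mn_iff hw (by linarith)] at hg2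
  rw [h3]
  apply hg2
  constructor
  · have : ((k : ℝ) + 1) * (δ / n) = k * (δ / n) + δ / n := by ring
    linarith [hs.1]
  · linarith [hs.2]

/-- If the path is a candidate and its last minimum is not a grid point, then the grid event holds
for all fine scales. -/
theorem gev_of_cand {w : ℝ → ℝ} (hw : Continuous w) {δ : ℝ} (hδ : 0 < δ) (hδ1 : δ ≤ 1)
    (hc : cand w δ) (hgrid : ∀ n k : ℕ, 0 < n → la w δ ≠ k * (δ / n)) :
    ∀ᶠ n : ℕ in atTop, gev w (δ / n) ⌊la w δ / (δ / n)⌋₊ ∧ ⌊la w δ / (δ / n)⌋₊ < n := by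
  obtain ⟨hl1, hl2, hl3⟩ := la_spec hw hδ.le
  unfold cand at hc
  have hla1 : δ ≤ la w δ + 1 := by linarith [hl1.1]
  rw [lt_mn_iff hw hla1] at hc
  have hlt : la w δ < δ := by
    rcases lt_or_eq_of_le hl1.2 with h | h
    · exact h
    · exfalso
      have := hc δ ⟨le_rfl, hla1⟩
      rw [← h, hl2] at this
      rw [h] at this
      exact lt_irrefl _ this
  have hpos1 := hc (la w δ + 1) ⟨hla1, le_rfl⟩
  have hopen : IsOpen {s : ℝ | mn w 0 δ < w s} := isOpen_lt continuous_const hw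
  obtain ⟨η, hη, hball⟩ := Metric.isOpen_iff.1 hopen (la w δ + 1) hpos1
  have hev : ∀ᶠ n : ℕ in atTop, δ / n < η := by
    have : Tendsto (fun n : ℕ => δ / (n : ℝ)) atTop (𝓝 0) :=
      tendsto_const_div_atTop_nhds_zero_nat δ
    exact this.eventually (gt_mem_nhds hη)
  filter_upwards [hev, eventually_gt_atTop 0] with n hn hn0
  have hnr : (0 : ℝ) < n := by exact_mod_cast hn0
  set h := δ / n with hh
  have hhpos : 0 < h := by positivity
  set k := ⌊la w δ / h⌋₊ with hk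
  have hk1 : (k : ℝ) * h ≤ la w δ := by
    have := Nat.floor_le (div_nonneg hl1.1 hhpos.le)
    rw [← hk] at this
    rwa [le_div_iff₀ hhpos] at this
  have hk2 : la w δ < (k + 1) * h := by
    have := Nat.lt_floor_add_one (la w δ / h)
    rw [← hk] at this
    rwa [div_lt_iff₀ hhpos] at this
  have hk1' : (k : ℝ) * h < la w δ := lt_of_le_of_ne hk1 (fun e => hgrid n k hn0 e.symm)
  have hkn : k < n := by
    have : (k : ℝ) * h < n * h := by
      have hnh : (n : ℝ) * h = δ := by rw [hh]; field_simp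
      rw [hnh]
      exact hk1.trans_lt hlt
    have := lt_of_mul_lt_mul_right this hhpos.le
    exact_mod_cast this
  have hkδ : ((k : ℝ) + 1) * h ≤ δ := by
    have h1 : (k : ℝ) + 1 ≤ n := by exact_mod_cast hkn
    calc ((k : ℝ) + 1) * h ≤ n * h := by gcongr
      _ = δ := by rw [hh]; field_simp
  have hk0 : (0 : ℝ) ≤ k * h := by positivity
  have hmn1 : mn w (k * h) ((k + 1) * h) = w (la w δ) := by
    apply le_antisymm
    · exact mn_le hw ⟨hk1, hk2.le⟩
    · rw [hl2]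
      exact mn_mono hw hk0 (by linarith) hkδ
  have hmn2 : mn w 0 ((k + 1) * h) = w (la w δ) := by
    apply le_antisymm
    · exact mn_le hw ⟨hl1.1, hk2.le⟩
    · rw [hl2]
      exact mn_mono hw le_rfl (by linarith) hkδ
  refine ⟨⟨?_, ?_⟩, hkn⟩
  · rw [hmn1, hl2]
    exact mn_mono hw le_rfl hk0 (by linarith)
  · rw [hmn2, hl2, lt_mn_iff hw (by linarith)]
    intro s hs
    rcases le_total s δ with h1 | h1
    · exact hl3 s ⟨by linarith [hs.1], h1⟩
    · rcases le_total s (la w δ + 1) with h2 | h2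
      · exact hc s ⟨h1, h2⟩
      · apply hball
        rw [Metric.mem_ball, Real.dist_eq, abs_of_nonneg (by linarith)]
        have := hs.2
        have e : ((k : ℝ) + 1) * h = k * h + h := by ring
        linarith

end Helper78.BW
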