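import Mathlib
import Pool.Agent.Helper78.BW.Mn

/-!
Brownian motions all of whose paths are continuous, indexed by `ℝ` (only nonnegative times
matter), their shifts and independence of past and future.
-/

open MeasureTheory ProbabilityTheory Set Filter Topology
open scoped ENNReal NNReal

namespace Helper78.BW

variable {Ω : Type*} {mΩ : MeasurableSpace Ω} {P : Measure Ω} {b : ℝ → Ω → ℝ}

/-- A Brownian motion with all paths continuous and started at `0`. -/
structure NBM (b : ℝ → Ω → ℝ) (P : Measure Ω) : Prop where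
  cont : ∀ ω, Continuous fun t => b t ω
  meas : ∀ t, Measurable (b t)
  zero : ∀ ω, b 0 ω = 0
  pre : IsPreBrownianReal (fun t : ℝ≥0 => b t) P

theorem NBM.isProb (hb : NBM b P) : IsProbabilityMeasure P :=
  hb.pre.isGaussianProcess.isProbabilityMeasure

/-- The shifted process. -/
def sh (b : ℝ → Ω → ℝ) (s : ℝ) : ℝ → Ω → ℝ := fun t ω => b (s + t) ω - b s ω

theorem NBM.shift (hb : NBM b P) {s : ℝ} (hs : 0 ≤ s) : NBM (sh b s) P where
  cont ω := ((hb.cont ω).comp (continuous_const.add continuous_id)).sub continuous_const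
  meas t := (hb.meas _).sub (hb.meas _)
  zero ω := by simp [sh]
  pre := by
    lift s to ℝ≥0 using hs
    have h := hb.pre.shift s
    have e : (fun (t : ℝ≥0) ω => b ((s + t : ℝ≥0)) ω - b (s : ℝ) ω) =
        fun (t : ℝ≥0) => sh b s t := by
      funext t ω
      simp [sh]
    rw [← e]
    exact h

theorem sh_sh (b : ℝ → Ω → ℝ) (s u : ℝ) : sh (sh b s) u = sh b (s + u) := by
  funext t ω
  simp only [sh]
  rw [add_assoc]
  ring

/-- The σ-algebra of the past up to time `s`. -/
@[instance_reducible] def Fle (b : ℝ → Ω → ℝ) (s : ℝ) : MeasurableSpace Ω :=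
  MeasurableSpace.comap (fun ω (u : Set.Iic s.toNNReal) => b u ω) MeasurableSpace.pi

/-- The σ-algebra of the increments after time `s`. -/
@[instance_reducible] def Fge (b : ℝ → Ω → ℝ) (s : ℝ) : MeasurableSpace Ω :=
  MeasurableSpace.comap (fun ω (t : ℝ≥0) => b ((s.toNNReal + t : ℝ≥0)) ω - b s.toNNReal ω)
    MeasurableSpace.pi

theorem indep_past_future (hb : NBM b P) (s : ℝ) : Indep (Fle b s) (Fge b s) P :=
  (hb.pre.indepFun_shift s.toNNReal).symm

theorem Fle_le (hb : NBM b P) (s : ℝ) : Fle b s ≤ mΩ := by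
  apply Measurable.comap_le
  exact measurable_pi_lambda _ fun u => hb.meas _

theorem Fge_le (hb : NBM b P) (s : ℝ) : Fge b s ≤ mΩ := by
  apply Measurable.comap_le
  exact measurable_pi_lambda _ fun u => (hb.meas _).sub (hb.meas _)

theorem measurable_Fle {s t : ℝ} (h0 : 0 ≤ t) (h : t ≤ s) : Measurable[Fle b s] (b t) := by
  have hmem : t.toNNReal ∈ Set.Iic s.toNNReal := Real.toNNReal_le_toNNReal h
  have h1 : @Measurable _ _ (Fle b s) _ (fun ω (u : Set.Iic s.toNNReal) => b u ω) :=
    comap_measurable _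
  have h2 := (measurable_pi_apply (⟨t.toNNReal, hmem⟩ : Set.Iic s.toNNReal)).comp h1
  have e : (fun ω => b t ω) = (fun f : Set.Iic s.toNNReal → ℝ => f ⟨t.toNNReal, hmem⟩) ∘
      (fun ω (u : Set.Iic s.toNNReal) => b u ω) := by
    funext ω
    simp [Real.coe_toNNReal t h0]
  show Measurable[Fle b s] (fun ω => b t ω)
  rw [e]
  exact h2

theorem measurable_Fge {s t : ℝ} (hs : 0 ≤ s) (h0 : 0 ≤ t) :
    Measurable[Fge b s] (sh b s t) := by
  have h1 : @Measurable _ _ (Fge b s) _
      (fun ω (t : ℝ≥0) => b ((s.toNNReal + t : ℝ≥0)) ω - b s.toNNReal ω) :=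
    comap_measurable _
  have h2 := (measurable_pi_apply t.toNNReal).comp h1
  have e : (sh b s t) = (fun f : ℝ≥0 → ℝ => f t.toNNReal) ∘
      (fun ω (t : ℝ≥0) => b ((s.toNNReal + t : ℝ≥0)) ω - b s.toNNReal ω) := by
    funext ω
    simp [sh, Real.coe_toNNReal t h0, Real.coe_toNNReal s hs]
  rw [e]
  exact h2

theorem indepFun_past_future (hb : NBM b P) (s : ℝ) {α β : Type*} [MeasurableSpace α]
    [MeasurableSpace β] {X : Ω → α} {Y : Ω → β} (hX : Measurable[Fle b s] X)
    (hY : Measurable[Fge b s] Y) : IndepFun X Y P := by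
  have := indep_past_future hb s
  exact indep_of_indep_of_le_left (indep_of_indep_of_le_right this hY.comap_le) hX.comap_le

/-- Fubini for independent random elements. -/
theorem lintegral_indepFun [IsFiniteMeasure P] {α β : Type*} [MeasurableSpace α] [MeasurableSpace β]
    {X : Ω → α} {Y : Ω → β} (hX : Measurable X) (hY : Measurable Y) (h : IndepFun X Y P)
    {Θ : α → β → ℝ≥0∞} (hΘ : Measurable (Function.uncurry Θ)) :
    ∫⁻ ω, Θ (X ω) (Y ω) ∂P = ∫⁻ ω, ∫⁻ ω', Θ (X ω) (Y ω') ∂P ∂P := by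
  have h1 : P.map (fun ω => (X ω, Y ω)) = (P.map X).prod (P.map Y) :=
    (indepFun_iff_map_prod_eq_prod_map_map hX.aemeasurable hY.aemeasurable).1 h
  calc ∫⁻ ω, Θ (X ω) (Y ω) ∂P
      = ∫⁻ p, Function.uncurry Θ p ∂(P.map fun ω => (X ω, Y ω)) := by
        rw [lintegral_map hΘ (hX.prodMk hY)]
        rfl
    _ = ∫⁻ x, ∫⁻ y, Θ x y ∂(P.map Y) ∂(P.map X) := by
        rw [h1, lintegral_prod _ hΘ.aemeasurable]
        rfl
    _ = ∫⁻ ω, ∫⁻ y, Θ (X ω) y ∂(P.map Y) ∂P := by
        rw [lintegral_map _ hX]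
        exact hΘ.lintegral_prod_right'
    _ = ∫⁻ ω, ∫⁻ ω', Θ (X ω) (Y ω') ∂P ∂P := by
        congr 1
        funext ω
        rw [lintegral_map _ hY]
        exact hΘ.comp measurable_prodMk_left

/-- Measurability of the running minimum. -/
theorem measurable_mn {m : MeasurableSpace Ω} {a c : ℝ} (hac : a ≤ c)
    (h : ∀ t ∈ Icc a c, Measurable[m] (b t)) :
    Measurable[m] fun ω => mn (fun t => b t ω) a c := by
  unfold mn
  exact Measurable.iInf fun q => h _ (q01_mem hac q)

end Helper78.BW
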