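import Mathlib
import Pool.Agent.Helper78.BW.NBM

/-!
The reflection principle for Brownian motion, by discretisation.
-/

open MeasureTheory ProbabilityTheory Set Filter Topology
open scoped ENNReal NNReal

namespace Helper78.BW

variable {Ω : Type*} {mΩ : MeasurableSpace Ω} {P : Measure Ω} {b : ℝ → Ω → ℝ}

/-- Fubini for independent random elements, Bochner version for bounded functions. -/
theorem integral_indepFun [IsProbabilityMeasure P] {α β : Type*} [MeasurableSpace α]
    [MeasurableSpace β]
    {X : Ω → α} {Y : Ω → β} (hX : Measurable X) (hY : Measurable Y) (h : IndepFun X Y P)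
    {Θ : α → β → ℝ} (hΘ : Measurable (Function.uncurry Θ)) {C : ℝ} (hC : ∀ x y, |Θ x y| ≤ C) :
    ∫ ω, Θ (X ω) (Y ω) ∂P = ∫ ω, ∫ ω', Θ (X ω) (Y ω') ∂P ∂P := by
  have hpX : IsProbabilityMeasure (P.map X) := Measure.isProbabilityMeasure_map hX.aemeasurable
  have hpY : IsProbabilityMeasure (P.map Y) := Measure.isProbabilityMeasure_map hY.aemeasurable
  have h1 : P.map (fun ω => (X ω, Y ω)) = (P.map X).prod (P.map Y) :=
    (indepFun_iff_map_prod_eq_prod_map_map hX.aemeasurable hY.aemeasurable).1 h
  calc ∫ ω, Θ (X ω) (Y ω) ∂P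
      = ∫ p, Function.uncurry Θ p ∂(P.map fun ω => (X ω, Y ω)) := by
        rw [integral_map (hX.prodMk hY).aemeasurable hΘ.aestronglyMeasurable]
        rfl
    _ = ∫ x, ∫ y, Θ x y ∂(P.map Y) ∂(P.map X) := by
        rw [h1, integral_prod]
        · rfl
        · apply Integrable.of_bound hΘ.aestronglyMeasurable C
          exact Eventually.of_forall fun p => hC _ _
    _ = ∫ ω, ∫ y, Θ (X ω) y ∂(P.map Y) ∂P := by
        rw [integral_map hX.aemeasurable]
        exact (hΘ.stronglyMeasurable.integral_prod_right').aestronglyMeasurable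
    _ = ∫ ω, ∫ ω', Θ (X ω) (Y ω') ∂P ∂P := by
        congr 1
        funext ω
        rw [integral_map hY.aemeasurable]
        exact (hΘ.comp measurable_prodMk_left).aestronglyMeasurable

/-- The event that `y + b` is positive at the first `k` grid points. -/
def Apos (b : ℝ → Ω → ℝ) (y h : ℝ) (k : ℕ) : Set Ω := {ω | ∀ j ≤ k, 0 < y + b (j * h) ω}

/-- The oscillation of `b` over the grid. -/
noncomputable def osc (b : ℝ → Ω → ℝ) (h : ℝ) (n : ℕ) (ω : Ω) : ℝ :=
  ⨆ k : Fin n, |b ((k + 1) * h) ω - b (k * h) ω|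

theorem le_osc (b : ℝ → Ω → ℝ) (h : ℝ) {n k : ℕ} (hk : k < n) (ω : Ω) :
    |b ((k + 1) * h) ω - b (k * h) ω| ≤ osc b h n ω := by
  have := le_ciSup (f := fun k : Fin n => |b ((k + 1) * h) ω - b (k * h) ω|)
    (Set.finite_range _).bddAbove ⟨k, hk⟩
  exact this

theorem measurable_osc (hb : NBM b P) (h : ℝ) (n : ℕ) : Measurable (osc b h n) := by
  unfold osc
  exact Measurable.iSup fun k => ((hb.meas _).sub (hb.meas _)).abs

theorem measurableSet_Apos (hb : NBM b P) (y h : ℝ) (k : ℕ) : MeasurableSet (Apos b y h k) := by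
  have : Apos b y h k = ⋂ j : ℕ, ⋂ _ : j ≤ k, {ω | 0 < y + b (j * h) ω} := by
    ext ω; simp [Apos]
  rw [this]
  exact MeasurableSet.iInter fun j => MeasurableSet.iInter fun _ =>
    measurableSet_lt measurable_const (measurable_const.add (hb.meas _))

theorem measurableSet_Apos_Fle {y h s : ℝ} (hh : 0 ≤ h) {k : ℕ} (hk : k * h ≤ s) :
    MeasurableSet[Fle b s] (Apos b y h k) := by
  have : Apos b y h k = ⋂ j : ℕ, ⋂ _ : j ≤ k, {ω | 0 < y + b (j * h) ω} := by
    ext ω; simp [Apos]
  rw [this]
  refine MeasurableSet.iInter fun j => MeasurableSet.iInter fun hj => ?_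
  have hjk : (j : ℝ) * h ≤ k * h := by
    have : (j : ℝ) ≤ k := by exact_mod_cast hj
    gcongr
  have hm : Measurable[Fle b s] fun ω => y + b (j * h) ω :=
    measurable_const.add (measurable_Fle (by positivity) (hjk.trans hk))
  exact hm measurableSet_Ioi

theorem Apos_succ_subset (b : ℝ → Ω → ℝ) (y h : ℝ) (k : ℕ) :
    Apos b y h (k + 1) ⊆ Apos b y h k := fun _ hω j hj => hω j (hj.trans (Nat.le_succ k))

theorem NBM.hasLaw_sh (hb : NBM b P) {s t : ℝ} (hs : 0 ≤ s) (ht : 0 ≤ t) :
    P.map (sh b s t) = gaussianReal 0 t.toNNReal := by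
  have h := ((hb.shift hs).pre.hasLaw_eval t.toNNReal).map_eq
  rwa [Real.coe_toNNReal t ht] at h

theorem NBM.hasLaw (hb : NBM b P) {t : ℝ} (ht : 0 ≤ t) :
    P.map (b t) = gaussianReal 0 t.toNNReal := by
  have h := (hb.pre.hasLaw_eval t.toNNReal).map_eq
  rwa [Real.coe_toNNReal t ht] at h

/-- one step of the discretised reflection principle -/
theorem refl_step (hb : NBM b P) {y h t C L : ℝ} (hh : 0 ≤ h) {k n : ℕ} (hkn : k < n)
    (hkt : ((k : ℝ) + 1) * h ≤ t) {f : ℝ → ℝ} (hf : Measurable f) (hodd : ∀ x, f (-x) = -f x)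
    (hC : ∀ x, |f x| ≤ C) (hL : ∀ x x', |f x - f x'| ≤ L * |x - x'|) (hL0 : 0 ≤ L) :
    |∫ ω in Apos b y h k \ Apos b y h (k + 1), f (y + b t ω) ∂P| ≤
      ∫ ω in Apos b y h k \ Apos b y h (k + 1), min C (L * osc b h n ω) ∂P := by
  have hP := hb.isProb
  have hC0 : 0 ≤ C := (abs_nonneg _).trans (hC 0)
  set s : ℝ := ((k : ℝ) + 1) * h with hs
  have hs0 : 0 ≤ s := by positivity
  set D : Set Ω := Apos b y h k \ Apos b y h (k + 1) with hD
  have hDm : MeasurableSet D := (measurableSet_Apos hb y h k).diff (measurableSet_Apos hb y h _)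
  have hDF : MeasurableSet[Fle b s] D := by
    apply MeasurableSet.diff
    · apply measurableSet_Apos_Fle hh
      rw [hs]; nlinarith
    · apply measurableSet_Apos_Fle hh
      rw [hs]; push_cast; exact le_rfl
  -- the two independent pieces
  let X : Ω → ℝ × ℝ := fun ω => (D.indicator (fun _ => (1 : ℝ)) ω, y + b s ω)
  let Y : Ω → ℝ := sh b s (t - s)
  have hXF : Measurable[Fle b s] X := by
    refine Measurable.prodMk ?_ ?_
    · exact Measurable.indicator measurable_const hDF
    · exact measurable_const.add (measurable_Fle hs0 le_rfl)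
  have hYF : Measurable[Fge b s] Y := measurable_Fge hs0 (by linarith)
  have hXm : Measurable X := hXF.mono (Fle_le hb s) le_rfl
  have hYm : Measurable Y := hYF.mono (Fge_le hb s) le_rfl
  have hind := indepFun_past_future hb s hXF hYF
  let Θ : ℝ × ℝ → ℝ → ℝ := fun p z => max (-1) (min 1 p.1) * f (p.2 + z)
  have hΘm : Measurable (Function.uncurry Θ) := by
    have h1 : Measurable fun q : (ℝ × ℝ) × ℝ => max (-1) (min 1 q.1.1) := by fun_prop
    have h2 : Measurable fun q : (ℝ × ℝ) × ℝ => f (q.1.2 + q.2) := hf.comp (by fun_prop)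
    exact h1.mul h2
  have hΘb : ∀ p z, |Θ p z| ≤ C := by
    intro p z
    simp only [Θ, abs_mul]
    have h1 : |max (-1 : ℝ) (min 1 p.1)| ≤ 1 := by
      rw [abs_le]
      constructor
      · exact le_max_left _ _
      · exact max_le (by norm_num) (min_le_left _ _)
    calc |max (-1 : ℝ) (min 1 p.1)| * |f (p.2 + z)| ≤ 1 * C :=
          mul_le_mul h1 (hC _) (abs_nonneg _) zero_le_one
      _ = C := one_mul C
  have hfub := integral_indepFun (P := P) hXm hYm hind hΘm hΘb
  have hone : ∀ ω, max (-1 : ℝ) (min 1 (D.indicator (fun _ => (1 : ℝ)) ω)) =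
      D.indicator (fun _ => (1 : ℝ)) ω := by
    intro ω
    by_cases hω : ω ∈ D
    · simp [hω]
    · simp [hω]
  have hleft : ∫ ω in D, f (y + b t ω) ∂P = ∫ ω, Θ (X ω) (Y ω) ∂P := by
    rw [← integral_indicator hDm]
    congr 1
    funext ω
    simp only [Θ, X, Y, hone]
    by_cases hω : ω ∈ D
    · simp only [hω, indicator_of_mem, one_mul]
      congr 1
      simp only [sh]
      rw [show s + (t - s) = t by ring]
      ring
    · simp [hω]
  rw [hleft, hfub]
  -- the inner integral is small
  have hH0 : ∫ ω', f (sh b s (t - s) ω') ∂P = 0 := by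
    have h1 : ∫ ω', f (sh b s (t - s) ω') ∂P = ∫ z, f z ∂(P.map (sh b s (t - s))) := by
      rw [integral_map ((hb.shift hs0).meas _).aemeasurable hf.aestronglyMeasurable]
    rw [h1, hb.hasLaw_sh hs0 (by linarith)]
    have h2 : ∫ z, f z ∂(gaussianReal 0 (t - s).toNNReal) =
        ∫ z, f (-z) ∂(gaussianReal 0 (t - s).toNNReal) := by
      conv_lhs => rw [← neg_zero, ← gaussianReal_map_neg]
      rw [integral_map (by fun_prop) hf.aestronglyMeasurable]
    have h3 : ∫ z, f (-z) ∂(gaussianReal 0 (t - s).toNNReal) =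
        -∫ z, f z ∂(gaussianReal 0 (t - s).toNNReal) := by
      rw [← integral_neg]
      simp_rw [hodd]
    linarith
  have hbound : ∀ x, |∫ ω', f (x + sh b s (t - s) ω') ∂P| ≤ min C (L * |x|) := by
    intro x
    have hint : ∀ x, Integrable (fun ω' => f (x + sh b s (t - s) ω')) P := by
      intro x
      apply Integrable.of_bound (C := C)
      · exact (hf.comp (measurable_const.add ((hb.shift hs0).meas _))).aestronglyMeasurable
      · exact Eventually.of_forall fun ω' => hC _
    refine le_min ?_ ?_
    · calc |∫ ω', f (x + sh b s (t - s) ω') ∂P| ≤ ∫ ω', |f (x + sh b s (t - s) ω')| ∂P :=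
            abs_integral_le_integral_abs
        _ ≤ ∫ _, C ∂P := integral_mono (hint x).abs (integrable_const _) fun ω' => hC _
        _ = C := by simp
    · have h0 : ∫ ω', f (x + sh b s (t - s) ω') ∂P =
          ∫ ω', (f (x + sh b s (t - s) ω') - f (sh b s (t - s) ω')) ∂P := by
        rw [integral_sub (hint x) (by simpa using hint 0), hH0, sub_zero]
      rw [h0]
      calc |∫ ω', (f (x + sh b s (t - s) ω') - f (sh b s (t - s) ω')) ∂P|
          ≤ ∫ ω', |f (x + sh b s (t - s) ω') - f (sh b s (t - s) ω')| ∂P :=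
            abs_integral_le_integral_abs
        _ ≤ ∫ _, L * |x| ∂P := by
            apply integral_mono ((hint x).sub (by simpa using hint 0)).abs (integrable_const _)
            intro ω'
            have := hL (x + sh b s (t - s) ω') (sh b s (t - s) ω')
            simpa using this
        _ = L * |x| := by simp
  -- conclude
  have hosc_nonneg : ∀ ω, 0 ≤ osc b h n ω := fun ω => (abs_nonneg _).trans (le_osc b h hkn ω)
  have hgint : Integrable (fun ω => D.indicator (fun ω => min C (L * osc b h n ω)) ω) P := by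
    apply Integrable.of_bound (C := C)
    · exact (Measurable.indicator (measurable_const.min
        (measurable_const.mul (measurable_osc hb h n))) hDm).aestronglyMeasurable
    · refine Eventually.of_forall fun ω => ?_
      rw [Real.norm_eq_abs]
      by_cases hω : ω ∈ D
      · simp only [hω, indicator_of_mem]
        rw [abs_of_nonneg (le_min hC0 (mul_nonneg hL0 (hosc_nonneg ω)))]
        exact min_le_left _ _
      · simp [hω, hC0]
  calc |∫ ω, ∫ ω', Θ (X ω) (Y ω') ∂P ∂P| ≤ ∫ ω, |∫ ω', Θ (X ω) (Y ω') ∂P| ∂P :=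
        abs_integral_le_integral_abs
    _ ≤ ∫ ω, D.indicator (fun ω => min C (L * osc b h n ω)) ω ∂P := by
        apply integral_mono_of_nonneg (Eventually.of_forall fun ω => abs_nonneg _) hgint
        refine Eventually.of_forall fun ω => ?_
        simp only [Θ, X, Y, hone]
        rw [integral_const_mul]
        by_cases hω : ω ∈ D
        · simp only [hω, indicator_of_mem, one_mul]
          refine (hbound _).trans ?_
          refine min_le_min le_rfl (mul_le_mul_of_nonneg_left ?_ hL0)
          -- overshoot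
          have h1 : 0 < y + b (k * h) ω := hω.1 k le_rfl
          have h2 : y + b s ω ≤ 0 := by
            by_contra hcon
            push Not at hcon
            apply hω.2
            intro j hj
            rcases Nat.lt_or_ge k j with hlt | hge
            · have : j = k + 1 := le_antisymm hj hlt
              rw [this]
              push_cast
              exact hcon
            · exact hω.1 j hge
          have h3 : |y + b s ω| ≤ |b s ω - b (k * h) ω| := by
            rw [abs_of_nonpos h2, abs_of_nonpos (by linarith)]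
            linarith
          exact h3.trans (le_osc b h hkn ω)
        · simp [hω]
    _ = ∫ ω in D, min C (L * osc b h n ω) ∂P := integral_indicator hDm

/-- the discretised reflection principle -/
theorem refl_discrete (hb : NBM b P) {y h t C L : ℝ} (hy : 0 < y) (hh : 0 ≤ h) {n : ℕ}
    (hnt : (n : ℝ) * h ≤ t) {f : ℝ → ℝ} (hf : Measurable f) (hodd : ∀ x, f (-x) = -f x)
    (hC : ∀ x, |f x| ≤ C) (hL : ∀ x x', |f x - f x'| ≤ L * |x - x'|) (hL0 : 0 ≤ L) :
    |∫ ω, f (y + b t ω) ∂P - ∫ ω in Apos b y h n, f (y + b t ω) ∂P| ≤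
      ∫ ω, min C (L * osc b h n ω) ∂P := by
  have hP := hb.isProb
  have hC0 : 0 ≤ C := (abs_nonneg _).trans (hC 0)
  have hosc_nonneg : ∀ ω, 0 ≤ osc b h n ω := by
    intro ω
    unfold osc
    exact Real.iSup_nonneg fun k => abs_nonneg _
  have hfint : Integrable (fun ω => f (y + b t ω)) P := by
    apply Integrable.of_bound (C := C)
    · exact (hf.comp (measurable_const.add (hb.meas _))).aestronglyMeasurable
    · exact Eventually.of_forall fun ω' => hC _
  have hgint : Integrable (fun ω => min C (L * osc b h n ω)) P := by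
    apply Integrable.of_bound (C := C)
    · exact (measurable_const.min
        (measurable_const.mul (measurable_osc hb h n))).aestronglyMeasurable
    · refine Eventually.of_forall fun ω => ?_
      rw [Real.norm_eq_abs, abs_of_nonneg (le_min hC0 (mul_nonneg hL0 (hosc_nonneg ω)))]
      exact min_le_left _ _
  have hA0 : Apos b y h 0 = univ := by
    ext ω
    simp only [Apos, nonpos_iff_eq_zero, forall_eq, Nat.cast_zero, zero_mul, hb.zero, add_zero,
      Set.mem_ofPred_eq, mem_univ, iff_true]
    exact hy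
  have key : ∀ m ≤ n, |∫ ω, f (y + b t ω) ∂P - ∫ ω in Apos b y h m, f (y + b t ω) ∂P| ≤
      ∫ ω, min C (L * osc b h n ω) ∂P - ∫ ω in Apos b y h m, min C (L * osc b h n ω) ∂P := by
    intro m
    induction m with
    | zero => intro _; simp [hA0]
    | succ k ih =>
      intro hk
      have ih' := ih (Nat.le_of_succ_le hk)
      have hkn : k < n := hk
      have hstep := refl_step hb (y := y) (h := h) (t := t) hh hkn (by
        have : ((k : ℝ) + 1) ≤ n := by exact_mod_cast hk
        calc ((k : ℝ) + 1) * h ≤ n * h := by gcongr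
          _ ≤ t := hnt) hf hodd hC hL hL0
      have e1 : ∫ ω in Apos b y h k \ Apos b y h (k + 1), f (y + b t ω) ∂P =
          ∫ ω in Apos b y h k, f (y + b t ω) ∂P - ∫ ω in Apos b y h (k + 1), f (y + b t ω) ∂P :=
        setIntegral_sdiff (measurableSet_Apos hb y h _) hfint.integrableOn
          (Apos_succ_subset b y h k)
      have e2 : ∫ ω in Apos b y h k \ Apos b y h (k + 1), min C (L * osc b h n ω) ∂P =
          ∫ ω in Apos b y h k, min C (L * osc b h n ω) ∂P -
          ∫ ω in Apos b y h (k + 1), min C (L * osc b h n ω) ∂P :=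
        setIntegral_sdiff (measurableSet_Apos hb y h _) hgint.integrableOn
          (Apos_succ_subset b y h k)
      rw [e1, e2] at hstep
      calc |∫ ω, f (y + b t ω) ∂P - ∫ ω in Apos b y h (k + 1), f (y + b t ω) ∂P|
          = |(∫ ω, f (y + b t ω) ∂P - ∫ ω in Apos b y h k, f (y + b t ω) ∂P) +
            (∫ ω in Apos b y h k, f (y + b t ω) ∂P -
              ∫ ω in Apos b y h (k + 1), f (y + b t ω) ∂P)| := by congr 1; ring
        _ ≤ _ := abs_add_le _ _
        _ ≤ _ := add_le_add ih' hstep
        _ = _ := by ring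
  refine (key n le_rfl).trans ?_
  have : 0 ≤ ∫ ω in Apos b y h n, min C (L * osc b h n ω) ∂P :=
    integral_nonneg fun ω => le_min hC0 (mul_nonneg hL0 (hosc_nonneg ω))
  linarith

end Helper78.BW
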