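import Mathlib
import Pool.Agent.Helper78.BW.Refl

/-!
The reflection principle for Brownian motion.
-/

open MeasureTheory ProbabilityTheory Set Filter Topology
open scoped ENNReal NNReal

namespace Helper78.BW

variable {Ω : Type*} {mΩ : MeasurableSpace Ω} {P : Measure Ω} {b : ℝ → Ω → ℝ}

/-- positivity at all dyadic times -/
def Ady (b : ℝ → Ω → ℝ) (y t : ℝ) : Set Ω := ⋂ m : ℕ, Apos b y (t / 2 ^ m) (2 ^ m)

theorem osc_tendsto (hb : NBM b P) {t : ℝ} (ht : 0 ≤ t) (ω : Ω) :
    Tendsto (fun m : ℕ => osc b (t / 2 ^ m) (2 ^ m) ω) atTop (𝓝 0) := by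
  have huc := isCompact_Icc.uniformContinuousOn_of_continuous
    ((hb.cont ω).continuousOn (s := Icc 0 t))
  rw [Metric.uniformContinuousOn_iff] at huc
  rw [Metric.tendsto_atTop]
  intro ε hε
  obtain ⟨δ, hδ, hd⟩ := huc (ε / 2) (half_pos hε)
  have hlim : Tendsto (fun m : ℕ => t / (2 : ℝ) ^ m) atTop (𝓝 0) := by
    have := (tendsto_pow_atTop_nhds_zero_of_lt_one (by norm_num : (0 : ℝ) ≤ 1 / 2)
      (by norm_num)).const_mul t
    simpa [div_eq_mul_inv] using this
  obtain ⟨N, hN⟩ := (hlim.eventually (gt_mem_nhds hδ)).exists_forall_of_atTop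
  refine ⟨N, fun m hm => ?_⟩
  have hh : t / (2 : ℝ) ^ m < δ := hN m hm
  have hh0 : 0 ≤ t / (2 : ℝ) ^ m := by positivity
  have hle : osc b (t / 2 ^ m) (2 ^ m) ω ≤ ε / 2 := by
    unfold osc
    apply Real.iSup_le _ (by positivity)
    intro k
    have hk : ((k : ℕ) : ℝ) + 1 ≤ 2 ^ m := by
      have : (k : ℕ) + 1 ≤ 2 ^ m := k.2
      exact_mod_cast this
    have hmul : (2 : ℝ) ^ m * (t / 2 ^ m) = t := by field_simp
    have h1 : (((k : ℕ) : ℝ) + 1) * (t / 2 ^ m) ∈ Icc 0 t := by
      refine ⟨by positivity, ?_⟩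
      calc (((k : ℕ) : ℝ) + 1) * (t / 2 ^ m) ≤ 2 ^ m * (t / 2 ^ m) := by gcongr
        _ = t := hmul
    have h2 : ((k : ℕ) : ℝ) * (t / 2 ^ m) ∈ Icc 0 t := by
      refine ⟨by positivity, le_trans ?_ h1.2⟩
      nlinarith
    have := hd _ h1 _ h2 (by
      rw [Real.dist_eq]
      have e : (((k : ℕ) : ℝ) + 1) * (t / 2 ^ m) - ((k : ℕ) : ℝ) * (t / 2 ^ m) = t / 2 ^ m := by
        ring
      rw [e, abs_of_nonneg hh0]
      exact hh)
    rw [Real.dist_eq] at this
    exact this.le
  have hge : 0 ≤ osc b (t / 2 ^ m) (2 ^ m) ω := by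
    unfold osc
    exact Real.iSup_nonneg fun k => abs_nonneg _
  rw [Real.dist_eq, sub_zero, abs_of_nonneg hge]
  linarith

theorem Apos_antitone (b : ℝ → Ω → ℝ) (y t : ℝ) :
    Antitone fun m : ℕ => Apos b y (t / 2 ^ m) (2 ^ m) := by
  apply antitone_nat_of_succ_le
  intro m ω hω j hj
  have := hω (2 * j) (by rw [pow_succ]; omega)
  have e : ((2 * j : ℕ) : ℝ) * (t / 2 ^ (m + 1)) = j * (t / 2 ^ m) := by
    push_cast
    rw [pow_succ]
    field_simp
  rwa [e] at this

theorem refl_limit (hb : NBM b P) {y t C L : ℝ} (hy : 0 < y) (ht : 0 ≤ t) {f : ℝ → ℝ}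
    (hf : Measurable f) (hodd : ∀ x, f (-x) = -f x)
    (hC : ∀ x, |f x| ≤ C) (hL : ∀ x x', |f x - f x'| ≤ L * |x - x'|) (hL0 : 0 ≤ L) :
    ∫ ω in Ady b y t, f (y + b t ω) ∂P = ∫ ω, f (y + b t ω) ∂P := by
  have hP := hb.isProb
  have hC0 : 0 ≤ C := (abs_nonneg _).trans (hC 0)
  have hfint : Integrable (fun ω => f (y + b t ω)) P := by
    apply Integrable.of_bound (C := C)
    · exact (hf.comp (measurable_const.add (hb.meas _))).aestronglyMeasurable
    · exact Eventually.of_forall fun ω' => hC _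
  have h1 : Tendsto (fun m : ℕ => ∫ ω in Apos b y (t / 2 ^ m) (2 ^ m), f (y + b t ω) ∂P) atTop
      (𝓝 (∫ ω in Ady b y t, f (y + b t ω) ∂P)) :=
    tendsto_setIntegral_of_antitone (fun m => measurableSet_Apos hb _ _ _) (Apos_antitone b y t)
      ⟨0, hfint.integrableOn⟩
  have h2 : Tendsto (fun m : ℕ => ∫ ω, min C (L * osc b (t / 2 ^ m) (2 ^ m) ω) ∂P) atTop
      (𝓝 0) := by
    have h0 : (0 : ℝ) = ∫ ω, (0 : ℝ) ∂P := by simp
    rw [h0]
    apply tendsto_integral_of_dominated_convergence (fun _ => C)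
    · intro m
      exact (measurable_const.min
        (measurable_const.mul (measurable_osc hb _ _))).aestronglyMeasurable
    · exact integrable_const _
    · intro m
      refine Eventually.of_forall fun ω => ?_
      have hge : 0 ≤ osc b (t / 2 ^ m) (2 ^ m) ω := by
        unfold osc
        exact Real.iSup_nonneg fun k => abs_nonneg _
      rw [Real.norm_eq_abs, abs_of_nonneg (le_min hC0 (mul_nonneg hL0 hge))]
      exact min_le_left _ _
    · refine Eventually.of_forall fun ω => ?_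
      have h3 : Tendsto (fun m : ℕ => min C (L * osc b (t / 2 ^ m) (2 ^ m) ω)) atTop
          (𝓝 (min C (L * 0))) :=
        tendsto_const_nhds.min ((osc_tendsto hb ht ω).const_mul L)
      rwa [mul_zero, min_eq_right hC0] at h3
  have h3 : Tendsto (fun m : ℕ => ∫ ω in Apos b y (t / 2 ^ m) (2 ^ m), f (y + b t ω) ∂P) atTop
      (𝓝 (∫ ω, f (y + b t ω) ∂P)) := by
    rw [tendsto_iff_dist_tendsto_zero]
    apply squeeze_zero (fun _ => dist_nonneg) _ h2
    intro m
    rw [dist_comm, Real.dist_eq]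
    apply refl_discrete hb hy (by positivity) _ hf hodd hC hL hL0
    push_cast
    have : (2 : ℝ) ^ m * (t / 2 ^ m) = t := by field_simp
    exact this.le
  exact tendsto_nhds_unique h1 h3

/-- The event that `y + b` stays positive on `[0, t]`. -/
def Pos (b : ℝ → Ω → ℝ) (y t : ℝ) : Set Ω := {ω | 0 < y + mn (fun t => b t ω) 0 t}

theorem measurableSet_Pos (hb : NBM b P) (y : ℝ) {t : ℝ} (ht : 0 ≤ t) :
    MeasurableSet (Pos b y t) :=
  measurableSet_lt measurable_const
    (measurable_const.add (measurable_mn ht fun s _ => hb.meas s))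

theorem Pos_subset_Ady (hb : NBM b P) {y t : ℝ} (ht : 0 ≤ t) : Pos b y t ⊆ Ady b y t := by
  intro ω hω
  simp only [Ady, mem_iInter]
  intro m j hj
  have h1 : 0 < y + mn (fun t => b t ω) 0 t := hω
  have hmem : (j : ℝ) * (t / 2 ^ m) ∈ Icc 0 t := by
    have hjr : (j : ℝ) ≤ 2 ^ m := by exact_mod_cast hj
    refine ⟨by positivity, ?_⟩
    calc (j : ℝ) * (t / 2 ^ m) ≤ 2 ^ m * (t / 2 ^ m) := by gcongr
      _ = t := by field_simp
  have := mn_le (hb.cont ω) hmem
  linarith

theorem Ady_nonneg (hb : NBM b P) {y t : ℝ} (ht : 0 ≤ t) {ω : Ω} (hω : ω ∈ Ady b y t)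
    {s : ℝ} (hs : s ∈ Icc 0 t) : 0 ≤ y + b s ω := by
  simp only [Ady, mem_iInter] at hω
  rcases eq_or_lt_of_le ht with ht0 | ht0
  · have hs0 : s = 0 := le_antisymm (hs.2.trans ht0.symm.le) hs.1
    have := hω 0 0 (Nat.zero_le _)
    simp only [Nat.cast_zero, zero_mul] at this
    rw [hs0]
    exact this.le
  by_contra hcon
  push Not at hcon
  have hopen : IsOpen {s : ℝ | y + b s ω < 0} :=
    isOpen_lt (continuous_const.add (hb.cont ω)) continuous_const
  obtain ⟨η, hη, hball⟩ := Metric.isOpen_iff.1 hopen s hcon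
  have hlim : Tendsto (fun m : ℕ => t / (2 : ℝ) ^ m) atTop (𝓝 0) := by
    have := (tendsto_pow_atTop_nhds_zero_of_lt_one (by norm_num : (0 : ℝ) ≤ 1 / 2)
      (by norm_num)).const_mul t
    simpa [div_eq_mul_inv] using this
  obtain ⟨m, hm⟩ := (hlim.eventually (gt_mem_nhds hη)).exists
  have hh : 0 < t / (2 : ℝ) ^ m := by positivity
  set k : ℕ := ⌊s / (t / 2 ^ m)⌋₊ with hk
  have hk1 : (k : ℝ) * (t / 2 ^ m) ≤ s := by
    have := Nat.floor_le (div_nonneg hs.1 hh.le)
    rwa [le_div_iff₀ hh] at this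
  have hk2 : s < (k + 1) * (t / 2 ^ m) := by
    have := Nat.lt_floor_add_one (s / (t / 2 ^ m))
    rwa [div_lt_iff₀ hh] at this
  have hkm : k ≤ 2 ^ m := by
    have h1 : (k : ℝ) * (t / 2 ^ m) ≤ 2 ^ m * (t / 2 ^ m) := by
      have : (2 : ℝ) ^ m * (t / 2 ^ m) = t := by field_simp
      rw [this]
      exact hk1.trans hs.2
    have := le_of_mul_le_mul_right h1 hh
    exact_mod_cast this
  have h1 := hω m k hkm
  have h2 : (k : ℝ) * (t / 2 ^ m) ∈ Metric.ball s η := by
    rw [Metric.mem_ball, Real.dist_eq, abs_sub_comm, abs_of_nonneg (by linarith)]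
    have : ((k : ℝ) + 1) * (t / 2 ^ m) = k * (t / 2 ^ m) + t / 2 ^ m := by ring
    linarith
  have h3 := hball h2
  exact absurd h1 (not_lt.2 (le_of_lt h3))

theorem Ady_subset_Pos (hb : NBM b P) {y y' t : ℝ} (ht : 0 ≤ t) (hy : y' < y) :
    Ady b y' t ⊆ Pos b y t := by
  intro ω hω
  show 0 < y + mn (fun t => b t ω) 0 t
  have : -y' ≤ mn (fun t => b t ω) 0 t := by
    rw [le_mn_iff (hb.cont ω) ht]
    intro s hs
    have := Ady_nonneg hb ht hω hs
    linarith
  linarith

theorem refl_pos (hb : NBM b P) {y t C L : ℝ} (hy : 0 < y) (ht : 0 ≤ t) {f : ℝ → ℝ}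
    (hf : Measurable f) (hodd : ∀ x, f (-x) = -f x)
    (hC : ∀ x, |f x| ≤ C) (hL : ∀ x x', |f x - f x'| ≤ L * |x - x'|) (hL0 : 0 ≤ L)
    (hpos : ∀ x, 0 ≤ x → 0 ≤ f x) :
    ∫ ω in Pos b y t, f (y + b t ω) ∂P = ∫ ω, f (y + b t ω) ∂P := by
  have hP := hb.isProb
  have hC0 : 0 ≤ C := (abs_nonneg _).trans (hC 0)
  have hint : ∀ y, Integrable (fun ω => f (y + b t ω)) P := by
    intro y
    apply Integrable.of_bound (C := C)
    · exact (hf.comp (measurable_const.add (hb.meas _))).aestronglyMeasurable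
    · exact Eventually.of_forall fun ω' => hC _
  have htt : t ∈ Icc 0 t := ⟨ht, le_rfl⟩
  apply le_antisymm
  · rw [← refl_limit hb hy ht hf hodd hC hL hL0]
    apply setIntegral_mono_set (hint y).integrableOn
    · filter_upwards [ae_restrict_mem (MeasurableSet.iInter fun m =>
        measurableSet_Apos hb y (t / 2 ^ m) (2 ^ m))] with ω hω
      exact hpos _ (Ady_nonneg hb ht hω htt)
    · exact (Pos_subset_Ady hb ht).eventuallyLE
  · -- compare with `y' < y`
    have key : ∀ y' ∈ Ioo 0 y, ∫ ω, f (y + b t ω) ∂P - 2 * (L * (y - y')) ≤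
        ∫ ω in Pos b y t, f (y + b t ω) ∂P := by
      intro y' hy'
      have hAm : MeasurableSet (Ady b y' t) :=
        MeasurableSet.iInter fun m => measurableSet_Apos hb y' (t / 2 ^ m) (2 ^ m)
      have hd : 0 ≤ L * (y - y') := mul_nonneg hL0 (by linarith [hy'.2])
      have e1 : ∫ ω, f (y + b t ω) ∂P ≤ ∫ ω, f (y' + b t ω) ∂P + L * (y - y') := by
        have : ∫ ω, f (y + b t ω) ∂P ≤ ∫ ω, (f (y' + b t ω) + L * (y - y')) ∂P := by
          apply integral_mono (hint y) ((hint y').add (integrable_const _))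
          intro ω
          have h1 := hL (y + b t ω) (y' + b t ω)
          have e : y + b t ω - (y' + b t ω) = y - y' := by ring
          rw [e, abs_of_nonneg (by linarith [hy'.2] : 0 ≤ y - y')] at h1
          have := (abs_le.1 h1).2
          show f (y + b t ω) ≤ f (y' + b t ω) + L * (y - y')
          linarith
        rw [integral_add (hint y') (integrable_const _)] at this
        simpa using this
      have e2 : ∫ ω in Ady b y' t, f (y' + b t ω) ∂P ≤
          ∫ ω in Ady b y' t, f (y + b t ω) ∂P + L * (y - y') := by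
        have h2 : ∫ ω in Ady b y' t, f (y' + b t ω) ∂P ≤
            ∫ ω in Ady b y' t, (f (y + b t ω) + L * (y - y')) ∂P := by
          apply integral_mono (hint y').integrableOn
            ((hint y).integrableOn.add (integrable_const _))
          intro ω
          have h1 := hL (y + b t ω) (y' + b t ω)
          have e : y + b t ω - (y' + b t ω) = y - y' := by ring
          rw [e, abs_of_nonneg (by linarith [hy'.2] : 0 ≤ y - y')] at h1
          have := (abs_le.1 h1).1
          show f (y' + b t ω) ≤ f (y + b t ω) + L * (y - y')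
          linarith
        rw [integral_add (hint y).integrableOn (integrable_const _)] at h2
        refine h2.trans ?_
        have h3 : ∫ _ in Ady b y' t, L * (y - y') ∂P ≤ L * (y - y') := by
          rw [integral_const, smul_eq_mul]
          calc _ ≤ 1 * (L * (y - y')) := by
                apply mul_le_mul_of_nonneg_right _ hd
                simp only [measureReal_restrict_apply_univ]
                exact measureReal_le_one
            _ = _ := one_mul _
        linarith
      have e3 : ∫ ω in Ady b y' t, f (y + b t ω) ∂P ≤ ∫ ω in Pos b y t, f (y + b t ω) ∂P := by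
        apply setIntegral_mono_set (hint y).integrableOn
        · filter_upwards [ae_restrict_mem (measurableSet_Pos hb y ht)] with ω hω
          exact hpos _ (Ady_nonneg hb ht (Pos_subset_Ady hb ht hω) htt)
        · exact (Ady_subset_Pos hb ht hy'.2).eventuallyLE
      have e4 := refl_limit hb hy'.1 ht hf hodd hC hL hL0
      linarith
    apply le_of_forall_pos_le_add
    intro ε hε
    have hpos2 : 0 < 2 * (L + 1) := by linarith
    set d := min (y / 2) (ε / (2 * (L + 1))) with hd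
    have hd0 : 0 < d := lt_min (by linarith) (by positivity)
    have hdy : d ≤ y / 2 := min_le_left _ _
    have hde : d ≤ ε / (2 * (L + 1)) := min_le_right _ _
    have := key (y - d) ⟨by linarith, by linarith⟩
    have h5 : 2 * (L * (y - (y - d))) ≤ ε := by
      have : y - (y - d) = d := by ring
      rw [this]
      have h6 : d * (2 * (L + 1)) ≤ ε := by rwa [le_div_iff₀ hpos2] at hde
      nlinarith
    linarith

/-- The truncated odd approximation of `1_{x > a} - 1_{x < -a}`. -/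
noncomputable def fap (a : ℝ) (n : ℕ) (x : ℝ) : ℝ :=
  max 0 (min 1 (n * (x - a))) - max 0 (min 1 (n * (-x - a)))

theorem fap_odd (a : ℝ) (n : ℕ) (x : ℝ) : fap a n (-x) = -fap a n x := by
  unfold fap
  rw [neg_neg]
  ring

theorem clampMem (x : ℝ) : max 0 (min 1 x) ∈ Icc (0 : ℝ) 1 :=
  ⟨le_max_left _ _, max_le zero_le_one (min_le_left _ _)⟩

theorem clampLip (x x' : ℝ) : |max 0 (min 1 x) - max 0 (min 1 x')| ≤ |x - x'| := by
  calc |max 0 (min 1 x) - max 0 (min 1 x')| ≤ |min 1 x - min 1 x'| := by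
        rw [max_comm 0, max_comm 0]
        exact abs_max_sub_max_le_abs _ _ _
    _ ≤ |x - x'| := by
        have := abs_min_sub_min_le_max 1 x 1 x'
        simpa using this

theorem fap_bound (a : ℝ) (n : ℕ) (x : ℝ) : |fap a n x| ≤ 1 := by
  unfold fap
  obtain ⟨h1, h2⟩ := clampMem (n * (x - a))
  obtain ⟨h3, h4⟩ := clampMem (n * (-x - a))
  rw [abs_le]
  constructor <;> linarith

theorem fap_lip (a : ℝ) (n : ℕ) (x x' : ℝ) : |fap a n x - fap a n x'| ≤ (2 * n) * |x - x'| := by
  unfold fap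
  have h1 := clampLip (n * (x - a)) (n * (x' - a))
  have h2 := clampLip (n * (-x - a)) (n * (-x' - a))
  have e1 : |(n : ℝ) * (x - a) - n * (x' - a)| = n * |x - x'| := by
    rw [← mul_sub, abs_mul, Nat.abs_cast]
    congr 2
    ring
  have e2 : |(n : ℝ) * (-x - a) - n * (-x' - a)| = n * |x - x'| := by
    rw [← mul_sub, abs_mul, Nat.abs_cast, abs_sub_comm x x']
    congr 2
    ring
  rw [e1] at h1
  rw [e2] at h2
  rw [abs_le] at h1 h2 ⊢
  constructor <;> linarith [h1.1, h1.2, h2.1, h2.2]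

theorem measurable_fap (a : ℝ) (n : ℕ) : Measurable (fap a n) := by
  unfold fap
  fun_prop

theorem fap_nonneg {a : ℝ} (ha : 0 ≤ a) (n : ℕ) {x : ℝ} (hx : 0 ≤ x) : 0 ≤ fap a n x := by
  unfold fap
  have hn : (0 : ℝ) ≤ n := Nat.cast_nonneg n
  have h1 : (n : ℝ) * (-x - a) ≤ 0 := mul_nonpos_of_nonneg_of_nonpos hn (by linarith)
  have h2 : max 0 (min 1 ((n : ℝ) * (-x - a))) = 0 :=
    max_eq_left ((min_le_right _ _).trans h1)
  rw [h2, sub_zero]
  exact le_max_left _ _

theorem clamp_tendsto_pos {x : ℝ} (hx : 0 < x) :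
    Tendsto (fun n : ℕ => max 0 (min 1 ((n : ℝ) * x))) atTop (𝓝 1) := by
  apply tendsto_const_nhds.congr'
  obtain ⟨N, hN⟩ := exists_nat_gt (1 / x)
  filter_upwards [eventually_ge_atTop N] with n hn
  have h1 : (1 : ℝ) / x < n := hN.trans_le (by exact_mod_cast hn)
  rw [div_lt_iff₀ hx] at h1
  rw [min_eq_left h1.le, max_eq_right zero_le_one]

theorem clamp_nonpos {x : ℝ} (hx : x ≤ 0) (n : ℕ) : max 0 (min 1 ((n : ℝ) * x)) = 0 :=
  max_eq_left ((min_le_right _ _).trans
    (mul_nonpos_of_nonneg_of_nonpos (Nat.cast_nonneg n) hx))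

theorem fap_tendsto {a : ℝ} (x : ℝ) :
    Tendsto (fun n : ℕ => fap a n x) atTop
      (𝓝 ((Ioi a).indicator (fun _ => (1 : ℝ)) x - (Ioi a).indicator (fun _ => (1 : ℝ)) (-x))) := by
  have key : ∀ x, Tendsto (fun n : ℕ => max 0 (min 1 ((n : ℝ) * (x - a)))) atTop
      (𝓝 ((Ioi a).indicator (fun _ => (1 : ℝ)) x)) := by
    intro x
    by_cases h : a < x
    · rw [indicator_of_mem (show x ∈ Ioi a from h)]
      exact clamp_tendsto_pos (by linarith)
    · rw [indicator_of_notMem (show x ∉ Ioi a from h)]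
      apply tendsto_const_nhds.congr
      intro n
      exact (clamp_nonpos (by linarith) n).symm
  exact (key x).sub (key (-x))

theorem refl_Ioi (hb : NBM b P) {y t a : ℝ} (hy : 0 < y) (ht : 0 ≤ t) (ha : 0 ≤ a) :
    ∫ ω in Pos b y t, (Ioi a).indicator (fun _ => (1 : ℝ)) (y + b t ω) ∂P =
      ∫ ω, ((Ioi a).indicator (fun _ => (1 : ℝ)) (y + b t ω) -
        (Ioi a).indicator (fun _ => (1 : ℝ)) (-(y + b t ω))) ∂P := by
  have hP := hb.isProb
  have hm : Measurable fun ω => y + b t ω := measurable_const.add (hb.meas _)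
  have hlim : ∀ μ : Measure Ω, IsFiniteMeasure μ →
      Tendsto (fun n : ℕ => ∫ ω, fap a n (y + b t ω) ∂μ) atTop
      (𝓝 (∫ ω, ((Ioi a).indicator (fun _ => (1 : ℝ)) (y + b t ω) -
        (Ioi a).indicator (fun _ => (1 : ℝ)) (-(y + b t ω))) ∂μ)) := by
    intro μ hμ
    apply tendsto_integral_of_dominated_convergence (fun _ => 1)
    · intro n
      exact ((measurable_fap a n).comp hm).aestronglyMeasurable
    · exact integrable_const _
    · intro n
      exact Eventually.of_forall fun ω => fap_bound a n _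
    · exact Eventually.of_forall fun ω => fap_tendsto _
  have h1 := hlim (P.restrict (Pos b y t)) inferInstance
  have h2 := hlim P inferInstance
  have h3 : ∀ n : ℕ, ∫ ω in Pos b y t, fap a n (y + b t ω) ∂P = ∫ ω, fap a n (y + b t ω) ∂P :=
    fun n => refl_pos hb hy ht (measurable_fap a n) (fap_odd a n) (fap_bound a n) (fap_lip a n)
      (by positivity) (fun x hx => fap_nonneg ha n hx)
  simp_rw [h3] at h1
  rw [← tendsto_nhds_unique h1 h2]
  apply setIntegral_congr_fun (measurableSet_Pos hb y ht)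
  intro ω hω
  have h4 : 0 ≤ y + b t ω := Ady_nonneg hb ht (Pos_subset_Ady hb ht hω) ⟨ht, le_rfl⟩
  have h5 : -(y + b t ω) ∉ Ioi a := by
    simp only [mem_Ioi, not_lt]
    linarith
  show _ = _ - _
  rw [indicator_of_notMem h5, sub_zero]

end Helper78.BW
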