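import Mathlib
import Pool.Agent.Helper78.BW.Refl2

/-!
The law of Brownian motion killed at zero.
-/

open MeasureTheory ProbabilityTheory Set Filter Topology
open scoped ENNReal NNReal

namespace Helper78.BW

variable {Ω : Type*} {mΩ : MeasurableSpace Ω} {P : Measure Ω} {b : ℝ → Ω → ℝ}

theorem NBM.map_add (hb : NBM b P) (y : ℝ) {t : ℝ} (ht : 0 ≤ t) :
    P.map (fun ω => y + b t ω) = gaussianReal y t.toNNReal := by
  have h : (P.map (b t)).map (fun x => y + x) = P.map (fun ω => y + b t ω) := by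
    rw [Measure.map_map (by fun_prop) (hb.meas t)]
    rfl
  rw [← h, hb.hasLaw ht, gaussianReal_map_const_add, zero_add]

theorem NBM.map_neg_add (hb : NBM b P) (y : ℝ) {t : ℝ} (ht : 0 ≤ t) :
    P.map (fun ω => -(y + b t ω)) = gaussianReal (-y) t.toNNReal := by
  have hm : Measurable fun ω => y + b t ω := measurable_const.add (hb.meas _)
  have h : (P.map (fun ω => y + b t ω)).map (fun x => -x) = P.map (fun ω => -(y + b t ω)) := by
    rw [Measure.map_map (by fun_prop) hm]
    rfl
  rw [← h, hb.map_add y ht, gaussianReal_map_neg]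

theorem refl_measure (hb : NBM b P) {y t : ℝ} (hy : 0 < y) (ht : 0 ≤ t) :
    (P.restrict (Pos b y t)).map (fun ω => y + b t ω) +
      (gaussianReal (-y) t.toNNReal).restrict (Ioi 0) =
      (gaussianReal y t.toNNReal).restrict (Ioi 0) := by
  have hP := hb.isProb
  have hm : Measurable fun ω => y + b t ω := measurable_const.add (hb.meas _)
  have hmn : Measurable fun ω => -(y + b t ω) := hm.neg
  set μ := (P.restrict (Pos b y t)).map (fun ω => y + b t ω) with hμ
  set G1 := (gaussianReal (-y) t.toNNReal).restrict (Ioi 0) with hG1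
  set G2 := (gaussianReal y t.toNNReal).restrict (Ioi 0) with hG2
  have hμf : IsFiniteMeasure μ := by rw [hμ]; infer_instance
  -- supports
  have hsupp : ∀ a, μ (Ioi a) = μ (Ioi (max a 0)) := by
    intro a
    rw [hμ, Measure.map_apply hm measurableSet_Ioi, Measure.map_apply hm measurableSet_Ioi,
      Measure.restrict_apply (hm measurableSet_Ioi), Measure.restrict_apply (hm measurableSet_Ioi)]
    congr 1
    ext ω
    simp only [mem_inter_iff, mem_preimage, mem_Ioi, sup_lt_iff]
    constructor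
    · rintro ⟨h1, h2⟩
      refine ⟨⟨h1, ?_⟩, h2⟩
      have h3 : 0 < y + mn (fun t => b t ω) 0 t := h2
      have := mn_le (hb.cont ω) (show t ∈ Icc 0 t from ⟨ht, le_rfl⟩)
      linarith
    · rintro ⟨⟨h1, _⟩, h2⟩
      exact ⟨h1, h2⟩
  have hsuppG : ∀ (G : Measure ℝ) (a : ℝ), (G.restrict (Ioi 0)) (Ioi a) =
      (G.restrict (Ioi 0)) (Ioi (max a 0)) := by
    intro G a
    rw [Measure.restrict_apply measurableSet_Ioi, Measure.restrict_apply measurableSet_Ioi,
      Ioi_inter_Ioi, Ioi_inter_Ioi]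
    congr 2
    simp
  have hkey : ∀ a, 0 ≤ a → μ (Ioi a) + G1 (Ioi a) = G2 (Ioi a) := by
    intro a ha
    have h := refl_Ioi hb hy ht ha
    have hG1a : G1 (Ioi a) = P ((fun ω => -(y + b t ω)) ⁻¹' Ioi a) := by
      rw [hG1, Measure.restrict_apply measurableSet_Ioi, Ioi_inter_Ioi, max_eq_left ha,
        ← hb.map_neg_add y ht, Measure.map_apply hmn measurableSet_Ioi]
    have hG2a : G2 (Ioi a) = P ((fun ω => y + b t ω) ⁻¹' Ioi a) := by
      rw [hG2, Measure.restrict_apply measurableSet_Ioi, Ioi_inter_Ioi, max_eq_left ha,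
        ← hb.map_add y ht, Measure.map_apply hm measurableSet_Ioi]
    have hμa : μ (Ioi a) = P.restrict (Pos b y t) ((fun ω => y + b t ω) ⁻¹' Ioi a) := by
      rw [hμ, Measure.map_apply hm measurableSet_Ioi]
    have i1 : ∫ ω in Pos b y t, (Ioi a).indicator (fun _ => (1 : ℝ)) (y + b t ω) ∂P =
        (μ (Ioi a)).toReal := by
      rw [hμa]
      have : (fun ω => (Ioi a).indicator (fun _ => (1 : ℝ)) (y + b t ω)) =
          ((fun ω => y + b t ω) ⁻¹' Ioi a).indicator (fun _ => (1 : ℝ)) := rfl
      rw [this, integral_indicator (hm measurableSet_Ioi)]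
      simp [Measure.real]
    have i2 : ∫ ω, (Ioi a).indicator (fun _ => (1 : ℝ)) (y + b t ω) ∂P =
        (G2 (Ioi a)).toReal := by
      rw [hG2a]
      have : (fun ω => (Ioi a).indicator (fun _ => (1 : ℝ)) (y + b t ω)) =
          ((fun ω => y + b t ω) ⁻¹' Ioi a).indicator (fun _ => (1 : ℝ)) := rfl
      rw [this, integral_indicator (hm measurableSet_Ioi)]
      simp [Measure.real]
    have i3 : ∫ ω, (Ioi a).indicator (fun _ => (1 : ℝ)) (-(y + b t ω)) ∂P =
        (G1 (Ioi a)).toReal := by
      rw [hG1a]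
      have : (fun ω => (Ioi a).indicator (fun _ => (1 : ℝ)) (-(y + b t ω))) =
          ((fun ω => -(y + b t ω)) ⁻¹' Ioi a).indicator (fun _ => (1 : ℝ)) := rfl
      rw [this, integral_indicator (hmn measurableSet_Ioi)]
      simp [Measure.real]
    have hint : ∀ {g : Ω → ℝ}, Measurable g →
        Integrable (fun ω => (Ioi a).indicator (fun _ => (1 : ℝ)) (g ω)) P := by
      intro g hg
      apply Integrable.of_bound (C := 1)
      · exact ((measurable_const.indicator measurableSet_Ioi).comp hg).aestronglyMeasurable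
      · refine Eventually.of_forall fun ω => ?_
        by_cases h : g ω ∈ Ioi a <;> simp [h]
    rw [integral_sub (hint hm) (hint hmn), i1, i2, i3] at h
    have hf1 : μ (Ioi a) ≠ ⊤ := measure_ne_top _ _
    have hf2 : G1 (Ioi a) ≠ ⊤ := measure_ne_top _ _
    have hf3 : G2 (Ioi a) ≠ ⊤ := measure_ne_top _ _
    rw [← ENNReal.toReal_eq_toReal_iff' (ENNReal.add_ne_top.2 ⟨hf1, hf2⟩) hf3,
      ENNReal.toReal_add hf1 hf2]
    linarith
  have hall : ∀ a, (μ + G1) (Ioi a) = G2 (Ioi a) := by
    intro a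
    rw [Measure.add_apply, hsupp a, hG1, hsuppG _ a, hG2, hsuppG _ a]
    exact hkey _ (le_max_right _ _)
  -- total mass
  have huniv : (μ + G1) univ = G2 univ := by
    have e1 : ⋃ n : ℕ, Ioi (-(n : ℝ)) = univ := by
      rw [eq_univ_iff_forall]
      intro x
      obtain ⟨n, hn⟩ := exists_nat_gt (-x)
      exact mem_iUnion.2 ⟨n, by rw [mem_Ioi]; linarith⟩
    have e2 : Monotone fun n : ℕ => Ioi (-(n : ℝ)) := by
      intro m n hmn
      apply Ioi_subset_Ioi
      have : (m : ℝ) ≤ n := by exact_mod_cast hmn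
      linarith
    rw [← e1, e2.measure_iUnion, e2.measure_iUnion]
    congr 1
    funext n
    exact hall _
  apply Measure.ext_of_Iic
  intro a
  have h1 : (μ + G1) (Iic a) = (μ + G1) univ - (μ + G1) (Ioi a) := by
    rw [← compl_Ioi, measure_compl measurableSet_Ioi (measure_ne_top _ _)]
  have h2 : G2 (Iic a) = G2 univ - G2 (Ioi a) := by
    rw [← compl_Ioi, measure_compl measurableSet_Ioi (measure_ne_top _ _)]
  rw [h1, h2, huniv, hall]

/-- the density of the killed kernel -/
noncomputable def kd (t y x : ℝ) : ℝ :=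
  gaussianPDFReal y t.toNNReal x - gaussianPDFReal (-y) t.toNNReal x

/-- the killed kernel -/
noncomputable def Kt (t : ℝ) (φ : ℝ → ℝ≥0∞) (y : ℝ) : ℝ≥0∞ :=
  ∫⁻ x in Ioi 0, φ x * ENNReal.ofReal (kd t y x)

theorem kd_nonneg {t y x : ℝ} (hy : 0 ≤ y) (hx : 0 ≤ x) : 0 ≤ kd t y x := by
  unfold kd gaussianPDFReal
  rw [← mul_sub]
  apply mul_nonneg (by positivity)
  rw [sub_nonneg]
  apply Real.exp_le_exp.2
  have h : (x - y) ^ 2 ≤ (x - -y) ^ 2 := by nlinarith [mul_nonneg hy hx]
  have h0 : (0 : ℝ) ≤ 2 * (t.toNNReal : ℝ) := by positivity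
  rw [neg_div, neg_div]
  apply neg_le_neg
  exact div_le_div_of_nonneg_right h h0

theorem measurable_kd (t : ℝ) : Measurable (fun p : ℝ × ℝ => kd t p.1 p.2) := by
  have h1 : Measurable fun p : ℝ × ℝ => gaussianPDFReal p.1 t.toNNReal p.2 := by
    unfold gaussianPDFReal
    fun_prop
  have h2 : Measurable fun p : ℝ × ℝ => gaussianPDFReal (-p.1) t.toNNReal p.2 := by
    unfold gaussianPDFReal
    fun_prop
  exact h1.sub h2

theorem measurable_kd_right (t y : ℝ) : Measurable (kd t y) := by
  unfold kd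
  exact (measurable_gaussianPDFReal _ _).sub (measurable_gaussianPDFReal _ _)

theorem measurable_Kt (t : ℝ) {φ : ℝ → ℝ≥0∞} (hφ : Measurable φ) : Measurable (Kt t φ) := by
  unfold Kt
  apply Measurable.lintegral_prod_right'
    (f := fun p : ℝ × ℝ => φ p.2 * ENNReal.ofReal (kd t p.1 p.2))
  exact (hφ.comp measurable_snd).mul (measurable_kd t).ennreal_ofReal

/-- The reflection principle: law of Brownian motion killed at zero. -/
theorem lemmaB (hb : NBM b P) {y t : ℝ} (hy : 0 < y) (ht : 0 < t) {φ : ℝ → ℝ≥0∞}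
    (hφ : Measurable φ) :
    ∫⁻ ω in Pos b y t, φ (y + b t ω) ∂P = Kt t φ y := by
  have hP := hb.isProb
  have hm : Measurable fun ω => y + b t ω := measurable_const.add (hb.meas _)
  have hv : t.toNNReal ≠ 0 := by simpa using ht
  set μ := (P.restrict (Pos b y t)).map (fun ω => y + b t ω) with hμ
  set ν : Measure ℝ := (volume.restrict (Ioi 0)).withDensity
    (fun x => ENNReal.ofReal (kd t y x)) with hν
  have h1 := refl_measure hb hy ht.le
  rw [← hμ] at h1
  have h2 : ν + (gaussianReal (-y) t.toNNReal).restrict (Ioi 0) =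
      (gaussianReal y t.toNNReal).restrict (Ioi 0) := by
    rw [gaussianReal_of_var_ne_zero _ hv, gaussianReal_of_var_ne_zero _ hv,
      restrict_withDensity measurableSet_Ioi, restrict_withDensity measurableSet_Ioi, hν,
      ← withDensity_add_left (measurable_kd_right t y).ennreal_ofReal]
    apply withDensity_congr_ae
    filter_upwards [ae_restrict_mem measurableSet_Ioi] with x hx
    simp only [Pi.add_apply, gaussianPDF]
    rw [← ENNReal.ofReal_add (kd_nonneg hy.le (le_of_lt hx)) (gaussianPDFReal_nonneg _ _ _)]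
    congr 1
    unfold kd
    ring
  have hμν : μ = ν := by
    ext s hs
    have e1 := congrArg (fun m : Measure ℝ => m s) (h1.trans h2.symm)
    simp only [Measure.add_apply] at e1
    exact (ENNReal.add_left_inj (measure_ne_top _ _)).1 e1
  have h3 : ∫⁻ ω in Pos b y t, φ (y + b t ω) ∂P = ∫⁻ x, φ x ∂μ := by
    rw [hμ, lintegral_map hφ hm]
  rw [h3, hμν, hν, lintegral_withDensity_eq_lintegral_mul _
    (measurable_kd_right t y).ennreal_ofReal hφ]
  unfold Kt
  apply lintegral_congr
  intro x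
  simp only [Pi.mul_apply]
  rw [mul_comm]

end Helper78.BW
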