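import Mathlib
import Pool.Agent.Helper78.BW.Refl3

/-!
The radial part of a three-dimensional Gaussian vector.
-/

open MeasureTheory ProbabilityTheory Set Filter Topology
open scoped ENNReal NNReal Real

namespace Helper78.BW

theorem polar_radial (h : ℝ → ℝ≥0∞) (hh : Measurable h) :
    ∫⁻ p : ℝ × ℝ, h (p.1 ^ 2 + p.2 ^ 2) = ENNReal.ofReal π * ∫⁻ q in Ioi 0, h q := by
  rw [← lintegral_comp_polarCoord_symm]
  have h1 : ∀ p : ℝ × ℝ, (polarCoord.symm p).1 ^ 2 + (polarCoord.symm p).2 ^ 2 = p.1 ^ 2 := by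
    intro p
    simp only [polarCoord_symm_apply]
    have := Real.cos_sq_add_sin_sq p.2
    nlinarith
  simp only [h1, polarCoord_target, smul_eq_mul]
  rw [Measure.volume_eq_prod, ← Measure.prod_restrict, lintegral_prod _ (by fun_prop)]
  have h2 : ∀ r : ℝ, ∫⁻ _ in Ioo (-π) π, ENNReal.ofReal r * h (r ^ 2) =
      ENNReal.ofReal π * (ENNReal.ofReal (|2 * r|) * h (r ^ 2)) ∨ r ≤ 0 := by
    intro r
    rcases le_or_gt r 0 with hr | hr
    · right; exact hr
    · left
      rw [lintegral_const, Measure.restrict_apply_univ, Real.volume_Ioo,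
        abs_of_pos (by positivity), ENNReal.ofReal_mul (by norm_num : (0 : ℝ) ≤ 2)]
      have : π - -π = 2 * π := by ring
      rw [this, ENNReal.ofReal_mul (by norm_num : (0 : ℝ) ≤ 2)]
      ring
  have h3 : ∫⁻ r in Ioi (0 : ℝ), ∫⁻ _ in Ioo (-π) π, ENNReal.ofReal r * h (r ^ 2) =
      ∫⁻ r in Ioi (0 : ℝ), ENNReal.ofReal π * (ENNReal.ofReal (|2 * r|) * h (r ^ 2)) := by
    apply setLIntegral_congr_fun measurableSet_Ioi
    intro r hr
    rcases h2 r with h | h
    · exact h
    · exact absurd hr (not_lt.2 h)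
  rw [h3, lintegral_const_mul' _ _ ENNReal.ofReal_ne_top]
  congr 1
  have himg : (fun r : ℝ => r ^ 2) '' Ioi 0 = Ioi 0 := by
    ext q
    simp only [mem_image, mem_Ioi]
    constructor
    · rintro ⟨r, hr, rfl⟩
      positivity
    · intro hq
      exact ⟨√q, Real.sqrt_pos.2 hq, Real.sq_sqrt hq.le⟩
  conv_rhs => rw [← himg]
  rw [lintegral_image_eq_lintegral_abs_deriv_mul (f := fun r : ℝ => r ^ 2)
    (f' := fun r => 2 * r) measurableSet_Ioi]
  · intro x _
    have := (hasDerivAt_pow 2 x).hasDerivWithinAt (s := Ioi 0)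
    simpa using this
  · intro a ha b hb hab
    simp only at hab
    have := (sq_eq_sq₀ (le_of_lt ha) (le_of_lt hb)).1 hab
    exact this

/-- The density of the squared norm of a two-dimensional Gaussian vector. -/
theorem lint_gauss2 {t : ℝ} (ht : 0 < t) (h : ℝ → ℝ≥0∞) (hh : Measurable h) :
    ∫⁻ p, h (p.1 ^ 2 + p.2 ^ 2) ∂((gaussianReal 0 t.toNNReal).prod (gaussianReal 0 t.toNNReal)) =
      ∫⁻ q in Ioi 0, ENNReal.ofReal (1 / (2 * t) * Real.exp (-q / (2 * t))) * h q := by
  have hv : t.toNNReal ≠ 0 := by simpa using ht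
  rw [gaussianReal_of_var_ne_zero _ hv, prod_withDensity (measurable_gaussianPDF _ _)
    (measurable_gaussianPDF _ _), lintegral_withDensity_eq_lintegral_mul _ (by fun_prop)
    (by fun_prop), ← Measure.volume_eq_prod]
  have h1 : ∀ p : ℝ × ℝ, gaussianPDF 0 t.toNNReal p.1 * gaussianPDF 0 t.toNNReal p.2 =
      ENNReal.ofReal ((2 * π * t)⁻¹ * Real.exp (-(p.1 ^ 2 + p.2 ^ 2) / (2 * t))) := by
    intro p
    unfold gaussianPDF
    rw [← ENNReal.ofReal_mul (gaussianPDFReal_nonneg _ _ _)]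
    congr 1
    unfold gaussianPDFReal
    rw [Real.coe_toNNReal t ht.le]
    have e1 : (√(2 * π * t))⁻¹ * (√(2 * π * t))⁻¹ = (2 * π * t)⁻¹ := by
      rw [← mul_inv, Real.mul_self_sqrt (by positivity)]
    have e2 : Real.exp (-(p.1 - 0) ^ 2 / (2 * t)) * Real.exp (-(p.2 - 0) ^ 2 / (2 * t)) =
        Real.exp (-(p.1 ^ 2 + p.2 ^ 2) / (2 * t)) := by
      rw [← Real.exp_add]
      congr 1
      ring
    rw [← e1, ← e2]
    ring
  simp only [Pi.mul_apply, h1]
  rw [polar_radial (fun q => ENNReal.ofReal ((2 * π * t)⁻¹ * Real.exp (-q / (2 * t))) * h q)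
    (by fun_prop), ← lintegral_const_mul' _ _ ENNReal.ofReal_ne_top]
  apply lintegral_congr
  intro q
  rw [← mul_assoc, ← ENNReal.ofReal_mul Real.pi_nonneg]
  congr 2
  field_simp

theorem lint_gauss2_shift {t : ℝ} (ht : 0 < t) (x : ℝ) {ψ : ℝ → ℝ≥0∞} (hψ : Measurable ψ) :
    ∫⁻ p, ψ (√(x ^ 2 + (p.1 ^ 2 + p.2 ^ 2)))
      ∂((gaussianReal 0 t.toNNReal).prod (gaussianReal 0 t.toNNReal)) =
      ∫⁻ r in Ioi |x|, ENNReal.ofReal (r / t * Real.exp (-(r ^ 2 - x ^ 2) / (2 * t))) * ψ r := by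
  rw [lint_gauss2 ht (fun q => ψ (√(x ^ 2 + q))) (by fun_prop)]
  have himg : (fun r : ℝ => r ^ 2 - x ^ 2) '' Ioi |x| = Ioi 0 := by
    ext q
    simp only [mem_image, mem_Ioi]
    constructor
    · rintro ⟨r, hr, rfl⟩
      have : x ^ 2 < r ^ 2 := sq_lt_sq.2 (hr.trans_le (le_abs_self r))
      linarith
    · intro hq
      refine ⟨√(x ^ 2 + q), ?_, ?_⟩
      · rw [← Real.sqrt_sq_eq_abs]
        exact Real.sqrt_lt_sqrt (sq_nonneg _) (by linarith)
      · rw [Real.sq_sqrt (by positivity)]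
        ring
  rw [← himg, lintegral_image_eq_lintegral_abs_deriv_mul (f := fun r : ℝ => r ^ 2 - x ^ 2)
    (f' := fun r => 2 * r) measurableSet_Ioi]
  · apply setLIntegral_congr_fun measurableSet_Ioi
    intro r hr
    have hr0 : 0 < r := (abs_nonneg x).trans_lt hr
    simp only
    have e : √(x ^ 2 + (r ^ 2 - x ^ 2)) = r := by
      rw [show x ^ 2 + (r ^ 2 - x ^ 2) = r ^ 2 by ring, Real.sqrt_sq hr0.le]
    rw [e, abs_of_pos (by positivity), ← mul_assoc, ← ENNReal.ofReal_mul (by positivity)]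
    congr 2
    field_simp
  · intro r _
    have := ((hasDerivAt_pow 2 r).sub_const (x ^ 2)).hasDerivWithinAt (s := Ioi |x|)
    simpa using this
  · intro a ha b hb hab
    simp only [sub_left_inj] at hab
    have ha0 : 0 ≤ a := (abs_nonneg x).trans (le_of_lt ha)
    have hb0 : 0 ≤ b := (abs_nonneg x).trans (le_of_lt hb)
    exact (sq_eq_sq₀ ha0 hb0).1 hab

/-- The density of the norm of a Gaussian vector in `ℝ³` centred at distance `y` from `0`. -/
noncomputable def rho (t y r : ℝ) : ℝ≥0∞ :=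
  ∫⁻ x in Ioo (-r) r, ENNReal.ofReal ((√(2 * π * t))⁻¹ * (r / t) *
    Real.exp (-(r ^ 2 + y ^ 2 - 2 * (x * y)) / (2 * t)))

theorem lint_gauss3 {t : ℝ} (ht : 0 < t) (y : ℝ) {ψ : ℝ → ℝ≥0∞} (hψ : Measurable ψ) :
    ∫⁻ x, ∫⁻ p, ψ (√((y + x) ^ 2 + (p.1 ^ 2 + p.2 ^ 2)))
      ∂((gaussianReal 0 t.toNNReal).prod (gaussianReal 0 t.toNNReal))
      ∂(gaussianReal 0 t.toNNReal) = ∫⁻ r in Ioi 0, ψ r * rho t y r := by
  have hv : t.toNNReal ≠ 0 := by simpa using ht
  let F : ℝ → ℝ≥0∞ := fun x => ∫⁻ r, (Ioi |x|).indicator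
    (fun r => ENNReal.ofReal (r / t * Real.exp (-(r ^ 2 - x ^ 2) / (2 * t))) * ψ r) r
  have hset : MeasurableSet {q : ℝ × ℝ | |q.1| < q.2} :=
    measurableSet_lt (by fun_prop) (by fun_prop)
  have hG : Measurable fun q : ℝ × ℝ => (Ioi |q.1|).indicator
      (fun r => ENNReal.ofReal (r / t * Real.exp (-(r ^ 2 - q.1 ^ 2) / (2 * t))) * ψ r) q.2 := by
    have : (fun q : ℝ × ℝ => (Ioi |q.1|).indicator
      (fun r => ENNReal.ofReal (r / t * Real.exp (-(r ^ 2 - q.1 ^ 2) / (2 * t))) * ψ r) q.2) =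
      {q : ℝ × ℝ | |q.1| < q.2}.indicator (fun q =>
        ENNReal.ofReal (q.2 / t * Real.exp (-(q.2 ^ 2 - q.1 ^ 2) / (2 * t))) * ψ q.2) := by
      funext q
      by_cases hq : |q.1| < q.2
      · rw [indicator_of_mem (show q.2 ∈ Ioi |q.1| from hq), indicator_of_mem]
        exact hq
      · rw [indicator_of_notMem (show q.2 ∉ Ioi |q.1| from hq), indicator_of_notMem]
        exact hq
    rw [this]
    exact Measurable.indicator (by fun_prop) hset
  have hF : Measurable F := hG.lintegral_prod_right'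
  have e1 : ∀ x, ∫⁻ p, ψ (√((y + x) ^ 2 + (p.1 ^ 2 + p.2 ^ 2)))
      ∂((gaussianReal 0 t.toNNReal).prod (gaussianReal 0 t.toNNReal)) = F (y + x) := by
    intro x
    rw [lint_gauss2_shift ht _ hψ, ← lintegral_indicator measurableSet_Ioi]
  simp_rw [e1]
  have e2 : ∫⁻ x, F (y + x) ∂(gaussianReal 0 t.toNNReal) =
      ∫⁻ x, F x ∂(gaussianReal y t.toNNReal) := by
    have : gaussianReal y t.toNNReal = (gaussianReal 0 t.toNNReal).map (fun x => y + x) := by
      rw [gaussianReal_map_const_add, zero_add]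
    rw [this, lintegral_map hF (by fun_prop)]
  rw [e2, gaussianReal_of_var_ne_zero _ hv, lintegral_withDensity_eq_lintegral_mul _
    (measurable_gaussianPDF _ _) hF]
  simp only [Pi.mul_apply, F]
  have e3 : ∀ x : ℝ, gaussianPDF y t.toNNReal x * ∫⁻ r, (Ioi |x|).indicator
      (fun r => ENNReal.ofReal (r / t * Real.exp (-(r ^ 2 - x ^ 2) / (2 * t))) * ψ r) r =
      ∫⁻ r, gaussianPDF y t.toNNReal x * (Ioi |x|).indicator
      (fun r => ENNReal.ofReal (r / t * Real.exp (-(r ^ 2 - x ^ 2) / (2 * t))) * ψ r) r := by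
    intro x
    rw [lintegral_const_mul' _ _ gaussianPDF_ne_top]
  simp_rw [e3]
  rw [lintegral_lintegral_swap]
  · rw [← lintegral_indicator measurableSet_Ioi]
    apply lintegral_congr
    intro r
    by_cases hr : 0 < r
    · rw [indicator_of_mem (show r ∈ Ioi 0 from hr)]
      unfold rho
      rw [← lintegral_const_mul _ (by fun_prop), ← lintegral_indicator measurableSet_Ioo]
      apply lintegral_congr
      intro x
      by_cases hx : |x| < r
      · rw [indicator_of_mem (show r ∈ Ioi |x| from hx), indicator_of_mem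
          (show x ∈ Ioo (-r) r from abs_lt.1 hx)]
        unfold gaussianPDF
        rw [← mul_assoc, ← ENNReal.ofReal_mul (gaussianPDFReal_nonneg _ _ _), mul_comm]
        congr 2
        unfold gaussianPDFReal
        rw [Real.coe_toNNReal t ht.le]
        have e2 : Real.exp (-(x - y) ^ 2 / (2 * t)) * Real.exp (-(r ^ 2 - x ^ 2) / (2 * t)) =
            Real.exp (-(r ^ 2 + y ^ 2 - 2 * (x * y)) / (2 * t)) := by
          rw [← Real.exp_add]
          congr 1
          ring
        rw [← e2]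
        ring
      · rw [indicator_of_notMem (show r ∉ Ioi |x| from hx), indicator_of_notMem
          (show x ∉ Ioo (-r) r from fun h => hx (abs_lt.2 h)), mul_zero]
    · rw [indicator_of_notMem (show r ∉ Ioi 0 from hr)]
      have : ∀ x : ℝ, gaussianPDF y t.toNNReal x * (Ioi |x|).indicator
          (fun r => ENNReal.ofReal (r / t * Real.exp (-(r ^ 2 - x ^ 2) / (2 * t))) * ψ r) r = 0 := by
        intro x
        rw [indicator_of_notMem, mul_zero]
        intro h
        exact hr ((abs_nonneg x).trans_lt h)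
      simp_rw [this]
      simp
  · apply Measurable.aemeasurable
    have := hG
    exact ((measurable_gaussianPDF _ _).comp measurable_fst).mul hG

/-- away from the origin, `rho` is the killed kernel -/
theorem rho_eq {t y r : ℝ} (ht : 0 < t) (hy : 0 < y) (hr : 0 < r) :
    rho t y r = ENNReal.ofReal (r / y * kd t y r) := by
  have hint : ∫ x in (-r)..r, ((√(2 * π * t))⁻¹ * (r / t) *
      Real.exp (-(r ^ 2 + y ^ 2 - 2 * (x * y)) / (2 * t))) = r / y * kd t y r := by
    have hder : ∀ x ∈ uIcc (-r) r, HasDerivAt (fun x => (√(2 * π * t))⁻¹ * (r / y) *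
        Real.exp (-(r ^ 2 + y ^ 2 - 2 * (x * y)) / (2 * t)))
        ((√(2 * π * t))⁻¹ * (r / t) *
          Real.exp (-(r ^ 2 + y ^ 2 - 2 * (x * y)) / (2 * t))) x := by
      intro x _
      have h1 : HasDerivAt (fun x : ℝ => -(r ^ 2 + y ^ 2 - 2 * (x * y)) / (2 * t))
          (y / t) x := by
        have h2 : HasDerivAt (fun x : ℝ => x * y) y x := by
          simpa using (hasDerivAt_id x).mul_const y
        have h3 := (((h2.const_mul 2).const_sub (r ^ 2 + y ^ 2)).neg).div_const (2 * t)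
        have e0 : -(-(2 * y)) / (2 * t) = y / t := by field_simp
        rw [e0] at h3
        exact h3
      have h4 := (h1.exp).const_mul ((√(2 * π * t))⁻¹ * (r / y))
      have e0 : (√(2 * π * t))⁻¹ * (r / y) *
          (Real.exp (-(r ^ 2 + y ^ 2 - 2 * (x * y)) / (2 * t)) * (y / t)) =
          (√(2 * π * t))⁻¹ * (r / t) *
            Real.exp (-(r ^ 2 + y ^ 2 - 2 * (x * y)) / (2 * t)) := by
        have : r / y * (y / t) = r / t := by field_simp
        rw [← this]
        ring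
      rw [e0] at h4
      exact h4
    rw [intervalIntegral.integral_eq_sub_of_hasDerivAt hder]
    · unfold kd gaussianPDFReal
      rw [Real.coe_toNNReal t ht.le]
      have e1 : -(r ^ 2 + y ^ 2 - 2 * (r * y)) / (2 * t) = -(r - y) ^ 2 / (2 * t) := by ring
      have e2 : -(r ^ 2 + y ^ 2 - 2 * (-r * y)) / (2 * t) = -(r - -y) ^ 2 / (2 * t) := by ring
      rw [e1, e2]
      ring
    · apply Continuous.intervalIntegrable
      fun_prop
  unfold rho
  rw [← hint, intervalIntegral.integral_of_le (by linarith),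
    integral_Ioc_eq_integral_Ioo, ofReal_integral_eq_lintegral_ofReal]
  · have hc : Continuous fun x : ℝ => ((√(2 * π * t))⁻¹ * (r / t) *
        Real.exp (-(r ^ 2 + y ^ 2 - 2 * (x * y)) / (2 * t))) := by fun_prop
    exact (hc.integrableOn_Icc (a := -r) (b := r)).mono_set Ioo_subset_Icc_self
  · refine Eventually.of_forall fun x => ?_
    positivity

/-- at the origin -/
theorem rho_zero {t r : ℝ} (ht : 0 < t) (hr : 0 < r) :
    rho t 0 r = ENNReal.ofReal ((√(2 * π * t))⁻¹ * (2 * r ^ 2 / t) *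
      Real.exp (-r ^ 2 / (2 * t))) := by
  unfold rho
  simp only [mul_zero, sub_zero, ne_eq, OfNat.ofNat_ne_zero, not_false_eq_true, zero_pow, add_zero]
  rw [lintegral_const, Measure.restrict_apply_univ, Real.volume_Ioo,
    ← ENNReal.ofReal_mul (by positivity)]
  congr 1
  ring

end Helper78.BW
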