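import Mathlib
import Pool.Agent.Helper78.BW.Bes

/-!
Rotation invariance and the `h`-transform identity for a Gaussian vector in `ℝ³`.
-/

open MeasureTheory ProbabilityTheory Set Filter Topology
open scoped ENNReal NNReal Real

namespace Helper78.BW

/-- Euclidean space of dimension 3. -/
abbrev E3 := EuclideanSpace ℝ (Fin 3)

/-- The law of a three-dimensional Brownian motion at time `t`. -/
noncomputable def G3 (t : ℝ) : Measure E3 :=
  (Measure.pi fun _ : Fin 3 => gaussianReal 0 t.toNNReal).map (WithLp.toLp 2)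

instance (t : ℝ) : IsProbabilityMeasure (G3 t) :=
  Measure.isProbabilityMeasure_map (by fun_prop)

theorem G3_eq {t : ℝ} (ht : 0 ≤ t) : G3 t = (stdGaussian E3).map (fun x => √t • x) := by
  have h1 : (Measure.pi fun _ : Fin 3 => gaussianReal 0 t.toNNReal) =
      (Measure.pi fun _ : Fin 3 => gaussianReal 0 1).map (fun x i => √t * x i) := by
    rw [Measure.pi_map_pi (f := fun _ x => √t * x) (fun i => by fun_prop)]
    congr 1
    funext i
    rw [gaussianReal_map_const_mul, mul_zero, mul_one]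
    congr 1
    apply NNReal.eq
    simp [Real.sq_sqrt ht, Real.coe_toNNReal t ht]
  unfold G3
  rw [h1, ← map_pi_eq_stdGaussian, Measure.map_map (by fun_prop) (by fun_prop),
    Measure.map_map (by fun_prop) (by fun_prop)]
  rfl

theorem G3_map {t : ℝ} (ht : 0 ≤ t) (f : E3 ≃ₗᵢ[ℝ] E3) : (G3 t).map f = G3 t := by
  have hf : Measurable f := f.continuous.measurable
  rw [G3_eq ht, Measure.map_map hf (by fun_prop)]
  have : (f : E3 → E3) ∘ (fun x => √t • x) = (fun x => √t • x) ∘ f := by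
    funext x
    simp
  rw [this, ← Measure.map_map (by fun_prop) hf, stdGaussian_map f]

theorem lint_pi3 (γ : Measure ℝ) [IsProbabilityMeasure γ] {g : ℝ → ℝ × ℝ → ℝ≥0∞}
    (hg : Measurable (Function.uncurry g)) :
    ∫⁻ w : Fin 3 → ℝ, g (w 0) (w 1, w 2) ∂(Measure.pi fun _ => γ) =
      ∫⁻ x, ∫⁻ p, g x p ∂(γ.prod γ) ∂γ := by
  have h1 := measurePreserving_piFinSuccAbove (fun _ : Fin 3 => γ) 0
  have h2 := measurePreserving_piFinTwo (fun _ : Fin 2 => γ)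
  have hmeas : Measurable fun q : ℝ × (Fin 2 → ℝ) => g q.1 (q.2 0, q.2 1) :=
    hg.comp (f := fun q : ℝ × (Fin 2 → ℝ) => (q.1, (q.2 0, q.2 1))) (by fun_prop)
  have e1 : ∫⁻ w : Fin 3 → ℝ, g (w 0) (w 1, w 2) ∂(Measure.pi fun _ => γ) =
      ∫⁻ q : ℝ × (Fin 2 → ℝ), g q.1 (q.2 0, q.2 1)
        ∂(γ.prod (Measure.pi fun _ : Fin 2 => γ)) := by
    rw [← h1.lintegral_comp]
    · rfl
    · exact hmeas
  rw [e1, lintegral_prod]
  · apply lintegral_congr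
    intro x
    rw [← h2.lintegral_comp (f := fun p => g x p)]
    · rfl
    · exact hg.comp measurable_prodMk_left
  · exact hmeas.aemeasurable

theorem norm_axis (y : ℝ) (w : Fin 3 → ℝ) :
    ‖EuclideanSpace.single (0 : Fin 3) y + WithLp.toLp 2 w‖ =
      √((y + w 0) ^ 2 + (w 1 ^ 2 + w 2 ^ 2)) := by
  rw [EuclideanSpace.norm_eq]
  congr 1
  rw [Fin.sum_univ_three]
  simp
  ring

theorem G3_axis {t : ℝ} (ht : 0 < t) (y : ℝ) {ψ : ℝ → ℝ≥0∞} (hψ : Measurable ψ) :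
    ∫⁻ w, ψ ‖EuclideanSpace.single (0 : Fin 3) y + w‖ ∂(G3 t) =
      ∫⁻ r in Ioi 0, ψ r * rho t y r := by
  unfold G3
  rw [lintegral_map (by fun_prop) (by fun_prop)]
  simp_rw [norm_axis]
  rw [lint_pi3 _ (g := fun x p => ψ (√((y + x) ^ 2 + (p.1 ^ 2 + p.2 ^ 2)))) (by
    unfold Function.uncurry
    fun_prop)]
  exact lint_gauss3 ht y hψ

theorem G3_radial {t : ℝ} (ht : 0 < t) (z : E3) {ψ : ℝ → ℝ≥0∞} (hψ : Measurable ψ) :
    ∫⁻ w, ψ ‖z + w‖ ∂(G3 t) = ∫⁻ r in Ioi 0, ψ r * rho t ‖z‖ r := by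
  have hnorm : ‖EuclideanSpace.single (0 : Fin 3) ‖z‖‖ = ‖z‖ := by simp
  obtain ⟨f, hf⟩ : ∃ f : E3 ≃ₗᵢ[ℝ] E3, f (EuclideanSpace.single (0 : Fin 3) ‖z‖) = z :=
    ⟨(ℝ ∙ (EuclideanSpace.single (0 : Fin 3) ‖z‖ - z))ᗮ.reflection,
      Submodule.reflection_sub hnorm⟩
  rw [← G3_axis ht ‖z‖ hψ]
  have h1 : ∫⁻ w, ψ ‖z + w‖ ∂(G3 t) = ∫⁻ w, ψ ‖z + w‖ ∂((G3 t).map f) := by
    rw [G3_map ht.le]
  rw [h1, lintegral_map (by fun_prop) f.continuous.measurable]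
  apply lintegral_congr
  intro w
  conv_lhs => rw [← hf]
  rw [← map_add, f.norm_map]

/-- The `h`-transform identity. -/
theorem lemmaC {t : ℝ} (ht : 0 < t) {z : E3} (hz : z ≠ 0) {φ : ℝ → ℝ≥0∞} (hφ : Measurable φ) :
    ENNReal.ofReal ‖z‖ * ∫⁻ w, φ ‖z + w‖ * (ENNReal.ofReal ‖z + w‖)⁻¹ ∂(G3 t) =
      Kt t φ ‖z‖ := by
  have hz' : 0 < ‖z‖ := norm_pos_iff.2 hz
  rw [G3_radial ht z (ψ := fun r => φ r * (ENNReal.ofReal r)⁻¹) (by fun_prop),
    ← lintegral_const_mul' _ _ ENNReal.ofReal_ne_top]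
  unfold Kt
  apply setLIntegral_congr_fun measurableSet_Ioi
  intro r hr
  have hr' : (0 : ℝ) < r := hr
  simp only
  rw [rho_eq ht hz' hr']
  have hk := kd_nonneg (t := t) hz'.le hr'.le
  have e1 : ENNReal.ofReal (r / ‖z‖ * kd t ‖z‖ r) =
      ENNReal.ofReal r * (ENNReal.ofReal ‖z‖)⁻¹ * ENNReal.ofReal (kd t ‖z‖ r) := by
    rw [ENNReal.ofReal_mul (by positivity), div_eq_mul_inv, ENNReal.ofReal_mul hr'.le,
      ENNReal.ofReal_inv_of_pos hz']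
  rw [e1]
  have a1 : ENNReal.ofReal ‖z‖ * (ENNReal.ofReal ‖z‖)⁻¹ = 1 :=
    ENNReal.mul_inv_cancel (by simpa using hz) ENNReal.ofReal_ne_top
  have a2 : (ENNReal.ofReal r)⁻¹ * ENNReal.ofReal r = 1 :=
    ENNReal.inv_mul_cancel (by simpa using hr') ENNReal.ofReal_ne_top
  calc ENNReal.ofReal ‖z‖ * (φ r * (ENNReal.ofReal r)⁻¹ *
        (ENNReal.ofReal r * (ENNReal.ofReal ‖z‖)⁻¹ * ENNReal.ofReal (kd t ‖z‖ r)))
      = (ENNReal.ofReal ‖z‖ * (ENNReal.ofReal ‖z‖)⁻¹) *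
        ((ENNReal.ofReal r)⁻¹ * ENNReal.ofReal r) * (φ r * ENNReal.ofReal (kd t ‖z‖ r)) := by
        ring
    _ = φ r * ENNReal.ofReal (kd t ‖z‖ r) := by rw [a1, a2, one_mul, one_mul]

end Helper78.BW
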