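import Mathlib
import Pool.Agent.Helper78.BW.Bes2

/-!
The Markov chain of Brownian motion killed at zero, observed on a grid.
-/

open MeasureTheory ProbabilityTheory Set Filter Topology
open scoped ENNReal NNReal Real

namespace Helper78.BW

variable {Ω : Type*} {mΩ : MeasurableSpace Ω} {P : Measure Ω} {b : ℝ → Ω → ℝ}

/-- The iterated killed kernel. -/
noncomputable def Pin (h : ℝ) : ℕ → (ℕ → ℝ → ℝ≥0∞) → ℝ → ℝ≥0∞
  | 0, _, _ => 1
  | n + 1, f, y => Kt h (fun x => f 0 x * Pin h n (fun i => f (i + 1)) x) y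

theorem measurable_Pin (h : ℝ) (n : ℕ) : ∀ {f : ℕ → ℝ → ℝ≥0∞}, (∀ i, Measurable (f i)) →
    Measurable (Pin h n f) := by
  induction n with
  | zero => intro f hf; exact measurable_const
  | succ n ih =>
    intro f hf
    exact measurable_Kt h ((hf 0).mul (ih fun i => hf (i + 1)))

theorem Pos_succ (hb : NBM b P) {h : ℝ} (hh : 0 ≤ h) (y : ℝ) (n : ℕ) (ω : Ω) :
    ω ∈ Pos b y ((n + 1 : ℕ) * h) ↔
      ω ∈ Pos b y h ∧ 0 < (y + b h ω) + mn (fun t => sh b h t ω) 0 (n * h) := by
  have hnh : (0 : ℝ) ≤ n * h := by positivity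
  have hs := (hb.shift hh).cont ω
  have e1 : ω ∈ Pos b y ((n + 1 : ℕ) * h) ↔ ∀ t ∈ Icc 0 (((n + 1 : ℕ) : ℝ) * h), -y < b t ω := by
    rw [← lt_mn_iff (hb.cont ω) (by positivity)]
    simp only [Pos, Set.mem_ofPred_eq]
    constructor <;> intro h <;> linarith
  have e2 : ω ∈ Pos b y h ↔ ∀ t ∈ Icc 0 h, -y < b t ω := by
    rw [← lt_mn_iff (hb.cont ω) hh]
    simp only [Pos, Set.mem_ofPred_eq]
    constructor <;> intro h <;> linarith
  have e3 : 0 < (y + b h ω) + mn (fun t => sh b h t ω) 0 (n * h) ↔
      ∀ t ∈ Icc (0 : ℝ) (n * h), -(y + b h ω) < sh b h t ω := by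
    rw [← lt_mn_iff hs hnh]
    constructor <;> intro h <;> linarith
  rw [e1, e2, e3]
  have hcast : ((n + 1 : ℕ) : ℝ) * h = n * h + h := by push_cast; ring
  rw [hcast]
  constructor
  · intro H
    refine ⟨fun t ht => H t ⟨ht.1, by linarith [ht.2]⟩, fun t ht => ?_⟩
    have := H (h + t) ⟨by linarith [ht.1], by linarith [ht.2]⟩
    simp only [sh]
    linarith
  · rintro ⟨H1, H2⟩ t ht
    rcases le_total t h with h1 | h1
    · exact H1 t ⟨ht.1, h1⟩
    · have := H2 (t - h) ⟨by linarith, by linarith [ht.2]⟩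
      simp only [sh, add_sub_cancel] at this
      linarith

theorem chain1 {h : ℝ} (hh : 0 < h) (n : ℕ) : ∀ {b : ℝ → Ω → ℝ} (_ : NBM b P)
    {f : ℕ → ℝ → ℝ≥0∞} (_ : ∀ i, Measurable (f i)) {y : ℝ} (_ : 0 < y),
    ∫⁻ ω in Pos b y (n * h), ∏ i ∈ Finset.range n, f i (y + b (((i : ℝ) + 1) * h) ω) ∂P =
      Pin h n f y := by
  induction n with
  | zero =>
    intro b hb f hf y hy
    have hP := hb.isProb
    have : Pos b y ((0 : ℕ) * h) = univ := by
      ext ω
      simp only [Pos, Nat.cast_zero, zero_mul, mn_self, hb.zero, add_zero, Set.mem_ofPred_eq,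
        mem_univ, iff_true]
      exact hy
    rw [this]
    simp [Pin]
  | succ n ih =>
    intro b hb f hf y hy
    have hP := hb.isProb
    have hsb := hb.shift hh.le
    -- past and future
    let X : Ω → ℝ≥0∞ × ℝ := fun ω => ((Pos b y h).indicator (fun _ => 1) ω, b h ω)
    let Y : Ω → (ℕ → ℝ) × ℝ := fun ω =>
      (fun i => sh b h (((i : ℝ) + 1) * h) ω, mn (fun t => sh b h t ω) 0 (n * h))
    have hnh : (0 : ℝ) ≤ n * h := by positivity
    have hPosF : MeasurableSet[Fle b h] (Pos b y h) := by
      have h1 : Measurable[Fle b h] fun ω => y + mn (fun t => b t ω) 0 h :=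
        measurable_const.add (measurable_mn (m := Fle b h) hh.le fun s hs =>
          measurable_Fle hs.1 hs.2)
      exact h1 measurableSet_Ioi
    have hXF : Measurable[Fle b h] X := by
      refine Measurable.prodMk ?_ (measurable_Fle hh.le le_rfl)
      exact Measurable.indicator measurable_const hPosF
    have hYF : Measurable[Fge b h] Y := by
      refine Measurable.prodMk ?_ ?_
      · exact @measurable_pi_lambda Ω ℕ _ (Fge b h) _ _ fun i =>
          measurable_Fge hh.le (by positivity)
      · exact measurable_mn (m := Fge b h) hnh fun s hs => measurable_Fge hh.le hs.1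
    have hXm : Measurable X := hXF.mono (Fle_le hb h) le_rfl
    have hYm : Measurable Y := hYF.mono (Fge_le hb h) le_rfl
    have hind := indepFun_past_future hb h hXF hYF
    let Θ : ℝ≥0∞ × ℝ → (ℕ → ℝ) × ℝ → ℝ≥0∞ := fun p q =>
      p.1 * (f 0 (y + p.2) * {q : (ℝ × ((ℕ → ℝ) × ℝ)) | 0 < (y + q.1) + q.2.2}.indicator
        (fun q => ∏ i ∈ Finset.range n, f (i + 1) ((y + q.1) + q.2.1 i)) (p.2, q))
    have hΘm : Measurable (Function.uncurry Θ) := by
      have hset : MeasurableSet {q : (ℝ × ((ℕ → ℝ) × ℝ)) | 0 < (y + q.1) + q.2.2} :=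
        measurableSet_lt measurable_const (by fun_prop)
      have h1 : Measurable (fun q : (ℝ × ((ℕ → ℝ) × ℝ)) =>
          ∏ i ∈ Finset.range n, f (i + 1) ((y + q.1) + q.2.1 i)) := by
        apply Finset.measurable_prod
        intro i _
        exact (hf (i + 1)).comp (by fun_prop)
      have h2 := (h1.indicator hset).comp
        (g := _) (f := fun r : (ℝ≥0∞ × ℝ) × ((ℕ → ℝ) × ℝ) => (r.1.2, r.2)) (by fun_prop)
      have h3 : Measurable fun r : (ℝ≥0∞ × ℝ) × ((ℕ → ℝ) × ℝ) => r.1.1 := by fun_prop
      have h4 : Measurable fun r : (ℝ≥0∞ × ℝ) × ((ℕ → ℝ) × ℝ) => f 0 (y + r.1.2) :=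
        (hf 0).comp (by fun_prop)
      exact h3.mul (h4.mul h2)
    have hfub := lintegral_indepFun (P := P) hXm hYm hind hΘm
    have hpos1 : MeasurableSet (Pos b y ((n + 1 : ℕ) * h)) :=
      measurableSet_Pos hb y (by positivity)
    have hleft : ∫⁻ ω in Pos b y ((n + 1 : ℕ) * h),
        ∏ i ∈ Finset.range (n + 1), f i (y + b (((i : ℝ) + 1) * h) ω) ∂P =
        ∫⁻ ω, Θ (X ω) (Y ω) ∂P := by
      rw [← lintegral_indicator hpos1]
      apply lintegral_congr
      intro ω
      simp only [Θ, X, Y]
      by_cases hω : ω ∈ Pos b y ((n + 1 : ℕ) * h)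
      · have hω' := (Pos_succ hb hh.le y n ω).1 hω
        rw [indicator_of_mem hω, indicator_of_mem hω'.1, one_mul, indicator_of_mem (by
          exact hω'.2), Finset.prod_range_succ', mul_comm]
        congr 1
        · simp
        · apply Finset.prod_congr rfl
          intro i _
          congr 1
          simp only [sh, Nat.cast_add, Nat.cast_one]
          have : ((i : ℝ) + 1 + 1) * h = h + (i + 1) * h := by ring
          rw [this]
          ring
      · rw [indicator_of_notMem hω]
        by_cases h1 : ω ∈ Pos b y h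
        · rw [indicator_of_notMem (a := (b h ω, _)), mul_zero, mul_zero]
          intro h2
          exact hω ((Pos_succ hb hh.le y n ω).2 ⟨h1, h2⟩)
        · rw [indicator_of_notMem h1, zero_mul]
    have hinner : ∀ ω, ∫⁻ ω', Θ (X ω) (Y ω') ∂P = (Pos b y h).indicator (fun ω =>
        f 0 (y + b h ω) * Pin h n (fun i => f (i + 1)) (y + b h ω)) ω := by
      intro ω
      simp only [Θ, X]
      by_cases hω : ω ∈ Pos b y h
      · rw [indicator_of_mem hω, indicator_of_mem hω]
        have hy' : 0 < y + b h ω := by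
          have h3 : 0 < y + mn (fun t => b t ω) 0 h := hω
          have := mn_le (hb.cont ω) (show h ∈ Icc 0 h from ⟨hh.le, le_rfl⟩)
          linarith
        rw [← ih hsb (fun i => hf (i + 1)) hy']
        simp only [one_mul]
        rw [← lintegral_const_mul, ← lintegral_indicator (measurableSet_Pos hsb _ hnh)]
        · apply lintegral_congr
          intro ω'
          by_cases h1 : ω' ∈ Pos (sh b h) (y + b h ω) (n * h)
          · rw [indicator_of_mem h1, indicator_of_mem]
            exact h1
          · rw [indicator_of_notMem h1, indicator_of_notMem, mul_zero]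
            exact h1
        · apply Finset.measurable_prod
          intro i _
          exact (hf (i + 1)).comp (measurable_const.add (hsb.meas _))
      · rw [indicator_of_notMem hω, indicator_of_notMem hω]
        simp
    rw [hleft, hfub]
    simp_rw [hinner]
    rw [lintegral_indicator (measurableSet_Pos hb y hh.le),
      lemmaB hb hy hh (φ := fun x => f 0 x * Pin h n (fun i => f (i + 1)) x)
      ((hf 0).mul (measurable_Pin h n fun i => hf (i + 1)))]
    rfl

end Helper78.BW
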