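import Mathlib
import Pool.Agent.Helper78.BW.Chain

/-!
Three-dimensional Brownian motion: Markov property and the `h`-transform identity on a grid.
-/

open MeasureTheory ProbabilityTheory Set Filter Topology
open scoped ENNReal NNReal Real

namespace Helper78.BW

variable {Ω : Type*} {mΩ : MeasurableSpace Ω} {P : Measure Ω} {W : Fin 3 → ℝ → Ω → ℝ}

/-- Three independent Brownian motions. -/
structure TBM (W : Fin 3 → ℝ → Ω → ℝ) (P : Measure Ω) : Prop where
  nbm : ∀ i, NBM (W i) P
  indep : iIndepFun (fun i ω (t : ℝ≥0) => W i t ω) P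

/-- The vector-valued process. -/
noncomputable def vec (W : Fin 3 → ℝ → Ω → ℝ) (t : ℝ) (ω : Ω) : E3 :=
  WithLp.toLp 2 (fun i => W i t ω)

theorem TBM.isProb (hW : TBM W P) : IsProbabilityMeasure P := (hW.nbm 0).isProb

theorem measurable_toLp3 : Measurable (WithLp.toLp 2 : (Fin 3 → ℝ) → E3) := by fun_prop

theorem TBM.measurable_vec (hW : TBM W P) (t : ℝ) : Measurable (vec W t) := by
  unfold vec
  have : Measurable fun ω => fun i => W i t ω :=
    measurable_pi_lambda _ fun i => (hW.nbm i).meas t
  exact measurable_toLp3.comp this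

theorem TBM.shift (hW : TBM W P) {s : ℝ} (hs : 0 ≤ s) : TBM (fun i => sh (W i) s) P where
  nbm i := (hW.nbm i).shift hs
  indep := by
    lift s to ℝ≥0 using hs
    have := hW.indep.comp (fun _ (w : ℝ≥0 → ℝ) (t : ℝ≥0) => w (s + t) - w s)
      (fun i => measurable_pi_lambda _ fun t => by fun_prop)
    convert this using 2
    funext ω t
    simp [sh]

theorem TBM.map_vec (hW : TBM W P) {t : ℝ} (ht : 0 ≤ t) : P.map (vec W t) = G3 t := by
  have hP := hW.isProb
  lift t to ℝ≥0 using ht
  have h1 : iIndepFun (fun i ω => W i t ω) P :=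
    hW.indep.comp (fun _ (w : ℝ≥0 → ℝ) => w t) (fun i => by fun_prop)
  have h2 : P.map (fun ω i => W i t ω) = Measure.pi fun i => P.map (W i t) :=
    h1.map_fun_eq_pi_map (fun i => ((hW.nbm i).meas _).aemeasurable)
  have h3 : P.map (vec W t) = (P.map (fun ω i => W i t ω)).map (WithLp.toLp 2) := by
    rw [Measure.map_map (by fun_prop) (measurable_pi_lambda _ fun i => (hW.nbm i).meas t)]
    rfl
  rw [h3, h2]
  unfold G3
  congr 2
  funext i
  exact (hW.nbm i).hasLaw t.2

theorem TBM.indep_shift (hW : TBM W P) {s : ℝ} (hs : 0 ≤ s) :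
    IndepFun (fun ω i => W i s ω) (fun ω i (t : ℝ≥0) => sh (W i) s t ω) P := by
  have hP := hW.isProb
  let X : Fin 3 → Ω → ℝ := fun i ω => W i s ω
  let Y : Fin 3 → Ω → (ℝ≥0 → ℝ) := fun i ω t => sh (W i) s t ω
  have hX : ∀ i, Measurable (X i) := fun i => (hW.nbm i).meas s
  have hY : ∀ i, Measurable (Y i) := fun i =>
    measurable_pi_lambda _ fun t => ((hW.nbm i).shift hs).meas t
  have hXm : Measurable fun ω i => X i ω := measurable_pi_lambda _ hX
  have hYm : Measurable fun ω i => Y i ω := measurable_pi_lambda _ hY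
  have hXY : ∀ i, IndepFun (X i) (Y i) P := by
    intro i
    apply indepFun_past_future (hW.nbm i) s
    · exact measurable_Fle hs le_rfl
    · exact @measurable_pi_lambda Ω ℝ≥0 _ (Fge (W i) s) _ _ fun t => measurable_Fge hs t.2
  have hZ : iIndepFun (fun i ω => (X i ω, Y i ω)) P := by
    have hs' : (s.toNNReal : ℝ) = s := Real.coe_toNNReal s hs
    have := hW.indep.comp (fun _ (w : ℝ≥0 → ℝ) => (w s.toNNReal,
      fun t : ℝ≥0 => w (s.toNNReal + t) - w s.toNNReal)) (fun i => by
        refine Measurable.prodMk (by fun_prop) (measurable_pi_lambda _ fun t => by fun_prop))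
    convert this using 2
    funext ω
    simp only [X, Y, Function.comp, sh, NNReal.coe_add, hs']
  have hX' : iIndepFun X P := hZ.comp (fun _ p => p.1) fun _ => measurable_fst
  have hY' : iIndepFun Y P := hZ.comp (fun _ p => p.2) fun _ => measurable_snd
  have e1 : P.map (fun ω i => (X i ω, Y i ω)) =
      Measure.pi fun i => (P.map (X i)).prod (P.map (Y i)) := by
    rw [hZ.map_fun_eq_pi_map fun i => ((hX i).prodMk (hY i)).aemeasurable]
    congr 1
    funext i
    exact (indepFun_iff_map_prod_eq_prod_map_map (hX i).aemeasurable (hY i).aemeasurable).1 (hXY i)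
  have i1 : ∀ i, IsProbabilityMeasure (P.map (X i)) := fun i =>
    Measure.isProbabilityMeasure_map (hX i).aemeasurable
  have i2 : ∀ i, IsProbabilityMeasure (P.map (Y i)) := fun i =>
    Measure.isProbabilityMeasure_map (hY i).aemeasurable
  have e2 := (measurePreserving_arrowProdEquivProdArrow ℝ (ℝ≥0 → ℝ) (Fin 3)
    (fun i => P.map (X i)) (fun i => P.map (Y i))).map_eq
  rw [← e1, Measure.map_map (MeasurableEquiv.measurable _) (measurable_pi_lambda _ fun i =>
    (hX i).prodMk (hY i))] at e2
  show IndepFun (fun ω i => X i ω) (fun ω i => Y i ω) P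
  rw [indepFun_iff_map_prod_eq_prod_map_map hXm.aemeasurable hYm.aemeasurable,
    hX'.map_fun_eq_pi_map fun i => (hX i).aemeasurable,
    hY'.map_fun_eq_pi_map fun i => (hY i).aemeasurable, ← e2]
  rfl

/-- The right-hand side of the chain identity. -/
noncomputable def S3 (W : Fin 3 → ℝ → Ω → ℝ) (P : Measure Ω) (h : ℝ) (n : ℕ)
    (f : ℕ → ℝ → ℝ≥0∞) (z : E3) : ℝ≥0∞ :=
  ∫⁻ ω, (∏ i ∈ Finset.range n, f i ‖z + vec W (((i : ℝ) + 1) * h) ω‖) *
    (ENNReal.ofReal ‖z + vec W (n * h) ω‖)⁻¹ ∂P

theorem G3_ne {t : ℝ} (ht : 0 < t) (z : E3) : ∀ᵐ w ∂(G3 t), z + w ≠ 0 := by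
  have h1 : ∫⁻ w, ({0} : Set ℝ).indicator (fun _ => 1) ‖z + w‖ ∂(G3 t) = 0 := by
    rw [G3_radial ht z (ψ := ({0} : Set ℝ).indicator (fun _ => 1))
      (measurable_const.indicator (measurableSet_singleton _))]
    rw [← lintegral_zero]
    apply setLIntegral_congr_fun measurableSet_Ioi
    intro r hr
    have hr' : r ∉ ({0} : Set ℝ) := by
      simp only [mem_singleton_iff]
      exact (ne_of_gt hr)
    simp [indicator_of_notMem hr']
  have hm : Measurable fun w : E3 => ({0} : Set ℝ).indicator (fun _ => (1 : ℝ≥0∞)) ‖z + w‖ :=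
    (measurable_const.indicator (measurableSet_singleton _)).comp (by fun_prop)
  rw [lintegral_eq_zero_iff hm] at h1
  filter_upwards [h1] with w hw hzero
  have : ‖z + w‖ ∈ ({0} : Set ℝ) := by simp [hzero]
  rw [indicator_of_mem this] at hw
  exact one_ne_zero hw

theorem chain3 {h : ℝ} (hh : 0 < h) (n : ℕ) : ∀ {W : Fin 3 → ℝ → Ω → ℝ} (_ : TBM W P)
    {f : ℕ → ℝ → ℝ≥0∞} (_ : ∀ i, Measurable (f i)) {z : E3} (_ : z ≠ 0),
    ENNReal.ofReal ‖z‖ * S3 W P h n f z = Pin h n f ‖z‖ := by
  induction n with
  | zero =>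
    intro W hW f hf z hz
    have hP := hW.isProb
    have h0 : ∀ ω, vec W 0 ω = 0 := by
      intro ω
      unfold vec
      simp only [fun i => (hW.nbm i).zero ω]
      rfl
    simp only [S3, Finset.range_zero, Finset.prod_empty, Nat.cast_zero, zero_mul, h0, add_zero,
      one_mul, lintegral_const, measure_univ, mul_one, Pin]
    exact ENNReal.mul_inv_cancel (by simpa using hz) ENNReal.ofReal_ne_top
  | succ n ih =>
    intro W hW f hf z hz
    have hP := hW.isProb
    have hsW := hW.shift hh.le
    have hnh : (0 : ℝ) ≤ n * h := by positivity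
    let X : Ω → (Fin 3 → ℝ) := fun ω i => W i h ω
    let Y : Ω → (Fin 3 → ℝ≥0 → ℝ) := fun ω i t => sh (W i) h t ω
    have hXm : Measurable X := measurable_pi_lambda _ fun i => (hW.nbm i).meas _
    have hYm : Measurable Y := measurable_pi_lambda _ fun i => measurable_pi_lambda _ fun t =>
      ((hW.nbm i).shift hh.le).meas _
    have hind : IndepFun X Y P := hW.indep_shift hh.le
    -- the integrand
    let Θ : (Fin 3 → ℝ) → (Fin 3 → ℝ≥0 → ℝ) → ℝ≥0∞ := fun x w =>
      f 0 ‖z + WithLp.toLp 2 x‖ *
      ((∏ i ∈ Finset.range n, f (i + 1) ‖(z + WithLp.toLp 2 x) +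
        WithLp.toLp 2 (fun j => w j (((i : ℝ) + 1) * h).toNNReal)‖) *
        (ENNReal.ofReal ‖(z + WithLp.toLp 2 x) +
          WithLp.toLp 2 (fun j => w j (n * h).toNNReal)‖)⁻¹)
    have hΘm : Measurable (Function.uncurry Θ) := by
      have hev : ∀ s : ℝ≥0, Measurable fun q : (Fin 3 → ℝ) × (Fin 3 → ℝ≥0 → ℝ) =>
          (z + WithLp.toLp 2 q.1) + WithLp.toLp 2 (fun j => q.2 j s) := by
        intro s
        have h1 : Measurable fun q : (Fin 3 → ℝ) × (Fin 3 → ℝ≥0 → ℝ) => (fun j => q.2 j s) :=
          measurable_pi_lambda _ fun j => (measurable_pi_apply s).comp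
            ((measurable_pi_apply j).comp measurable_snd)
        fun_prop
      apply Measurable.mul
      · exact (hf 0).comp (by fun_prop)
      · apply Measurable.mul
        · apply Finset.measurable_prod
          intro i _
          exact (hf (i + 1)).comp (hev _).norm
        · exact (hev _).norm.ennreal_ofReal.inv
    have hfub := lintegral_indepFun (P := P) hXm hYm hind hΘm
    have hleft : S3 W P h (n + 1) f z = ∫⁻ ω, Θ (X ω) (Y ω) ∂P := by
      unfold S3
      apply lintegral_congr
      intro ω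
      simp only [Θ, X, Y]
      rw [Finset.prod_range_succ', mul_comm (∏ _ ∈ _, _) (f 0 _), mul_assoc]
      have hv : ∀ s : ℝ, 0 ≤ s → (z + WithLp.toLp 2 (fun i => W i h ω)) +
          WithLp.toLp 2 (fun j => sh (W j) h s.toNNReal ω) = z + vec W (h + s) ω := by
        intro s hs
        rw [add_assoc]
        congr 1
        ext j
        simp only [vec, sh, Real.coe_toNNReal s hs, PiLp.add_apply]
        ring
      congr 1
      · simp only [Nat.cast_zero, zero_add, one_mul]
        rfl
      · congr 1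
        · apply Finset.prod_congr rfl
          intro i _
          rw [hv _ (by positivity)]
          have : ((i + 1 : ℕ) : ℝ) + 1 = 1 + (i + 1) := by push_cast; ring
          rw [this, add_mul, one_mul]
        · rw [hv _ hnh]
          have : ((n + 1 : ℕ) : ℝ) = 1 + n := by push_cast; ring
          rw [this, add_mul, one_mul]
    have hinner : ∀ ω, ∫⁻ ω', Θ (X ω) (Y ω') ∂P =
        f 0 ‖z + vec W h ω‖ * S3 (fun i => sh (W i) h) P h n (fun i => f (i + 1))
          (z + vec W h ω) := by
      intro ω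
      simp only [Θ, X, Y]
      rw [lintegral_const_mul]
      · congr 1
        unfold S3
        apply lintegral_congr
        intro ω'
        congr 1
        · apply Finset.prod_congr rfl
          intro i _
          rw [Real.coe_toNNReal _ (by positivity)]
          rfl
        · rw [Real.coe_toNNReal _ hnh]
          rfl
      · have hev : ∀ s : ℝ≥0, Measurable fun ω' =>
            (z + WithLp.toLp 2 (fun i => W i h ω)) +
              WithLp.toLp 2 (fun j => sh (W j) h s ω') := by
          intro s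
          have h1 : Measurable fun ω' => (fun j => sh (W j) h s ω') :=
            measurable_pi_lambda _ fun j => ((hW.nbm j).shift hh.le).meas _
          exact measurable_const.add (measurable_toLp3.comp h1)
        apply Measurable.mul
        · apply Finset.measurable_prod
          intro i _
          exact (hf (i + 1)).comp (hev _).norm
        · exact (hev _).norm.ennreal_ofReal.inv
    rw [hleft, hfub]
    simp_rw [hinner]
    -- pass to the law of `vec W h` and use the induction hypothesis
    have hae : ∀ᵐ ω ∂P, z + vec W h ω ≠ 0 := by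
      have h1 := G3_ne hh z
      rw [← hW.map_vec hh.le] at h1
      exact ae_of_ae_map (hW.measurable_vec h).aemeasurable h1
    have hPinm := measurable_Pin h n fun i => hf (i + 1)
    have e1 : ∫⁻ ω, f 0 ‖z + vec W h ω‖ * S3 (fun i => sh (W i) h) P h n (fun i => f (i + 1))
          (z + vec W h ω) ∂P =
        ∫⁻ ω, (fun w : E3 => (f 0 ‖z + w‖ * Pin h n (fun i => f (i + 1)) ‖z + w‖) *
          (ENNReal.ofReal ‖z + w‖)⁻¹) (vec W h ω) ∂P := by
      apply lintegral_congr_ae
      filter_upwards [hae] with ω hω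
      rw [← ih hsW (fun i => hf (i + 1)) hω]
      have a1 : ENNReal.ofReal ‖z + vec W h ω‖ * (ENNReal.ofReal ‖z + vec W h ω‖)⁻¹ = 1 :=
        ENNReal.mul_inv_cancel (by simpa using hω) ENNReal.ofReal_ne_top
      calc _ = (ENNReal.ofReal ‖z + vec W h ω‖ * (ENNReal.ofReal ‖z + vec W h ω‖)⁻¹) *
            (f 0 ‖z + vec W h ω‖ * S3 (fun i => sh (W i) h) P h n (fun i => f (i + 1))
              (z + vec W h ω)) := by rw [a1, one_mul]
        _ = _ := by ring
    rw [e1]
    have hφm : Measurable fun x : ℝ => f 0 x * Pin h n (fun i => f (i + 1)) x :=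
      (hf 0).mul hPinm
    have hφm2 : Measurable fun w : E3 => (f 0 ‖z + w‖ * Pin h n (fun i => f (i + 1)) ‖z + w‖) *
          (ENNReal.ofReal ‖z + w‖)⁻¹ := by
      have h1 : Measurable fun w : E3 => ‖z + w‖ := by fun_prop
      exact (hφm.comp h1).mul h1.ennreal_ofReal.inv
    rw [← lintegral_map hφm2 (hW.measurable_vec h), hW.map_vec hh.le]
    exact lemmaC hh hz hφm

end Helper78.BW
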