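import Mathlib
import Pool.Agent.Helper78.BW.Chain3

/-!
Continuity at the origin of the normalised `h`-transform, and the link between the
one-dimensional killed process and the three-dimensional process.
-/

open MeasureTheory ProbabilityTheory Set Filter Topology
open scoped ENNReal NNReal Real BoundedContinuousFunction

namespace Helper78.BW

variable {Ω : Type*} {mΩ : MeasurableSpace Ω} {P : Measure Ω} {W : Fin 3 → ℝ → Ω → ℝ}

theorem lint_inv_norm2 {t : ℝ} (ht : 0 < t) :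
    ∫⁻ p, (ENNReal.ofReal (√(p.1 ^ 2 + p.2 ^ 2)))⁻¹
      ∂((gaussianReal 0 t.toNNReal).prod (gaussianReal 0 t.toNNReal)) < ∞ := by
  have h := lint_gauss2_shift ht 0 (ψ := fun r => (ENNReal.ofReal r)⁻¹) (by fun_prop)
  have e : ∀ p : ℝ × ℝ, (0 : ℝ) ^ 2 + (p.1 ^ 2 + p.2 ^ 2) = p.1 ^ 2 + p.2 ^ 2 := by
    intro p; ring
  simp only [e] at h
  rw [h, abs_zero]
  have h2 : ∫⁻ r in Ioi (0 : ℝ), ENNReal.ofReal (r / t * Real.exp (-(r ^ 2 - 0 ^ 2) / (2 * t))) *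
      (ENNReal.ofReal r)⁻¹ = ∫⁻ r in Ioi (0 : ℝ), ENNReal.ofReal (1 / t *
        Real.exp (-(1 / (2 * t)) * r ^ 2)) := by
    apply setLIntegral_congr_fun measurableSet_Ioi
    intro r hr
    have hr' : (0 : ℝ) < r := hr
    simp only
    rw [← ENNReal.ofReal_inv_of_pos hr', ← ENNReal.ofReal_mul (by positivity)]
    congr 1
    have e1 : -(r ^ 2 - 0 ^ 2) / (2 * t) = -(1 / (2 * t)) * r ^ 2 := by ring
    rw [e1]
    field_simp
  rw [h2]
  have hint : Integrable (fun r : ℝ => 1 / t * Real.exp (-(1 / (2 * t)) * r ^ 2)) :=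
    (integrable_exp_neg_mul_sq (by positivity)).const_mul _
  have h3 := hint.integrableOn (s := Ioi 0)
  have h4 := h3.hasFiniteIntegral
  rw [hasFiniteIntegral_iff_norm] at h4
  convert h4 using 3 with r
  rw [Real.norm_eq_abs, abs_of_nonneg (by positivity)]

theorem TBM.lint_inv_norm2 (hW : TBM W P) {t : ℝ} (ht : 0 < t) :
    ∫⁻ ω, (ENNReal.ofReal (√(W 1 t ω ^ 2 + W 2 t ω ^ 2)))⁻¹ ∂P < ∞ := by
  have h1 : ∫⁻ ω, (ENNReal.ofReal (√(W 1 t ω ^ 2 + W 2 t ω ^ 2)))⁻¹ ∂P =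
      ∫⁻ w : E3, (ENNReal.ofReal (√(w 1 ^ 2 + w 2 ^ 2)))⁻¹ ∂(P.map (vec W t)) := by
    rw [lintegral_map (by fun_prop) (hW.measurable_vec t)]
    rfl
  rw [h1, hW.map_vec ht.le]
  unfold G3
  rw [lintegral_map (by fun_prop) (by fun_prop)]
  have h2 := lint_pi3 (gaussianReal 0 t.toNNReal)
    (g := fun _ p => (ENNReal.ofReal (√(p.1 ^ 2 + p.2 ^ 2)))⁻¹) (by
      unfold Function.uncurry
      fun_prop)
  simp only at h2
  rw [h2]
  simp only [lintegral_const, measure_univ, mul_one]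
  exact Helper78.BW.lint_inv_norm2 ht

/-- The point at distance `y` on the first axis. -/
noncomputable def ax (y : ℝ) : E3 := EuclideanSpace.single (0 : Fin 3) y

theorem ax_zero : ax 0 = 0 := by
  unfold ax
  simp

theorem continuous_ax : Continuous ax := by
  unfold ax
  have : (fun y : ℝ => EuclideanSpace.single (0 : Fin 3) y) =
      fun y : ℝ => y • EuclideanSpace.single (0 : Fin 3) (1 : ℝ) := by
    funext y
    ext j
    by_cases hj : j = 0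
    · subst hj
      simp
    · simp [hj]
  rw [this]
  fun_prop

theorem norm_ax (y : ℝ) : ‖ax y‖ = |y| := by
  unfold ax
  simp

theorem ax_ne_zero {y : ℝ} (hy : y ≠ 0) : ax y ≠ 0 := by
  rw [← norm_pos_iff, norm_ax]
  exact abs_pos.2 hy

theorem le_norm_ax (y t : ℝ) (ω : Ω) : √(W 1 t ω ^ 2 + W 2 t ω ^ 2) ≤ ‖ax y + vec W t ω‖ := by
  unfold ax vec
  rw [norm_axis]
  apply Real.sqrt_le_sqrt
  have := sq_nonneg (y + W 0 t ω)
  linarith

/-- the dominating function -/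
noncomputable def domf (W : Fin 3 → ℝ → Ω → ℝ) (n : ℕ) (f : ℕ → ℝ →ᵇ ℝ≥0) (t : ℝ) (ω : Ω) : ℝ≥0∞ :=
  ((∏ i ∈ Finset.range n, nndist (f i) 0 : ℝ≥0) : ℝ≥0∞) *
    (ENNReal.ofReal (√(W 1 t ω ^ 2 + W 2 t ω ^ 2)))⁻¹

theorem domf_fin (hW : TBM W P) (n : ℕ) (f : ℕ → ℝ →ᵇ ℝ≥0) {t : ℝ} (ht : 0 < t) :
    ∫⁻ ω, domf W n f t ω ∂P < ∞ := by
  unfold domf
  rw [lintegral_const_mul' _ _ ENNReal.coe_ne_top]
  exact ENNReal.mul_lt_top ENNReal.coe_lt_top (hW.lint_inv_norm2 ht)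

theorem S3_bound {h : ℝ} (n : ℕ) (f : ℕ → ℝ →ᵇ ℝ≥0) (y : ℝ) (ω : Ω) :
    (∏ i ∈ Finset.range n, ((f i ‖ax y + vec W (((i : ℝ) + 1) * h) ω‖ : ℝ≥0) : ℝ≥0∞)) *
      (ENNReal.ofReal ‖ax y + vec W (n * h) ω‖)⁻¹ ≤ domf W n f (n * h) ω := by
  unfold domf
  rw [ENNReal.ofNNReal_finsetProd]
  gcongr with i hi
  · have h1 := (f i).dist_coe_le_dist (g := 0) ‖ax y + vec W (((i : ℝ) + 1) * h) ω‖
    rw [← coe_nndist, ← coe_nndist, NNReal.coe_le_coe] at h1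
    simpa [nndist_comm] using h1
  · exact le_norm_ax y _ ω

theorem measurable_f (f : ℕ → ℝ →ᵇ ℝ≥0) (i : ℕ) :
    Measurable fun x => ((f i x : ℝ≥0) : ℝ≥0∞) :=
  (f i).continuous.measurable.coe_nnreal_ennreal

theorem S3_integrand_meas (hW : TBM W P) (h : ℝ) (n : ℕ) (f : ℕ → ℝ →ᵇ ℝ≥0) :
    Measurable fun p : ℝ × Ω => (∏ i ∈ Finset.range n,
      ((f i ‖ax p.1 + vec W (((i : ℝ) + 1) * h) p.2‖ : ℝ≥0) : ℝ≥0∞)) *
      (ENNReal.ofReal ‖ax p.1 + vec W (n * h) p.2‖)⁻¹ := by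
  have h1 : ∀ t, Measurable fun p : ℝ × Ω => ‖ax p.1 + vec W t p.2‖ := by
    intro t
    have a1 : Measurable fun p : ℝ × Ω => ax p.1 := continuous_ax.measurable.comp measurable_fst
    have a2 : Measurable fun p : ℝ × Ω => vec W t p.2 := (hW.measurable_vec t).comp measurable_snd
    exact (a1.add a2).norm
  apply Measurable.mul
  · apply Finset.measurable_prod
    intro i _
    exact (measurable_f f i).comp (h1 _)
  · exact (h1 _).ennreal_ofReal.inv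

theorem S3_integrand_meas' (hW : TBM W P) (h : ℝ) (n : ℕ) (f : ℕ → ℝ →ᵇ ℝ≥0) (y : ℝ) :
    Measurable fun ω : Ω => (∏ i ∈ Finset.range n,
      ((f i ‖ax y + vec W (((i : ℝ) + 1) * h) ω‖ : ℝ≥0) : ℝ≥0∞)) *
      (ENNReal.ofReal ‖ax y + vec W (n * h) ω‖)⁻¹ := by
  have h1 : ∀ t, Measurable fun ω : Ω => ‖ax y + vec W t ω‖ := by
    intro t
    exact (measurable_const.add (hW.measurable_vec t)).norm
  apply Measurable.mul
  · apply Finset.measurable_prod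
    intro i _
    exact (measurable_f f i).comp (h1 _)
  · exact (h1 _).ennreal_ofReal.inv

theorem S3_lt_top (hW : TBM W P) {h : ℝ} {n : ℕ} (hn : 0 < n * h) (f : ℕ → ℝ →ᵇ ℝ≥0) (y : ℝ) :
    S3 W P h n (fun i x => (f i x : ℝ≥0∞)) (ax y) < ∞ := by
  unfold S3
  exact (lintegral_mono fun ω => S3_bound n f y ω).trans_lt (domf_fin hW n f hn)

theorem S3_ptwise {h : ℝ} {n : ℕ} (f : ℕ → ℝ →ᵇ ℝ≥0) {ω : Ω}
    (hω : (0 : E3) + vec W (n * h) ω ≠ 0) :
    Tendsto (fun y : ℝ => (∏ i ∈ Finset.range n,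
      ((f i ‖ax y + vec W (((i : ℝ) + 1) * h) ω‖ : ℝ≥0) : ℝ≥0∞)) *
      (ENNReal.ofReal ‖ax y + vec W (n * h) ω‖)⁻¹) (𝓝 0)
      (𝓝 ((∏ i ∈ Finset.range n,
      ((f i ‖ax 0 + vec W (((i : ℝ) + 1) * h) ω‖ : ℝ≥0) : ℝ≥0∞)) *
      (ENNReal.ofReal ‖ax 0 + vec W (n * h) ω‖)⁻¹)) := by
  have hc : ∀ t, Tendsto (fun y : ℝ => ‖ax y + vec W t ω‖) (𝓝 0) (𝓝 ‖ax 0 + vec W t ω‖) := by
    intro t
    exact ((continuous_ax.add continuous_const).norm).tendsto 0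
  have h1 : Tendsto (fun y : ℝ => ∏ i ∈ Finset.range n,
      f i ‖ax y + vec W (((i : ℝ) + 1) * h) ω‖) (𝓝 0) (𝓝 (∏ i ∈ Finset.range n,
      f i ‖ax 0 + vec W (((i : ℝ) + 1) * h) ω‖)) := by
    apply tendsto_finsetProd
    intro i _
    exact ((f i).continuous.tendsto _).comp (hc _)
  have h2 := ENNReal.tendsto_coe.2 h1
  have h3 : Tendsto (fun y : ℝ => (ENNReal.ofReal ‖ax y + vec W (n * h) ω‖)⁻¹) (𝓝 0)
      (𝓝 (ENNReal.ofReal ‖ax 0 + vec W (n * h) ω‖)⁻¹) :=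
    tendsto_inv_iff.2 (ENNReal.tendsto_ofReal (hc _))
  simp only [← ENNReal.ofNNReal_finsetProd]
  refine ENNReal.Tendsto.mul h2 ?_ h3 (Or.inr ENNReal.coe_ne_top)
  right
  rw [ENNReal.inv_ne_top, ax_zero]
  simpa using hω

theorem S3_tendsto (hW : TBM W P) {h : ℝ} {n : ℕ} (hn : 0 < n * h) (f : ℕ → ℝ →ᵇ ℝ≥0) :
    Tendsto (fun y : ℝ => S3 W P h n (fun i x => (f i x : ℝ≥0∞)) (ax y)) (𝓝 0)
      (𝓝 (S3 W P h n (fun i x => (f i x : ℝ≥0∞)) (ax 0))) := by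
  unfold S3
  refine tendsto_lintegral_filter_of_dominated_convergence (domf W n f (n * h)) ?_ ?_ ?_ ?_
  · exact Eventually.of_forall fun y => S3_integrand_meas' hW h n f y
  · exact Eventually.of_forall fun y => Eventually.of_forall fun ω => S3_bound n f y ω
  · exact (domf_fin hW n f hn).ne
  · have hae : ∀ᵐ ω ∂P, (0 : E3) + vec W (n * h) ω ≠ 0 := by
      have h1 := G3_ne hn 0
      rw [← hW.map_vec hn.le] at h1
      exact ae_of_ae_map (hW.measurable_vec _).aemeasurable h1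
    filter_upwards [hae] with ω hω
    exact S3_ptwise f hω

theorem S3_one_pos (hW : TBM W P) (h : ℝ) (n : ℕ) (z : E3) :
    S3 W P h n (fun _ _ => 1) z ≠ 0 := by
  have hP := hW.isProb
  unfold S3
  simp only [Finset.prod_const_one, one_mul]
  have hm : Measurable fun ω => (ENNReal.ofReal ‖z + vec W (n * h) ω‖)⁻¹ := by
    have := hW.measurable_vec (n * h)
    fun_prop
  rw [Ne, lintegral_eq_zero_iff hm]
  intro h0
  have hne : (ae P).NeBot := inferInstance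
  obtain ⟨ω, hω⟩ := h0.exists
  simp only [Pi.zero_apply, ENNReal.inv_eq_zero] at hω
  exact ENNReal.ofReal_ne_top hω

theorem Pos_nonpos {Ω' : Type*} {mΩ' : MeasurableSpace Ω'} {P' : Measure Ω'} {b : ℝ → Ω' → ℝ}
    (hb : NBM b P') {y t : ℝ} (hy : y ≤ 0) (ht : 0 ≤ t) : Pos b y t = ∅ := by
  ext ω
  simp only [Pos, Set.mem_ofPred_eq, mem_empty_iff_false, iff_false, not_lt]
  have := mn_le (hb.cont ω) (show (0 : ℝ) ∈ Icc 0 t from ⟨le_rfl, ht⟩)
  have h0 := hb.zero ω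
  linarith

/-- The link between the killed Brownian motion and the three-dimensional process. -/
theorem chain13 {Ω' : Type*} {mΩ' : MeasurableSpace Ω'} {P' : Measure Ω'} {b : ℝ → Ω' → ℝ}
    (hb : NBM b P') (hW : TBM W P) {h : ℝ} (hh : 0 < h) (n : ℕ) {f : ℕ → ℝ → ℝ≥0∞}
    (hf : ∀ i, Measurable (f i)) {y : ℝ} (hy : 0 ≤ y) :
    ∫⁻ ω in Pos b y (n * h), ∏ i ∈ Finset.range n, f i (y + b (((i : ℝ) + 1) * h) ω) ∂P' =
      ENNReal.ofReal y * S3 W P h n f (ax y) := by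
  rcases eq_or_lt_of_le hy with h0 | h0
  · rw [← h0, Pos_nonpos hb le_rfl (by positivity)]
    simp
  · have := chain3 hh n hW hf (ax_ne_zero h0.ne')
    rw [norm_ax, abs_of_pos h0] at this
    rw [this]
    exact chain1 hh n hb hf h0

theorem measurable_S3_ax (hW : TBM W P) (h : ℝ) (n : ℕ) (f : ℕ → ℝ →ᵇ ℝ≥0) :
    Measurable fun y : ℝ => S3 W P h n (fun i x => (f i x : ℝ≥0∞)) (ax y) := by
  have hP := hW.isProb
  unfold S3
  exact (S3_integrand_meas hW h n f).lintegral_prod_right'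

end Helper78.BW
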