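import Mathlib

/-!
Definitions used in the statements on Brownian windows: the σ-algebra of path space, windows of a
process at a random time, and the three-dimensional Bessel process on `[0, 1]`.
-/

open MeasureTheory ProbabilityTheory
open scoped NNReal

namespace Helper78.BW

/-- The Borel σ-algebra on `C(K, ℝ)` (Mathlib has no measurable structure on this space). -/
instance instMeasurableSpaceCI {K : Type*} [TopologicalSpace K] : MeasurableSpace C(K, ℝ) :=
  borel _

instance instBorelSpaceCI {K : Type*} [TopologicalSpace K] : BorelSpace C(K, ℝ) := ⟨rfl⟩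

variable {Ω : Type*} {mΩ : MeasurableSpace Ω}

/-- The random path `X` is the window `(B_{T+u} - B_T; 0 ≤ u ≤ 1)` of the process `B` at the
random time `T`, almost surely. -/
def IsWindow (B : ℝ≥0 → Ω → ℝ) (T : Ω → ℝ≥0) (X : Ω → C(unitInterval, ℝ)) (P : Measure Ω) : Prop :=
  ∀ᵐ ω ∂P, ∀ u : unitInterval, X ω u = B (T ω + unitInterval.toNNReal u) ω - B (T ω) ω

/-- `R` is a three-dimensional Bessel process `(R_u; 0 ≤ u ≤ 1)` started at `0`: almost surely it
is the Euclidean norm of three independent standard Brownian motions. -/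
def IsBessel3 (R : Ω → C(unitInterval, ℝ)) (P : Measure Ω) : Prop :=
  ∃ W : Fin 3 → ℝ≥0 → Ω → ℝ, (∀ i, IsBrownianReal (W i) P) ∧
    iIndepFun (fun i ω t => W i t ω) P ∧
    ∀ᵐ ω ∂P, ∀ u : unitInterval, R ω u = √(∑ i, W i (unitInterval.toNNReal u) ω ^ 2)

end Helper78.BW
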