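import Mathlib
import Pool.Agent.Helper78.BW.Defs

/-!
Path space `C([0,1], ℝ)`: the Borel σ-algebra is generated by evaluations; finite measures are
determined by dyadic skeletons.
-/

open MeasureTheory Set Filter Topology
open scoped ENNReal NNReal unitInterval BoundedContinuousFunction

namespace Helper78.BW

section
variable {K : Type*} [TopologicalSpace K] [CompactSpace K] [T2Space K] [SecondCountableTopology K]
  {α : Type*} {mα : MeasurableSpace α}

/-- A map into `C(K, ℝ)` is measurable as soon as its evaluations on a dense set are. -/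
theorem measurable_of_eval_dense {f : α → C(K, ℝ)} {D : Set K} (hD : Dense D) (hDc : D.Countable)
    (h : ∀ x ∈ D, Measurable fun a => f a x) : Measurable f := by
  apply measurable_of_isOpen
  intro U hU
  have key : ∀ (g : C(K, ℝ)) (r : ℝ), 0 ≤ r → MeasurableSet (f ⁻¹' Metric.closedBall g r) := by
    intro g r hr
    have : f ⁻¹' Metric.closedBall g r = ⋂ x ∈ D, {a | dist (f a x) (g x) ≤ r} := by
      ext a
      simp only [mem_preimage, Metric.mem_closedBall, mem_iInter, Set.mem_ofPred_eq]
      rw [ContinuousMap.dist_le hr]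
      constructor
      · intro h x _
        exact h x
      · intro h x
        have hcl : IsClosed {x | dist (f a x) (g x) ≤ r} := by
          apply isClosed_le _ continuous_const
          fun_prop
        exact hcl.closure_subset_iff.2 (fun x hx => h x hx) (hD x)
    rw [this]
    refine MeasurableSet.biInter hDc fun x hx => ?_
    exact measurableSet_le ((h x hx).dist measurable_const) measurable_const
  let d := TopologicalSpace.denseSeq C(K, ℝ)
  have hU' : U = ⋃ (n : ℕ) (m : ℕ) (_ : Metric.closedBall (d n) (1 / ((m : ℝ) + 1)) ⊆ U),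
      Metric.closedBall (d n) (1 / ((m : ℝ) + 1)) := by
    ext g
    simp only [mem_iUnion, exists_prop]
    constructor
    · intro hg
      obtain ⟨ε, hε, hb⟩ := Metric.isOpen_iff.1 hU g hg
      obtain ⟨m, hm⟩ := exists_nat_one_div_lt (half_pos hε)
      have hpos : (0 : ℝ) < 1 / ((m : ℝ) + 1) := by positivity
      obtain ⟨n, hn⟩ := (TopologicalSpace.denseRange_denseSeq C(K, ℝ)).exists_dist_lt g hpos
      refine ⟨n, m, ?_, ?_⟩
      · intro g' hg'
        apply hb
        rw [Metric.mem_ball]
        rw [Metric.mem_closedBall] at hg'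
        calc dist g' g ≤ dist g' (d n) + dist (d n) g := dist_triangle _ _ _
          _ < ε / 2 + ε / 2 := by
              have := hn
              rw [dist_comm] at this
              have h2 : dist (d n) g < ε / 2 := lt_trans this hm
              have h3 : dist g' (d n) < ε / 2 := lt_of_le_of_lt hg' hm
              exact add_lt_add h3 h2
          _ = ε := by ring
      · rw [Metric.mem_closedBall]
        exact hn.le
    · rintro ⟨n, m, hsub, hg⟩
      exact hsub hg
  rw [hU']
  simp only [preimage_iUnion]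
  refine MeasurableSet.iUnion fun n => MeasurableSet.iUnion fun m => MeasurableSet.iUnion fun _ => ?_
  exact key _ _ (by positivity)

theorem measurable_of_eval {f : α → C(K, ℝ)} (h : ∀ x, Measurable fun a => f a x) :
    Measurable f := by
  obtain ⟨D, hDc, hD⟩ := TopologicalSpace.exists_countable_dense K
  exact measurable_of_eval_dense hD hDc fun x _ => h x

omit [CompactSpace K] [T2Space K] [SecondCountableTopology K] in
theorem measurable_eval (x : K) : Measurable fun w : C(K, ℝ) => w x :=
  (continuous_eval_const x).measurable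

end

/-- The dyadic point `i / 2 ^ m` of `[0, 1]`. -/
noncomputable def dy (m : ℕ) (i : Fin (2 ^ m + 1)) : unitInterval :=
  ⟨(i : ℝ) / 2 ^ m, by positivity, by
    rw [div_le_one (by positivity)]
    have : (i : ℕ) ≤ 2 ^ m := Nat.lt_succ_iff.1 i.2
    exact_mod_cast this⟩

/-- The skeleton of a path at level `m`. -/
noncomputable def sk (m : ℕ) (w : C(unitInterval, ℝ)) : Fin (2 ^ m + 1) → ℝ := fun i => w (dy m i)

theorem measurable_sk (m : ℕ) : Measurable (sk m) :=
  measurable_pi_lambda _ fun i => measurable_eval (dy m i)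

theorem sk_factor {m m' : ℕ} (h : m ≤ m') :
    ∃ r : (Fin (2 ^ m' + 1) → ℝ) → (Fin (2 ^ m + 1) → ℝ), Measurable r ∧
      ∀ w, sk m w = r (sk m' w) := by
  have hlt : ∀ i : Fin (2 ^ m + 1), (i : ℕ) * 2 ^ (m' - m) < 2 ^ m' + 1 := by
    intro i
    have hi : (i : ℕ) ≤ 2 ^ m := Nat.lt_succ_iff.1 i.2
    have : (i : ℕ) * 2 ^ (m' - m) ≤ 2 ^ m * 2 ^ (m' - m) := Nat.mul_le_mul_right _ hi
    rw [← pow_add, Nat.add_sub_cancel' h] at this
    omega
  refine ⟨fun v i => v ⟨(i : ℕ) * 2 ^ (m' - m), hlt i⟩, ?_, ?_⟩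
  · exact measurable_pi_lambda _ fun i => measurable_pi_apply _
  · intro w
    funext i
    unfold sk
    congr 1
    apply Subtype.ext
    show (i : ℝ) / 2 ^ m = (((i : ℕ) * 2 ^ (m' - m) : ℕ) : ℝ) / 2 ^ m'
    push_cast
    have h2 : (2 : ℝ) ^ m' = 2 ^ m * 2 ^ (m' - m) := by
      rw [← pow_add, Nat.add_sub_cancel' h]
    rw [h2]
    field_simp

/-- The set of dyadic points is dense in `[0, 1]`. -/
theorem dense_dy : Dense (⋃ m : ℕ, Set.range (dy m)) := by
  rw [Metric.dense_iff]
  intro x r hr
  obtain ⟨m, hm⟩ := exists_pow_lt_of_lt_one hr (by norm_num : (1 / 2 : ℝ) < 1)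
  have hx0 : (0 : ℝ) ≤ x := x.2.1
  have hx1 : (x : ℝ) ≤ 1 := x.2.2
  have hp : (0 : ℝ) < 2 ^ m := by positivity
  set k : ℕ := ⌊(x : ℝ) * 2 ^ m⌋₊ with hk
  have hk1 : (k : ℝ) ≤ x * 2 ^ m := Nat.floor_le (by positivity)
  have hk2 : (x : ℝ) * 2 ^ m < k + 1 := Nat.lt_floor_add_one _
  have hklt : k < 2 ^ m + 1 := by
    have : (k : ℝ) ≤ 2 ^ m := hk1.trans (by nlinarith)
    have : k ≤ 2 ^ m := by exact_mod_cast this
    omega
  refine ⟨dy m ⟨k, hklt⟩, ?_, mem_iUnion.2 ⟨m, mem_range_self _⟩⟩
  rw [Metric.mem_ball, Subtype.dist_eq, Real.dist_eq]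
  show |(k : ℝ) / 2 ^ m - x| < r
  have h1 : (k : ℝ) / 2 ^ m ≤ x := by rw [div_le_iff₀ hp]; exact hk1
  have h2 : (x : ℝ) < (k + 1) / 2 ^ m := by rw [lt_div_iff₀ hp]; exact hk2
  rw [abs_sub_comm, abs_of_nonneg (by linarith)]
  have h3 : ((k : ℝ) + 1) / 2 ^ m = k / 2 ^ m + (1 / 2) ^ m := by
    rw [add_div, one_div_pow]
  linarith

theorem countable_dy : (⋃ m : ℕ, Set.range (dy m)).Countable :=
  countable_iUnion fun _ => countable_range _

/-- Two finite measures on pairs of paths with the same integrals of products of bounded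
continuous functions of dyadic evaluations are equal. -/
theorem ext_path_prod {μ ν : Measure (C(unitInterval, ℝ) × C(unitInterval, ℝ))}
    [IsFiniteMeasure μ]
    (h : ∀ (m : ℕ) (f g : Fin (2 ^ m + 1) → ℝ →ᵇ ℝ≥0),
      ∫⁻ p, (∏ i, (f i (p.1 (dy m i)) : ℝ≥0∞)) * ∏ j, (g j (p.2 (dy m j)) : ℝ≥0∞) ∂μ =
      ∫⁻ p, (∏ i, (f i (p.1 (dy m i)) : ℝ≥0∞)) * ∏ j, (g j (p.2 (dy m j)) : ℝ≥0∞) ∂ν) :
    μ = ν := by
  have hμν : μ univ = ν univ := by
    have := h 0 1 1
    simpa using this
  have hsk : ∀ m, Measurable fun p : C(unitInterval, ℝ) × C(unitInterval, ℝ) =>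
      (sk m p.1, sk m p.2) := fun m =>
    ((measurable_sk m).comp measurable_fst).prodMk ((measurable_sk m).comp measurable_snd)
  have hmap : ∀ m, μ.map (fun p => (sk m p.1, sk m p.2)) =
      ν.map (fun p => (sk m p.1, sk m p.2)) := by
    intro m
    apply Measure.ext_of_lintegral_prod_mul_prod_boundedContinuousFunction
    intro f g
    rw [lintegral_map _ (hsk m), lintegral_map _ (hsk m)]
    · have := h m f g
      simp only [ENNReal.coe_finsetProd, sk]
      exact this
    · fun_prop
    · fun_prop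
  let π : Set (Set (C(unitInterval, ℝ) × C(unitInterval, ℝ))) :=
    {A | ∃ (m : ℕ) (S : Set ((Fin (2 ^ m + 1) → ℝ) × (Fin (2 ^ m + 1) → ℝ))),
      MeasurableSet S ∧ A = (fun p => (sk m p.1, sk m p.2)) ⁻¹' S}
  have hmono : ∀ {m m' : ℕ}, m ≤ m' →
      ∀ S : Set ((Fin (2 ^ m + 1) → ℝ) × (Fin (2 ^ m + 1) → ℝ)), MeasurableSet S →
      ∃ S' : Set ((Fin (2 ^ m' + 1) → ℝ) × (Fin (2 ^ m' + 1) → ℝ)), MeasurableSet S' ∧
        (fun p : C(unitInterval, ℝ) × C(unitInterval, ℝ) => (sk m p.1, sk m p.2)) ⁻¹' S =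
        (fun p => (sk m' p.1, sk m' p.2)) ⁻¹' S' := by
    intro m m' hmm S hS
    obtain ⟨r, hr, hrw⟩ := sk_factor hmm
    refine ⟨(fun q => (r q.1, r q.2)) ⁻¹' S, ?_, ?_⟩
    · exact ((hr.comp measurable_fst).prodMk (hr.comp measurable_snd)) hS
    · ext p
      simp only [mem_preimage, hrw]
  have hπ1 : IsPiSystem π := by
    rintro A ⟨m, S, hS, rfl⟩ B ⟨m', S', hS', rfl⟩ -
    obtain ⟨T, hT, hT'⟩ := hmono (le_max_left m m') S hS
    obtain ⟨T2, hT2, hT2'⟩ := hmono (le_max_right m m') S' hS'
    refine ⟨max m m', T ∩ T2, hT.inter hT2, ?_⟩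
    rw [hT', hT2', preimage_inter]
  have hπ2 : (Prod.instMeasurableSpace :
      MeasurableSpace (C(unitInterval, ℝ) × C(unitInterval, ℝ))) =
      MeasurableSpace.generateFrom π := by
    apply le_antisymm
    · have hfst : @Measurable _ _ (MeasurableSpace.generateFrom π) _
          (fun p : C(unitInterval, ℝ) × C(unitInterval, ℝ) => p.1) := by
        apply @measurable_of_eval_dense _ _ _ _ _ _ (MeasurableSpace.generateFrom π) _ _
          dense_dy countable_dy
        intro x hx
        obtain ⟨m, i, rfl⟩ := mem_iUnion.1 hx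
        intro s hs
        apply MeasurableSpace.measurableSet_generateFrom
        refine ⟨m, (fun q => q.1 i) ⁻¹' s, ?_, rfl⟩
        exact ((measurable_pi_apply i).comp measurable_fst) hs
      have hsnd : @Measurable _ _ (MeasurableSpace.generateFrom π) _
          (fun p : C(unitInterval, ℝ) × C(unitInterval, ℝ) => p.2) := by
        apply @measurable_of_eval_dense _ _ _ _ _ _ (MeasurableSpace.generateFrom π) _ _
          dense_dy countable_dy
        intro x hx
        obtain ⟨m, i, rfl⟩ := mem_iUnion.1 hx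
        intro s hs
        apply MeasurableSpace.measurableSet_generateFrom
        refine ⟨m, (fun q => q.2 i) ⁻¹' s, ?_, rfl⟩
        exact ((measurable_pi_apply i).comp measurable_snd) hs
      exact sup_le (measurable_iff_comap_le.1 hfst) (measurable_iff_comap_le.1 hsnd)
    · apply MeasurableSpace.generateFrom_le
      rintro A ⟨m, S, hS, rfl⟩
      exact hsk m hS
  refine ext_of_generate_finite π hπ2 hπ1 ?_ hμν
  rintro A ⟨m, S, hS, rfl⟩
  rw [← Measure.map_apply (hsk m) hS, ← Measure.map_apply (hsk m) hS, hmap m]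

/-- Two finite measures on paths with the same integrals of products of bounded
continuous functions of dyadic evaluations are equal. -/
theorem ext_path {μ ν : Measure C(unitInterval, ℝ)} [IsFiniteMeasure μ] [IsFiniteMeasure ν]
    (h : ∀ (m : ℕ) (f : Fin (2 ^ m + 1) → ℝ →ᵇ ℝ≥0),
      ∫⁻ w, (∏ i, (f i (w (dy m i)) : ℝ≥0∞)) ∂μ = ∫⁻ w, (∏ i, (f i (w (dy m i)) : ℝ≥0∞)) ∂ν) :
    μ = ν := by
  let c : C(unitInterval, ℝ) := 0
  have key : μ.prod (Measure.dirac c) = ν.prod (Measure.dirac c) := by
    apply ext_path_prod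
    intro m f g
    rw [lintegral_prod, lintegral_prod]
    · simp only [lintegral_dirac]
      rw [lintegral_mul_const, lintegral_mul_const, h m f]
      · exact Finset.measurable_prod _ fun i _ =>
          (((f i).continuous.measurable.comp (measurable_eval (dy m i)))).coe_nnreal_ennreal
      · exact Finset.measurable_prod _ fun i _ =>
          (((f i).continuous.measurable.comp (measurable_eval (dy m i)))).coe_nnreal_ennreal
    all_goals
      refine Measurable.aemeasurable (Measurable.mul ?_ ?_)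
      · exact Finset.measurable_prod _ fun i _ =>
          (((f i).continuous.measurable.comp
            ((measurable_eval (dy m i)).comp measurable_fst))).coe_nnreal_ennreal
      · exact Finset.measurable_prod _ fun i _ =>
          (((g i).continuous.measurable.comp
            ((measurable_eval (dy m i)).comp measurable_snd))).coe_nnreal_ennreal
  have h1 : (μ.prod (Measure.dirac c)).map Prod.fst = μ := by
    rw [Measure.map_fst_prod]; simp
  have h2 : (ν.prod (Measure.dirac c)).map Prod.fst = ν := by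
    rw [Measure.map_fst_prod]; simp
  rw [← h1, ← h2, key]

end Helper78.BW
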