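import Mathlib
import Pool.Agent.Helper78.BW.Lim
import Pool.Agent.Helper78.BW.Path

/-!
Null events, measurability of the last argmin and of windows.
-/

open MeasureTheory ProbabilityTheory Set Filter Topology
open scoped ENNReal NNReal Real unitInterval

namespace Helper78.BW

variable {Ω : Type*} {mΩ : MeasurableSpace Ω} {P : Measure Ω} {b : ℝ → Ω → ℝ}

theorem P_Pos (hb : NBM b P) {y t : ℝ} (hy : 0 < y) (ht : 0 ≤ t) :
    P (Pos b y t) = P (b t ⁻¹' Ioc (-y) y) := by
  have hP := hb.isProb
  have hm : Measurable fun ω => y + b t ω := measurable_const.add (hb.meas _)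
  have hm2 : Measurable fun ω => -y + b t ω := measurable_const.add (hb.meas _)
  have h := congrArg (fun μ : Measure ℝ => μ univ) (refl_measure hb hy ht)
  simp only [Measure.add_apply] at h
  rw [Measure.map_apply hm MeasurableSet.univ, Measure.restrict_apply_univ,
    Measure.restrict_apply_univ, ← hb.map_add y ht, ← hb.map_add (-y) ht,
    Measure.map_apply hm measurableSet_Ioi, Measure.map_apply hm2 measurableSet_Ioi,
    preimage_univ, Measure.restrict_apply_univ] at h
  have e1 : (fun ω => y + b t ω) ⁻¹' Ioi 0 = b t ⁻¹' Ioc (-y) y ∪ b t ⁻¹' Ioi y := by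
    ext ω
    simp only [mem_preimage, mem_Ioi, mem_union, mem_Ioc]
    constructor
    · intro h1
      rcases le_or_gt (b t ω) y with h2 | h2
      · left; exact ⟨by linarith, h2⟩
      · right; exact h2
    · rintro (h1 | h1)
      · linarith [h1.1]
      · linarith
  have e2 : (fun ω => -y + b t ω) ⁻¹' Ioi 0 = b t ⁻¹' Ioi y := by
    ext ω
    simp only [mem_preimage, mem_Ioi]
    constructor <;> intro h1 <;> linarith
  rw [e1, e2, measure_union _ (hb.meas t measurableSet_Ioi)] at h
  · exact (ENNReal.add_left_inj (measure_ne_top _ _)).1 h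
  · rw [Set.disjoint_left]
    rintro ω h1 h2
    simp only [mem_preimage, mem_Ioi, mem_Ioc] at h1 h2
    linarith [h1.2]

theorem gaussianPDF_le (v : ℝ≥0) (x : ℝ) :
    gaussianPDF 0 v x ≤ ENNReal.ofReal ((√(2 * π * v))⁻¹) := by
  unfold gaussianPDF gaussianPDFReal
  apply ENNReal.ofReal_le_ofReal
  calc (√(2 * π * v))⁻¹ * Real.exp (-(x - 0) ^ 2 / (2 * v)) ≤ (√(2 * π * v))⁻¹ * 1 := by
        apply mul_le_mul_of_nonneg_left _ (by positivity)
        rw [Real.exp_le_one_iff]
        apply div_nonpos_of_nonpos_of_nonneg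
        · rw [neg_nonpos]; positivity
        · positivity
    _ = _ := mul_one _

theorem P_Pos_le (hb : NBM b P) {y t : ℝ} (hy : 0 < y) (ht : 0 < t) :
    P (Pos b y t) ≤ ENNReal.ofReal ((√(2 * π * t))⁻¹) * ENNReal.ofReal (2 * y) := by
  have hv : t.toNNReal ≠ 0 := by simpa using ht
  rw [P_Pos hb hy ht.le, ← Measure.map_apply (hb.meas t) measurableSet_Ioc, hb.hasLaw ht.le,
    gaussianReal_apply _ hv]
  calc ∫⁻ x in Ioc (-y) y, gaussianPDF 0 t.toNNReal x
      ≤ ∫⁻ _ in Ioc (-y) y, ENNReal.ofReal ((√(2 * π * t))⁻¹) := by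
        apply lintegral_mono
        intro x
        have := gaussianPDF_le t.toNNReal x
        rwa [Real.coe_toNNReal t ht.le] at this
    _ = _ := by
        rw [lintegral_const, Measure.restrict_apply_univ, Real.volume_Ioc]
        congr 2
        ring

/-- A lower bound for the probability of staying positive. -/
theorem le_P_Pos (hb : NBM b P) {y : ℝ} (hy : 0 < y) (hy1 : y ≤ 1) :
    ENNReal.ofReal (gaussianPDFReal 0 1 1) * ENNReal.ofReal (2 * y) ≤ P (Pos b y 1) := by
  have hv : (1 : ℝ).toNNReal ≠ 0 := by simp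
  rw [P_Pos hb hy zero_le_one, ← Measure.map_apply (hb.meas 1) measurableSet_Ioc,
    hb.hasLaw zero_le_one, gaussianReal_apply _ hv]
  calc _ = ∫⁻ _ in Ioc (-y) y, ENNReal.ofReal (gaussianPDFReal 0 1 1) := by
        rw [lintegral_const, Measure.restrict_apply_univ, Real.volume_Ioc]
        congr 2
        ring
    _ ≤ _ := by
        apply setLIntegral_mono (measurable_gaussianPDF _ _)
        intro x hx
        unfold gaussianPDF
        apply ENNReal.ofReal_le_ofReal
        rw [Real.toNNReal_one]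
        unfold gaussianPDFReal
        apply mul_le_mul_of_nonneg_left _ (by positivity)
        apply Real.exp_le_exp.2
        apply div_le_div_of_nonneg_right _ (by positivity)
        have : x ^ 2 ≤ 1 := by
          have h1 : |x| ≤ 1 := abs_le.2 ⟨by linarith [hx.1], by linarith [hx.2]⟩
          rw [← sq_abs]
          nlinarith [abs_nonneg x]
        nlinarith

theorem null_mn (hb : NBM b P) {t : ℝ} (ht : 0 < t) :
    P {ω | 0 ≤ mn (fun s => b s ω) 0 t} = 0 := by
  have h1 : ∀ y, 0 < y → P {ω | 0 ≤ mn (fun s => b s ω) 0 t} ≤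
      ENNReal.ofReal ((√(2 * π * t))⁻¹) * ENNReal.ofReal (2 * y) := by
    intro y hy
    refine le_trans (measure_mono ?_) (P_Pos_le hb hy ht)
    intro ω hω
    simp only [Set.mem_ofPred_eq] at hω
    show 0 < y + mn (fun s => b s ω) 0 t
    linarith
  have h2 : Tendsto (fun y : ℝ => ENNReal.ofReal ((√(2 * π * t))⁻¹) * ENNReal.ofReal (2 * y))
      (𝓝[>] 0) (𝓝 0) := by
    have : Tendsto (fun y : ℝ => ENNReal.ofReal ((√(2 * π * t))⁻¹) * ENNReal.ofReal (2 * y))
        (𝓝[>] 0) (𝓝 (ENNReal.ofReal ((√(2 * π * t))⁻¹) * ENNReal.ofReal (2 * 0))) := by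
      apply ENNReal.Tendsto.const_mul
      · apply ENNReal.tendsto_ofReal
        exact ((continuous_const.mul continuous_id).tendsto (0 : ℝ)).mono_left
          nhdsWithin_le_nhds
      · right; exact ENNReal.ofReal_ne_top
    simpa using this
  apply le_antisymm _ zero_le
  apply ge_of_tendsto h2
  filter_upwards [self_mem_nhdsWithin] with y hy
  exact h1 y hy

theorem null_la (hb : NBM b P) {δ c : ℝ} (hc : c ∈ Ico 0 δ) :
    P {ω | la (fun s => b s ω) δ = c} = 0 := by
  have h1 := null_mn (hb.shift hc.1) (t := δ - c) (by linarith [hc.2])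
  refine measure_mono_null ?_ h1
  intro ω hω
  simp only [Set.mem_ofPred_eq] at hω ⊢
  have hcd : c ≤ δ := hc.2.le
  obtain ⟨_, h2, _⟩ := la_spec (hb.cont ω) (hc.1.trans hcd)
  rw [le_mn_iff ((hb.shift hc.1).cont ω) (by linarith)]
  intro s hs
  simp only [sh]
  rw [hω] at h2
  rw [h2]
  have := mn_le (hb.cont ω) (show c + s ∈ Icc 0 δ from ⟨by linarith [hs.1, hc.1], by
    linarith [hs.2]⟩)
  linarith

/-! ### Measurability -/

theorem measurable_la {m : MeasurableSpace Ω} (hcont : ∀ ω, Continuous fun t => b t ω) {δ : ℝ}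
    (hδ : 0 ≤ δ) (h : ∀ t ∈ Icc 0 δ, Measurable[m] (b t)) :
    Measurable[m] fun ω => la (fun t => b t ω) δ := by
  apply measurable_of_Iio
  intro c
  rcases le_or_gt c 0 with hc | hc
  · have : (fun ω => la (fun t => b t ω) δ) ⁻¹' Iio c = ∅ := by
      ext ω
      simp only [mem_preimage, mem_Iio, mem_empty_iff_false, iff_false, not_lt]
      exact hc.trans (la_spec (hcont ω) hδ).1.1
    rw [this]
    exact MeasurableSet.empty
  · rcases le_or_gt c δ with hc2 | hc2
    · have : (fun ω => la (fun t => b t ω) δ) ⁻¹' Iio c =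
          {ω | mn (fun t => b t ω) 0 δ < mn (fun t => b t ω) c δ} := by
        ext ω
        simp only [mem_preimage, mem_Iio, Set.mem_ofPred_eq]
        exact la_lt_iff (hcont ω) ⟨hc.le, hc2⟩
      rw [this]
      have m1 := measurable_mn (m := m) (b := b) hδ h
      have m2 := measurable_mn (m := m) (b := b) hc2 fun t ht => h t ⟨hc.le.trans ht.1, ht.2⟩
      exact measurableSet_lt m1 m2
    · have : (fun ω => la (fun t => b t ω) δ) ⁻¹' Iio c = univ := by
        ext ω
        simp only [mem_preimage, mem_Iio, mem_univ, iff_true]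
        exact (la_spec (hcont ω) hδ).1.2.trans_lt hc2
      rw [this]
      exact MeasurableSet.univ

theorem measurable_eval_time {m : MeasurableSpace Ω} (hcont : ∀ ω, Continuous fun t => b t ω)
    {a c : ℝ} (hac : a ≤ c) (h : ∀ t ∈ Icc a c, Measurable[m] (b t)) {S : Ω → ℝ}
    (hS : Measurable[m] S) (hS2 : ∀ ω, S ω ∈ Icc a c) :
    Measurable[m] fun ω => b (S ω) ω := by
  have h1 : Measurable (Function.uncurry fun (t : ℝ) ω => b (projIcc a c hac t) ω) := by
    apply measurable_uncurry_of_continuous_of_measurable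
    · intro ω
      exact (hcont ω).comp (continuous_subtype_val.comp continuous_projIcc)
    · intro t
      exact h _ (projIcc a c hac t).2
  have h2 : Measurable[m] fun ω => (S ω, ω) := hS.prodMk measurable_id
  have h3 := h1.comp h2
  have e : (fun ω => b (S ω) ω) = (Function.uncurry fun (t : ℝ) ω => b (projIcc a c hac t) ω) ∘
      fun ω => (S ω, ω) := by
    funext ω
    simp only [Function.comp, Function.uncurry]
    rw [projIcc_of_mem hac (hS2 ω)]
  rw [e]
  exact h3

open Classical in
/-- The window of the path `w` at `T`. -/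
noncomputable def win (w : ℝ → ℝ) (T : ℝ) : C(unitInterval, ℝ) :=
  if hw : Continuous w then ⟨fun s => w (T + s) - w T, by fun_prop⟩ else 0

theorem win_apply {w : ℝ → ℝ} (hw : Continuous w) (T : ℝ) (s : unitInterval) :
    win w T s = w (T + s) - w T := by
  unfold win
  rw [dif_pos hw]
  rfl

theorem measurable_win {m : MeasurableSpace Ω} (hcont : ∀ ω, Continuous fun t => b t ω)
    {a c : ℝ} (h : ∀ t ∈ Icc a c, Measurable[m] (b t)) {T : Ω → ℝ}
    (hT : Measurable[m] T) (hT2 : ∀ ω, a ≤ T ω ∧ T ω + 1 ≤ c) :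
    Measurable[m] fun ω => win (fun t => b t ω) (T ω) := by
  rcases isEmpty_or_nonempty Ω with hΩ | ⟨⟨ω0⟩⟩
  · exact measurable_of_empty _
  have hac : a ≤ c := by
    have := hT2 ω0
    linarith [this.1, this.2]
  apply measurable_of_eval
  intro s
  simp only [win_apply (hcont _)]
  have hs0 : (0 : ℝ) ≤ s := s.2.1
  have hs1 : (s : ℝ) ≤ 1 := s.2.2
  apply Measurable.sub
  · apply measurable_eval_time hcont hac h (hT.add_const _)
    intro ω
    obtain ⟨h1, h2⟩ := hT2 ω
    exact ⟨by linarith, by linarith⟩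
  · apply measurable_eval_time hcont hac h hT
    intro ω
    obtain ⟨h1, h2⟩ := hT2 ω
    exact ⟨by linarith, by linarith⟩

end Helper78.BW
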