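import Mathlib
import Pool.Agent.Helper78.BW.Null

/-!
The contribution of one grid cell to the law of the candidate window.
-/

open MeasureTheory ProbabilityTheory Set Filter Topology
open scoped ENNReal NNReal Real unitInterval

namespace Helper78.BW

variable {Ω : Type*} {mΩ : MeasurableSpace Ω} {P : Measure Ω} {b : ℝ → Ω → ℝ}
variable {Ω' : Type*} {mΩ' : MeasurableSpace Ω'} {P' : Measure Ω'} {W : Fin 3 → ℝ → Ω' → ℝ}

/-- the product functional on the finite-dimensional law -/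
noncomputable def fdG (g : ℕ → ℝ → ℝ≥0∞) (h : ℝ) (n : ℕ)
    (v : ((Finset.range n).image (fun j : ℕ => (((j : ℝ) + 1) * h).toNNReal)) → ℝ) : ℝ≥0∞ :=
  ∏ j ∈ Finset.range n, g j (if ht : (((j : ℝ) + 1) * h).toNNReal ∈
    ((Finset.range n).image (fun j : ℕ => (((j : ℝ) + 1) * h).toNNReal)) then
      v ⟨(((j : ℝ) + 1) * h).toNNReal, ht⟩ else 0)

theorem fdd_aux (hb : NBM b P) {g : ℕ → ℝ → ℝ≥0∞}
    (hg : ∀ i, Measurable (g i)) {h : ℝ} (hh : 0 ≤ h) (n : ℕ) :
    ∫⁻ ω, ∏ j ∈ Finset.range n, g j (b (((j : ℝ) + 1) * h) ω) ∂P =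
      ∫⁻ v, fdG g h n v ∂(BrownianReal.projectiveFamily
        ((Finset.range n).image (fun j : ℕ => (((j : ℝ) + 1) * h).toNNReal))) := by
  have hGm : Measurable (fdG g h n) := by
    apply Finset.measurable_prod
    intro j _
    apply (hg j).comp
    split_ifs with ht
    · exact measurable_pi_apply _
    · exact measurable_const
  have h1 := (hb.pre.hasLaw
    ((Finset.range n).image (fun j : ℕ => (((j : ℝ) + 1) * h).toNNReal))).map_eq
  have hm : Measurable (fun ω => ((Finset.range n).image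
      (fun j : ℕ => (((j : ℝ) + 1) * h).toNNReal)).restrict (fun x : ℝ≥0 => b x ω)) :=
    measurable_pi_lambda _ fun i => hb.meas _
  rw [← h1, lintegral_map hGm hm]
  apply lintegral_congr
  intro ω
  apply Finset.prod_congr rfl
  intro j hj
  have ht : (((j : ℝ) + 1) * h).toNNReal ∈
      ((Finset.range n).image (fun j : ℕ => (((j : ℝ) + 1) * h).toNNReal)) :=
    Finset.mem_image_of_mem (fun j : ℕ => (((j : ℝ) + 1) * h).toNNReal) hj
  rw [dif_pos ht]
  congr 1
  show b (((j : ℝ) + 1) * h) ω = b (((((j : ℝ) + 1) * h).toNNReal : ℝ≥0) : ℝ) ω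
  rw [Real.coe_toNNReal _ (by positivity)]

/-- Finite-dimensional laws agree. -/
theorem fdd_eq {b' : ℝ → Ω' → ℝ} (hb : NBM b P) (hb' : NBM b' P') {g : ℕ → ℝ → ℝ≥0∞}
    (hg : ∀ i, Measurable (g i)) {h : ℝ} (hh : 0 ≤ h) (n : ℕ) :
    ∫⁻ ω, ∏ j ∈ Finset.range n, g j (b (((j : ℝ) + 1) * h) ω) ∂P =
      ∫⁻ ω, ∏ j ∈ Finset.range n, g j (b' (((j : ℝ) + 1) * h) ω) ∂P' := by
  rw [fdd_aux hb hg hh n, fdd_aux hb' hg hh n]

/-- The height above the running minimum at the end of cell `k`. -/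
noncomputable def yk (b : ℝ → Ω → ℝ) (e : ℝ) (k : ℕ) (ω : Ω) : ℝ :=
  b (((k : ℝ) + 1) * e) ω - mn (fun t => b t ω) 0 (((k : ℝ) + 1) * e)

theorem yk_nonneg (hb : NBM b P) {e : ℝ} (he : 0 ≤ e) (k : ℕ) (ω : Ω) : 0 ≤ yk b e k ω := by
  unfold yk
  have := mn_le (hb.cont ω) (show ((k : ℝ) + 1) * e ∈ Icc 0 (((k : ℝ) + 1) * e) from
    ⟨by positivity, le_rfl⟩)
  linarith

/-- the event that the running minimum at the end of cell `k` is attained in the cell -/
def Uk (b : ℝ → Ω → ℝ) (e : ℝ) (k : ℕ) : Set Ω :=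
  {ω | mn (fun t => b t ω) (k * e) ((k + 1) * e) ≤ mn (fun t => b t ω) 0 (k * e)}

theorem gev_iff (hb : NBM b P) {e : ℝ} (k : ℕ) (ω : Ω) :
    gev (fun t => b t ω) e k ↔ ω ∈ Uk b e k ∧ ω ∈ Pos (sh b (((k : ℝ) + 1) * e)) (yk b e k ω) 1 := by
  unfold gev Uk Pos yk
  simp only [Set.mem_ofPred_eq]
  have h1 := mn_shift (hb.cont ω) (((k : ℝ) + 1) * e) (-b (((k : ℝ) + 1) * e) ω)
    (show (0 : ℝ) ≤ 1 from zero_le_one)
  rw [add_zero] at h1
  have h2 : mn (fun t => sh b (((k : ℝ) + 1) * e) t ω) 0 1 =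
      mn (fun t => b t ω) (((k : ℝ) + 1) * e) (((k : ℝ) + 1) * e + 1) +
        -b (((k : ℝ) + 1) * e) ω := by
    rw [← h1]
    rfl
  rw [h2]
  constructor
  · rintro ⟨a1, a2⟩
    exact ⟨a1, by linarith⟩
  · rintro ⟨a1, a2⟩
    exact ⟨a1, by linarith⟩

theorem measurable_yk_Fle {e : ℝ} (he : 0 ≤ e) (k : ℕ) :
    Measurable[Fle b (((k : ℝ) + 1) * e)] (yk b e k) := by
  unfold yk
  apply Measurable.sub
  · exact measurable_Fle (by positivity) le_rfl
  · exact measurable_mn (m := Fle b (((k : ℝ) + 1) * e)) (by positivity) fun s hs =>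
      measurable_Fle hs.1 hs.2

theorem measurableSet_Uk_Fle {e : ℝ} (he : 0 ≤ e) (k : ℕ) :
    MeasurableSet[Fle b (((k : ℝ) + 1) * e)] (Uk b e k) := by
  have hk : (k : ℝ) * e ≤ (k + 1) * e := by nlinarith
  have hk0 : 0 ≤ (k : ℝ) * e := by positivity
  have m1 : Measurable[Fle b (((k : ℝ) + 1) * e)] fun ω => mn (fun t => b t ω) (k * e) ((k + 1) * e) :=
    measurable_mn (m := Fle b (((k : ℝ) + 1) * e)) hk fun s hs =>
      measurable_Fle (hk0.trans hs.1) hs.2
  have m2 : Measurable[Fle b (((k : ℝ) + 1) * e)] fun ω => mn (fun t => b t ω) 0 (k * e) :=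
    measurable_mn (m := Fle b (((k : ℝ) + 1) * e)) hk0 fun s hs =>
      measurable_Fle hs.1 (hs.2.trans hk)
  exact measurableSet_le m1 m2

theorem Fle_mono {s s' : ℝ} (h : s ≤ s') : Fle b s ≤ Fle b s' := by
  unfold Fle
  have hle : s.toNNReal ≤ s'.toNNReal := Real.toNNReal_le_toNNReal h
  have h1 : @Measurable _ _ (Fle b s') _ (fun ω (u : Set.Iic s'.toNNReal) => b u ω) :=
    comap_measurable _
  have h2 : @Measurable _ _ (Fle b s') _ (fun ω (u : Set.Iic s.toNNReal) => b u ω) := by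
    have e : (fun ω (u : Set.Iic s.toNNReal) => b u ω) =
      (fun (v : Set.Iic s'.toNNReal → ℝ) (u : Set.Iic s.toNNReal) => v ⟨u, u.2.trans hle⟩) ∘
        (fun ω (u : Set.Iic s'.toNNReal) => b u ω) := by
      funext ω u
      rfl
    rw [e]
    exact (measurable_pi_lambda _ fun u => measurable_pi_apply _).comp h1
  exact h2.comap_le

/-- sub-process measurability -/
theorem measurable_sh_Fle {s t u : ℝ} (hs : 0 ≤ s) (ht : 0 ≤ t) (hu : s + t ≤ u) :
    Measurable[Fle b u] (sh b s t) := by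
  unfold sh
  apply Measurable.sub
  · exact measurable_Fle (by linarith) hu
  · exact measurable_Fle hs (by linarith)

theorem cell (hb : NBM b P) (hW : TBM W P') {e : ℝ} (he : 0 ≤ e) (k : ℕ) {h : ℝ} (hh : 0 < h)
    {n : ℕ} (hn : (n : ℝ) * h = 1) {ρ : ℝ → ℝ≥0∞} (hρ : Measurable ρ) {f g : ℕ → ℝ → ℝ≥0∞}
    (hf : ∀ i, Measurable (f i)) (hg : ∀ i, Measurable (g i)) :
    ∫⁻ ω in {ω | gev (fun t => b t ω) e k}, (ρ (yk b e k ω) *
      ∏ i ∈ Finset.range n, f i (yk b e k ω + sh b (((k : ℝ) + 1) * e) (((i : ℝ) + 1) * h) ω)) *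
      ∏ j ∈ Finset.range n, g j (sh b (((k : ℝ) + 1) * e + 1) (((j : ℝ) + 1) * h) ω) ∂P =
    (∫⁻ ω in Uk b e k, ρ (yk b e k ω) *
        (ENNReal.ofReal (yk b e k ω) * S3 W P' h n f (ax (yk b e k ω))) ∂P) *
      ∫⁻ ω, ∏ j ∈ Finset.range n, g j (b (((j : ℝ) + 1) * h) ω) ∂P := by
  have hP := hb.isProb
  set τ : ℝ := ((k : ℝ) + 1) * e with hτ
  have hτ0 : 0 ≤ τ := by positivity
  have hsb := hb.shift hτ0
  have htimes : ∀ i ∈ Finset.range n, ((i : ℝ) + 1) * h ≤ 1 := by
    intro i hi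
    have : (i : ℝ) + 1 ≤ n := by exact_mod_cast Finset.mem_range.1 hi
    calc ((i : ℝ) + 1) * h ≤ n * h := by gcongr
      _ = 1 := hn
  have hykF : Measurable[Fle b τ] (yk b e k) := measurable_yk_Fle he k
  have hykm : Measurable (yk b e k) := hykF.mono (Fle_le hb _) le_rfl
  have hUF : MeasurableSet[Fle b τ] (Uk b e k) := measurableSet_Uk_Fle he k
  have hUm : MeasurableSet (Uk b e k) := Fle_le hb _ _ hUF
  -- the event `gev`
  have hgevF : MeasurableSet[Fle b (τ + 1)] {ω | gev (fun t => b t ω) e k} := by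
    have e1 : {ω | gev (fun t => b t ω) e k} = Uk b e k ∩
        {ω | 0 < yk b e k ω + mn (fun t => sh b τ t ω) 0 1} := by
      ext ω
      exact gev_iff hb k ω
    rw [e1]
    apply MeasurableSet.inter
    · exact Fle_mono (by linarith) _ hUF
    · have m1 : Measurable[Fle b (τ + 1)] fun ω => yk b e k ω + mn (fun t => sh b τ t ω) 0 1 := by
        apply Measurable.add
        · exact hykF.mono (Fle_mono (by linarith)) le_rfl
        · exact measurable_mn (m := Fle b (τ + 1)) (b := sh b τ) zero_le_one fun s hs =>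
            measurable_sh_Fle hτ0 hs.1 (by linarith [hs.2])
      exact m1 measurableSet_Ioi
  have hgevm : MeasurableSet {ω | gev (fun t => b t ω) e k} := Fle_le hb _ _ hgevF
  -- step 1: independence at time `τ + 1`
  have step1 : ∫⁻ ω in {ω | gev (fun t => b t ω) e k}, (ρ (yk b e k ω) *
      ∏ i ∈ Finset.range n, f i (yk b e k ω + sh b τ (((i : ℝ) + 1) * h) ω)) *
      ∏ j ∈ Finset.range n, g j (sh b (τ + 1) (((j : ℝ) + 1) * h) ω) ∂P =
    (∫⁻ ω in {ω | gev (fun t => b t ω) e k}, ρ (yk b e k ω) *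
      ∏ i ∈ Finset.range n, f i (yk b e k ω + sh b τ (((i : ℝ) + 1) * h) ω) ∂P) *
      ∫⁻ ω, ∏ j ∈ Finset.range n, g j (b (((j : ℝ) + 1) * h) ω) ∂P := by
    let X : Ω → ℝ≥0∞ := {ω | gev (fun t => b t ω) e k}.indicator fun ω => ρ (yk b e k ω) *
      ∏ i ∈ Finset.range n, f i (yk b e k ω + sh b τ (((i : ℝ) + 1) * h) ω)
    let Y : Ω → ℝ≥0∞ := fun ω => ∏ j ∈ Finset.range n, g j (sh b (τ + 1) (((j : ℝ) + 1) * h) ω)
    have hXF : Measurable[Fle b (τ + 1)] X := by
      apply Measurable.indicator _ hgevF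
      apply Measurable.mul
      · exact hρ.comp (hykF.mono (Fle_mono (by linarith)) le_rfl)
      · apply Finset.measurable_prod
        intro i hi
        apply (hf i).comp
        apply Measurable.add
        · exact hykF.mono (Fle_mono (by linarith)) le_rfl
        · exact measurable_sh_Fle hτ0 (by positivity) (by linarith [htimes i hi])
    have hYF : Measurable[Fge b (τ + 1)] Y := by
      apply Finset.measurable_prod
      intro j _
      exact (hg j).comp (measurable_Fge (by linarith) (by positivity))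
    have hind := indepFun_past_future hb (τ + 1) hXF hYF
    have hXm : Measurable X := hXF.mono (Fle_le hb _) le_rfl
    have hYm : Measurable Y := hYF.mono (Fge_le hb _) le_rfl
    have h1 := lintegral_mul_eq_lintegral_mul_lintegral_of_indepFun hXm hYm hind
    have h2 : ∫⁻ ω, (X * Y) ω ∂P = ∫⁻ ω in {ω | gev (fun t => b t ω) e k}, (ρ (yk b e k ω) *
      ∏ i ∈ Finset.range n, f i (yk b e k ω + sh b τ (((i : ℝ) + 1) * h) ω)) *
      ∏ j ∈ Finset.range n, g j (sh b (τ + 1) (((j : ℝ) + 1) * h) ω) ∂P := by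
      rw [← lintegral_indicator hgevm]
      apply lintegral_congr
      intro ω
      simp only [Pi.mul_apply, X, Y]
      by_cases hω : ω ∈ {ω | gev (fun t => b t ω) e k}
      · rw [indicator_of_mem hω, indicator_of_mem hω]
      · rw [indicator_of_notMem hω, indicator_of_notMem hω, zero_mul]
    rw [← h2, h1, lintegral_indicator hgevm]
    congr 1
    exact fdd_eq (hb.shift (show 0 ≤ τ + 1 by linarith)) hb hg hh.le n
  rw [step1]
  congr 1
  -- step 2: independence at time `τ`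
  let X : Ω → ℝ≥0∞ × ℝ := fun ω => ((Uk b e k).indicator (fun _ => 1) ω, yk b e k ω)
  let Y : Ω → (ℕ → ℝ) × ℝ := fun ω =>
    (fun i => sh b τ ((min ((i : ℝ) + 1) n) * h) ω, mn (fun t => sh b τ t ω) 0 1)
  have hXF : Measurable[Fle b τ] X := by
    refine Measurable.prodMk ?_ hykF
    exact Measurable.indicator measurable_const hUF
  have hYF : Measurable[Fge b τ] Y := by
    refine Measurable.prodMk ?_ ?_
    · exact @measurable_pi_lambda Ω ℕ _ (Fge b τ) _ _ fun i =>
        measurable_Fge hτ0 (by positivity)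
    · exact measurable_mn (m := Fge b τ) zero_le_one fun s hs => measurable_Fge hτ0 hs.1
  have hXm : Measurable X := hXF.mono (Fle_le hb _) le_rfl
  have hYm : Measurable Y := hYF.mono (Fge_le hb _) le_rfl
  have hind := indepFun_past_future hb τ hXF hYF
  have hmin : ∀ i ∈ Finset.range n, min ((i : ℝ) + 1) n = (i : ℝ) + 1 := by
    intro i hi
    apply min_eq_left
    exact_mod_cast Finset.mem_range.1 hi
  let Θ : ℝ≥0∞ × ℝ → (ℕ → ℝ) × ℝ → ℝ≥0∞ := fun p q =>
    p.1 * (ρ p.2 * {q : (ℝ × ((ℕ → ℝ) × ℝ)) | 0 < q.1 + q.2.2}.indicator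
      (fun q => ∏ i ∈ Finset.range n, f i (q.1 + q.2.1 i)) (p.2, q))
  have hΘm : Measurable (Function.uncurry Θ) := by
    have hset : MeasurableSet {q : (ℝ × ((ℕ → ℝ) × ℝ)) | 0 < q.1 + q.2.2} :=
      measurableSet_lt measurable_const (by fun_prop)
    have h1 : Measurable (fun q : (ℝ × ((ℕ → ℝ) × ℝ)) =>
        ∏ i ∈ Finset.range n, f i (q.1 + q.2.1 i)) := by
      apply Finset.measurable_prod
      intro i _
      exact (hf i).comp (by fun_prop)
    have h2 := (h1.indicator hset).comp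
      (g := _) (f := fun r : (ℝ≥0∞ × ℝ) × ((ℕ → ℝ) × ℝ) => (r.1.2, r.2)) (by fun_prop)
    have h3 : Measurable fun r : (ℝ≥0∞ × ℝ) × ((ℕ → ℝ) × ℝ) => r.1.1 := by fun_prop
    have h4 : Measurable fun r : (ℝ≥0∞ × ℝ) × ((ℕ → ℝ) × ℝ) => ρ r.1.2 :=
      hρ.comp (by fun_prop)
    exact h3.mul (h4.mul h2)
  have hfub := lintegral_indepFun (P := P) hXm hYm hind hΘm
  have hleft : ∫⁻ ω in {ω | gev (fun t => b t ω) e k}, ρ (yk b e k ω) *
      ∏ i ∈ Finset.range n, f i (yk b e k ω + sh b τ (((i : ℝ) + 1) * h) ω) ∂P =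
      ∫⁻ ω, Θ (X ω) (Y ω) ∂P := by
    rw [← lintegral_indicator hgevm]
    apply lintegral_congr
    intro ω
    simp only [Θ, X, Y]
    have hprod : ∏ i ∈ Finset.range n, f i (yk b e k ω + sh b τ ((min ((i : ℝ) + 1) n) * h) ω) =
        ∏ i ∈ Finset.range n, f i (yk b e k ω + sh b τ (((i : ℝ) + 1) * h) ω) := by
      apply Finset.prod_congr rfl
      intro i hi
      rw [hmin i hi]
    by_cases hω : gev (fun t => b t ω) e k
    · obtain ⟨h1, h2⟩ := (gev_iff hb k ω).1 hω
      rw [indicator_of_mem (show ω ∈ {ω | gev (fun t => b t ω) e k} from hω),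
        indicator_of_mem h1, one_mul, indicator_of_mem, hprod]
      exact h2
    · rw [indicator_of_notMem (show ω ∉ {ω | gev (fun t => b t ω) e k} from hω)]
      by_cases h1 : ω ∈ Uk b e k
      · rw [indicator_of_notMem (a := (yk b e k ω, _)), mul_zero, mul_zero]
        intro h2
        exact hω ((gev_iff hb k ω).2 ⟨h1, h2⟩)
      · rw [indicator_of_notMem h1, zero_mul]
  have hinner : ∀ ω, ∫⁻ ω', Θ (X ω) (Y ω') ∂P = (Uk b e k).indicator (fun ω =>
      ρ (yk b e k ω) * (ENNReal.ofReal (yk b e k ω) * S3 W P' h n f (ax (yk b e k ω)))) ω := by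
    intro ω
    simp only [Θ, X]
    by_cases hω : ω ∈ Uk b e k
    · rw [indicator_of_mem hω, indicator_of_mem hω]
      have hy' : 0 ≤ yk b e k ω := yk_nonneg hb he k ω
      rw [← chain13 hsb hW hh n hf hy']
      simp only [one_mul]
      rw [hn, ← lintegral_const_mul, ← lintegral_indicator (measurableSet_Pos hsb _ zero_le_one)]
      · apply lintegral_congr
        intro ω'
        have hprod : ∏ i ∈ Finset.range n,
            f i (yk b e k ω + sh b τ ((min ((i : ℝ) + 1) n) * h) ω') =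
            ∏ i ∈ Finset.range n, f i (yk b e k ω + sh b τ (((i : ℝ) + 1) * h) ω') := by
          apply Finset.prod_congr rfl
          intro i hi
          rw [hmin i hi]
        by_cases h1 : ω' ∈ Pos (sh b τ) (yk b e k ω) 1
        · rw [indicator_of_mem h1, indicator_of_mem, hprod]
          exact h1
        · rw [indicator_of_notMem h1, indicator_of_notMem, mul_zero]
          exact h1
      · apply Finset.measurable_prod
        intro i _
        exact (hf i).comp (measurable_const.add (hsb.meas _))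
    · rw [indicator_of_notMem hω, indicator_of_notMem hω]
      simp
  rw [hleft, hfub]
  simp_rw [hinner]
  rw [lintegral_indicator hUm]

end Helper78.BW
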