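import Mathlib
import Pool.Agent.Helper78.BW.Cell

/-!
The joint law of the candidate window and of the path after it.
-/

open MeasureTheory ProbabilityTheory Set Filter Topology
open scoped ENNReal NNReal Real unitInterval BoundedContinuousFunction

namespace Helper78.BW

variable {Ω : Type*} {mΩ : MeasurableSpace Ω} {P : Measure Ω} {b : ℝ → Ω → ℝ}
variable {Ω' : Type*} {mΩ' : MeasurableSpace Ω'} {P' : Measure Ω'} {W : Fin 3 → ℝ → Ω' → ℝ}

theorem measurableSet_cand {m : MeasurableSpace Ω} (hcont : ∀ ω, Continuous fun t => b t ω)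
    {δ : ℝ} (hδ : 0 ≤ δ) (hδ1 : δ ≤ 1) (h : ∀ t ∈ Icc (0 : ℝ) 2, Measurable[m] (b t)) :
    MeasurableSet[m] {ω | cand (fun t => b t ω) δ} := by
  have hT : Measurable[m] fun ω => la (fun t => b t ω) δ :=
    measurable_la hcont hδ fun t ht => h t ⟨ht.1, by linarith [ht.2]⟩
  have m1 : Measurable[m] fun ω => mn (fun t => b t ω) 0 δ :=
    measurable_mn (m := m) hδ fun t ht => h t ⟨ht.1, by linarith [ht.2]⟩
  have m2 : Measurable[m] fun ω => mn (fun t => b t ω) δ (la (fun t => b t ω) δ + 1) := by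
    unfold mn
    refine Measurable.iInf fun q => ?_
    apply measurable_eval_time hcont (show (0 : ℝ) ≤ 2 by norm_num) h
    · exact ((hT.add_const 1).sub_const δ).const_mul _ |>.const_add δ
    · intro ω
      have hl := (la_spec (hcont ω) hδ).1
      have := q01_mem (show δ ≤ la (fun t => b t ω) δ + 1 by linarith [hl.1]) q
      exact ⟨hδ.trans this.1, this.2.trans (by linarith [hl.2])⟩
  exact measurableSet_lt m1 m2

open Classical in
/-- The sum over the grid cells. -/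
noncomputable def gsum (w : ℝ → ℝ) (δ : ℝ) (N : ℕ) (A : ℕ → ℝ≥0∞) : ℝ≥0∞ :=
  ∑ k ∈ Finset.range N, if gev w (δ / N) k then A k else 0

theorem gev_unique {w : ℝ → ℝ} (hw : Continuous w) {δ : ℝ} (hδ : 0 < δ) (hδ1 : δ ≤ 1) {N k k' : ℕ}
    (hk : k < N) (hk' : k' < N) (h : gev w (δ / N) k) (h' : gev w (δ / N) k') : k = k' := by
  have hN : (0 : ℝ) < N := by exact_mod_cast Nat.zero_lt_of_lt hk
  have he : 0 < δ / N := by positivity
  have hle : ∀ k : ℕ, k < N → ((k : ℝ) + 1) * (δ / N) ≤ δ := by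
    intro k hk
    have : (k : ℝ) + 1 ≤ N := by exact_mod_cast hk
    calc ((k : ℝ) + 1) * (δ / N) ≤ N * (δ / N) := by gcongr
      _ = δ := by field_simp
  obtain ⟨a1, a2, _⟩ := gev_la hw hδ1 he (hle k hk) h
  obtain ⟨b1, b2, _⟩ := gev_la hw hδ1 he (hle k' hk') h'
  have c1 : (k : ℝ) < k' + 1 := lt_of_mul_lt_mul_right (a1.trans_lt b2) he.le
  have c2 : (k' : ℝ) < k + 1 := lt_of_mul_lt_mul_right (b1.trans_lt a2) he.le
  have d1 : k < k' + 1 := by exact_mod_cast c1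
  have d2 : k' < k + 1 := by exact_mod_cast c2
  omega

theorem gsum_eq {w : ℝ → ℝ} (hw : Continuous w) {δ : ℝ} (hδ : 0 < δ) (hδ1 : δ ≤ 1) {N k : ℕ}
    (hk : k < N) (h : gev w (δ / N) k) (A : ℕ → ℝ≥0∞) : gsum w δ N A = A k := by
  unfold gsum
  rw [Finset.sum_eq_single k]
  · rw [if_pos h]
  · intro k' hk' hne
    rw [if_neg]
    intro h'
    exact hne (gev_unique hw hδ hδ1 (Finset.mem_range.1 hk') hk h' h)
  · intro hk'
    exact absurd (Finset.mem_range.2 hk) hk'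

theorem gsum_zero {w : ℝ → ℝ} {δ : ℝ} {N : ℕ} (h : ¬ ∃ k : ℕ, k < N ∧ gev w (δ / N) k)
    (A : ℕ → ℝ≥0∞) : gsum w δ N A = 0 := by
  unfold gsum
  apply Finset.sum_eq_zero
  intro k hk
  rw [if_neg]
  intro h'
  exact h ⟨k, Finset.mem_range.1 hk, h'⟩

theorem gsum_le {w : ℝ → ℝ} (hw : Continuous w) {δ : ℝ} (hδ : 0 < δ) (hδ1 : δ ≤ 1) (N : ℕ)
    {A : ℕ → ℝ≥0∞} {C : ℝ≥0∞} (hA : ∀ k, A k ≤ C) : gsum w δ N A ≤ C := by
  by_cases h : ∃ k : ℕ, k < N ∧ gev w (δ / N) k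
  · obtain ⟨k, hk, hg⟩ := h
    rw [gsum_eq hw hδ hδ1 hk hg]
    exact hA k
  · rw [gsum_zero h]
    exact bot_le

open Classical in
theorem gsum_tendsto {w : ℝ → ℝ} (hw : Continuous w) {δ : ℝ} (hδ : 0 < δ) (hδ1 : δ ≤ 1)
    (hgrid : cand w δ → ∀ n k : ℕ, 0 < n → la w δ ≠ k * (δ / n))
    {A : ℕ → ℕ → ℝ≥0∞} {a : ℝ≥0∞}
    (hA : cand w δ → (∀ᶠ N : ℕ in atTop, gev w (δ / N) ⌊la w δ / (δ / N)⌋₊ ∧
      ⌊la w δ / (δ / N)⌋₊ < N) → Tendsto (fun N : ℕ => A N ⌊la w δ / (δ / N)⌋₊) atTop (𝓝 a)) :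
    Tendsto (fun N : ℕ => gsum w δ N (A N)) atTop (𝓝 (if cand w δ then a else 0)) := by
  by_cases hc : cand w δ
  · rw [if_pos hc]
    have hev := gev_of_cand hw hδ hδ1 hc (hgrid hc)
    refine (hA hc hev).congr' ?_
    filter_upwards [hev] with N hN
    exact (gsum_eq hw hδ hδ1 hN.2 hN.1 _).symm
  · rw [if_neg hc]
    have hnf : ¬ ∃ᶠ N : ℕ in atTop, ∃ k : ℕ, k < N ∧ gev w (δ / N) k :=
      fun hf => hc (cand_of_gev hw hδ1 hf hδ)
    rw [not_frequently] at hnf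
    apply tendsto_const_nhds.congr'
    filter_upwards [hnf] with N hN
    exact (gsum_zero hN _).symm

/-- the end point of the cell of the last argmin converges to it -/
theorem tau_tendsto {w : ℝ → ℝ} (hw : Continuous w) {δ : ℝ} (hδ : 0 < δ) :
    Tendsto (fun N : ℕ => ((⌊la w δ / (δ / N)⌋₊ : ℝ) + 1) * (δ / N)) atTop (𝓝 (la w δ)) := by
  obtain ⟨hl1, _, _⟩ := la_spec hw hδ.le
  rw [tendsto_iff_dist_tendsto_zero]
  have hlim : Tendsto (fun n : ℕ => δ / (n : ℝ)) atTop (𝓝 0) :=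
    tendsto_const_div_atTop_nhds_zero_nat δ
  apply squeeze_zero' (Eventually.of_forall fun _ => dist_nonneg) _ hlim
  filter_upwards [eventually_gt_atTop 0] with N hN
  have hNr : (0 : ℝ) < N := by exact_mod_cast hN
  have he : 0 < δ / N := by positivity
  have h1 : (⌊la w δ / (δ / N)⌋₊ : ℝ) * (δ / N) ≤ la w δ := by
    have := Nat.floor_le (div_nonneg hl1.1 he.le)
    rwa [le_div_iff₀ he] at this
  have h2 : la w δ < (⌊la w δ / (δ / N)⌋₊ + 1) * (δ / N) := by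
    have := Nat.lt_floor_add_one (la w δ / (δ / N))
    rwa [div_lt_iff₀ he] at this
  rw [Real.dist_eq, abs_of_nonneg (by linarith)]
  have : ((⌊la w δ / (δ / N)⌋₊ : ℝ) + 1) * (δ / N) =
    (⌊la w δ / (δ / N)⌋₊ : ℝ) * (δ / N) + δ / N := by ring
  linarith

theorem yk_tendsto (hb : NBM b P) {δ : ℝ} (hδ : 0 < δ) (hδ1 : δ ≤ 1) (ω : Ω)
    (hev : ∀ᶠ N : ℕ in atTop, gev (fun t => b t ω) (δ / N) ⌊la (fun t => b t ω) δ / (δ / N)⌋₊ ∧
      ⌊la (fun t => b t ω) δ / (δ / N)⌋₊ < N) :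
    Tendsto (fun N : ℕ => yk b (δ / N) ⌊la (fun t => b t ω) δ / (δ / N)⌋₊ ω) atTop (𝓝 0) := by
  obtain ⟨hl1, hl2, _⟩ := la_spec (hb.cont ω) hδ.le
  have h1 := ((hb.cont ω).tendsto _).comp (tau_tendsto (hb.cont ω) hδ)
  have h2 : Tendsto (fun N : ℕ => b (((⌊la (fun t => b t ω) δ / (δ / N)⌋₊ : ℝ) + 1) * (δ / N)) ω -
      b (la (fun t => b t ω) δ) ω) atTop (𝓝 0) := by
    have := h1.sub_const (b (la (fun t => b t ω) δ) ω)
    rwa [sub_self] at this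
  refine h2.congr' ?_
  filter_upwards [hev, eventually_gt_atTop 0] with N hN hN0
  have hNr : (0 : ℝ) < N := by exact_mod_cast hN0
  have hle : ((⌊la (fun t => b t ω) δ / (δ / N)⌋₊ : ℝ) + 1) * (δ / N) ≤ δ := by
    have : ((⌊la (fun t => b t ω) δ / (δ / N)⌋₊ : ℝ)) + 1 ≤ N := by exact_mod_cast hN.2
    calc _ ≤ (N : ℝ) * (δ / N) := by gcongr
      _ = δ := by field_simp
  obtain ⟨_, _, h3⟩ := gev_la (hb.cont ω) hδ1 (by positivity) hle hN.1
  unfold yk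
  rw [← h3, ← hl2]

end Helper78.BW
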