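import Mathlib
import Pool.Agent.Helper78.BW.CandLaw

/-!
The joint law of the candidate window and of the path after it: finite-dimensional version.
-/

open MeasureTheory ProbabilityTheory Set Filter Topology
open scoped ENNReal NNReal Real unitInterval BoundedContinuousFunction

namespace Helper78.BW

variable {Ω : Type*} {mΩ : MeasurableSpace Ω} {P : Measure Ω} {b : ℝ → Ω → ℝ}
variable {Ω' : Type*} {mΩ' : MeasurableSpace Ω'} {P' : Measure Ω'} {W : Fin 3 → ℝ → Ω' → ℝ}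

theorem f_le (f : ℝ →ᵇ ℝ≥0) (x : ℝ) : f x ≤ nndist f 0 := by
  have h1 := f.dist_coe_le_dist (g := 0) x
  rw [← coe_nndist, ← coe_nndist, NNReal.coe_le_coe] at h1
  simpa [nndist_comm] using h1

theorem coe_f_le (f : ℝ →ᵇ ℝ≥0) (x : ℝ) : ((f x : ℝ≥0) : ℝ≥0∞) ≤ (nndist f 0 : ℝ≥0) :=
  ENNReal.coe_le_coe.2 (f_le f x)

/-- the normalised ratio -/
noncomputable def rr (W : Fin 3 → ℝ → Ω' → ℝ) (P' : Measure Ω') (h : ℝ) (n : ℕ)
    (f : ℕ → ℝ →ᵇ ℝ≥0) (y : ℝ) : ℝ≥0∞ :=
  S3 W P' h n (fun i x => (f i x : ℝ≥0∞)) (ax y) / S3 W P' h n (fun _ _ => 1) (ax y)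

theorem S3_one_eq (h : ℝ) (n : ℕ) (z : E3) :
    S3 W P' h n (fun i x => (((fun _ => 1 : ℕ → ℝ →ᵇ ℝ≥0) i x : ℝ≥0) : ℝ≥0∞)) z =
      S3 W P' h n (fun _ _ => 1) z := by
  simp [S3]

theorem S3_one_lt_top (hW : TBM W P') {h : ℝ} {n : ℕ} (hn : 0 < n * h) (y : ℝ) :
    S3 W P' h n (fun _ _ => 1) (ax y) < ∞ := by
  rw [← S3_one_eq]
  exact S3_lt_top hW hn _ y

theorem measurable_rr (hW : TBM W P') (h : ℝ) (n : ℕ) (f : ℕ → ℝ →ᵇ ℝ≥0) :
    Measurable (rr W P' h n f) := by
  unfold rr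
  apply Measurable.div (measurable_S3_ax hW h n f)
  have := measurable_S3_ax hW h n (fun _ => 1)
  simpa only [S3_one_eq] using this

theorem rr_mul (hW : TBM W P') {h : ℝ} {n : ℕ} (hn : 0 < n * h) (f : ℕ → ℝ →ᵇ ℝ≥0) (y : ℝ) :
    rr W P' h n f y * S3 W P' h n (fun _ _ => 1) (ax y) =
      S3 W P' h n (fun i x => (f i x : ℝ≥0∞)) (ax y) := by
  unfold rr
  exact ENNReal.div_mul_cancel (S3_one_pos hW h n _) (S3_one_lt_top hW hn y).ne

theorem S3_le (f : ℕ → ℝ →ᵇ ℝ≥0) (h : ℝ) (n : ℕ) (z : E3) :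
    S3 W P' h n (fun i x => (f i x : ℝ≥0∞)) z ≤
      ((∏ i ∈ Finset.range n, nndist (f i) 0 : ℝ≥0) : ℝ≥0∞) * S3 W P' h n (fun _ _ => 1) z := by
  unfold S3
  rw [← lintegral_const_mul' _ _ ENNReal.coe_ne_top]
  apply lintegral_mono
  intro ω
  simp only [Finset.prod_const_one, one_mul]
  gcongr
  rw [ENNReal.ofNNReal_finsetProd]
  apply Finset.prod_le_prod'
  intro i _
  exact coe_f_le _ _

theorem rr_le (h : ℝ) (n : ℕ) (f : ℕ → ℝ →ᵇ ℝ≥0) (y : ℝ) :
    rr W P' h n f y ≤ ((∏ i ∈ Finset.range n, nndist (f i) 0 : ℝ≥0) : ℝ≥0∞) := by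
  unfold rr
  apply ENNReal.div_le_of_le_mul
  exact S3_le f h n _

theorem rr_tendsto (hW : TBM W P') {h : ℝ} {n : ℕ} (hn : 0 < n * h) (f : ℕ → ℝ →ᵇ ℝ≥0) :
    Tendsto (rr W P' h n f) (𝓝 0) (𝓝 (rr W P' h n f 0)) := by
  unfold rr
  have h1 := S3_tendsto hW hn f
  have h2 := S3_tendsto hW hn (fun _ => 1)
  simp only [S3_one_eq] at h2
  exact ENNReal.Tendsto.div h1 (Or.inr (S3_one_pos hW h n _)) h2
    (Or.inr (S3_lt_top hW hn f 0).ne)

theorem measurableSet_gev (hb : NBM b P) {e : ℝ} (he : 0 ≤ e) (k : ℕ) :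
    MeasurableSet {ω | gev (fun t => b t ω) e k} := by
  have hτ0 : 0 ≤ ((k : ℝ) + 1) * e := by positivity
  have e1 : {ω | gev (fun t => b t ω) e k} = Uk b e k ∩
      {ω | 0 < yk b e k ω + mn (fun t => sh b (((k : ℝ) + 1) * e) t ω) 0 1} := by
    ext ω
    exact gev_iff hb k ω
  rw [e1]
  apply MeasurableSet.inter
  · exact Fle_le hb _ _ (measurableSet_Uk_Fle he k)
  · have m1 : Measurable fun ω => yk b e k ω +
        mn (fun t => sh b (((k : ℝ) + 1) * e) t ω) 0 1 := by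
      apply Measurable.add
      · exact (measurable_yk_Fle he k).mono (Fle_le hb _) le_rfl
      · exact measurable_mn (b := sh b (((k : ℝ) + 1) * e)) zero_le_one fun s _ =>
          (hb.shift hτ0).meas s
    exact m1 measurableSet_Ioi

theorem lint_gsum (hb : NBM b P) {δ : ℝ} (hδ : 0 < δ) (N : ℕ) {A : ℕ → Ω → ℝ≥0∞}
    (hA : ∀ k, Measurable (A k)) :
    ∫⁻ ω, gsum (fun t => b t ω) δ N (fun k => A k ω) ∂P =
      ∑ k ∈ Finset.range N, ∫⁻ ω in {ω | gev (fun t => b t ω) (δ / N) k}, A k ω ∂P := by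
  classical
  unfold gsum
  have he : 0 ≤ δ / N := by positivity
  have e1 : ∀ k ω, (if gev (fun t => b t ω) (δ / N) k then A k ω else 0) =
      {ω | gev (fun t => b t ω) (δ / N) k}.indicator (A k) ω := by
    intro k ω
    by_cases h : gev (fun t => b t ω) (δ / N) k
    · rw [if_pos h, indicator_of_mem]
      exact h
    · rw [if_neg h, indicator_of_notMem]
      exact h
  have e2 : ∀ ω, (∑ k ∈ Finset.range N,
      if gev (fun t => b t ω) (δ / N) k then A k ω else 0) =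
      ∑ k ∈ Finset.range N, {ω | gev (fun t => b t ω) (δ / N) k}.indicator (A k) ω := by
    intro ω
    apply Finset.sum_congr rfl
    intro k _
    rw [← e1]
  have e3 : ∫⁻ ω, (∑ k ∈ Finset.range N, @ite _ (gev (fun t => b t ω) (δ / N) k)
      (Classical.propDecidable _) (A k ω) 0) ∂P = ∫⁻ ω, (∑ k ∈ Finset.range N,
      {ω | gev (fun t => b t ω) (δ / N) k}.indicator (A k) ω) ∂P := by
    apply lintegral_congr
    intro ω
    rw [← e2]
  rw [e3, lintegral_finsetSum]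
  · apply Finset.sum_congr rfl
    intro k _
    rw [lintegral_indicator (measurableSet_gev hb he k)]
  · intro k _
    exact (hA k).indicator (measurableSet_gev hb he k)

theorem measurable_gsum (hb : NBM b P) {δ : ℝ} (hδ : 0 < δ) (N : ℕ) {A : ℕ → Ω → ℝ≥0∞}
    (hA : ∀ k, Measurable (A k)) :
    Measurable fun ω => gsum (fun t => b t ω) δ N (fun k => A k ω) := by
  classical
  unfold gsum
  have he : 0 ≤ δ / N := by positivity
  apply Finset.measurable_sum
  intro k _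
  exact Measurable.ite (measurableSet_gev hb he k) (hA k) measurable_const

/-- The integrand of cell `k`. -/
noncomputable def Acell (b : ℝ → Ω → ℝ) (h : ℝ) (n : ℕ) (f g : ℕ → ℝ →ᵇ ℝ≥0) (e : ℝ) (k : ℕ)
    (ω : Ω) : ℝ≥0∞ :=
  (∏ i ∈ Finset.range n,
    (f i (yk b e k ω + sh b (((k : ℝ) + 1) * e) (((i : ℝ) + 1) * h) ω) : ℝ≥0∞)) *
  ∏ j ∈ Finset.range n, (g j (sh b (((k : ℝ) + 1) * e + 1) (((j : ℝ) + 1) * h) ω) : ℝ≥0∞)

theorem measurable_Acell (hb : NBM b P) (h : ℝ) (n : ℕ) (f g : ℕ → ℝ →ᵇ ℝ≥0) {e : ℝ}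
    (he : 0 ≤ e) (k : ℕ) : Measurable (Acell b h n f g e k) := by
  unfold Acell
  have h1 : Measurable (yk b e k) := (measurable_yk_Fle he k).mono (Fle_le hb _) le_rfl
  apply Measurable.mul
  · apply Finset.measurable_prod
    intro i _
    apply (measurable_f f i).comp
    exact h1.add ((hb.meas _).sub (hb.meas _))
  · apply Finset.measurable_prod
    intro j _
    apply (measurable_f g j).comp
    exact (hb.meas _).sub (hb.meas _)

theorem Acell_le (b : ℝ → Ω → ℝ) (h : ℝ) (n : ℕ) (f g : ℕ → ℝ →ᵇ ℝ≥0) (e : ℝ) (k : ℕ) (ω : Ω) :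
    Acell b h n f g e k ω ≤ (((∏ i ∈ Finset.range n, nndist (f i) 0) *
      ∏ i ∈ Finset.range n, nndist (g i) 0 : ℝ≥0) : ℝ≥0∞) := by
  unfold Acell
  rw [ENNReal.coe_mul, ENNReal.ofNNReal_finsetProd, ENNReal.ofNNReal_finsetProd]
  gcongr
  · exact f_le _ _
  · exact f_le _ _

/-- the identity for one cell -/
theorem cell_eq (hb : NBM b P) (hW : TBM W P') {e : ℝ} (he : 0 ≤ e) (k : ℕ) {h : ℝ} (hh : 0 < h)
    {n : ℕ} (hn : (n : ℝ) * h = 1) (f g : ℕ → ℝ →ᵇ ℝ≥0) :
    ∫⁻ ω in {ω | gev (fun t => b t ω) e k}, Acell b h n f g e k ω ∂P =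
      (∫⁻ ω in {ω | gev (fun t => b t ω) e k}, rr W P' h n f (yk b e k ω) ∂P) *
      ∫⁻ ω, ∏ j ∈ Finset.range n, (g j (b (((j : ℝ) + 1) * h) ω) : ℝ≥0∞) ∂P := by
  have hP := hb.isProb
  have hn0 : 0 < (n : ℝ) * h := by rw [hn]; exact one_pos
  have h1 := cell hb hW he k hh hn (ρ := fun _ => 1) measurable_const
    (f := fun i x => (f i x : ℝ≥0∞)) (g := fun i x => (g i x : ℝ≥0∞))
    (measurable_f f) (measurable_f g)
  have h2 := cell hb hW he k hh hn (ρ := rr W P' h n f) (measurable_rr hW h n f)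
    (f := fun _ _ => 1) (g := fun _ _ => 1) (fun _ => measurable_const) (fun _ => measurable_const)
  simp only [Finset.prod_const_one, mul_one, lintegral_const, measure_univ] at h2
  simp only [one_mul] at h1
  unfold Acell
  rw [h1, h2]
  congr 1
  apply lintegral_congr
  intro ω
  rw [← rr_mul hW hn0 f]
  ring

theorem la_lt_of_cand {w : ℝ → ℝ} (hw : Continuous w) {δ : ℝ} (hδ : 0 < δ) (hc : cand w δ) :
    la w δ < δ := by
  obtain ⟨hl1, hl2, _⟩ := la_spec hw hδ.le
  rcases lt_or_eq_of_le hl1.2 with h | h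
  · exact h
  · exfalso
    unfold cand at hc
    rw [h, lt_mn_iff hw (by linarith)] at hc
    have := hc δ ⟨le_rfl, by linarith⟩
    rw [← hl2, h] at this
    exact lt_irrefl _ this

/-- The joint law, finite-dimensional version. -/
theorem cand_law (hb : NBM b P) (hW : TBM W P') {δ : ℝ} (hδ : 0 < δ) (hδ1 : δ ≤ 1) {h : ℝ}
    (hh : 0 < h) {n : ℕ} (hn : (n : ℝ) * h = 1) (f g : ℕ → ℝ →ᵇ ℝ≥0) :
    ∫⁻ ω in {ω | cand (fun t => b t ω) δ},
      (∏ i ∈ Finset.range n, (f i (sh b (la (fun t => b t ω) δ) (((i : ℝ) + 1) * h) ω) : ℝ≥0∞)) *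
      ∏ j ∈ Finset.range n,
        (g j (sh b (la (fun t => b t ω) δ + 1) (((j : ℝ) + 1) * h) ω) : ℝ≥0∞) ∂P =
    P {ω | cand (fun t => b t ω) δ} * rr W P' h n f 0 *
      ∫⁻ ω, ∏ j ∈ Finset.range n, (g j (b (((j : ℝ) + 1) * h) ω) : ℝ≥0∞) ∂P := by
  classical
  have hP := hb.isProb
  have hn0 : 0 < (n : ℝ) * h := by rw [hn]; exact one_pos
  have hcm : MeasurableSet {ω | cand (fun t => b t ω) δ} :=
    measurableSet_cand hb.cont hδ.le hδ1 fun t _ => hb.meas t
  set Γ : ℝ≥0∞ := ∫⁻ ω, ∏ j ∈ Finset.range n, (g j (b (((j : ℝ) + 1) * h) ω) : ℝ≥0∞) ∂P with hΓ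
  have hΓtop : Γ ≠ ∞ := by
    have : Γ ≤ ∫⁻ _, ((∏ i ∈ Finset.range n, nndist (g i) 0 : ℝ≥0) : ℝ≥0∞) ∂P := by
      apply lintegral_mono
      intro ω
      simp only
      rw [ENNReal.ofNNReal_finsetProd]
      apply Finset.prod_le_prod'
      intro i _
      exact coe_f_le _ _
    rw [lintegral_const, measure_univ, mul_one] at this
    exact ne_top_of_le_ne_top ENNReal.coe_ne_top this
  -- no grid points
  have hgrid : ∀ᵐ ω ∂P, cand (fun t => b t ω) δ → ∀ N k : ℕ, 0 < N →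
      la (fun t => b t ω) δ ≠ k * (δ / N) := by
    have h1 : ∀ᵐ ω ∂P, ∀ N k : ℕ, (k : ℝ) * (δ / N) ∈ Ico 0 δ →
        la (fun t => b t ω) δ ≠ k * (δ / N) := by
      rw [ae_all_iff]
      intro N
      rw [ae_all_iff]
      intro k
      by_cases hk : (k : ℝ) * (δ / N) ∈ Ico 0 δ
      · have := null_la hb hk
        rw [← compl_compl {ω | la (fun t => b t ω) δ = (k : ℝ) * (δ / N)}] at this
        have h2 : ∀ᵐ ω ∂P, ω ∈ {ω | la (fun t => b t ω) δ = (k : ℝ) * (δ / N)}ᶜ := this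
        filter_upwards [h2] with ω hω _
        exact hω
      · exact Eventually.of_forall fun ω h => absurd h hk
    filter_upwards [h1] with ω hω hc N k hN heq
    refine hω N k ⟨by positivity, ?_⟩ heq
    rw [← heq]
    exact la_lt_of_cand (hb.cont ω) hδ hc
  -- the integral identity
  have hId : ∀ N : ℕ, ∫⁻ ω, gsum (fun t => b t ω) δ N
        (fun k => Acell b h n f g (δ / N) k ω) ∂P =
      (∫⁻ ω, gsum (fun t => b t ω) δ N (fun k => rr W P' h n f (yk b (δ / N) k ω)) ∂P) * Γ := by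
    intro N
    have he : 0 ≤ δ / N := by positivity
    rw [lint_gsum hb hδ N (fun k => measurable_Acell hb h n f g he k),
      lint_gsum hb hδ N (A := fun k ω => rr W P' h n f (yk b (δ / N) k ω)) (fun k =>
        (measurable_rr hW h n f).comp ((measurable_yk_Fle he k).mono (Fle_le hb _) le_rfl)),
      Finset.sum_mul]
    apply Finset.sum_congr rfl
    intro k _
    exact cell_eq hb hW he k hh hn f g
  -- the two limits
  have lim1 : Tendsto (fun N : ℕ => ∫⁻ ω, gsum (fun t => b t ω) δ N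
        (fun k => Acell b h n f g (δ / N) k ω) ∂P) atTop
      (𝓝 (∫⁻ ω, (if cand (fun t => b t ω) δ then
        ((∏ i ∈ Finset.range n,
          (f i (sh b (la (fun t => b t ω) δ) (((i : ℝ) + 1) * h) ω) : ℝ≥0∞)) *
        ∏ j ∈ Finset.range n,
          (g j (sh b (la (fun t => b t ω) δ + 1) (((j : ℝ) + 1) * h) ω) : ℝ≥0∞)) else 0) ∂P)) := by
    apply tendsto_lintegral_of_dominated_convergence
      (fun _ => (((∏ i ∈ Finset.range n, nndist (f i) 0) *
      ∏ i ∈ Finset.range n, nndist (g i) 0 : ℝ≥0) : ℝ≥0∞))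
    · intro N
      exact measurable_gsum hb hδ N (fun k => measurable_Acell hb h n f g (by positivity) k)
    · intro N
      exact Eventually.of_forall fun ω => gsum_le (hb.cont ω) hδ hδ1 N
        fun k => Acell_le b h n f g _ k ω
    · rw [lintegral_const, measure_univ, mul_one]
      exact ENNReal.coe_ne_top
    · filter_upwards [hgrid] with ω hω
      apply gsum_tendsto (hb.cont ω) hδ hδ1 hω
      intro _ hev
      have hy := yk_tendsto hb hδ hδ1 ω hev
      have hτ := tau_tendsto (hb.cont ω) hδ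
      have hsh : ∀ c s : ℝ, Tendsto (fun N : ℕ =>
          sh b (((⌊la (fun t => b t ω) δ / (δ / N)⌋₊ : ℝ) + 1) * (δ / N) + c) s ω) atTop
          (𝓝 (sh b (la (fun t => b t ω) δ + c) s ω)) := by
        intro c s
        unfold sh
        have hcont := hb.cont ω
        apply Tendsto.sub
        · exact (hcont.tendsto _).comp ((hτ.add_const c).add_const s)
        · exact (hcont.tendsto _).comp (hτ.add_const c)
      have e1 : Tendsto (fun N : ℕ => ((∏ i ∈ Finset.range n,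
          (f i (yk b (δ / N) ⌊la (fun t => b t ω) δ / (δ / N)⌋₊ ω +
            sh b (((⌊la (fun t => b t ω) δ / (δ / N)⌋₊ : ℝ) + 1) * (δ / N))
              (((i : ℝ) + 1) * h) ω))) *
          ∏ j ∈ Finset.range n,
            (g j (sh b (((⌊la (fun t => b t ω) δ / (δ / N)⌋₊ : ℝ) + 1) * (δ / N) + 1)
              (((j : ℝ) + 1) * h) ω)) : ℝ≥0)) atTop
          (𝓝 ((∏ i ∈ Finset.range n,
            (f i (0 + sh b (la (fun t => b t ω) δ) (((i : ℝ) + 1) * h) ω))) *
          ∏ j ∈ Finset.range n,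
            (g j (sh b (la (fun t => b t ω) δ + 1) (((j : ℝ) + 1) * h) ω)))) := by
        apply Tendsto.mul
        · apply tendsto_finsetProd
          intro i _
          apply ((f i).continuous.tendsto _).comp
          apply hy.add
          have := hsh 0 (((i : ℝ) + 1) * h)
          simpa only [add_zero] using this
        · apply tendsto_finsetProd
          intro i _
          apply ((g i).continuous.tendsto _).comp
          exact hsh 1 _
      have e2 := ENNReal.tendsto_coe.2 e1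
      simp only [zero_add, ENNReal.coe_mul, ENNReal.ofNNReal_finsetProd] at e2
      exact e2
  have lim2 : Tendsto (fun N : ℕ => ∫⁻ ω, gsum (fun t => b t ω) δ N
        (fun k => rr W P' h n f (yk b (δ / N) k ω)) ∂P) atTop
      (𝓝 (∫⁻ ω, (if cand (fun t => b t ω) δ then rr W P' h n f 0 else 0) ∂P)) := by
    apply tendsto_lintegral_of_dominated_convergence
      (fun _ => ((∏ i ∈ Finset.range n, nndist (f i) 0 : ℝ≥0) : ℝ≥0∞))
    · intro N
      exact measurable_gsum hb hδ N (fun k => (measurable_rr hW h n f).comp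
        ((measurable_yk_Fle (by positivity) k).mono (Fle_le hb _) le_rfl))
    · intro N
      exact Eventually.of_forall fun ω => gsum_le (hb.cont ω) hδ hδ1 N
        fun k => rr_le h n f _
    · rw [lintegral_const, measure_univ, mul_one]
      exact ENNReal.coe_ne_top
    · filter_upwards [hgrid] with ω hω
      apply gsum_tendsto (hb.cont ω) hδ hδ1 hω
      intro _ hev
      exact (rr_tendsto hW hn0 f).comp (yk_tendsto hb hδ hδ1 ω hev)
  have lim3 := ENNReal.Tendsto.mul_const lim2 (b := Γ) (Or.inr hΓtop)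
  simp only [hId] at lim1
  have hfin := tendsto_nhds_unique lim1 lim3
  have e1 : ∫⁻ ω in {ω | cand (fun t => b t ω) δ},
      (∏ i ∈ Finset.range n, (f i (sh b (la (fun t => b t ω) δ) (((i : ℝ) + 1) * h) ω) : ℝ≥0∞)) *
      ∏ j ∈ Finset.range n,
        (g j (sh b (la (fun t => b t ω) δ + 1) (((j : ℝ) + 1) * h) ω) : ℝ≥0∞) ∂P =
      ∫⁻ ω, (if cand (fun t => b t ω) δ then
        ((∏ i ∈ Finset.range n,
          (f i (sh b (la (fun t => b t ω) δ) (((i : ℝ) + 1) * h) ω) : ℝ≥0∞)) *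
        ∏ j ∈ Finset.range n,
          (g j (sh b (la (fun t => b t ω) δ + 1) (((j : ℝ) + 1) * h) ω) : ℝ≥0∞)) else 0) ∂P := by
    rw [← lintegral_indicator hcm]
    rfl
  have e2 : ∫⁻ ω, (if cand (fun t => b t ω) δ then rr W P' h n f 0 else 0) ∂P =
      P {ω | cand (fun t => b t ω) δ} * rr W P' h n f 0 := by
    have : ∫⁻ ω, (if cand (fun t => b t ω) δ then rr W P' h n f 0 else 0) ∂P =
        ∫⁻ ω, {ω | cand (fun t => b t ω) δ}.indicator (fun _ => rr W P' h n f 0) ω ∂P := by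
      apply lintegral_congr
      intro ω
      rfl
    rw [this, lintegral_indicator_const hcm, mul_comm]
  rw [e1, hfin, e2]

end Helper78.BW
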