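import Mathlib
import Pool.Agent.Helper78.BW.CandLaw2

/-!
The joint law of the candidate window and of the path after it on path space.
-/

open MeasureTheory ProbabilityTheory Set Filter Topology
open scoped ENNReal NNReal Real unitInterval BoundedContinuousFunction

namespace Helper78.BW

variable {Ω : Type*} {mΩ : MeasurableSpace Ω} {P : Measure Ω} {b : ℝ → Ω → ℝ}
variable {Ω' : Type*} {mΩ' : MeasurableSpace Ω'} {P' : Measure Ω'} {W : Fin 3 → ℝ → Ω' → ℝ}

open Classical in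
/-- The three-dimensional Bessel process as a random element of path space. -/
noncomputable def Rp (W : Fin 3 → ℝ → Ω' → ℝ) (ω : Ω') : C(unitInterval, ℝ) :=
  if hc : Continuous (fun t : ℝ => ‖vec W t ω‖) then
    ⟨fun s => ‖vec W s ω‖, hc.comp continuous_subtype_val⟩ else 0

theorem TBM.continuous_vec (hW : TBM W P') (ω : Ω') : Continuous fun t => vec W t ω := by
  unfold vec
  have h : Continuous fun t => (fun i => W i t ω) := continuous_pi fun i => (hW.nbm i).cont ω
  exact (PiLp.continuous_toLp 2 _).comp h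

theorem Rp_apply (hW : TBM W P') (ω : Ω') (s : unitInterval) : Rp W ω s = ‖vec W s ω‖ := by
  unfold Rp
  rw [dif_pos (hW.continuous_vec ω).norm]
  rfl

theorem measurable_Rp (hW : TBM W P') : Measurable (Rp W) := by
  apply measurable_of_eval
  intro s
  simp only [Rp_apply hW]
  exact (hW.measurable_vec s).norm

/-- The density `1 / R_1`. -/
noncomputable def dens (W : Fin 3 → ℝ → Ω' → ℝ) (ω : Ω') : ℝ≥0∞ := (ENNReal.ofReal ‖vec W 1 ω‖)⁻¹

theorem measurable_dens (hW : TBM W P') : Measurable (dens W) :=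
  (hW.measurable_vec 1).norm.ennreal_ofReal.inv

/-- The reference measure: the law of the Bessel process with density `1 / R_1`. -/
noncomputable def betaM (W : Fin 3 → ℝ → Ω' → ℝ) (P' : Measure Ω') : Measure C(unitInterval, ℝ) :=
  (P'.withDensity (dens W)).map (Rp W)

theorem lint_betaM (hW : TBM W P') {F : C(unitInterval, ℝ) → ℝ≥0∞} (hF : Measurable F) :
    ∫⁻ w, F w ∂(betaM W P') = ∫⁻ ω, F (Rp W ω) * dens W ω ∂P' := by
  unfold betaM
  have hFR : Measurable fun ω => F (Rp W ω) := hF.comp (measurable_Rp hW)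
  rw [lintegral_map hF (measurable_Rp hW), lintegral_withDensity_eq_lintegral_mul _
    (measurable_dens hW) hFR]
  apply lintegral_congr
  intro ω
  simp only [Pi.mul_apply]
  rw [mul_comm]

theorem betaM_univ (hW : TBM W P') {h : ℝ} {n : ℕ} (hn : (n : ℝ) * h = 1) :
    betaM W P' univ = S3 W P' h n (fun _ _ => 1) (ax 0) := by
  have h1 := lint_betaM hW (F := fun _ => 1) measurable_const
  rw [lintegral_one] at h1
  rw [h1]
  unfold S3
  simp only [hn, one_mul, Finset.prod_const_one, ax_zero, zero_add]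
  rfl

theorem isFinite_betaM (hW : TBM W P') : IsFiniteMeasure (betaM W P') := by
  constructor
  rw [betaM_univ hW (h := 1) (n := 1) (by norm_num)]
  exact S3_one_lt_top hW (by norm_num) 0

theorem betaM_univ_ne_zero (hW : TBM W P') : betaM W P' univ ≠ 0 := by
  rw [betaM_univ hW (h := 1) (n := 1) (by norm_num)]
  exact S3_one_pos hW _ _ _

/-- extend the family of test functions to all indices -/
noncomputable def extF {m : ℕ} (f : Fin (2 ^ m + 1) → ℝ →ᵇ ℝ≥0) (i : ℕ) : ℝ →ᵇ ℝ≥0 :=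
  if h : i + 1 < 2 ^ m + 1 then f ⟨i + 1, h⟩ else 1

theorem prod_dy {m : ℕ} (f : Fin (2 ^ m + 1) → ℝ →ᵇ ℝ≥0) (w : C(unitInterval, ℝ))
    (w' : ℝ → ℝ) (hw : ∀ s : unitInterval, w s = w' s) :
    ∏ i, ((f i (w (dy m i)) : ℝ≥0) : ℝ≥0∞) = (f 0 (w' 0) : ℝ≥0∞) *
      ∏ i ∈ Finset.range (2 ^ m), (extF f i (w' (((i : ℝ) + 1) * (1 / 2 ^ m))) : ℝ≥0∞) := by
  rw [Fin.prod_univ_succ, Finset.prod_range]
  congr 1
  · rw [hw]
    congr 3
    simp [dy]
  · apply Finset.prod_congr rfl
    intro i _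
    have hi : (i : ℕ) + 1 < 2 ^ m + 1 := Nat.succ_lt_succ i.2
    have e1 : extF f i = f i.succ := by
      unfold extF
      rw [dif_pos hi]
      rfl
    rw [e1, hw]
    congr 3
    simp only [dy, Fin.val_succ]
    push_cast
    ring

theorem nh_eq (m : ℕ) : ((2 ^ m : ℕ) : ℝ) * (1 / 2 ^ m) = 1 := by
  push_cast
  field_simp

theorem lint_betaM_prod (hW : TBM W P') {m : ℕ} (f : Fin (2 ^ m + 1) → ℝ →ᵇ ℝ≥0) :
    ∫⁻ w, ∏ i, ((f i (w (dy m i)) : ℝ≥0) : ℝ≥0∞) ∂(betaM W P') =
      (f 0 0 : ℝ≥0∞) * S3 W P' (1 / 2 ^ m) (2 ^ m) (fun i x => (extF f i x : ℝ≥0∞)) (ax 0) := by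
  have hm : Measurable fun w : C(unitInterval, ℝ) => ∏ i, ((f i (w (dy m i)) : ℝ≥0) : ℝ≥0∞) := by
    apply Finset.measurable_prod
    intro i _
    exact ((f i).continuous.measurable.comp (measurable_eval (dy m i))).coe_nnreal_ennreal
  rw [lint_betaM hW hm]
  unfold S3
  rw [← lintegral_const_mul' _ _ ENNReal.coe_ne_top]
  apply lintegral_congr
  intro ω
  rw [prod_dy f (Rp W ω) (fun t => ‖vec W t ω‖) (Rp_apply hW ω)]
  have h0 : vec W 0 ω = 0 := by
    unfold vec
    simp only [fun i => (hW.nbm i).zero ω]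
    rfl
  rw [h0, norm_zero, nh_eq]
  simp only [ax_zero, zero_add, dens]
  rw [mul_assoc]

/-- The joint law of the candidate window and of the path after it. -/
theorem cand_law_path (hb : NBM b P) (hW : TBM W P') {δ : ℝ} (hδ : 0 < δ) (hδ1 : δ ≤ 1) :
    (P.restrict {ω | cand (fun t => b t ω) δ}).map (fun ω =>
      (win (fun t => b t ω) (la (fun t => b t ω) δ),
        win (fun t => b t ω) (la (fun t => b t ω) δ + 1))) =
    ((P {ω | cand (fun t => b t ω) δ} / betaM W P' univ) • betaM W P').prod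
      (P.map (fun ω => win (fun t => b t ω) 0)) := by
  have hP := hb.isProb
  have hβ := isFinite_betaM hW
  have hla : Measurable fun ω => la (fun t => b t ω) δ :=
    measurable_la hb.cont hδ.le fun t _ => hb.meas t
  have hmw : ∀ c : ℝ, Measurable fun ω => win (fun t => b t ω) (la (fun t => b t ω) δ + c) := by
    intro c
    apply measurable_win hb.cont (a := c) (c := δ + c + 1) (fun t _ => hb.meas t)
      (hla.add_const c)
    intro ω
    have := (la_spec (hb.cont ω) hδ.le).1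
    exact ⟨by linarith [this.1], by linarith [this.2]⟩
  have hm0 : Measurable fun ω => win (fun t => b t ω) 0 := by
    apply measurable_win hb.cont (a := 0) (c := 1) (fun t _ => hb.meas t) measurable_const
    intro ω
    exact ⟨le_rfl, by norm_num⟩
  have hmw0 : Measurable fun ω => win (fun t => b t ω) (la (fun t => b t ω) δ) := by
    simpa only [add_zero] using hmw 0
  have hfinm : IsFiniteMeasure (((P {ω | cand (fun t => b t ω) δ} / betaM W P' univ) •
      betaM W P').prod (P.map (fun ω => win (fun t => b t ω) 0))) := by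
    have h1 : IsFiniteMeasure ((P {ω | cand (fun t => b t ω) δ} / betaM W P' univ) •
      betaM W P') := by
      apply Measure.smul_finite
      exact ENNReal.div_ne_top (measure_ne_top _ _) (betaM_univ_ne_zero hW)
    infer_instance
  apply ext_path_prod
  intro m f g
  have hprod : ∀ f : Fin (2 ^ m + 1) → ℝ →ᵇ ℝ≥0, Measurable fun w : C(unitInterval, ℝ) =>
      ∏ i, ((f i (w (dy m i)) : ℝ≥0) : ℝ≥0∞) := by
    intro f
    apply Finset.measurable_prod
    intro i _
    exact ((f i).continuous.measurable.comp (measurable_eval (dy m i))).coe_nnreal_ennreal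
  have hmm : Measurable fun p : C(unitInterval, ℝ) × C(unitInterval, ℝ) =>
      (∏ i, ((f i (p.1 (dy m i)) : ℝ≥0) : ℝ≥0∞)) * ∏ j, ((g j (p.2 (dy m j)) : ℝ≥0) : ℝ≥0∞) :=
    ((hprod f).comp measurable_fst).mul ((hprod g).comp measurable_snd)
  rw [lintegral_map hmm (hmw0.prodMk (hmw 1)), lintegral_prod _ hmm.aemeasurable]
  have hn := nh_eq m
  have hh : (0 : ℝ) < 1 / 2 ^ m := by positivity
  have key := cand_law hb hW hδ hδ1 hh hn (extF f) (extF g)
  -- left-hand side
  have hL : ∫⁻ ω in {ω | cand (fun t => b t ω) δ},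
      (∏ i, ((f i (win (fun t => b t ω) (la (fun t => b t ω) δ) (dy m i)) : ℝ≥0) : ℝ≥0∞)) *
      ∏ j, ((g j (win (fun t => b t ω) (la (fun t => b t ω) δ + 1) (dy m j)) : ℝ≥0) : ℝ≥0∞) ∂P =
      (f 0 0 : ℝ≥0∞) * (g 0 0 : ℝ≥0∞) * ∫⁻ ω in {ω | cand (fun t => b t ω) δ},
      (∏ i ∈ Finset.range (2 ^ m),
        (extF f i (sh b (la (fun t => b t ω) δ) (((i : ℝ) + 1) * (1 / 2 ^ m)) ω) : ℝ≥0∞)) *
      ∏ j ∈ Finset.range (2 ^ m),
        (extF g j (sh b (la (fun t => b t ω) δ + 1) (((j : ℝ) + 1) * (1 / 2 ^ m)) ω) :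
          ℝ≥0∞) ∂P := by
    rw [← lintegral_const_mul' _ _ (ENNReal.mul_ne_top ENNReal.coe_ne_top ENNReal.coe_ne_top)]
    apply lintegral_congr
    intro ω
    rw [prod_dy f _ (fun t => sh b (la (fun t => b t ω) δ) t ω) (fun s =>
        win_apply (hb.cont ω) _ s),
      prod_dy g _ (fun t => sh b (la (fun t => b t ω) δ + 1) t ω) (fun s =>
        win_apply (hb.cont ω) _ s)]
    have e : ∀ c, sh b c 0 ω = 0 := by
      intro c
      simp [sh]
    rw [e, e]
    ring
  have hW0 : ∫⁻ y, ∏ j, ((g j (y (dy m j)) : ℝ≥0) : ℝ≥0∞)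
      ∂(P.map (fun ω => win (fun t => b t ω) 0)) = (g 0 0 : ℝ≥0∞) *
      ∫⁻ ω, ∏ j ∈ Finset.range (2 ^ m),
        (extF g j (b (((j : ℝ) + 1) * (1 / 2 ^ m)) ω) : ℝ≥0∞) ∂P := by
    rw [lintegral_map (hprod g) hm0, ← lintegral_const_mul' _ _ ENNReal.coe_ne_top]
    apply lintegral_congr
    intro ω
    rw [prod_dy g _ (fun t => b t ω) (fun s => by
      rw [win_apply (hb.cont ω), hb.zero, zero_add, sub_zero]), hb.zero]
  have hR : ∀ x : C(unitInterval, ℝ), ∫⁻ y, (∏ i, ((f i (x (dy m i)) : ℝ≥0) : ℝ≥0∞)) *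
      ∏ j, ((g j (y (dy m j)) : ℝ≥0) : ℝ≥0∞) ∂(P.map (fun ω => win (fun t => b t ω) 0)) =
      (∏ i, ((f i (x (dy m i)) : ℝ≥0) : ℝ≥0∞)) * ((g 0 0 : ℝ≥0∞) *
      ∫⁻ ω, ∏ j ∈ Finset.range (2 ^ m),
        (extF g j (b (((j : ℝ) + 1) * (1 / 2 ^ m)) ω) : ℝ≥0∞) ∂P) := by
    intro x
    rw [lintegral_const_mul _ (hprod g), hW0]
  simp only
  simp_rw [hR]
  rw [hL, key, lintegral_mul_const _ (hprod f), lintegral_smul_measure, lint_betaM_prod hW f,
    betaM_univ hW hn]
  unfold rr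
  simp only [smul_eq_mul, div_eq_mul_inv]
  ring

end Helper78.BW
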