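import Mathlib
import Pool.Agent.Helper78.BW.PathLaw

/-!
Marginals of the reference measure, and lower bounds for the candidate events.
-/

open MeasureTheory ProbabilityTheory Set Filter Topology
open scoped ENNReal NNReal Real unitInterval

namespace Helper78.BW

variable {Ω : Type*} {mΩ : MeasurableSpace Ω} {P : Measure Ω} {b : ℝ → Ω → ℝ}
variable {Ω' : Type*} {mΩ' : MeasurableSpace Ω'} {P' : Measure Ω'} {W : Fin 3 → ℝ → Ω' → ℝ}

/-- The density of `R_1` under the reference measure. -/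
noncomputable def q1 (r : ℝ) : ℝ := (√(2 * π))⁻¹ * (2 * r) * Real.exp (-r ^ 2 / 2)

theorem lint_G3_zero {φ : ℝ → ℝ≥0∞} (hφ : Measurable φ) :
    ∫⁻ w, φ ‖w‖ ∂(G3 1) = ∫⁻ r in Ioi 0, φ r * ENNReal.ofReal (r * q1 r) := by
  have h := G3_radial one_pos (0 : E3) hφ
  simp only [zero_add, norm_zero] at h
  rw [h]
  apply setLIntegral_congr_fun measurableSet_Ioi
  intro r hr
  simp only
  rw [rho_zero one_pos hr]
  congr 2
  unfold q1
  rw [mul_one, mul_one]
  ring

theorem lint_R1 (hW : TBM W P') {φ : ℝ → ℝ≥0∞} (hφ : Measurable φ) :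
    ∫⁻ ω, φ ‖vec W 1 ω‖ ∂P' = ∫⁻ r in Ioi 0, φ r * ENNReal.ofReal (r * q1 r) := by
  have hm : Measurable fun w : E3 => φ ‖w‖ := hφ.comp measurable_norm
  rw [← lint_G3_zero hφ, ← hW.map_vec zero_le_one, lintegral_map hm (hW.measurable_vec 1)]

/-- The law of the end point under the reference measure. -/
theorem betaM_marg (hW : TBM W P') {φ : ℝ → ℝ≥0∞} (hφ : Measurable φ) :
    ∫⁻ w, φ (w 1) ∂(betaM W P') = ∫⁻ r in Ioi 0, φ r * ENNReal.ofReal (q1 r) := by
  have hm : Measurable fun w : C(unitInterval, ℝ) => φ (w 1) := hφ.comp (measurable_eval 1)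
  rw [lint_betaM hW hm]
  have e1 : ∫⁻ ω, φ (Rp W ω 1) * dens W ω ∂P' =
      ∫⁻ ω, (fun r => φ r * (ENNReal.ofReal r)⁻¹) ‖vec W 1 ω‖ ∂P' := by
    apply lintegral_congr
    intro ω
    rw [Rp_apply hW]
    rfl
  rw [e1, lint_R1 hW (φ := fun r => φ r * (ENNReal.ofReal r)⁻¹) (by fun_prop)]
  apply setLIntegral_congr_fun measurableSet_Ioi
  intro r hr
  have hr' : (0 : ℝ) < r := hr
  simp only
  rw [ENNReal.ofReal_mul hr'.le, mul_assoc, ← mul_assoc (ENNReal.ofReal r)⁻¹,
    ENNReal.inv_mul_cancel (by simpa using hr') ENNReal.ofReal_ne_top, one_mul]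

theorem q1_nonneg {r : ℝ} (hr : 0 ≤ r) : 0 ≤ q1 r := by
  unfold q1
  positivity

theorem measurable_q1 : Measurable q1 := by
  unfold q1
  fun_prop

/-- The total mass of the co-meander density. -/
theorem lint_inv_q1 : ∫⁻ r in Ioi (0 : ℝ), (ENNReal.ofReal r)⁻¹ * ENNReal.ofReal (q1 r) = 1 := by
  have h1 : ∫⁻ r in Ioi (0 : ℝ), (ENNReal.ofReal r)⁻¹ * ENNReal.ofReal (q1 r) =
      ∫⁻ r in Ioi (0 : ℝ), ENNReal.ofReal (2 * (√(2 * π))⁻¹ * Real.exp (-(1 / 2) * r ^ 2)) := by
    apply setLIntegral_congr_fun measurableSet_Ioi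
    intro r hr
    have hr' : (0 : ℝ) < r := hr
    simp only
    rw [← ENNReal.ofReal_inv_of_pos hr', ← ENNReal.ofReal_mul (by positivity)]
    congr 1
    unfold q1
    have e : -r ^ 2 / 2 = -(1 / 2) * r ^ 2 := by ring
    rw [e]
    field_simp
  rw [h1, ← ofReal_integral_eq_lintegral_ofReal]
  · rw [integral_const_mul, integral_gaussian_Ioi]
    rw [← ENNReal.ofReal_one]
    congr 1
    have e : π / (1 / 2) = 2 * π := by ring
    rw [e]
    field_simp
  · exact ((integrable_exp_neg_mul_sq (by norm_num)).const_mul _).integrableOn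
  · exact Eventually.of_forall fun r => by positivity

theorem lint_inv_betaM (hW : TBM W P') :
    ∫⁻ w, (ENNReal.ofReal (w 1))⁻¹ ∂(betaM W P') = 1 := by
  rw [betaM_marg hW (φ := fun r => (ENNReal.ofReal r)⁻¹) (by fun_prop)]
  exact lint_inv_q1

theorem lint_id_betaM (hW : TBM W P') :
    ∫⁻ w, ENNReal.ofReal (w 1) ∂(betaM W P') = 1 := by
  have hP := hW.isProb
  have h1 := lint_R1 hW (φ := fun _ => 1) measurable_const
  simp only [lintegral_const, measure_univ, mul_one, one_mul] at h1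
  rw [betaM_marg hW (φ := fun r => ENNReal.ofReal r) (by fun_prop), h1]
  apply setLIntegral_congr_fun measurableSet_Ioi
  intro r hr
  simp only
  rw [ENNReal.ofReal_mul (le_of_lt hr)]

/-- positivity of the end point -/
theorem betaM_pos (hW : TBM W P') : ∀ᵐ w ∂(betaM W P'), 0 < w 1 := by
  have h1 := betaM_marg hW (φ := (Iic (0 : ℝ)).indicator (fun _ => 1))
    (measurable_const.indicator measurableSet_Iic)
  have h2 : ∫⁻ r in Ioi (0 : ℝ), (Iic (0 : ℝ)).indicator (fun _ => 1) r *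
      ENNReal.ofReal (q1 r) = 0 := by
    rw [← lintegral_zero]
    apply setLIntegral_congr_fun measurableSet_Ioi
    intro r hr
    simp only
    rw [indicator_of_notMem, zero_mul]
    intro h
    exact absurd (show (0 : ℝ) < r from hr) (not_lt.2 h)
  rw [h2] at h1
  have hm : Measurable fun w : C(unitInterval, ℝ) =>
      (Iic (0 : ℝ)).indicator (fun _ => (1 : ℝ≥0∞)) (w 1) :=
    (measurable_const.indicator measurableSet_Iic).comp (measurable_eval 1)
  rw [lintegral_eq_zero_iff hm] at h1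
  filter_upwards [h1] with w hw
  by_contra hcon
  push Not at hcon
  simp only [Pi.zero_apply] at hw
  rw [indicator_of_mem (show w 1 ∈ Iic (0 : ℝ) from hcon)] at hw
  exact one_ne_zero hw

theorem lint_sq_betaM (hW : TBM W P') :
    ∫⁻ w, ENNReal.ofReal (w 1) * ENNReal.ofReal (w 1) ∂(betaM W P') < ∞ := by
  rw [betaM_marg hW (φ := fun r => ENNReal.ofReal r * ENNReal.ofReal r) (by fun_prop)]
  have h1 : ∫⁻ r in Ioi (0 : ℝ), ENNReal.ofReal r * ENNReal.ofReal r * ENNReal.ofReal (q1 r) =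
      ∫⁻ r in Ioi (0 : ℝ), ENNReal.ofReal (2 * (√(2 * π))⁻¹ *
        (r ^ (3 : ℝ) * Real.exp (-(1 / 2) * r ^ 2))) := by
    apply setLIntegral_congr_fun measurableSet_Ioi
    intro r hr
    have hr' : (0 : ℝ) < r := hr
    simp only
    rw [← ENNReal.ofReal_mul hr'.le, ← ENNReal.ofReal_mul (by positivity)]
    congr 1
    unfold q1
    have e : -r ^ 2 / 2 = -(1 / 2) * r ^ 2 := by ring
    rw [e]
    have e3 : r ^ (3 : ℝ) = r ^ 3 := by
      rw [← Real.rpow_natCast]
      norm_num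
    rw [e3]
    ring
  rw [h1]
  have hint := ((integrable_rpow_mul_exp_neg_mul_sq (b := 1 / 2) (by norm_num)
    (s := 3) (by norm_num)).const_mul (2 * (√(2 * π))⁻¹)).integrableOn (s := Ioi 0)
  have h4 := hint.hasFiniteIntegral
  rw [hasFiniteIntegral_iff_norm] at h4
  refine lt_of_le_of_lt ?_ h4
  apply lintegral_mono
  intro r
  exact ENNReal.ofReal_le_ofReal (le_abs_self _)

/-! ### Lower bounds -/

/-- Gaussian scaling for a tail. -/
theorem tail_scale (hb : NBM b P) {δ : ℝ} (hδ : 0 < δ) (c : ℝ) :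
    P {ω | c * √δ ≤ b δ ω} = gaussianReal 0 1 (Ici c) := by
  have hs : 0 < √δ := Real.sqrt_pos.2 hδ
  have h1 : P {ω | c * √δ ≤ b δ ω} = P.map (b δ) (Ici (c * √δ)) := by
    rw [Measure.map_apply (hb.meas δ) measurableSet_Ici]
    rfl
  have h2 : gaussianReal 0 δ.toNNReal = (gaussianReal 0 1).map (fun x => √δ * x) := by
    rw [gaussianReal_map_const_mul, mul_zero, mul_one]
    congr 1
    apply NNReal.eq
    simp [Real.sq_sqrt hδ.le, Real.coe_toNNReal δ hδ.le]
  rw [h1, hb.hasLaw hδ.le, h2, Measure.map_apply (by fun_prop) measurableSet_Ici]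
  congr 1
  ext x
  simp only [mem_preimage, mem_Ici]
  rw [mul_comm, mul_le_mul_iff_right₀ hs]

theorem gauss_Ici_pos (c : ℝ) : 0 < gaussianReal 0 1 (Ici c) := by
  rw [pos_iff_ne_zero]
  intro h
  have := gaussianReal_absolutelyContinuous' 0 (one_ne_zero : (1 : ℝ≥0) ≠ 0) h
  simp at this

/-- Lower bound for the probability of the candidate event. -/
theorem P_cand_ge (hb : NBM b P) {δ : ℝ} (hδ : 0 < δ) (hδ1 : δ ≤ 1) :
    gaussianReal 0 1 (Ici 1) * (ENNReal.ofReal (gaussianPDFReal 0 1 1) *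
      ENNReal.ofReal (2 * √δ)) ≤ P {ω | cand (fun t => b t ω) δ} := by
  have hP := hb.isProb
  have hs : 0 < √δ := Real.sqrt_pos.2 hδ
  have hs1 : √δ ≤ 1 := by rwa [Real.sqrt_le_one]
  have hsb := hb.shift hδ.le
  have h1 := tail_scale hb hδ 1
  have h2 := le_P_Pos hsb hs hs1
  -- independence
  have hA : MeasurableSet[Fle b δ] {ω | 1 * √δ ≤ b δ ω} :=
    (measurable_Fle (b := b) hδ.le le_rfl) measurableSet_Ici
  have hB : MeasurableSet[Fge b δ] (Pos (sh b δ) (√δ) 1) := by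
    have m1 : Measurable[Fge b δ] fun ω => √δ + mn (fun t => sh b δ t ω) 0 1 :=
      measurable_const.add (measurable_mn (m := Fge b δ) zero_le_one fun s hs =>
        measurable_Fge hδ.le hs.1)
    exact m1 measurableSet_Ioi
  have hind := (Indep_iff _ _ _).1 (indep_past_future hb δ) _ _ hA hB
  have hsub : {ω | 1 * √δ ≤ b δ ω} ∩ Pos (sh b δ) (√δ) 1 ⊆ {ω | cand (fun t => b t ω) δ} := by
    rintro ω ⟨ha, hb'⟩
    simp only [Set.mem_ofPred_eq, one_mul] at ha
    simp only [Pos, Set.mem_ofPred_eq] at hb'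
    show mn (fun t => b t ω) 0 δ < mn (fun t => b t ω) δ (la (fun t => b t ω) δ + 1)
    have hl := (la_spec (hb.cont ω) hδ.le).1
    rw [lt_mn_iff (hb.cont ω) (by linarith [hl.1])]
    intro s hs'
    have h3 := mn_le (hsb.cont ω) (show s - δ ∈ Icc (0 : ℝ) 1 from
      ⟨by linarith [hs'.1], by linarith [hs'.2, hl.2]⟩)
    have h5 : sh b δ (s - δ) ω = b s ω - b δ ω := by
      simp only [sh, add_sub_cancel]
    rw [h5] at h3
    have h4 := mn_le (hb.cont ω) (show (0 : ℝ) ∈ Icc 0 δ from ⟨le_rfl, hδ.le⟩)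
    rw [hb.zero] at h4
    linarith
  calc _ ≤ P {ω | 1 * √δ ≤ b δ ω} * P (Pos (sh b δ) (√δ) 1) := by
        rw [h1]
        gcongr
    _ = P ({ω | 1 * √δ ≤ b δ ω} ∩ Pos (sh b δ) (√δ) 1) := hind.symm
    _ ≤ _ := measure_mono hsub

/-- Lower bound for the probability of going down. -/
theorem P_down_ge (hb : NBM b P) {δ x : ℝ} (hδ : 0 < δ) (hx : x ≤ 2 * √δ) :
    gaussianReal 0 1 (Ici 2) ≤ P {ω | mn (fun t => b t ω) 0 δ ≤ -x} := by
  have hP := hb.isProb
  have h1 : P {ω | b δ ω ≤ -(2 * √δ)} = gaussianReal 0 1 (Ici 2) := by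
    have hneg : P.map (fun ω => -b δ ω) = P.map (b δ) := by
      have h := hb.map_neg_add 0 hδ.le
      simp only [zero_add, neg_zero] at h
      rw [h, hb.hasLaw hδ.le]
    have h2 : P {ω | b δ ω ≤ -(2 * √δ)} = P.map (fun ω => -b δ ω) (Ici (2 * √δ)) := by
      have hm : Measurable fun ω => -b δ ω := (hb.meas δ).neg
      rw [Measure.map_apply hm measurableSet_Ici]
      congr 1
      ext ω
      simp only [Set.mem_ofPred_eq, mem_preimage, mem_Ici]
      constructor <;> intro h <;> linarith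
    rw [h2, hneg, Measure.map_apply (hb.meas δ) measurableSet_Ici, ← tail_scale hb hδ 2]
    rfl
  rw [← h1]
  apply measure_mono
  intro ω hω
  simp only [Set.mem_ofPred_eq] at hω ⊢
  have := mn_le (hb.cont ω) (show δ ∈ Icc 0 δ from ⟨hδ.le, le_rfl⟩)
  linarith

end Helper78.BW
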