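import Mathlib

/-!
Selection of a block: the last success among the high blocks, or the first success among the
low blocks if no high block succeeds.
-/

open MeasureTheory ProbabilityTheory Set Filter Topology
open scoped ENNReal NNReal

namespace Helper78.BW

variable {Ω : Type*} {mΩ : MeasurableSpace Ω} {P : Measure Ω}

/-- The selection events. -/
def Esel (K L : ℕ → Set Ω) : ℕ ⊕ ℕ → Set Ω :=
  Sum.elim (fun n => K n ∩ ⋂ i, ⋂ (_ : n < i), (K i)ᶜ)
    (fun n => (⋂ i, (K i)ᶜ) ∩ (L n ∩ ⋂ i, ⋂ (_ : i < n), (L i)ᶜ))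

theorem Esel_disjoint (K L : ℕ → Set Ω) : Pairwise (Function.onFun Disjoint (Esel K L)) := by
  have hh : ∀ n n' : ℕ, n < n' → Disjoint (Esel K L (Sum.inl n)) (Esel K L (Sum.inl n')) := by
    intro n n' h
    rw [Set.disjoint_left]
    rintro ω ⟨_, h1⟩ ⟨h2, _⟩
    simp only [mem_iInter] at h1
    exact h1 n' h h2
  have hl : ∀ n n' : ℕ, n < n' → Disjoint (Esel K L (Sum.inr n)) (Esel K L (Sum.inr n')) := by
    intro n n' h
    rw [Set.disjoint_left]
    rintro ω ⟨_, h1, _⟩ ⟨_, _, h2⟩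
    simp only [mem_iInter] at h2
    exact h2 n h h1
  have hhl : ∀ n n' : ℕ, Disjoint (Esel K L (Sum.inl n)) (Esel K L (Sum.inr n')) := by
    intro n n'
    rw [Set.disjoint_left]
    rintro ω ⟨h1, _⟩ ⟨h2, _⟩
    simp only [mem_iInter] at h2
    exact h2 n h1
  rintro (n | n) (n' | n') hne
  · rcases lt_trichotomy n n' with h | h | h
    · exact hh n n' h
    · exact absurd (by rw [h]) hne
    · exact (hh n' n h).symm
  · exact hhl n n'
  · exact (hhl n' n).symm
  · rcases lt_trichotomy n n' with h | h | h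
    · exact hl n n' h
    · exact absurd (by rw [h]) hne
    · exact (hl n' n h).symm

theorem measurableSet_Esel {K L : ℕ → Set Ω} (hK : ∀ n, MeasurableSet (K n))
    (hL : ∀ n, MeasurableSet (L n)) (i : ℕ ⊕ ℕ) : MeasurableSet (Esel K L i) := by
  rcases i with n | n
  · exact (hK n).inter (MeasurableSet.iInter fun i => MeasurableSet.iInter fun _ => (hK i).compl)
  · exact (MeasurableSet.iInter fun i => (hK i).compl).inter ((hL n).inter
      (MeasurableSet.iInter fun i => MeasurableSet.iInter fun _ => (hL i).compl))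

variable {S : Type*} [MeasurableSpace S] {β : Measure S}

/-- Hypotheses of the selection. -/
structure SelHyp (P : Measure Ω) (m : ℕ ⊕ ℕ → MeasurableSpace Ω) (K L : ℕ → Set Ω)
    (X Y : ℕ → Ω → S) (β : Measure S) (a : ℕ → S → ℝ≥0∞) (f0 : S → ℝ≥0∞) (θ : ℝ≥0∞) : Prop where
  hm : ∀ i, m i ≤ mΩ
  hind : iIndep m P
  hK : ∀ n, MeasurableSet[m (Sum.inl n)] (K n)
  hX : ∀ n, Measurable[m (Sum.inl n)] (X n)
  hL : ∀ n, MeasurableSet[m (Sum.inr n)] (L n)
  hY : ∀ n, Measurable[m (Sum.inr n)] (Y n)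
  f0_ne : ∫⁻ x, f0 x ∂β ≠ 0
  total : ∫⁻ x, f0 x ∂β + ∑' n, ∫⁻ x, a n x ∂β = 1
  lawK : ∀ n A, MeasurableSet A → P (K n ∩ X n ⁻¹' A) =
    (∫⁻ x, f0 x ∂β + ∑ j ∈ Finset.range (n + 1), ∫⁻ x, a j x ∂β)⁻¹ * ∫⁻ x in A, a n x ∂β
  lawL : ∀ n A, MeasurableSet A → P (L n ∩ Y n ⁻¹' A) = θ * ∫⁻ x in A, f0 x ∂β
  θ_ne : θ ≠ 0

variable {m : ℕ ⊕ ℕ → MeasurableSpace Ω} {K L : ℕ → Set Ω} {X Y : ℕ → Ω → S}
  {a : ℕ → S → ℝ≥0∞} {f0 : S → ℝ≥0∞} {θ : ℝ≥0∞}

/-- partial sums -/
noncomputable def psum (β : Measure S) (f0 : S → ℝ≥0∞) (a : ℕ → S → ℝ≥0∞) (n : ℕ) : ℝ≥0∞ :=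
  ∫⁻ x, f0 x ∂β + ∑ j ∈ Finset.range n, ∫⁻ x, a j x ∂β

theorem psum_succ (n : ℕ) : psum β f0 a (n + 1) = psum β f0 a n + ∫⁻ x, a n x ∂β := by
  unfold psum
  rw [Finset.sum_range_succ, add_assoc]

theorem psum_ne_zero (h : SelHyp P m K L X Y β a f0 θ) (n : ℕ) : psum β f0 a n ≠ 0 := by
  unfold psum
  intro h0
  rw [add_eq_zero] at h0
  exact h.f0_ne h0.1

theorem psum_le_one (h : SelHyp P m K L X Y β a f0 θ) (n : ℕ) : psum β f0 a n ≤ 1 := by
  rw [← h.total]
  unfold psum
  gcongr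
  exact ENNReal.sum_le_tsum _

theorem psum_ne_top (h : SelHyp P m K L X Y β a f0 θ) (n : ℕ) : psum β f0 a n ≠ ∞ :=
  ne_top_of_le_ne_top ENNReal.one_ne_top (psum_le_one h n)

theorem psum_tendsto (h : SelHyp P m K L X Y β a f0 θ) :
    Tendsto (psum β f0 a) atTop (𝓝 1) := by
  rw [← h.total]
  unfold psum
  exact tendsto_const_nhds.add ENNReal.summable.hasSum.tendsto_sum_nat

theorem P_K (h : SelHyp P m K L X Y β a f0 θ) (n : ℕ) :
    P (K n) = (psum β f0 a (n + 1))⁻¹ * ∫⁻ x, a n x ∂β := by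
  have := h.lawK n univ MeasurableSet.univ
  rw [preimage_univ, inter_univ, Measure.restrict_univ] at this
  exact this

theorem P_Kc [IsProbabilityMeasure P] (h : SelHyp P m K L X Y β a f0 θ) (n : ℕ) :
    P (K n)ᶜ = psum β f0 a n / psum β f0 a (n + 1) := by
  have h0 := psum_ne_zero h (n + 1)
  have ht := psum_ne_top h (n + 1)
  have hadd : P (K n) + psum β f0 a n / psum β f0 a (n + 1) = 1 := by
    rw [P_K h, mul_comm, ← div_eq_mul_inv, ← ENNReal.add_div, add_comm, ← psum_succ]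
    exact ENNReal.div_self h0 ht
  rw [prob_compl_eq_one_sub (h.hm _ _ (h.hK n)), ← hadd]
  exact ENNReal.add_sub_cancel_left (measure_ne_top _ _)

theorem prod_Kc [IsProbabilityMeasure P] (h : SelHyp P m K L X Y β a f0 θ) (n N : ℕ)
    (hnN : n ≤ N) : ∏ i ∈ Finset.Ico n N, P (K i)ᶜ = psum β f0 a n / psum β f0 a N := by
  induction N, hnN using Nat.le_induction with
  | base =>
    rw [Finset.Ico_self, Finset.prod_empty]
    exact (ENNReal.div_self (psum_ne_zero h n) (psum_ne_top h n)).symm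
  | succ N hN ih =>
    rw [Finset.prod_Ico_succ_top hN, ih, P_Kc h, div_eq_mul_inv, div_eq_mul_inv, div_eq_mul_inv]
    have : (psum β f0 a N)⁻¹ * psum β f0 a N = 1 :=
      ENNReal.inv_mul_cancel (psum_ne_zero h N) (psum_ne_top h N)
    calc _ = psum β f0 a n * ((psum β f0 a N)⁻¹ * psum β f0 a N) * (psum β f0 a (N + 1))⁻¹ := by
          ring
      _ = _ := by rw [this, mul_one]

/-- law on a high selection event -/
theorem law_high [IsProbabilityMeasure P] (h : SelHyp P m K L X Y β a f0 θ) (n : ℕ) {A : Set S}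
    (hA : MeasurableSet A) :
    P (Esel K L (Sum.inl n) ∩ X n ⁻¹' A) = ∫⁻ x in A, a n x ∂β := by
  classical
  -- the finite approximations
  let F : ℕ ⊕ ℕ → Set Ω := Sum.elim (fun i => if i = n then K n ∩ X n ⁻¹' A else (K i)ᶜ)
    (fun _ => univ)
  let G : ℕ → Set Ω := fun N => ⋂ i ∈ (Finset.Ico n (n + 1 + N)).disjSum (∅ : Finset ℕ), F i
  have hFm : ∀ i, MeasurableSet[m i] (F i) := by
    rintro (i | i)
    · simp only [F, Sum.elim_inl]
      split_ifs with hi
      · subst hi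
        exact (h.hK i).inter (h.hX i hA)
      · exact (h.hK i).compl
    · exact MeasurableSet.univ
  have hG : ∀ N, P (G N) = P (K n ∩ X n ⁻¹' A) *
      (psum β f0 a (n + 1) / psum β f0 a (n + 1 + N)) := by
    intro N
    simp only [G]
    rw [h.hind.meas_biInter fun i _ => hFm i, Finset.prod_disjSum, Finset.prod_empty, mul_one,
      Finset.prod_eq_prod_Ico_succ_bot (by omega : n < n + 1 + N)]
    congr 1
    · simp only [F, Sum.elim_inl, if_true]
    · rw [← prod_Kc h (n + 1) (n + 1 + N) (by omega)]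
      apply Finset.prod_congr rfl
      intro i hi
      have hne : i ≠ n := by
        have := (Finset.mem_Ico.1 hi).1
        omega
      simp only [F, Sum.elim_inl, if_neg hne]
  have hGm : ∀ N, MeasurableSet (G N) := by
    intro N
    exact Finset.measurableSet_biInter _ fun i _ => h.hm i _ (hFm i)
  have hanti : Antitone G := by
    intro N N' hNN ω hω
    simp only [G, mem_iInter] at hω ⊢
    intro i hi
    apply hω i
    rcases i with i | i
    · rw [Finset.inl_mem_disjSum, Finset.mem_Ico] at hi ⊢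
      omega
    · rw [Finset.inr_mem_disjSum] at hi
      exact absurd hi (Finset.notMem_empty i)
  have hinter : ⋂ N, G N = Esel K L (Sum.inl n) ∩ X n ⁻¹' A := by
    ext ω
    simp only [G, mem_iInter, Esel, Sum.elim_inl, mem_inter_iff]
    constructor
    · intro hω
      have h1 := hω 0 (Sum.inl n) (by
        rw [Finset.inl_mem_disjSum, Finset.mem_Ico]; omega)
      simp only [F, Sum.elim_inl, if_true] at h1
      refine ⟨⟨h1.1, ?_⟩, h1.2⟩
      intro i hi
      have h2 := hω i (Sum.inl i) (by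
        rw [Finset.inl_mem_disjSum, Finset.mem_Ico]; omega)
      simp only [F, Sum.elim_inl, if_neg (ne_of_gt hi)] at h2
      exact h2
    · rintro ⟨⟨h1, h2⟩, h3⟩ N i hi
      rcases i with i | i
      · rw [Finset.inl_mem_disjSum, Finset.mem_Ico] at hi
        by_cases hin : i = n
        · simp only [F, Sum.elim_inl, if_pos hin]
          exact ⟨h1, h3⟩
        · simp only [F, Sum.elim_inl, if_neg hin]
          exact h2 i (by omega)
      · exact mem_univ _
  have lim1 : Tendsto (fun N => P (G N)) atTop (𝓝 (P (Esel K L (Sum.inl n) ∩ X n ⁻¹' A))) := by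
    rw [← hinter]
    exact tendsto_measure_iInter_atTop (fun N => (hGm N).nullMeasurableSet) hanti
      ⟨0, measure_ne_top _ _⟩
  have lim2 : Tendsto (fun N => P (G N)) atTop (𝓝 (P (K n ∩ X n ⁻¹' A) *
      (psum β f0 a (n + 1) / 1))) := by
    simp only [hG]
    apply ENNReal.Tendsto.const_mul
    · apply ENNReal.Tendsto.div tendsto_const_nhds (Or.inl (psum_ne_zero h _))
      · have h1 := (psum_tendsto h).comp (tendsto_add_atTop_nat (n + 1))
        refine h1.congr fun N => ?_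
        simp only [Function.comp]
        rw [add_comm]
      · exact Or.inl ENNReal.one_ne_top
    · exact Or.inr (measure_ne_top _ _)
  rw [tendsto_nhds_unique lim1 lim2, div_one, h.lawK n A hA]
  show (psum β f0 a (n + 1))⁻¹ * _ * _ = _
  rw [mul_comm, ← mul_assoc, ENNReal.mul_inv_cancel (psum_ne_zero h _) (psum_ne_top h _), one_mul]

theorem P_L (h : SelHyp P m K L X Y β a f0 θ) (n : ℕ) :
    P (L n) = θ * ∫⁻ x, f0 x ∂β := by
  have := h.lawL n univ MeasurableSet.univ
  rw [preimage_univ, inter_univ, Measure.restrict_univ] at this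
  exact this

/-- law on a low selection event -/
theorem law_low [IsProbabilityMeasure P] (h : SelHyp P m K L X Y β a f0 θ) (n : ℕ) {A : Set S}
    (hA : MeasurableSet A) :
    P (Esel K L (Sum.inr n) ∩ Y n ⁻¹' A) =
      (∫⁻ x, f0 x ∂β) * ((1 - θ * ∫⁻ x, f0 x ∂β) ^ n * (θ * ∫⁻ x in A, f0 x ∂β)) := by
  classical
  let F : ℕ ⊕ ℕ → Set Ω := Sum.elim (fun i => (K i)ᶜ)
    (fun i => if i = n then L n ∩ Y n ⁻¹' A else (L i)ᶜ)
  let G : ℕ → Set Ω := fun N => ⋂ i ∈ (Finset.Ico 0 N).disjSum (Finset.range (n + 1)), F i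
  have hFm : ∀ i, MeasurableSet[m i] (F i) := by
    rintro (i | i)
    · exact (h.hK i).compl
    · simp only [F, Sum.elim_inr]
      split_ifs with hi
      · subst hi
        exact (h.hL i).inter (h.hY i hA)
      · exact (h.hL i).compl
  have hG : ∀ N, P (G N) = (psum β f0 a 0 / psum β f0 a N) *
      ((1 - θ * ∫⁻ x, f0 x ∂β) ^ n * (θ * ∫⁻ x in A, f0 x ∂β)) := by
    intro N
    simp only [G]
    rw [h.hind.meas_biInter fun i _ => hFm i, Finset.prod_disjSum]
    congr 1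
    · exact prod_Kc h 0 N (Nat.zero_le _)
    · rw [Finset.prod_range_succ]
      congr 1
      · rw [← Finset.card_range n, ← Finset.prod_const]
        simp only [Finset.card_range]
        apply Finset.prod_congr rfl
        intro i hi
        have hne : i ≠ n := (Finset.mem_range.1 hi).ne
        simp only [F, Sum.elim_inr, if_neg hne]
        rw [prob_compl_eq_one_sub (h.hm _ _ (h.hL i)), P_L h]
      · simp only [F, Sum.elim_inr, if_true]
        exact h.lawL n A hA
  have hGm : ∀ N, MeasurableSet (G N) := by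
    intro N
    exact Finset.measurableSet_biInter _ fun i _ => h.hm i _ (hFm i)
  have hanti : Antitone G := by
    intro N N' hNN ω hω
    simp only [G, mem_iInter] at hω ⊢
    intro i hi
    apply hω i
    rcases i with i | i
    · rw [Finset.inl_mem_disjSum, Finset.mem_Ico] at hi ⊢
      omega
    · rw [Finset.inr_mem_disjSum] at hi ⊢
      exact hi
  have hinter : ⋂ N, G N = Esel K L (Sum.inr n) ∩ Y n ⁻¹' A := by
    ext ω
    simp only [G, mem_iInter, Esel, Sum.elim_inr, mem_inter_iff]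
    constructor
    · intro hω
      have h1 := hω 0 (Sum.inr n) (by
        rw [Finset.inr_mem_disjSum, Finset.mem_range]; omega)
      simp only [F, Sum.elim_inr, if_true] at h1
      refine ⟨⟨?_, h1.1, ?_⟩, h1.2⟩
      · intro i
        have h2 := hω (i + 1) (Sum.inl i) (by
          rw [Finset.inl_mem_disjSum, Finset.mem_Ico]; omega)
        exact h2
      · intro i hi
        have h2 := hω 0 (Sum.inr i) (by
          rw [Finset.inr_mem_disjSum, Finset.mem_range]; omega)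
        simp only [F, Sum.elim_inr, if_neg (ne_of_lt hi)] at h2
        exact h2
    · rintro ⟨⟨h1, h2, h3⟩, h4⟩ N i hi
      rcases i with i | i
      · exact h1 i
      · rw [Finset.inr_mem_disjSum, Finset.mem_range] at hi
        by_cases hin : i = n
        · simp only [F, Sum.elim_inr, if_pos hin]
          exact ⟨h2, h4⟩
        · simp only [F, Sum.elim_inr, if_neg hin]
          exact h3 i (by omega)
  have lim1 : Tendsto (fun N => P (G N)) atTop (𝓝 (P (Esel K L (Sum.inr n) ∩ Y n ⁻¹' A))) := by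
    rw [← hinter]
    exact tendsto_measure_iInter_atTop (fun N => (hGm N).nullMeasurableSet) hanti
      ⟨0, measure_ne_top _ _⟩
  have lim2 : Tendsto (fun N => P (G N)) atTop (𝓝 ((psum β f0 a 0 / 1) *
      ((1 - θ * ∫⁻ x, f0 x ∂β) ^ n * (θ * ∫⁻ x in A, f0 x ∂β)))) := by
    simp only [hG]
    apply ENNReal.Tendsto.mul_const
    · apply ENNReal.Tendsto.div tendsto_const_nhds (Or.inl (psum_ne_zero h _)) (psum_tendsto h)
      exact Or.inl ENNReal.one_ne_top
    · right
      rw [← h.lawL n A hA]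
      apply ENNReal.mul_ne_top _ (measure_ne_top _ _)
      apply ENNReal.pow_ne_top
      exact ne_top_of_le_ne_top ENNReal.one_ne_top tsub_le_self
  rw [tendsto_nhds_unique lim1 lim2, div_one]
  congr 1
  unfold psum
  simp

theorem tsum_low [IsProbabilityMeasure P] (h : SelHyp P m K L X Y β a f0 θ) {A : Set S}
    (hA : MeasurableSet A) :
    ∑' n, P (Esel K L (Sum.inr n) ∩ Y n ⁻¹' A) = ∫⁻ x in A, f0 x ∂β := by
  have h1 : θ * ∫⁻ x, f0 x ∂β ≤ 1 := by
    rw [← P_L h 0]
    exact prob_le_one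
  have h2 : θ * ∫⁻ x, f0 x ∂β ≠ 0 := mul_ne_zero h.θ_ne h.f0_ne
  have h3 : θ * ∫⁻ x, f0 x ∂β ≠ ∞ := ne_top_of_le_ne_top ENNReal.one_ne_top h1
  simp_rw [law_low h _ hA]
  rw [ENNReal.tsum_mul_left, ENNReal.tsum_mul_right, ENNReal.tsum_geometric,
    ENNReal.sub_sub_cancel ENNReal.one_ne_top h1]
  calc (∫⁻ x, f0 x ∂β) * ((θ * ∫⁻ x, f0 x ∂β)⁻¹ * (θ * ∫⁻ x in A, f0 x ∂β))
      = ((θ * ∫⁻ x, f0 x ∂β)⁻¹ * (θ * ∫⁻ x, f0 x ∂β)) * ∫⁻ x in A, f0 x ∂β := by ring
    _ = _ := by rw [ENNReal.inv_mul_cancel h2 h3, one_mul]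

/-- finiteness of the expected index of the low block -/
theorem low_index_fin [IsProbabilityMeasure P] (h : SelHyp P m K L X Y β a f0 θ) :
    ∑' n : ℕ, ((n : ℝ≥0∞) + 1) * P (Esel K L (Sum.inr n)) < ∞ := by
  have h1 : θ * ∫⁻ x, f0 x ∂β ≤ 1 := by
    rw [← P_L h 0]
    exact prob_le_one
  have h2 : θ * ∫⁻ x, f0 x ∂β ≠ 0 := mul_ne_zero h.θ_ne h.f0_ne
  have hE : ∀ n, P (Esel K L (Sum.inr n)) ≤ (1 - θ * ∫⁻ x, f0 x ∂β) ^ n := by
    intro n
    have h4 := law_low h n MeasurableSet.univ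
    rw [preimage_univ, inter_univ, Measure.restrict_univ] at h4
    rw [h4]
    have h5 : ∫⁻ x, f0 x ∂β ≤ 1 := by
      rw [← h.total]
      exact le_self_add
    calc (∫⁻ x, f0 x ∂β) * ((1 - θ * ∫⁻ x, f0 x ∂β) ^ n * (θ * ∫⁻ x, f0 x ∂β))
        ≤ 1 * ((1 - θ * ∫⁻ x, f0 x ∂β) ^ n * 1) := by gcongr
      _ = _ := by rw [one_mul, mul_one]
  -- convert to a real geometric series
  have hr1 : 1 - θ * ∫⁻ x, f0 x ∂β < 1 :=
    ENNReal.sub_lt_self ENNReal.one_ne_top one_ne_zero h2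
  obtain ⟨r, hr⟩ : ∃ r : ℝ≥0, (r : ℝ≥0∞) = 1 - θ * ∫⁻ x, f0 x ∂β :=
    ⟨_, ENNReal.coe_toNNReal (hr1.trans ENNReal.one_lt_top).ne⟩
  rw [← hr] at hr1
  simp only [← hr] at hE
  have hr1' : r < 1 := by exact_mod_cast hr1
  have hsum : Summable fun n : ℕ => ((n : ℝ≥0) + 1) * r ^ n := by
    rw [← NNReal.summable_coe]
    have s1 : Summable fun n : ℕ => ((n : ℝ) ^ 1 * (r : ℝ) ^ n) :=
      summable_pow_mul_geometric_of_norm_lt_one 1 (by
        rw [Real.norm_eq_abs, abs_of_nonneg (NNReal.coe_nonneg r)]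
        exact_mod_cast hr1')
    have s2 : Summable fun n : ℕ => (r : ℝ) ^ n :=
      summable_geometric_of_lt_one (NNReal.coe_nonneg r) (by exact_mod_cast hr1')
    have := s1.add s2
    refine this.congr fun n => ?_
    push_cast
    ring
  have hfin : ∑' n : ℕ, (((((n : ℝ≥0) + 1) * r ^ n : ℝ≥0)) : ℝ≥0∞) ≠ ∞ :=
    ENNReal.tsum_coe_ne_top_iff_summable.2 hsum
  refine lt_of_le_of_lt (ENNReal.tsum_le_tsum fun n => ?_) hfin.lt_top
  push_cast
  gcongr
  exact hE n

end Helper78.BW
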