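import Mathlib
import Pool.Agent.Helper78.BW.Marg
import Pool.Agent.Helper78.BW.Select

/-!
Independent blocks of a Brownian path and acceptance with the help of an independent increment.
-/

open MeasureTheory ProbabilityTheory Set Filter Topology
open scoped ENNReal NNReal Real unitInterval

namespace Helper78.BW

variable {Ω : Type*} {mΩ : MeasurableSpace Ω} {P : Measure Ω} {b : ℝ → Ω → ℝ}

/-- The σ-algebra of block `j`. -/
@[instance_reducible] def Mb (b : ℝ → Ω → ℝ) (j : ℕ) : MeasurableSpace Ω :=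
  MeasurableSpace.comap (fun ω (t : Icc (0 : ℝ) 4) => sh b (4 * j) t ω) MeasurableSpace.pi

theorem measurable_Mb (j : ℕ) {t : ℝ} (ht : t ∈ Icc (0 : ℝ) 4) :
    Measurable[Mb b j] (sh b (4 * j) t) := by
  have h1 : @Measurable _ _ (Mb b j) _ (fun ω (t : Icc (0 : ℝ) 4) => sh b (4 * j) t ω) :=
    comap_measurable _
  exact (measurable_pi_apply (⟨t, ht⟩ : Icc (0 : ℝ) 4)).comp h1

theorem Mb_le_Fle (j : ℕ) : Mb b j ≤ Fle b (4 * (j + 1)) := by
  apply Measurable.comap_le
  apply @measurable_pi_lambda Ω (Icc (0 : ℝ) 4) _ (Fle b (4 * (j + 1)))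
  intro t
  exact measurable_sh_Fle (by positivity) t.2.1 (by linarith [t.2.2])

theorem Mb_le_Fge (j : ℕ) : Mb b j ≤ Fge b (4 * j) := by
  apply Measurable.comap_le
  apply @measurable_pi_lambda Ω (Icc (0 : ℝ) 4) _ (Fge b (4 * j))
  intro t
  exact measurable_Fge (by positivity) t.2.1

theorem Mb_le (hb : NBM b P) (j : ℕ) : Mb b j ≤ mΩ := (Mb_le_Fge j).trans (Fge_le hb _)

theorem iIndep_Mb (hb : NBM b P) : iIndep (Mb b) P := by
  have hP := hb.isProb
  rw [iIndep_iff]
  intro s
  induction s using Finset.induction_on_max with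
  | empty => intro f _; simp
  | insert a s ha ih =>
    intro f hf
    have has : a ∉ s := fun h => lt_irrefl _ (ha a h)
    rw [Finset.prod_insert has, Finset.set_biInter_insert]
    rw [← ih (f := f) fun i hi => hf i (Finset.mem_insert_of_mem hi)]
    have h1 : MeasurableSet[Fge b (4 * a)] (f a) :=
      Mb_le_Fge a _ (hf a (Finset.mem_insert_self _ _))
    have h2 : MeasurableSet[Fle b (4 * a)] (⋂ i ∈ s, f i) := by
      apply Finset.measurableSet_biInter
      intro i hi
      have hle : Mb b i ≤ Fle b (4 * a) := by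
        refine (Mb_le_Fle i).trans (Fle_mono ?_)
        have : (i : ℝ) + 1 ≤ a := by exact_mod_cast ha i hi
        linarith
      exact hle _ (hf i (Finset.mem_insert_of_mem hi))
    have h3 := (Indep_iff _ _ _).1 (indep_past_future hb (4 * a)).symm _ _ h1 h2
    exact h3

/-! ### The uniform variable -/

/-- the distribution function of the standard Gaussian law -/
noncomputable def uF (z : ℝ) : ℝ≥0∞ := gaussianReal 0 1 (Iic z)

theorem uF_strictMono : StrictMono uF := by
  intro x z hxz
  unfold uF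
  have h1 : Iic z = Iic x ∪ Ioc x z := (Iic_union_Ioc_eq_Iic hxz.le).symm
  rw [h1, measure_union (by
    rw [Set.disjoint_left]
    intro y h2 h3
    exact absurd h3.1 (not_lt.2 h2)) measurableSet_Ioc]
  apply ENNReal.lt_add_right (measure_ne_top _ _)
  intro h
  have := gaussianReal_absolutelyContinuous' 0 (one_ne_zero : (1 : ℝ≥0) ≠ 0) h
  rw [Real.volume_Ioc, ENNReal.ofReal_eq_zero] at this
  linarith

theorem measurable_uF : Measurable uF := uF_strictMono.monotone.measurable

theorem uF_le_one (z : ℝ) : uF z ≤ 1 := prob_le_one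

theorem continuous_cdf_gauss : Continuous (cdf (gaussianReal 0 1)) := by
  rw [continuous_iff_continuousAt]
  intro x
  rw [(cdf (gaussianReal 0 1)).mono.continuousAt_iff_leftLim_eq_rightLim,
    StieltjesFunction.rightLim_eq]
  apply le_antisymm ((cdf (gaussianReal 0 1)).mono.leftLim_le le_rfl)
  have h1 := (cdf (gaussianReal 0 1)).measure_singleton x
  have hna : NullSingletonClass (gaussianReal 0 1) :=
    nullSingletonClass_gaussianReal (one_ne_zero : (1 : ℝ≥0) ≠ 0)
  rw [measure_cdf, measure_singleton] at h1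
  have h2 := ENNReal.ofReal_eq_zero.1 h1.symm
  linarith

theorem unif {p : ℝ≥0∞} (hp : p ≤ 1) : gaussianReal 0 1 {z | uF z ≤ p} = p := by
  rcases eq_or_lt_of_le hp with h1 | h1
  · rw [h1]
    have : {z | uF z ≤ 1} = univ := by
      ext z
      simp [uF_le_one]
    rw [this, measure_univ]
  rcases eq_or_ne p 0 with h0 | h0
  · rw [h0]
    have : {z | uF z ≤ 0} = ∅ := by
      ext z
      simp only [Set.mem_ofPred_eq, mem_empty_iff_false, iff_false, not_le]
      exact (bot_le : uF (z - 1) ≥ 0).trans_lt (uF_strictMono (by linarith))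
    rw [this, measure_empty]
  · have hpt : p ≠ ∞ := (h1.trans ENNReal.one_lt_top).ne
    have hp0 : 0 < p.toReal := ENNReal.toReal_pos h0 hpt
    have hp1 : p.toReal < 1 := by
      rw [← ENNReal.toReal_one]
      exact (ENNReal.toReal_lt_toReal hpt ENNReal.one_ne_top).2 h1
    obtain ⟨x, hx⟩ : p.toReal ∈ range (cdf (gaussianReal 0 1)) := by
      apply mem_range_of_exists_le_of_exists_ge continuous_cdf_gauss
      · exact ((tendsto_cdf_atBot (gaussianReal 0 1)).eventually (ge_mem_nhds hp0)).exists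
      · exact ((tendsto_cdf_atTop (gaussianReal 0 1)).eventually (le_mem_nhds hp1)).exists
    have hxp : uF x = p := by
      unfold uF
      rw [← ofReal_cdf, hx, ENNReal.ofReal_toReal hpt]
    have : {z | uF z ≤ p} = Iic x := by
      ext z
      simp only [Set.mem_ofPred_eq, mem_Iic]
      rw [← hxp, uF_strictMono.le_iff_le]
    rw [this]
    exact hxp

/-- The acceptance event. -/
def Acc {S : Type*} (c : ℝ → Ω → ℝ) (X : Ω → S) (p : S → ℝ≥0∞) : Set Ω :=
  {ω | uF (sh c 3 1 ω) ≤ p (X ω)}

theorem accept {c : ℝ → Ω → ℝ} (hc : NBM c P) {S : Type*} [MeasurableSpace S] {H : Set Ω}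
    (hH : MeasurableSet[Fle c 3] H) {X : Ω → S} (hX : Measurable[Fle c 3] X) {p : S → ℝ≥0∞}
    (hp : Measurable p) (hp1 : ∀ x, p x ≤ 1) :
    P (H ∩ Acc c X p) = ∫⁻ ω in H, p (X ω) ∂P := by
  have hP := hc.isProb
  let X' : Ω → ℝ≥0∞ × ℝ≥0∞ := fun ω => (H.indicator (fun _ => 1) ω, p (X ω))
  let Y' : Ω → ℝ := sh c 3 1
  have hXF : Measurable[Fle c 3] X' := by
    refine Measurable.prodMk ?_ (hp.comp hX)
    exact Measurable.indicator measurable_const hH
  have hYF : Measurable[Fge c 3] Y' := measurable_Fge (by norm_num) zero_le_one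
  have hind := indepFun_past_future hc 3 hXF hYF
  have hXm : Measurable X' := hXF.mono (Fle_le hc _) le_rfl
  have hYm : Measurable Y' := hYF.mono (Fge_le hc _) le_rfl
  have hHm : MeasurableSet H := Fle_le hc _ _ hH
  have hXm' : Measurable X := hX.mono (Fle_le hc _) le_rfl
  let Θ : ℝ≥0∞ × ℝ≥0∞ → ℝ → ℝ≥0∞ := fun u z =>
    u.1 * {q : ℝ≥0∞ × ℝ | uF q.2 ≤ q.1}.indicator (fun _ => 1) (u.2, z)
  have hset : MeasurableSet {q : ℝ≥0∞ × ℝ | uF q.2 ≤ q.1} :=
    measurableSet_le (measurable_uF.comp measurable_snd) measurable_fst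
  have hΘm : Measurable (Function.uncurry Θ) := by
    have h1 : Measurable fun r : (ℝ≥0∞ × ℝ≥0∞) × ℝ =>
        {q : ℝ≥0∞ × ℝ | uF q.2 ≤ q.1}.indicator (fun _ => (1 : ℝ≥0∞)) (r.1.2, r.2) :=
      (measurable_const.indicator hset).comp (by fun_prop)
    have h2 : Measurable fun r : (ℝ≥0∞ × ℝ≥0∞) × ℝ => r.1.1 := by fun_prop
    exact h2.mul h1
  have hfub := lintegral_indepFun (P := P) hXm hYm hind hΘm
  have hAcc : MeasurableSet (Acc c X p) := by
    unfold Acc
    exact measurableSet_le (measurable_uF.comp hYm) (hp.comp hXm')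
  have hleft : P (H ∩ Acc c X p) = ∫⁻ ω, Θ (X' ω) (Y' ω) ∂P := by
    rw [← lintegral_indicator_one (hHm.inter hAcc)]
    apply lintegral_congr
    intro ω
    simp only [Θ, X', Y']
    by_cases h1 : ω ∈ H
    · by_cases h2 : ω ∈ Acc c X p
      · rw [indicator_of_mem (show ω ∈ H ∩ Acc c X p from ⟨h1, h2⟩), indicator_of_mem h1,
          indicator_of_mem, one_mul]
        · rfl
        · exact h2
      · rw [indicator_of_notMem (show ω ∉ H ∩ Acc c X p from fun h => h2 h.2),
          indicator_of_notMem (a := (p (X ω), sh c 3 1 ω)), mul_zero]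
        exact h2
    · rw [indicator_of_notMem (show ω ∉ H ∩ Acc c X p from fun h => h1 h.1),
        indicator_of_notMem h1, zero_mul]
  have hinner : ∀ ω, ∫⁻ ω', Θ (X' ω) (Y' ω') ∂P = H.indicator (fun ω => p (X ω)) ω := by
    intro ω
    simp only [Θ, X']
    have hm1 : Measurable fun ω' => {q : ℝ≥0∞ × ℝ | uF q.2 ≤ q.1}.indicator
        (fun _ => (1 : ℝ≥0∞)) (p (X ω), Y' ω') :=
      (measurable_const.indicator hset).comp (measurable_const.prodMk hYm)
    rw [lintegral_const_mul _ hm1]
    have h1 : ∫⁻ ω', {q : ℝ≥0∞ × ℝ | uF q.2 ≤ q.1}.indicator (fun _ => (1 : ℝ≥0∞))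
        (p (X ω), Y' ω') ∂P = p (X ω) := by
      have h2 : ∫⁻ ω', {q : ℝ≥0∞ × ℝ | uF q.2 ≤ q.1}.indicator (fun _ => (1 : ℝ≥0∞))
        (p (X ω), Y' ω') ∂P = ∫⁻ ω', (Y' ⁻¹' {z | uF z ≤ p (X ω)}).indicator 1 ω' ∂P := by
        apply lintegral_congr
        intro ω'
        by_cases h3 : uF (Y' ω') ≤ p (X ω)
        · rw [indicator_of_mem, indicator_of_mem]
          · rfl
          · exact h3
          · exact h3
        · rw [indicator_of_notMem, indicator_of_notMem]
          · exact h3
          · exact h3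
      have hset2 : MeasurableSet {z | uF z ≤ p (X ω)} :=
        measurableSet_le measurable_uF measurable_const
      rw [h2, lintegral_indicator_one (hYm hset2), ← Measure.map_apply hYm hset2,
        hc.hasLaw_sh (by norm_num) zero_le_one, Real.toNNReal_one]
      exact unif (hp1 _)
    rw [h1]
    by_cases h2 : ω ∈ H
    · rw [indicator_of_mem h2, indicator_of_mem h2, one_mul]
    · rw [indicator_of_notMem h2, indicator_of_notMem h2, zero_mul]
  rw [hleft, hfub]
  simp_rw [hinner]
  rw [lintegral_indicator hHm]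

end Helper78.BW
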