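import Mathlib
import Pool.Agent.Helper78.BW.Blocks

/-!
Candidates in a block, and the density of their windows.
-/

open MeasureTheory ProbabilityTheory Set Filter Topology
open scoped ENNReal NNReal Real unitInterval

namespace Helper78.BW

variable {Ω : Type*} {mΩ : MeasurableSpace Ω} {P : Measure Ω} {c : ℝ → Ω → ℝ}
variable {Ω' : Type*} {mΩ' : MeasurableSpace Ω'} {P' : Measure Ω'} {W : Fin 3 → ℝ → Ω' → ℝ}

/-- `T` is a random time in `[0, 1]` whose window has, on the event `H`, density `g` with respect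
to the reference measure; everything depends on `c` on `[0, 3]` only. -/
structure IsCand (c : ℝ → Ω → ℝ) (P : Measure Ω) (β : Measure C(unitInterval, ℝ)) (H : Set Ω)
    (T : Ω → ℝ) (g : C(unitInterval, ℝ) → ℝ≥0∞) : Prop where
  hH : ∀ m : MeasurableSpace Ω, (∀ t ∈ Icc (0 : ℝ) 3, Measurable[m] (c t)) → MeasurableSet[m] H
  hT : ∀ m : MeasurableSpace Ω, (∀ t ∈ Icc (0 : ℝ) 3, Measurable[m] (c t)) → Measurable[m] T
  T01 : ∀ ω, T ω ∈ Icc (0 : ℝ) 1
  hg : Measurable g
  law : ∀ A, MeasurableSet A → P (H ∩ {ω | win (fun t => c t ω) (T ω) ∈ A}) = ∫⁻ w in A, g w ∂β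

/-- The constant in the lower bound for the probability of a candidate. -/
noncomputable def c0 : ℝ≥0∞ :=
  gaussianReal 0 1 (Ici 1) * ENNReal.ofReal (gaussianPDFReal 0 1 1)

theorem c0_ne_zero : c0 ≠ 0 := by
  unfold c0
  apply mul_ne_zero (gauss_Ici_pos 1).ne'
  rw [Ne, ENNReal.ofReal_eq_zero, not_le]
  exact gaussianPDFReal_pos _ _ _ one_ne_zero

theorem c0_ne_top : c0 ≠ ∞ := ENNReal.mul_ne_top (measure_ne_top _ _) ENNReal.ofReal_ne_top

theorem P_cand_ge' (hc : NBM c P) {δ : ℝ} (hδ : 0 < δ) (hδ1 : δ ≤ 1) :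
    c0 * ENNReal.ofReal (2 * √δ) ≤ P {ω | cand (fun t => c t ω) δ} := by
  have := P_cand_ge hc hδ hδ1
  unfold c0
  rwa [mul_assoc]

theorem pair_meas (hc : NBM c P) {δ : ℝ} (hδ : 0 < δ) :
    Measurable fun ω => (win (fun t => c t ω) (la (fun t => c t ω) δ),
        win (fun t => c t ω) (la (fun t => c t ω) δ + 1)) := by
  have hla : Measurable fun ω => la (fun t => c t ω) δ :=
    measurable_la hc.cont hδ.le fun t _ => hc.meas t
  have hmw : ∀ c' : ℝ, Measurable fun ω => win (fun t => c t ω) (la (fun t => c t ω) δ + c') := by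
    intro c'
    apply measurable_win hc.cont (a := c') (c := δ + c' + 1) (fun t _ => hc.meas t)
      (hla.add_const c')
    intro ω
    have := (la_spec (hc.cont ω) hδ.le).1
    exact ⟨by linarith [this.1], by linarith [this.2]⟩
  have h0 : Measurable fun ω => win (fun t => c t ω) (la (fun t => c t ω) δ) := by
    simpa only [add_zero] using hmw 0
  exact h0.prodMk (hmw 1)

theorem win0_meas (hc : NBM c P) : Measurable fun ω => win (fun t => c t ω) 0 := by
  apply measurable_win hc.cont (a := 0) (c := 1) (fun t _ => hc.meas t) measurable_const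
  intro ω
  exact ⟨le_rfl, by norm_num⟩

/-- The law of the pair evaluated on a set. -/
theorem cand_law_set (hc : NBM c P) (hW : TBM W P') {δ : ℝ} (hδ : 0 < δ) (hδ1 : δ ≤ 1)
    {G : Set (C(unitInterval, ℝ) × C(unitInterval, ℝ))} (hG : MeasurableSet G) :
    P ({ω | cand (fun t => c t ω) δ} ∩ {ω | (win (fun t => c t ω) (la (fun t => c t ω) δ),
        win (fun t => c t ω) (la (fun t => c t ω) δ + 1)) ∈ G}) =
      ∫⁻ w, (P {ω | cand (fun t => c t ω) δ} / betaM W P' univ) *
        P.map (fun ω => win (fun t => c t ω) 0) (Prod.mk w ⁻¹' G) ∂(betaM W P') := by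
  have hP := hc.isProb
  have hβ := isFinite_betaM hW
  have h := congrArg (fun μ => μ G) (cand_law_path hc hW hδ hδ1)
  beta_reduce at h
  have hpm := pair_meas hc hδ
  have hw0 : IsProbabilityMeasure (P.map (fun ω => win (fun t => c t ω) 0)) :=
    Measure.isProbabilityMeasure_map (win0_meas hc).aemeasurable
  have hfm : IsFiniteMeasure ((P {ω | cand (fun t => c t ω) δ} / betaM W P' univ) •
      betaM W P') := by
    apply Measure.smul_finite
    exact ENNReal.div_ne_top (measure_ne_top _ _) (betaM_univ_ne_zero hW)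
  rw [Measure.map_apply hpm hG, Measure.restrict_apply (hpm hG), Measure.prod_apply hG,
    lintegral_smul_measure, smul_eq_mul, ← lintegral_const_mul _ (measurable_measure_prodMk_left hG)]
    at h
  rw [← h, inter_comm]
  rfl

/-- The candidate with `δ = 1`. -/
theorem isCand_one (hc : NBM c P) (hW : TBM W P') :
    IsCand c P (betaM W P') {ω | cand (fun t => c t ω) 1} (fun ω => la (fun t => c t ω) 1)
      (fun _ => P {ω | cand (fun t => c t ω) 1} / betaM W P' univ) where
  hH m hm := measurableSet_cand hc.cont zero_le_one le_rfl fun t ht =>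
    hm t ⟨ht.1, ht.2.trans (by norm_num)⟩
  hT m hm := measurable_la hc.cont zero_le_one fun t ht =>
    hm t ⟨ht.1, ht.2.trans (by norm_num)⟩
  T01 ω := (la_spec (hc.cont ω) zero_le_one).1
  hg := measurable_const
  law A hA := by
    have hP := hc.isProb
    have hw0 : IsProbabilityMeasure (P.map (fun ω => win (fun t => c t ω) 0)) :=
      Measure.isProbabilityMeasure_map (win0_meas hc).aemeasurable
    have h := cand_law_set hc hW one_pos le_rfl (G := A ×ˢ univ) (hA.prod MeasurableSet.univ)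
    have e1 : {ω | (win (fun t => c t ω) (la (fun t => c t ω) 1),
        win (fun t => c t ω) (la (fun t => c t ω) 1 + 1)) ∈ A ×ˢ (univ : Set C(unitInterval, ℝ))} =
        {ω | win (fun t => c t ω) (la (fun t => c t ω) 1) ∈ A} := by
      ext ω
      simp
    rw [e1] at h
    rw [h, ← lintegral_indicator hA]
    apply lintegral_congr
    intro w
    by_cases hw : w ∈ A
    · rw [indicator_of_mem hw, mk_preimage_prod_right hw, hw0.measure_univ, mul_one]
    · rw [indicator_of_notMem hw, mk_preimage_prod_right_eq_empty hw, measure_empty, mul_zero]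

/-- minimum of a path on `[0, δ]` -/
noncomputable def mnI (v : C(unitInterval, ℝ)) (δ : ℝ) : ℝ :=
  mn (fun t => v (projIcc 0 1 zero_le_one t)) 0 δ

theorem measurable_mnI (δ : ℝ) : Measurable fun v : C(unitInterval, ℝ) => mnI v δ := by
  unfold mnI mn
  exact Measurable.iInf fun q => measurable_eval _

theorem mnI_win {w : ℝ → ℝ} (hw : Continuous w) (T : ℝ) {δ : ℝ} (hδ : 0 ≤ δ) (hδ1 : δ ≤ 1) :
    mnI (win w T) δ = mn (fun t => w (T + t) - w T) 0 δ := by
  unfold mnI mn
  congr 1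
  funext q
  have hq := q01_mem hδ q
  beta_reduce
  rw [win_apply hw, projIcc_of_mem zero_le_one ⟨hq.1, hq.2.trans hδ1⟩]

/-- The good event of sub-block `a`. -/
def Gd (c : ℝ → Ω → ℝ) (δ r : ℝ) (a : ℕ) : Set Ω :=
  {ω | cand (fun t => sh c (2 * a * δ) t ω) δ} ∩
  {ω | (win (fun t => sh c (2 * a * δ) t ω) (la (fun t => sh c (2 * a * δ) t ω) δ),
    win (fun t => sh c (2 * a * δ) t ω) (la (fun t => sh c (2 * a * δ) t ω) δ + 1)) ∈
      {p : C(unitInterval, ℝ) × C(unitInterval, ℝ) | p.1 1 ∈ Ioc r (2 * r) ∧ mnI p.2 δ ≤ -p.1 1}}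

/-- the time of sub-block `a` -/
noncomputable def Ta (c : ℝ → Ω → ℝ) (δ : ℝ) (a : ℕ) (ω : Ω) : ℝ :=
  2 * a * δ + la (fun t => sh c (2 * a * δ) t ω) δ

theorem good_prop (hc : NBM c P) {δ r : ℝ} (hδ : 0 < δ) (hδ1 : δ ≤ 1) {a : ℕ} {ω : Ω}
    (h : ω ∈ Gd c δ r a) :
    (∀ s, Ta c δ a ω < s → s ≤ Ta c δ a ω + 1 → c (Ta c δ a ω) ω < c s ω) ∧
    ∃ s, Ta c δ a ω + 1 ≤ s ∧ s ≤ Ta c δ a ω + 1 + δ ∧ c s ω ≤ c (Ta c δ a ω) ω := by
  have hsc := hc.shift (show (0 : ℝ) ≤ 2 * a * δ by positivity)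
  obtain ⟨h1, h2, h3⟩ := h
  simp only [Set.mem_ofPred_eq] at h1 h2 h3
  have hcont := hsc.cont ω
  obtain ⟨l1, l2, l3⟩ := la_spec hcont hδ.le
  set l := la (fun t => sh c (2 * a * δ) t ω) δ with hl
  have hTa : Ta c δ a ω = 2 * a * δ + l := rfl
  unfold cand at h1
  rw [← hl, lt_mn_iff hcont (by linarith [l1.1])] at h1
  have key : ∀ s', l < s' → s' ≤ l + 1 → sh c (2 * a * δ) l ω < sh c (2 * a * δ) s' ω := by
    intro s' hs1 hs2
    rw [show sh c (2 * a * δ) l ω = mn (fun t => sh c (2 * a * δ) t ω) 0 δ from l2]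
    rcases le_total s' δ with h4 | h4
    · exact l3 s' ⟨hs1, h4⟩
    · exact h1 s' ⟨h4, hs2⟩
  constructor
  · intro s hs1 hs2
    have := key (s - 2 * a * δ) (by linarith) (by linarith)
    simp only [sh, add_sub_cancel] at this
    rw [hTa]
    linarith
  · have hcw : Continuous fun t => win (fun t => sh c (2 * a * δ) t ω) (l + 1)
        (projIcc 0 1 zero_le_one t) := (map_continuous _).comp continuous_projIcc
    obtain ⟨u, hu, hu2, _⟩ := exists_mn hcw hδ.le
    have h5 : mnI (win (fun t => sh c (2 * a * δ) t ω) (l + 1)) δ =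
        win (fun t => sh c (2 * a * δ) t ω) (l + 1) (projIcc 0 1 zero_le_one u) := hu2.symm
    rw [h5, win_apply hcont, win_apply hcont, projIcc_of_mem zero_le_one ⟨hu.1, hu.2.trans hδ1⟩]
      at h3
    simp only [sh, Set.Icc.coe_one] at h3
    refine ⟨2 * a * δ + (l + 1 + u), by linarith [hu.1], by linarith [hu.2], ?_⟩
    rw [hTa]
    linarith

theorem Gd_disjoint (hc : NBM c P) {δ r : ℝ} (hδ : 0 < δ) (hδ1 : δ ≤ 1) {a a' : ℕ} (haa : a < a')
    (ha' : 2 * ((a' : ℝ) + 1) * δ ≤ 1) : Disjoint (Gd c δ r a) (Gd c δ r a') := by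
  rw [Set.disjoint_left]
  intro ω h h'
  obtain ⟨g1, s, hs1, hs2, hs3⟩ := good_prop hc hδ hδ1 h
  obtain ⟨g1', _⟩ := good_prop hc hδ hδ1 h'
  have l1 := (la_spec ((hc.shift (show (0 : ℝ) ≤ 2 * a * δ by positivity)).cont ω) hδ.le).1
  have l1' := (la_spec ((hc.shift (show (0 : ℝ) ≤ 2 * a' * δ by positivity)).cont ω) hδ.le).1
  have hTa : Ta c δ a ω = 2 * a * δ + la (fun t => sh c (2 * a * δ) t ω) δ := rfl
  have hTa' : Ta c δ a' ω = 2 * a' * δ + la (fun t => sh c (2 * a' * δ) t ω) δ := rfl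
  have haar : (a : ℝ) + 1 ≤ a' := by exact_mod_cast haa
  have hd : 2 * (a : ℝ) * δ + 2 * δ ≤ 2 * a' * δ := by nlinarith
  have ha0 : (0 : ℝ) ≤ 2 * a * δ := by positivity
  have e1 : Ta c δ a ω + δ ≤ Ta c δ a' ω := by rw [hTa, hTa']; linarith [l1.2, l1'.1]
  have e2 : Ta c δ a' ω < 1 := by rw [hTa']; nlinarith [l1'.2]
  have e0 : 0 ≤ Ta c δ a ω := by rw [hTa]; linarith [l1.1]
  have e3 := g1 (Ta c δ a' ω) (by linarith) (by linarith)
  have e4 := g1' s (by linarith) (by linarith)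
  linarith

theorem win_Ta (hc : NBM c P) (δ : ℝ) (a : ℕ) (ω : Ω) :
    win (fun t => c t ω) (Ta c δ a ω) =
      win (fun t => sh c (2 * a * δ) t ω) (la (fun t => sh c (2 * a * δ) t ω) δ) := by
  have hsc := hc.shift (show (0 : ℝ) ≤ 2 * a * |δ| by positivity)
  have hcont : Continuous fun t => sh c (2 * a * δ) t ω :=
    ((hc.cont ω).comp (continuous_const.add continuous_id)).sub continuous_const
  ext s
  rw [win_apply (hc.cont ω), win_apply hcont]
  unfold Ta
  simp only [sh]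
  rw [add_assoc]
  ring

end Helper78.BW
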