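import Mathlib
import Pool.Agent.Helper78.BW.Kit

/-!
Candidates at a small scale: many disjoint sub-blocks.
-/

open MeasureTheory ProbabilityTheory Set Filter Topology
open scoped ENNReal NNReal Real unitInterval

namespace Helper78.BW

variable {Ω : Type*} {mΩ : MeasurableSpace Ω} {P : Measure Ω} {c : ℝ → Ω → ℝ}
variable {Ω' : Type*} {mΩ' : MeasurableSpace Ω'} {P' : Measure Ω'} {W : Fin 3 → ℝ → Ω' → ℝ}

/-- the set of good pairs -/
def Gset (δ r : ℝ) : Set (C(unitInterval, ℝ) × C(unitInterval, ℝ)) :=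
  {p | p.1 1 ∈ Ioc r (2 * r) ∧ mnI p.2 δ ≤ -p.1 1}

theorem measurableSet_Gset (δ r : ℝ) : MeasurableSet (Gset δ r) := by
  unfold Gset
  have h1 : Measurable fun p : C(unitInterval, ℝ) × C(unitInterval, ℝ) => p.1 1 :=
    (measurable_eval 1).comp measurable_fst
  have h2 : Measurable fun p : C(unitInterval, ℝ) × C(unitInterval, ℝ) => mnI p.2 δ :=
    (measurable_mnI δ).comp measurable_snd
  exact (h1 measurableSet_Ioc).inter (measurableSet_le h2 h1.neg)

/-- density contribution of sub-block `a` -/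
noncomputable def ga (c : ℝ → Ω → ℝ) (P : Measure Ω) (β : Measure C(unitInterval, ℝ)) (δ r : ℝ)
    (a : ℕ) (w : C(unitInterval, ℝ)) : ℝ≥0∞ :=
  (P {ω | cand (fun t => sh c (2 * a * δ) t ω) δ} / β univ) *
    P.map (fun ω => win (fun t => sh c (2 * a * δ) t ω) 0) (Prod.mk w ⁻¹' Gset δ r)

theorem measurable_ga [IsFiniteMeasure P] (β : Measure C(unitInterval, ℝ)) (δ r : ℝ)
    (a : ℕ) : Measurable (ga c P β δ r a) := by
  unfold ga
  exact (measurable_measure_prodMk_left (measurableSet_Gset δ r)).const_mul _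

theorem measurableSet_Gd_m (hc : NBM c P) {m : MeasurableSpace Ω} {δ r : ℝ} (hδ : 0 < δ)
    (hδ1 : δ ≤ 1) {a : ℕ} (ha : 2 * ((a : ℝ) + 1) * δ ≤ 1)
    (hm : ∀ t ∈ Icc (0 : ℝ) 3, Measurable[m] (c t)) :
    MeasurableSet[m] (Gd c δ r a) ∧ Measurable[m] (Ta c δ a) := by
  have h2a : (0 : ℝ) ≤ 2 * a * δ := by positivity
  have hcont := (hc.shift h2a).cont
  have hms : ∀ t ∈ Icc (0 : ℝ) (2 + δ), Measurable[m] (sh c (2 * a * δ) t) := by
    intro t ht
    unfold sh
    apply Measurable.sub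
    · apply hm
      exact ⟨by linarith [ht.1], by nlinarith [ht.2]⟩
    · apply hm
      exact ⟨h2a, by nlinarith⟩
  have hla : Measurable[m] fun ω => la (fun t => sh c (2 * a * δ) t ω) δ :=
    measurable_la hcont hδ.le fun t ht => hms t ⟨ht.1, by linarith [ht.2]⟩
  have hmw : ∀ c' ∈ Icc (0 : ℝ) 1, Measurable[m] fun ω =>
      win (fun t => sh c (2 * a * δ) t ω) (la (fun t => sh c (2 * a * δ) t ω) δ + c') := by
    intro c' hc'
    apply measurable_win hcont (a := c') (c := δ + c' + 1) (fun t ht => hms t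
      ⟨hc'.1.trans ht.1, by linarith [ht.2, hc'.2]⟩) (hla.add_const c')
    intro ω
    have := (la_spec (hcont ω) hδ.le).1
    exact ⟨by linarith [this.1], by linarith [this.2]⟩
  have h0 : Measurable[m] fun ω =>
      win (fun t => sh c (2 * a * δ) t ω) (la (fun t => sh c (2 * a * δ) t ω) δ) := by
    simpa only [add_zero] using hmw 0 ⟨le_rfl, zero_le_one⟩
  have hpair := h0.prodMk (hmw 1 ⟨zero_le_one, le_rfl⟩)
  refine ⟨MeasurableSet.inter ?_ (hpair (measurableSet_Gset δ r)), measurable_const.add hla⟩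
  exact measurableSet_cand hcont hδ.le hδ1 fun t ht => hms t ⟨ht.1, by linarith [ht.2]⟩

theorem Gd_law (hc : NBM c P) (hW : TBM W P') {δ : ℝ} (hδ : 0 < δ) (hδ1 : δ ≤ 1) (r : ℝ) (a : ℕ)
    {A : Set C(unitInterval, ℝ)} (hA : MeasurableSet A) :
    P (Gd c δ r a ∩ {ω | win (fun t => c t ω) (Ta c δ a ω) ∈ A}) =
      ∫⁻ w in A, ga c P (betaM W P') δ r a w ∂(betaM W P') := by
  have h2a : (0 : ℝ) ≤ 2 * a * δ := by positivity
  have hsc := hc.shift h2a
  have h := cand_law_set hsc hW hδ hδ1 (G := Gset δ r ∩ (Prod.fst ⁻¹' A))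
    ((measurableSet_Gset δ r).inter (measurable_fst hA))
  have e1 : Gd c δ r a ∩ {ω | win (fun t => c t ω) (Ta c δ a ω) ∈ A} =
      {ω | cand (fun t => sh c (2 * a * δ) t ω) δ} ∩ {ω |
        (win (fun t => sh c (2 * a * δ) t ω) (la (fun t => sh c (2 * a * δ) t ω) δ),
          win (fun t => sh c (2 * a * δ) t ω) (la (fun t => sh c (2 * a * δ) t ω) δ + 1)) ∈
          Gset δ r ∩ (Prod.fst ⁻¹' A)} := by
    ext ω
    simp only [Gd, mem_inter_iff, Set.mem_ofPred_eq, mem_preimage]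
    rw [win_Ta hc]
    constructor
    · rintro ⟨⟨h1, h2⟩, h3⟩
      exact ⟨h1, h2, h3⟩
    · rintro ⟨h1, h2, h3⟩
      exact ⟨⟨h1, h2⟩, h3⟩
  rw [e1, h, ← lintegral_indicator hA]
  apply lintegral_congr
  intro w
  unfold ga
  by_cases hw : w ∈ A
  · rw [indicator_of_mem hw]
    congr 2
    ext v
    simp [hw]
  · rw [indicator_of_notMem hw]
    have : Prod.mk w ⁻¹' (Gset δ r ∩ (Prod.fst ⁻¹' A)) = ∅ := by
      ext v
      simp [hw]
    rw [this, measure_empty, mul_zero]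

theorem ga_le (c : ℝ → Ω → ℝ) [IsProbabilityMeasure P] (β : Measure C(unitInterval, ℝ)) (δ r : ℝ)
    (a : ℕ) (w : C(unitInterval, ℝ))
    (hm : Measurable (fun ω => win (fun t => sh c (2 * a * δ) t ω) 0)) :
    ga c P β δ r a w ≤ 1 / β univ := by
  unfold ga
  have h1 : IsProbabilityMeasure (P.map (fun ω => win (fun t => sh c (2 * a * δ) t ω) 0)) :=
    Measure.isProbabilityMeasure_map hm.aemeasurable
  calc _ ≤ (1 / β univ) * 1 := by
        gcongr
        · exact prob_le_one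
        · exact prob_le_one
    _ = _ := mul_one _

theorem ga_ge (hc : NBM c P) {β : Measure C(unitInterval, ℝ)} {δ : ℝ} (hδ : 0 < δ) (hδ1 : δ ≤ 1)
    (a : ℕ) {w : C(unitInterval, ℝ)} (hw : w 1 ∈ Ioc (√δ) (2 * √δ)) :
    c0 * ENNReal.ofReal (2 * √δ) / β univ * gaussianReal 0 1 (Ici 2) ≤
      ga c P β δ (√δ) a w := by
  have h2a : (0 : ℝ) ≤ 2 * a * δ := by positivity
  have hsc := hc.shift h2a
  unfold ga
  gcongr
  · exact P_cand_ge' hsc hδ hδ1
  · have hm0 := win0_meas hsc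
    have hset : MeasurableSet (Prod.mk w ⁻¹' Gset δ (√δ)) :=
      measurable_prodMk_left (measurableSet_Gset δ _)
    rw [Measure.map_apply hm0 hset]
    refine (P_down_ge hsc hδ hw.2).trans (measure_mono ?_)
    intro ω hω
    simp only [Set.mem_ofPred_eq] at hω
    simp only [Gset, mem_preimage, Set.mem_ofPred_eq]
    refine ⟨hw, ?_⟩
    rw [mnI_win (hsc.cont ω) 0 hδ.le hδ1]
    have e : (fun t => sh c (2 * a * δ) (0 + t) ω - sh c (2 * a * δ) 0 ω) =
        fun t => sh c (2 * a * δ) t ω := by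
      funext t
      rw [zero_add]
      simp [sh]
    rw [e]
    exact hω

/-- The good event of the block. -/
def Hs (c : ℝ → Ω → ℝ) (δ r : ℝ) (A : ℕ) : Set Ω := ⋃ a ∈ Finset.range A, Gd c δ r a

/-- The time of the block. -/
noncomputable def Ts (c : ℝ → Ω → ℝ) (δ r : ℝ) (A : ℕ) (ω : Ω) : ℝ :=
  ∑ a ∈ Finset.range A, (Gd c δ r a).indicator (Ta c δ a) ω

theorem Gd_pairwise (hc : NBM c P) {δ : ℝ} (r : ℝ) (hδ : 0 < δ) (hδ1 : δ ≤ 1) {A : ℕ}
    (hA : 2 * (A : ℝ) * δ ≤ 1) {a a' : ℕ} (ha : a < A) (ha' : a' < A) (hne : a ≠ a') :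
    Disjoint (Gd c δ r a) (Gd c δ r a') := by
  have hb : ∀ a : ℕ, a < A → 2 * ((a : ℝ) + 1) * δ ≤ 1 := by
    intro a ha
    have : (a : ℝ) + 1 ≤ A := by exact_mod_cast ha
    nlinarith
  rcases lt_or_gt_of_ne hne with h | h
  · exact Gd_disjoint hc hδ hδ1 h (hb a' ha')
  · exact (Gd_disjoint hc hδ hδ1 h (hb a ha)).symm

theorem Ts_eq (hc : NBM c P) {δ r : ℝ} (hδ : 0 < δ) (hδ1 : δ ≤ 1) {A : ℕ}
    (hA : 2 * (A : ℝ) * δ ≤ 1) {a : ℕ} (ha : a < A) {ω : Ω} (hω : ω ∈ Gd c δ r a) :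
    Ts c δ r A ω = Ta c δ a ω := by
  unfold Ts
  rw [Finset.sum_eq_single a]
  · rw [indicator_of_mem hω]
  · intro a' ha' hne
    rw [indicator_of_notMem]
    intro h'
    exact (Set.disjoint_left.1 (Gd_pairwise hc r hδ hδ1 hA (Finset.mem_range.1 ha') ha hne)) h' hω
  · intro h
    exact absurd (Finset.mem_range.2 ha) h

theorem isCand_scale (hc : NBM c P) (hW : TBM W P') {δ : ℝ} (r : ℝ) (hδ : 0 < δ) (hδ1 : δ ≤ 1)
    {A : ℕ} (hA : 2 * (A : ℝ) * δ ≤ 1) :
    IsCand c P (betaM W P') (Hs c δ r A) (Ts c δ r A)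
      (fun w => ∑ a ∈ Finset.range A, ga c P (betaM W P') δ r a w) where
  hH m hm := by
    apply Finset.measurableSet_biUnion
    intro a ha
    have : (a : ℝ) + 1 ≤ A := by exact_mod_cast Finset.mem_range.1 ha
    exact (measurableSet_Gd_m hc hδ hδ1 (by nlinarith) hm).1
  hT m hm := by
    apply Finset.measurable_sum
    intro a ha
    have : (a : ℝ) + 1 ≤ A := by exact_mod_cast Finset.mem_range.1 ha
    obtain ⟨h1, h2⟩ := measurableSet_Gd_m (r := r) hc hδ hδ1 (a := a) (by nlinarith) hm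
    exact h2.indicator h1
  T01 ω := by
    by_cases h : ∃ a, a < A ∧ ω ∈ Gd c δ r a
    · obtain ⟨a, ha, hω⟩ := h
      rw [Ts_eq hc hδ hδ1 hA ha hω]
      have h2a : (0 : ℝ) ≤ 2 * a * δ := by positivity
      have l1 := (la_spec ((hc.shift h2a).cont ω) hδ.le).1
      have haA : (a : ℝ) + 1 ≤ A := by exact_mod_cast ha
      unfold Ta
      refine ⟨by linarith [l1.1], ?_⟩
      nlinarith [l1.2]
    · have : Ts c δ r A ω = 0 := by
        unfold Ts
        apply Finset.sum_eq_zero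
        intro a ha
        rw [indicator_of_notMem]
        intro h'
        exact h ⟨a, Finset.mem_range.1 ha, h'⟩
      rw [this]
      exact ⟨le_rfl, zero_le_one⟩
  hg := by
    have := hc.isProb
    exact Finset.measurable_sum _ fun a _ => measurable_ga _ δ r a
  law B hB := by
    have hP := hc.isProb
    have e1 : Hs c δ r A ∩ {ω | win (fun t => c t ω) (Ts c δ r A ω) ∈ B} =
        ⋃ a ∈ Finset.range A, (Gd c δ r a ∩ {ω | win (fun t => c t ω) (Ta c δ a ω) ∈ B}) := by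
      ext ω
      simp only [Hs, mem_inter_iff, mem_iUnion, Finset.mem_range, Set.mem_ofPred_eq, exists_prop]
      constructor
      · rintro ⟨⟨a, ha, h1⟩, h2⟩
        refine ⟨a, ha, h1, ?_⟩
        rwa [Ts_eq hc hδ hδ1 hA ha h1] at h2
      · rintro ⟨a, ha, h1, h2⟩
        refine ⟨⟨a, ha, h1⟩, ?_⟩
        rwa [Ts_eq hc hδ hδ1 hA ha h1]
    rw [e1, measure_biUnion_finset]
    · rw [lintegral_finsetSum _ fun a _ => measurable_ga _ δ r a]
      apply Finset.sum_congr rfl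
      intro a _
      exact Gd_law hc hW hδ hδ1 r a hB
    · intro a ha a' ha' hne
      have h1 := Gd_pairwise hc r hδ hδ1 hA (Finset.mem_range.1 (Finset.mem_coe.1 ha))
        (Finset.mem_range.1 (Finset.mem_coe.1 ha')) hne
      exact h1.mono inter_subset_left inter_subset_left
    · intro a ha
      have haA : (a : ℝ) + 1 ≤ A := by exact_mod_cast Finset.mem_range.1 ha
      obtain ⟨h1, h2⟩ := measurableSet_Gd_m (r := r) hc hδ hδ1 (a := a) (by nlinarith)
        (fun t _ => hc.meas t)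
      refine h1.inter ?_
      have h3 : Measurable fun ω => win (fun t => c t ω) (Ta c δ a ω) := by
        apply measurable_win hc.cont (a := 0) (c := 2 * a * δ + δ + 1) (fun t _ => hc.meas t) h2
        intro ω
        have h2a : (0 : ℝ) ≤ 2 * a * δ := by positivity
        have l1 := (la_spec ((hc.shift h2a).cont ω) hδ.le).1
        unfold Ta
        exact ⟨by linarith [l1.1], by linarith [l1.2]⟩
      exact h3 hB

/-- the constant of the density -/
noncomputable def Cc (β : Measure C(unitInterval, ℝ)) : ℝ≥0∞ :=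
  2 * c0 * gaussianReal 0 1 (Ici 2) / β univ

/-- Candidates at scale `2 ^ (-(n + 1))`. -/
theorem exists_cand_scale (hc : NBM c P) (hW : TBM W P') (n : ℕ) :
    ∃ (H : Set Ω) (T : Ω → ℝ) (g : C(unitInterval, ℝ) → ℝ≥0∞), IsCand c P (betaM W P') H T g ∧
      (∀ w : C(unitInterval, ℝ), w 1 ∈ Ioc ((1 / 2 : ℝ) ^ (n + 1)) ((1 / 2 : ℝ) ^ n) →
        Cc (betaM W P') * 2 ^ n ≤ g w) ∧ ∀ w, g w ≠ ∞ := by
  have hP := hc.isProb
  set δ : ℝ := (1 / 4 : ℝ) ^ (n + 1) with hδdef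
  have hδ : 0 < δ := by positivity
  have hδ1 : δ ≤ 1 := pow_le_one₀ (by norm_num) (by norm_num)
  have hsq : √δ = (1 / 2 : ℝ) ^ (n + 1) := by
    rw [hδdef, show (1 / 4 : ℝ) = (1 / 2) ^ 2 by norm_num, ← pow_mul, mul_comm, pow_mul,
      Real.sqrt_sq (by positivity)]
  have hA : 2 * ((2 * 4 ^ n : ℕ) : ℝ) * δ ≤ 1 := by
    rw [hδdef]
    push_cast
    have : (2 : ℝ) * (2 * 4 ^ n) * (1 / 4) ^ (n + 1) = 1 := by
      rw [pow_succ]
      have h4 : (4 : ℝ) ^ n * (1 / 4) ^ n = 1 := by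
        rw [← mul_pow]
        norm_num
      calc (2 : ℝ) * (2 * 4 ^ n) * ((1 / 4) ^ n * (1 / 4)) = (4 ^ n * (1 / 4) ^ n) := by ring
        _ = 1 := h4
    exact this.le
  refine ⟨Hs c δ (√δ) (2 * 4 ^ n), Ts c δ (√δ) (2 * 4 ^ n), _,
    isCand_scale hc hW (√δ) hδ hδ1 hA, ?_, ?_⟩
  · intro w hw
    have hw' : w 1 ∈ Ioc (√δ) (2 * √δ) := by
      rw [hsq]
      refine ⟨hw.1, hw.2.trans ?_⟩
      rw [pow_succ]
      apply le_of_eq
      ring
    have h1 : ∑ _ ∈ Finset.range (2 * 4 ^ n), (c0 * ENNReal.ofReal (2 * √δ) / betaM W P' univ *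
        gaussianReal 0 1 (Ici 2)) ≤
        ∑ a ∈ Finset.range (2 * 4 ^ n), ga c P (betaM W P') δ (√δ) a w :=
      Finset.sum_le_sum fun a _ => ga_ge hc hδ hδ1 a hw'
    refine le_trans (le_of_eq ?_) h1
    rw [Finset.sum_const, Finset.card_range, nsmul_eq_mul, hsq]
    have e1 : ENNReal.ofReal (2 * (1 / 2 : ℝ) ^ (n + 1)) = (2⁻¹ : ℝ≥0∞) ^ n := by
      have : (2 : ℝ) * (1 / 2) ^ (n + 1) = (1 / 2) ^ n := by
        rw [pow_succ]; ring
      rw [this, ENNReal.ofReal_pow (by norm_num)]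
      congr 1
      rw [one_div, ENNReal.ofReal_inv_of_pos (by norm_num)]
      norm_num
    rw [e1]
    have e2 : ((2 * 4 ^ n : ℕ) : ℝ≥0∞) = 2 * (2 ^ n * 2 ^ n) := by
      push_cast
      rw [← mul_pow]
      norm_num
    rw [e2]
    unfold Cc
    have e3 : (2 : ℝ≥0∞) ^ n * (2⁻¹) ^ n = 1 := by
      rw [← mul_pow, ENNReal.mul_inv_cancel (by norm_num) (by norm_num), one_pow]
    simp only [div_eq_mul_inv]
    calc 2 * c0 * gaussianReal 0 1 (Ici 2) * (betaM W P' univ)⁻¹ * 2 ^ n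
        = 2 * c0 * gaussianReal 0 1 (Ici 2) * (betaM W P' univ)⁻¹ * 2 ^ n * 1 := by rw [mul_one]
      _ = 2 * c0 * gaussianReal 0 1 (Ici 2) * (betaM W P' univ)⁻¹ * 2 ^ n *
          (2 ^ n * (2⁻¹) ^ n) := by rw [e3]
      _ = _ := by ring
  · intro w
    apply ne_of_lt
    apply ENNReal.sum_lt_top.2
    intro a _
    have h2a : (0 : ℝ) ≤ 2 * a * δ := by positivity
    refine (ga_le c (betaM W P') δ (√δ) a w (win0_meas (hc.shift h2a))).trans_lt ?_
    exact ENNReal.div_lt_top ENNReal.one_ne_top (betaM_univ_ne_zero hW)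

end Helper78.BW
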