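import Mathlib
import Pool.Agent.Helper78.BW.Kit2

/-!
Assembly of the random time from independent blocks.
-/

open MeasureTheory ProbabilityTheory Set Filter Topology
open scoped ENNReal NNReal Real unitInterval

namespace Helper78.BW

variable {Ω : Type*} {mΩ : MeasurableSpace Ω} {P : Measure Ω} {b c : ℝ → Ω → ℝ}

theorem block_measurable {m : MeasurableSpace Ω} (hcont : ∀ ω, Continuous fun t => c t ω)
    {T : Ω → ℝ} (hT : Measurable[m] T) (hT01 : ∀ ω, T ω ∈ Icc (0 : ℝ) 1)
    (hm : ∀ t ∈ Icc (0 : ℝ) 3, Measurable[m] (c t)) :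
    Measurable[m] fun ω => win (fun t => c t ω) (T ω) := by
  apply measurable_win hcont (a := 0) (c := 3) hm hT
  intro ω
  have := hT01 ω
  exact ⟨this.1, by linarith [this.2]⟩

/-- Acceptance in a block. -/
theorem block_law (hc : NBM c P) {β : Measure C(unitInterval, ℝ)} {H : Set Ω} {T : Ω → ℝ}
    {g q : C(unitInterval, ℝ) → ℝ≥0∞} (hK : IsCand c P β H T g) (hq : Measurable q)
    (hqg : ∀ w, q w ≤ g w) (hgt : ∀ w, g w ≠ ∞) {A : Set C(unitInterval, ℝ)}
    (hA : MeasurableSet A) :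
    P ((H ∩ Acc c (fun ω => win (fun t => c t ω) (T ω)) (fun w => q w / g w)) ∩
      (fun ω => win (fun t => c t ω) (T ω)) ⁻¹' A) = ∫⁻ w in A, q w ∂β := by
  have hP := hc.isProb
  have hF : ∀ t ∈ Icc (0 : ℝ) 3, Measurable[Fle c 3] (c t) := fun t ht => measurable_Fle ht.1 ht.2
  have hXF : Measurable[Fle c 3] fun ω => win (fun t => c t ω) (T ω) :=
    block_measurable hc.cont (hK.hT _ hF) hK.T01 hF
  have hXm : Measurable fun ω => win (fun t => c t ω) (T ω) := hXF.mono (Fle_le hc _) le_rfl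
  have hHF := hK.hH _ hF
  have hHm : MeasurableSet H := Fle_le hc _ _ hHF
  have hpm : Measurable fun w => q w / g w := hq.div hK.hg
  have h1 := accept hc (H := H ∩ (fun ω => win (fun t => c t ω) (T ω)) ⁻¹' A)
    (hHF.inter (hXF hA)) hXF hpm (fun w => by
      apply ENNReal.div_le_of_le_mul
      rw [one_mul]
      exact hqg w)
  have e1 : (H ∩ Acc c (fun ω => win (fun t => c t ω) (T ω)) (fun w => q w / g w)) ∩
      (fun ω => win (fun t => c t ω) (T ω)) ⁻¹' A =
      (H ∩ (fun ω => win (fun t => c t ω) (T ω)) ⁻¹' A) ∩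
        Acc c (fun ω => win (fun t => c t ω) (T ω)) (fun w => q w / g w) := by
    ext ω
    simp only [mem_inter_iff]
    tauto
  have hlaw : (P.restrict H).map (fun ω => win (fun t => c t ω) (T ω)) = β.withDensity g := by
    ext B hB
    rw [Measure.map_apply hXm hB, Measure.restrict_apply (hXm hB), withDensity_apply _ hB,
      ← hK.law B hB, inter_comm]
    rfl
  rw [e1, h1]
  have e2 : ∫⁻ ω in H ∩ (fun ω => win (fun t => c t ω) (T ω)) ⁻¹' A,
      q (win (fun t => c t ω) (T ω)) / g (win (fun t => c t ω) (T ω)) ∂P =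
      ∫⁻ w in A, q w / g w ∂((P.restrict H).map (fun ω => win (fun t => c t ω) (T ω))) := by
    rw [setLIntegral_map hA hpm hXm, Measure.restrict_restrict (hXm hA), inter_comm]
  rw [e2, hlaw, setLIntegral_withDensity_eq_setLIntegral_mul _ hK.hg hpm hA]
  apply lintegral_congr
  intro w
  simp only [Pi.mul_apply]
  rw [mul_comm]
  by_cases h0 : g w = 0
  · have : q w = 0 := le_antisymm (h0 ▸ hqg w) bot_le
    rw [h0, this, mul_zero]
  · exact ENNReal.div_mul_cancel h0 (hgt w)

theorem win_shift (hcont : ∀ ω, Continuous fun t => b t ω) (s T : ℝ) (ω : Ω) :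
    win (fun t => b t ω) (s + T) = win (fun t => sh b s t ω) T := by
  have hcont' : Continuous fun t => sh b s t ω :=
    ((hcont ω).comp (continuous_const.add continuous_id)).sub continuous_const
  ext u
  rw [win_apply (hcont ω), win_apply hcont']
  simp only [sh]
  rw [add_assoc]
  ring

theorem tsum_sumtype (f : ℕ ⊕ ℕ → ℝ≥0∞) :
    ∑' i, f i = ∑' n, f (Sum.inl n) + ∑' n, f (Sum.inr n) := by
  have h1 : HasSum (f ∘ Sum.inl) (∑' n, f (Sum.inl n)) := ENNReal.summable.hasSum
  have h2 : HasSum (f ∘ Sum.inr) (∑' n, f (Sum.inr n)) := ENNReal.summable.hasSum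
  exact (h1.sum h2).tsum_eq

/-- index of the blocks -/
def bidx : ℕ ⊕ ℕ → ℕ := Sum.elim (fun n => 2 * n) (fun n => 2 * n + 1)

theorem bidx_inj : Function.Injective bidx := by
  rintro (n | n) (n' | n') h
  · simp only [bidx, Sum.elim_inl] at h
    congr 1
    omega
  · simp only [bidx, Sum.elim_inl, Sum.elim_inr] at h
    omega
  · simp only [bidx, Sum.elim_inl, Sum.elim_inr] at h
    omega
  · simp only [bidx, Sum.elim_inr] at h
    congr 1
    omega

theorem bidx_le (n : ℕ) : (bidx (Sum.inl n) ≤ 2 * n + 1) ∧ (bidx (Sum.inr n) ≤ 2 * n + 1) := by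
  simp only [bidx, Sum.elim_inl, Sum.elim_inr]
  omega

/-- Abstract gluing of a random time along a countable measurable partition. -/
theorem glue [IsProbabilityMeasure P] {S : Type*} [MeasurableSpace S] (E : ℕ ⊕ ℕ → Set Ω)
    (hE : ∀ i, MeasurableSet (E i)) (hdisj : Pairwise (Function.onFun Disjoint E))
    (hone : ∑' i, P (E i) = 1) (Tt : ℕ ⊕ ℕ → Ω → ℝ) (hTt : ∀ i, Measurable (Tt i))
    (hT0 : ∀ i ω, 0 ≤ Tt i ω) (B : ℕ ⊕ ℕ → ℝ≥0∞) (hB : ∀ i ω, ENNReal.ofReal (Tt i ω) ≤ B i)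
    (hfin : ∑' i, B i * P (E i) < ∞) (F : Ω → ℝ → S)
    (hF : ∀ T : Ω → ℝ, Measurable T → (∀ ω, 0 ≤ T ω) → Measurable fun ω => F ω (T ω)) :
    ∃ T : Ω → ℝ, Measurable T ∧ (∀ ω, 0 ≤ T ω) ∧ ∫⁻ ω, ENNReal.ofReal (T ω) ∂P < ∞ ∧
      ∀ A, MeasurableSet A → P {ω | F ω (T ω) ∈ A} = ∑' i, P (E i ∩ {ω | F ω (Tt i ω) ∈ A}) := by
  let U : Ω → ℝ≥0∞ := fun ω => ∑' i, (E i).indicator (fun ω => ENNReal.ofReal (Tt i ω)) ω
  have hU : Measurable U := by
    apply Measurable.tsum
    intro i
    exact (hTt i).ennreal_ofReal.indicator (hE i)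
  let T : Ω → ℝ := fun ω => (U ω).toReal
  have hTm : Measurable T := hU.ennreal_toReal
  have hT0' : ∀ ω, 0 ≤ T ω := fun ω => ENNReal.toReal_nonneg
  have hTE : ∀ i, ∀ ω ∈ E i, T ω = Tt i ω := by
    intro i ω hω
    have : U ω = ENNReal.ofReal (Tt i ω) := by
      simp only [U]
      rw [tsum_eq_single i]
      · rw [indicator_of_mem hω]
      · intro j hj
        rw [indicator_of_notMem]
        intro h'
        exact Set.disjoint_left.1 (hdisj hj) h' hω
    simp only [T]
    rw [this, ENNReal.toReal_ofReal (hT0 i ω)]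
  have hcompl : P (⋃ i, E i)ᶜ = 0 := by
    rw [prob_compl_eq_zero_iff (MeasurableSet.iUnion hE), measure_iUnion hdisj hE, hone]
  refine ⟨T, hTm, hT0', ?_, ?_⟩
  · calc ∫⁻ ω, ENNReal.ofReal (T ω) ∂P ≤ ∫⁻ ω, U ω ∂P :=
          lintegral_mono fun ω => ENNReal.ofReal_toReal_le
      _ = ∑' i, ∫⁻ ω, (E i).indicator (fun ω => ENNReal.ofReal (Tt i ω)) ω ∂P := by
          simp only [U]
          exact lintegral_tsum fun i => ((hTt i).ennreal_ofReal.indicator (hE i)).aemeasurable
      _ ≤ ∑' i, B i * P (E i) := by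
          apply ENNReal.tsum_le_tsum
          intro i
          rw [lintegral_indicator (hE i), ← setLIntegral_const]
          exact lintegral_mono fun ω => hB i ω
      _ < ∞ := hfin
  · intro A hA
    have e1 : P {ω | F ω (T ω) ∈ A} = P ({ω | F ω (T ω) ∈ A} ∩ ⋃ i, E i) := by
      apply le_antisymm
      · calc P {ω | F ω (T ω) ∈ A} ≤ P (({ω | F ω (T ω) ∈ A} ∩ ⋃ i, E i) ∪ (⋃ i, E i)ᶜ) := by
              apply measure_mono
              intro ω hω
              by_cases h : ω ∈ ⋃ i, E i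
              · exact Or.inl ⟨hω, h⟩
              · exact Or.inr h
          _ ≤ P ({ω | F ω (T ω) ∈ A} ∩ ⋃ i, E i) + P (⋃ i, E i)ᶜ := measure_union_le _ _
          _ = _ := by rw [hcompl, add_zero]
      · exact measure_mono inter_subset_left
    rw [e1, inter_iUnion, measure_iUnion]
    · congr 1
      funext i
      congr 1
      ext ω
      simp only [mem_inter_iff, Set.mem_ofPred_eq]
      constructor
      · rintro ⟨h1, h2⟩
        exact ⟨h2, by rwa [hTE i ω h2] at h1⟩
      · rintro ⟨h1, h2⟩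
        exact ⟨by rwa [hTE i ω h1], h1⟩
    · intro i j hij
      exact (hdisj hij).mono inter_subset_right inter_subset_right
    · intro i
      exact ((hF T hTm hT0') hA).inter (hE i)

end Helper78.BW
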