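import Mathlib
import Pool.Agent.Helper78.BW.Assemble

/-!
The random time: assembly from independent blocks.
-/

open MeasureTheory ProbabilityTheory Set Filter Topology
open scoped ENNReal NNReal Real unitInterval

namespace Helper78.BW

variable {Ω : Type*} {mΩ : MeasurableSpace Ω} {P : Measure Ω} {b c : ℝ → Ω → ℝ}

theorem assemble (hb : NBM b P) {β : Measure C(unitInterval, ℝ)}
    {f0 : C(unitInterval, ℝ) → ℝ≥0∞} {a : ℕ → C(unitInterval, ℝ) → ℝ≥0∞}
    (hf0 : Measurable f0) (ha : ∀ n, Measurable (a n)) (h0 : ∫⁻ w, f0 w ∂β ≠ 0)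
    (htot : ∫⁻ w, f0 w ∂β + ∑' n, ∫⁻ w, a n w ∂β = 1)
    (hE : ∑' n : ℕ, ((n : ℝ≥0∞) + 1) * ∫⁻ w, a n w ∂β < ∞)
    (hhigh : ∀ (n : ℕ) (c : ℝ → Ω → ℝ), NBM c P → ∃ (H : Set Ω) (T : Ω → ℝ)
      (g : C(unitInterval, ℝ) → ℝ≥0∞), IsCand c P β H T g ∧
      (∀ w, a n w ≤ (∫⁻ w, f0 w ∂β) * g w) ∧ ∀ w, g w ≠ ∞)
    {θ : ℝ≥0∞} (hθ : θ ≠ 0)
    (hlow : ∀ (c : ℝ → Ω → ℝ), NBM c P → ∃ (H : Set Ω) (T : Ω → ℝ)
      (g : C(unitInterval, ℝ) → ℝ≥0∞), IsCand c P β H T g ∧
      (∀ w, θ * f0 w ≤ g w) ∧ ∀ w, g w ≠ ∞) :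
    ∃ T : Ω → ℝ, Measurable T ∧ (∀ ω, 0 ≤ T ω) ∧ ∫⁻ ω, ENNReal.ofReal (T ω) ∂P < ∞ ∧
      ∀ A, MeasurableSet A → P {ω | win (fun t => b t ω) (T ω) ∈ A} =
        ∫⁻ w in A, (f0 w + ∑' n, a n w) ∂β := by
  have hP := hb.isProb
  -- the processes of the blocks
  let cH : ℕ → ℝ → Ω → ℝ := fun n => sh b (4 * (bidx (Sum.inl n) : ℕ))
  let cL : ℕ → ℝ → Ω → ℝ := fun n => sh b (4 * (bidx (Sum.inr n) : ℕ))
  have hcH : ∀ n, NBM (cH n) P := fun n => hb.shift (by positivity)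
  have hcL : ∀ n, NBM (cL n) P := fun n => hb.shift (by positivity)
  choose H T g hcand hag hgt using fun n => hhigh n (cH n) (hcH n)
  choose H' T' g' hcand' hag' hgt' using fun n => hlow (cL n) (hcL n)
  let X : ℕ → Ω → C(unitInterval, ℝ) := fun n ω => win (fun t => cH n t ω) (T n ω)
  let Y : ℕ → Ω → C(unitInterval, ℝ) := fun n ω => win (fun t => cL n t ω) (T' n ω)
  let q : ℕ → C(unitInterval, ℝ) → ℝ≥0∞ := fun n w => (psum β f0 a (n + 1))⁻¹ * a n w
  let q' : C(unitInterval, ℝ) → ℝ≥0∞ := fun w => θ * f0 w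
  let K : ℕ → Set Ω := fun n => H n ∩ Acc (cH n) (X n) (fun w => q n w / g n w)
  let L : ℕ → Set Ω := fun n => H' n ∩ Acc (cL n) (Y n) (fun w => q' w / g' n w)
  let m : ℕ ⊕ ℕ → MeasurableSpace Ω := Mb b ∘ bidx
  have hqm : ∀ n, Measurable (q n) := fun n => (ha n).const_mul _
  have hqm' : Measurable q' := hf0.const_mul _
  -- measurability in the blocks
  have hmH : ∀ n, ∀ t ∈ Icc (0 : ℝ) 4, Measurable[m (Sum.inl n)] (cH n t) := fun n t ht =>
    measurable_Mb (bidx (Sum.inl n)) ht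
  have hmL : ∀ n, ∀ t ∈ Icc (0 : ℝ) 4, Measurable[m (Sum.inr n)] (cL n t) := fun n t ht =>
    measurable_Mb (bidx (Sum.inr n)) ht
  have hmH3 : ∀ n, ∀ t ∈ Icc (0 : ℝ) 3, Measurable[m (Sum.inl n)] (cH n t) := fun n t ht =>
    hmH n t ⟨ht.1, ht.2.trans (by norm_num)⟩
  have hmL3 : ∀ n, ∀ t ∈ Icc (0 : ℝ) 3, Measurable[m (Sum.inr n)] (cL n t) := fun n t ht =>
    hmL n t ⟨ht.1, ht.2.trans (by norm_num)⟩
  have hXm : ∀ n, Measurable[m (Sum.inl n)] (X n) := fun n =>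
    block_measurable (hcH n).cont ((hcand n).hT _ (hmH3 n)) (hcand n).T01 (hmH3 n)
  have hYm : ∀ n, Measurable[m (Sum.inr n)] (Y n) := fun n =>
    block_measurable (hcL n).cont ((hcand' n).hT _ (hmL3 n)) (hcand' n).T01 (hmL3 n)
  have hKm : ∀ n, MeasurableSet[m (Sum.inl n)] (K n) := by
    intro n
    apply MeasurableSet.inter ((hcand n).hH _ (hmH3 n))
    have h1 : Measurable[m (Sum.inl n)] (sh (cH n) 3 1) := by
      unfold sh
      exact (hmH n _ (by norm_num)).sub (hmH n _ (by norm_num))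
    exact measurableSet_le (measurable_uF.comp h1) (((hqm n).div (hcand n).hg).comp (hXm n))
  have hLm : ∀ n, MeasurableSet[m (Sum.inr n)] (L n) := by
    intro n
    apply MeasurableSet.inter ((hcand' n).hH _ (hmL3 n))
    have h1 : Measurable[m (Sum.inr n)] (sh (cL n) 3 1) := by
      unfold sh
      exact (hmL n _ (by norm_num)).sub (hmL n _ (by norm_num))
    exact measurableSet_le (measurable_uF.comp h1) ((hqm'.div (hcand' n).hg).comp (hYm n))
  have hm_le : ∀ i, m i ≤ mΩ := fun i => Mb_le hb _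
  have hpsum_ge : ∀ n, ∫⁻ w, f0 w ∂β ≤ psum β f0 a n := fun n => le_self_add
  have hpsum_ne : ∀ n, psum β f0 a n ≠ 0 := fun n h => h0 (le_antisymm (h ▸ hpsum_ge n) bot_le)
  have hpsum_nt : ∀ n, psum β f0 a n ≠ ∞ := by
    intro n
    have : psum β f0 a n ≤ 1 := by
      rw [← htot]
      unfold psum
      gcongr
      exact ENNReal.sum_le_tsum _
    exact ne_top_of_le_ne_top ENNReal.one_ne_top this
  have hqg : ∀ n w, q n w ≤ g n w := by
    intro n w
    simp only [q]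
    rw [mul_comm, ← div_eq_mul_inv]
    apply ENNReal.div_le_of_le_mul
    rw [mul_comm]
    exact (hag n w).trans (mul_le_mul_left (hpsum_ge _) _)
  have hsel : SelHyp P m K L X Y β a f0 θ := {
    hm := hm_le
    hind := (iIndep_Mb hb).precomp bidx_inj
    hK := hKm
    hX := hXm
    hL := hLm
    hY := hYm
    f0_ne := h0
    total := htot
    lawK := by
      intro n A hA
      have h1 := block_law (hcH n) (hcand n) (hqm n) (hqg n) (hgt n) hA
      rw [h1]
      exact lintegral_const_mul _ (ha n)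
    lawL := by
      intro n A hA
      have h1 := block_law (hcL n) (hcand' n) hqm' (hag' n) (hgt' n) hA
      rw [h1]
      exact lintegral_const_mul _ hf0
    θ_ne := hθ }
  -- the times
  let Tt : ℕ ⊕ ℕ → Ω → ℝ := Sum.elim (fun n ω => 4 * (bidx (Sum.inl n) : ℕ) + T n ω)
    (fun n ω => 4 * (bidx (Sum.inr n) : ℕ) + T' n ω)
  have hTm : ∀ n, Measurable (T n) := fun n =>
    ((hcand n).hT _ (hmH3 n)).mono (hm_le _) le_rfl
  have hTm' : ∀ n, Measurable (T' n) := fun n =>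
    ((hcand' n).hT _ (hmL3 n)).mono (hm_le _) le_rfl
  have hTt : ∀ i, Measurable (Tt i) := by
    rintro (n | n)
    · exact (hTm n).const_add _
    · exact (hTm' n).const_add _
  have hT0 : ∀ i ω, 0 ≤ Tt i ω := by
    rintro (n | n) ω
    · have := ((hcand n).T01 ω).1
      show 0 ≤ 4 * ((bidx (Sum.inl n) : ℕ) : ℝ) + T n ω
      positivity
    · have := ((hcand' n).T01 ω).1
      show 0 ≤ 4 * ((bidx (Sum.inr n) : ℕ) : ℝ) + T' n ω
      positivity
  let B : ℕ ⊕ ℕ → ℝ≥0∞ := Sum.elim (fun n => 8 * ((n : ℝ≥0∞) + 1)) (fun n => 8 * ((n : ℝ≥0∞) + 1))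
  have hbd : ∀ (n j : ℕ) (x : ℝ), j ≤ 2 * n + 1 → x ≤ 1 →
      ENNReal.ofReal (4 * (j : ℝ) + x) ≤ 8 * ((n : ℝ≥0∞) + 1) := by
    intro n j x hj hx
    have hjr : (j : ℝ) ≤ 2 * n + 1 := by exact_mod_cast hj
    have h1 : 4 * (j : ℝ) + x ≤ 8 * ((n : ℝ) + 1) := by linarith
    refine (ENNReal.ofReal_le_ofReal h1).trans (le_of_eq ?_)
    rw [ENNReal.ofReal_mul (by norm_num), ENNReal.ofReal_add (by positivity) (by norm_num)]
    simp
  have hB : ∀ i ω, ENNReal.ofReal (Tt i ω) ≤ B i := by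
    rintro (n | n) ω
    · exact hbd n _ _ (bidx_le n).1 ((hcand n).T01 ω).2
    · exact hbd n _ _ (bidx_le n).2 ((hcand' n).T01 ω).2
  have hEm : ∀ i, MeasurableSet (Esel K L i) :=
    measurableSet_Esel (fun n => hm_le _ _ (hKm n)) (fun n => hm_le _ _ (hLm n))
  have hPl : ∀ n, P (Esel K L (Sum.inl n)) = ∫⁻ w, a n w ∂β := by
    intro n
    have := law_high hsel n MeasurableSet.univ
    rwa [preimage_univ, inter_univ, Measure.restrict_univ] at this
  have hPr : ∑' n, P (Esel K L (Sum.inr n)) = ∫⁻ w, f0 w ∂β := by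
    have := tsum_low hsel MeasurableSet.univ
    simpa only [preimage_univ, inter_univ, Measure.restrict_univ] using this
  have hone : ∑' i, P (Esel K L i) = 1 := by
    rw [tsum_sumtype, hPr]
    simp only [hPl]
    rw [add_comm]
    exact htot
  have hfin : ∑' i, B i * P (Esel K L i) < ∞ := by
    rw [tsum_sumtype]
    simp only [B, Sum.elim_inl, Sum.elim_inr, hPl, mul_assoc]
    rw [ENNReal.tsum_mul_left, ENNReal.tsum_mul_left]
    exact ENNReal.add_lt_top.2 ⟨ENNReal.mul_lt_top (by norm_num) hE,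
      ENNReal.mul_lt_top (by norm_num) (low_index_fin hsel)⟩
  have hF : ∀ T : Ω → ℝ, Measurable T → (∀ ω, 0 ≤ T ω) →
      Measurable fun ω => (fun ω (s : ℝ) => win (fun t => b t ω) s) ω (T ω) := by
    intro T hT hT0
    apply measurable_of_eval
    intro s
    have hu : Measurable (Function.uncurry fun (t : ℝ) ω => b t ω) :=
      measurable_uncurry_of_continuous_of_measurable hb.cont hb.meas
    have e : (fun ω => win (fun t => b t ω) (T ω) s) = fun ω =>
        (Function.uncurry fun (t : ℝ) ω => b t ω) (T ω + s, ω) -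
          (Function.uncurry fun (t : ℝ) ω => b t ω) (T ω, ω) := by
      funext ω
      rw [win_apply (hb.cont ω)]
      rfl
    show Measurable fun ω => win (fun t => b t ω) (T ω) s
    rw [e]
    exact (hu.comp ((hT.add_const _).prodMk measurable_id)).sub
      (hu.comp (hT.prodMk measurable_id))
  obtain ⟨τ, h1, h2, h3, h4⟩ := glue (P := P) (Esel K L) hEm (Esel_disjoint K L) hone Tt hTt hT0 B
    hB hfin (fun ω (s : ℝ) => win (fun t => b t ω) s) hF
  refine ⟨τ, h1, h2, h3, ?_⟩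
  intro A hA
  have h5 := h4 A hA
  beta_reduce at h5
  rw [h5, tsum_sumtype]
  have e1 : ∀ n, P (Esel K L (Sum.inl n) ∩ {ω | win (fun t => b t ω) (Tt (Sum.inl n) ω) ∈ A}) =
      ∫⁻ w in A, a n w ∂β := by
    intro n
    rw [← law_high hsel n hA]
    congr 2
    ext ω
    simp only [Set.mem_ofPred_eq, mem_preimage, Tt, Sum.elim_inl, X, cH]
    rw [win_shift hb.cont]
  have e2 : ∑' n, P (Esel K L (Sum.inr n) ∩ {ω | win (fun t => b t ω) (Tt (Sum.inr n) ω) ∈ A}) =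
      ∫⁻ w in A, f0 w ∂β := by
    rw [← tsum_low hsel hA]
    congr 1
    funext n
    congr 2
    ext ω
    simp only [Set.mem_ofPred_eq, mem_preimage, Tt, Sum.elim_inr, Y, cL]
    rw [win_shift hb.cont]
  rw [e2]
  simp only [e1]
  rw [lintegral_add_left hf0, lintegral_tsum fun n => (ha n).aemeasurable, add_comm]

end Helper78.BW
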