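import Mathlib
import Pool.Agent.Helper78.BW.Assemble2

/-!
The two applications: the co-meander and the Bessel process.
-/

open MeasureTheory ProbabilityTheory Set Filter Topology
open scoped ENNReal NNReal Real unitInterval

namespace Helper78.BW

variable {Ω : Type*} {mΩ : MeasurableSpace Ω} {P : Measure Ω} {b c : ℝ → Ω → ℝ}
variable {Ω' : Type*} {mΩ' : MeasurableSpace Ω'} {P' : Measure Ω'} {W : Fin 3 → ℝ → Ω' → ℝ}

/-- lower bound of the density of a candidate with `δ = 1` -/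
noncomputable def κm (β : Measure C(unitInterval, ℝ)) : ℝ≥0∞ := c0 * 2 / β univ

theorem κm_ne_zero (hW : TBM W P') : κm (betaM W P') ≠ 0 := by
  have := isFinite_betaM hW
  unfold κm
  exact (ENNReal.div_pos (mul_ne_zero c0_ne_zero (by norm_num)) (measure_ne_top _ _)).ne'

theorem κm_ne_top (hW : TBM W P') : κm (betaM W P') ≠ ∞ := by
  unfold κm
  exact ENNReal.div_ne_top (ENNReal.mul_ne_top c0_ne_top (by norm_num)) (betaM_univ_ne_zero hW)

/-- the unit-scale candidate, with bounds -/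
theorem exists_cand_one (hc : NBM c P) (hW : TBM W P') :
    ∃ (H : Set Ω) (T : Ω → ℝ) (g : C(unitInterval, ℝ) → ℝ≥0∞), IsCand c P (betaM W P') H T g ∧
      (∀ w, κm (betaM W P') ≤ g w) ∧ ∀ w, g w ≠ ∞ := by
  have hP := hc.isProb
  refine ⟨_, _, _, isCand_one hc hW, ?_, ?_⟩
  · intro w
    unfold κm
    gcongr
    have := P_cand_ge' hc one_pos le_rfl
    rw [Real.sqrt_one, mul_one] at this
    convert this using 2
    simp
  · intro w
    exact ENNReal.div_ne_top (measure_ne_top _ _) (betaM_univ_ne_zero hW)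

theorem tsum_div {C0 : ℕ} (hC : 0 < C0) (F : ℕ → ℝ≥0∞) :
    ∑' n : ℕ, F (n / C0) = C0 * ∑' k, F k := by
  have : NeZero C0 := ⟨hC.ne'⟩
  have h1 : ∑' n : ℕ, F (n / C0) = ∑' p : ℕ × Fin C0, F p.1 := by
    rw [← (Nat.divModEquiv C0).tsum_eq (fun p : ℕ × Fin C0 => F p.1)]
    rfl
  rw [h1, ENNReal.tsum_prod (f := fun k _ => F k)]
  simp only [tsum_fintype, Finset.sum_const, Finset.card_univ, Fintype.card_fin, nsmul_eq_mul]
  rw [ENNReal.tsum_mul_left]

/-! ### The co-meander -/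

/-- density of the co-meander with respect to the reference measure -/
noncomputable def fcm (w : C(unitInterval, ℝ)) : ℝ≥0∞ := (ENNReal.ofReal (w 1))⁻¹

theorem measurable_fcm : Measurable fcm := by
  unfold fcm
  exact (measurable_eval 1).ennreal_ofReal.inv

/-- the scale-`k` shell -/
def shell (k : ℕ) : Set C(unitInterval, ℝ) := {w | w 1 ∈ Ioc ((1 / 2 : ℝ) ^ (k + 1)) ((1 / 2 : ℝ) ^ k)}

theorem measurableSet_shell (k : ℕ) : MeasurableSet (shell k) := measurable_eval 1 measurableSet_Ioc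

/-- the large end points -/
def big : Set C(unitInterval, ℝ) := {w | 1 < w 1}

theorem measurableSet_big : MeasurableSet big := measurable_eval 1 measurableSet_Ioi

theorem shell_sum {w : C(unitInterval, ℝ)} (hw : 0 < w 1) :
    big.indicator fcm w + ∑' k, (shell k).indicator fcm w = fcm w := by
  rcases le_or_gt (w 1) 1 with h | h
  · obtain ⟨n, hn1, hn2⟩ := exists_nat_pow_near_of_lt_one hw h
      (by norm_num : (0 : ℝ) < 1 / 2) (by norm_num)
    rw [indicator_of_notMem (show w ∉ big from not_lt.2 h), zero_add, tsum_eq_single n]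
    · rw [indicator_of_mem]
      exact ⟨hn1, hn2⟩
    · intro k hk
      rw [indicator_of_notMem]
      rintro ⟨h1, h2⟩
      rcases lt_or_gt_of_ne hk with h3 | h3
      · have : (1 / 2 : ℝ) ^ n ≤ (1 / 2) ^ (k + 1) :=
          pow_le_pow_of_le_one (by norm_num) (by norm_num) h3
        linarith
      · have : (1 / 2 : ℝ) ^ k ≤ (1 / 2) ^ (n + 1) :=
          pow_le_pow_of_le_one (by norm_num) (by norm_num) h3
        linarith
  · rw [indicator_of_mem (show w ∈ big from h)]
    have : ∑' k, (shell k).indicator fcm w = 0 := by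
      rw [ENNReal.tsum_eq_zero]
      intro k
      rw [indicator_of_notMem]
      rintro ⟨h1, h2⟩
      have : (1 / 2 : ℝ) ^ k ≤ 1 := pow_le_one₀ (by norm_num) (by norm_num)
      linarith
    rw [this, add_zero]

theorem lint_big_ne_zero (hW : TBM W P') :
    ∫⁻ w, big.indicator fcm w ∂(betaM W P') ≠ 0 := by
  have h1 := betaM_marg hW (φ := (Ioi (1 : ℝ)).indicator (fun r => (ENNReal.ofReal r)⁻¹))
    ((by fun_prop : Measurable fun r : ℝ => (ENNReal.ofReal r)⁻¹).indicator measurableSet_Ioi)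
  have e1 : ∫⁻ w, big.indicator fcm w ∂(betaM W P') =
      ∫⁻ w, (Ioi (1 : ℝ)).indicator (fun r => (ENNReal.ofReal r)⁻¹) (w 1) ∂(betaM W P') := rfl
  rw [e1, h1]
  intro h0
  have hm : Measurable fun r : ℝ => (Ioi (1 : ℝ)).indicator (fun r => (ENNReal.ofReal r)⁻¹) r *
      ENNReal.ofReal (q1 r) :=
    ((by fun_prop : Measurable fun r : ℝ => (ENNReal.ofReal r)⁻¹).indicator
      measurableSet_Ioi).mul measurable_q1.ennreal_ofReal
  rw [lintegral_eq_zero_iff hm] at h0
  have h2 : ∀ᵐ r ∂(volume.restrict (Ioi (0 : ℝ))), r ∉ Ioi (1 : ℝ) := by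
    filter_upwards [h0, ae_restrict_mem measurableSet_Ioi] with r hr hr0 hr1
    simp only [Pi.zero_apply] at hr
    rw [indicator_of_mem hr1] at hr
    have hr0' : (0 : ℝ) < r := hr0
    have a1 : (ENNReal.ofReal r)⁻¹ ≠ 0 := ENNReal.inv_ne_zero.2 ENNReal.ofReal_ne_top
    have a2 : ENNReal.ofReal (q1 r) ≠ 0 := by
      rw [Ne, ENNReal.ofReal_eq_zero, not_le]
      unfold q1
      positivity
    exact (mul_ne_zero a1 a2) hr
  rw [ae_iff] at h2
  simp only [not_not] at h2
  have h3 : (volume.restrict (Ioi (0 : ℝ))) (Ioi (1 : ℝ)) = ∞ := by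
    rw [Measure.restrict_apply measurableSet_Ioi, inter_eq_left.2
      (Ioi_subset_Ioi zero_le_one), Real.volume_Ioi]
  have h4 : {a : ℝ | a ∈ Ioi (1 : ℝ)} = Ioi 1 := rfl
  rw [h4, h3] at h2
  exact ENNReal.top_ne_zero h2

theorem lint_shell_le (hW : TBM W P') (k : ℕ) :
    ∫⁻ w, (shell k).indicator fcm w ∂(betaM W P') ≤ (2⁻¹ : ℝ≥0∞) ^ k := by
  have h1 := betaM_marg hW (φ := (Ioc ((1 / 2 : ℝ) ^ (k + 1)) ((1 / 2 : ℝ) ^ k)).indicator
    (fun r => (ENNReal.ofReal r)⁻¹))
    ((by fun_prop : Measurable fun r : ℝ => (ENNReal.ofReal r)⁻¹).indicator measurableSet_Ioc)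
  have e1 : ∫⁻ w, (shell k).indicator fcm w ∂(betaM W P') =
      ∫⁻ w, (Ioc ((1 / 2 : ℝ) ^ (k + 1)) ((1 / 2 : ℝ) ^ k)).indicator
        (fun r => (ENNReal.ofReal r)⁻¹) (w 1) ∂(betaM W P') := rfl
  rw [e1, h1]
  calc ∫⁻ r in Ioi (0 : ℝ), (Ioc ((1 / 2 : ℝ) ^ (k + 1)) ((1 / 2 : ℝ) ^ k)).indicator
        (fun r => (ENNReal.ofReal r)⁻¹) r * ENNReal.ofReal (q1 r)
      ≤ ∫⁻ r in Ioi (0 : ℝ), (Ioc (0 : ℝ) ((1 / 2 : ℝ) ^ k)).indicator (fun _ => 1) r := by
        apply setLIntegral_mono ((measurable_const).indicator measurableSet_Ioc)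
        intro r hr
        have hr0 : (0 : ℝ) < r := hr
        by_cases h : r ∈ Ioc ((1 / 2 : ℝ) ^ (k + 1)) ((1 / 2 : ℝ) ^ k)
        · rw [indicator_of_mem h, indicator_of_mem (show r ∈ Ioc (0 : ℝ) ((1 / 2 : ℝ) ^ k) from
            ⟨hr0, h.2⟩), ← ENNReal.ofReal_inv_of_pos hr0, ← ENNReal.ofReal_mul (by positivity),
            ← ENNReal.ofReal_one]
          apply ENNReal.ofReal_le_ofReal
          unfold q1
          have e2 : r⁻¹ * ((√(2 * π))⁻¹ * (2 * r) * Real.exp (-r ^ 2 / 2)) =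
              2 * (√(2 * π))⁻¹ * Real.exp (-r ^ 2 / 2) := by
            field_simp
          rw [e2]
          have h3 : Real.exp (-r ^ 2 / 2) ≤ 1 := by
            rw [Real.exp_le_one_iff]
            apply div_nonpos_of_nonpos_of_nonneg
            · rw [neg_nonpos]; positivity
            · norm_num
          have h4 : 2 * (√(2 * π))⁻¹ ≤ 1 := by
            rw [← div_eq_mul_inv, div_le_one (by positivity)]
            apply Real.le_sqrt_of_sq_le
            nlinarith [Real.pi_gt_three]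
          calc 2 * (√(2 * π))⁻¹ * Real.exp (-r ^ 2 / 2) ≤ 1 * 1 :=
                mul_le_mul h4 h3 (by positivity) zero_le_one
            _ = 1 := one_mul 1
        · rw [indicator_of_notMem h, zero_mul]
          exact bot_le
    _ ≤ ∫⁻ r : ℝ, (Ioc (0 : ℝ) ((1 / 2 : ℝ) ^ k)).indicator (fun _ => 1) r :=
        lintegral_mono' Measure.restrict_le_self le_rfl
    _ = ENNReal.ofReal ((1 / 2 : ℝ) ^ k) := by
        rw [lintegral_indicator_const measurableSet_Ioc, one_mul, Real.volume_Ioc, sub_zero]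
    _ = (2⁻¹ : ℝ≥0∞) ^ k := by
        rw [ENNReal.ofReal_pow (by norm_num)]
        congr 1
        rw [one_div, ENNReal.ofReal_inv_of_pos (by norm_num)]
        norm_num

theorem tsum_geo : ∑' k : ℕ, ((k : ℝ≥0∞) + 1) * (2⁻¹ : ℝ≥0∞) ^ k < ∞ := by
  have hsum : Summable fun n : ℕ => ((n : ℝ≥0) + 1) * (2⁻¹ : ℝ≥0) ^ n := by
    rw [← NNReal.summable_coe]
    have s1 : Summable fun n : ℕ => ((n : ℝ) ^ 1 * (2⁻¹ : ℝ) ^ n) :=
      summable_pow_mul_geometric_of_norm_lt_one 1 (by
        rw [Real.norm_eq_abs, abs_of_nonneg (by norm_num)]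
        norm_num)
    have s2 : Summable fun n : ℕ => (2⁻¹ : ℝ) ^ n :=
      summable_geometric_of_lt_one (by norm_num) (by norm_num)
    have := s1.add s2
    refine this.congr fun n => ?_
    push_cast
    ring
  have hfin : ∑' n : ℕ, (((((n : ℝ≥0) + 1) * (2⁻¹ : ℝ≥0) ^ n : ℝ≥0)) : ℝ≥0∞) ≠ ∞ :=
    ENNReal.tsum_coe_ne_top_iff_summable.2 hsum
  refine lt_of_le_of_lt (le_of_eq ?_) hfin.lt_top
  congr 1
  funext n
  have e : ((2⁻¹ : ℝ≥0) : ℝ≥0∞) = 2⁻¹ := by
    rw [ENNReal.coe_inv (by norm_num)]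
    norm_num
  rw [ENNReal.coe_mul, ENNReal.coe_pow, e, ENNReal.coe_add, ENNReal.coe_natCast, ENNReal.coe_one]

/-- The co-meander in finite expected time. -/
theorem exists_comeander (hb : NBM b P) (hW : TBM W P') :
    ∃ T : Ω → ℝ, Measurable T ∧ (∀ ω, 0 ≤ T ω) ∧ ∫⁻ ω, ENNReal.ofReal (T ω) ∂P < ∞ ∧
      ∀ A, MeasurableSet A → P {ω | win (fun t => b t ω) (T ω) ∈ A} =
        ∫⁻ w in A, fcm w ∂(betaM W P') := by
  have hβ := isFinite_betaM hW
  set β := betaM W P' with hβdef
  set s0 : ℝ≥0∞ := ∫⁻ w, big.indicator fcm w ∂β with hs0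
  have hs0 : s0 ≠ 0 := lint_big_ne_zero hW
  have hCc0 : Cc β ≠ 0 := by
    unfold Cc
    exact (ENNReal.div_pos (mul_ne_zero (mul_ne_zero (by norm_num) c0_ne_zero)
      (gauss_Ici_pos 2).ne') (measure_ne_top _ _)).ne'
  have hprod : s0 * Cc β ≠ 0 := mul_ne_zero hs0 hCc0
  obtain ⟨C0, hC0⟩ : ∃ C0 : ℕ, 0 < C0 ∧ (C0 : ℝ≥0∞)⁻¹ * 2 ≤ s0 * Cc β := by
    obtain ⟨N, hN⟩ := ENNReal.exists_nat_gt
      (ENNReal.div_ne_top (by norm_num : (2 : ℝ≥0∞) ≠ ∞) hprod)
    refine ⟨N + 1, Nat.succ_pos _, ?_⟩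
    rw [mul_comm, ← div_eq_mul_inv]
    apply ENNReal.div_le_of_le_mul
    have h1 : 2 / (s0 * Cc β) ≤ ((N + 1 : ℕ) : ℝ≥0∞) := by
      refine hN.le.trans ?_
      exact_mod_cast Nat.le_succ N
    rcases eq_or_ne (s0 * Cc β) ∞ with htop | htop
    · rw [htop, ENNReal.top_mul (by exact_mod_cast (Nat.succ_ne_zero N))]
      exact le_top
    · rw [ENNReal.div_le_iff hprod htop] at h1
      rwa [mul_comm]
  obtain ⟨hC, hC2⟩ := hC0
  have hCne : (C0 : ℝ≥0∞) ≠ 0 := by exact_mod_cast hC.ne'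
  have hCnt : (C0 : ℝ≥0∞) ≠ ∞ := ENNReal.natCast_ne_top _
  let a : ℕ → C(unitInterval, ℝ) → ℝ≥0∞ := fun n w =>
    (C0 : ℝ≥0∞)⁻¹ * (shell (n / C0)).indicator fcm w
  have ha : ∀ n, Measurable (a n) := fun n =>
    (measurable_fcm.indicator (measurableSet_shell _)).const_mul _
  have hf0 : Measurable (big.indicator fcm) := measurable_fcm.indicator measurableSet_big
  have hsuma : ∀ w, ∑' n, a n w = ∑' k, (shell k).indicator fcm w := by
    intro w
    simp only [a]
    rw [ENNReal.tsum_mul_left, tsum_div hC (fun k => (shell k).indicator fcm w), ← mul_assoc,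
      ENNReal.inv_mul_cancel hCne hCnt, one_mul]
  have hfull : ∀ᵐ w ∂β, big.indicator fcm w + ∑' n, a n w = fcm w := by
    filter_upwards [betaM_pos hW] with w hw
    rw [hsuma]
    exact shell_sum hw
  have htot : ∫⁻ w, big.indicator fcm w ∂β + ∑' n, ∫⁻ w, a n w ∂β = 1 := by
    rw [← lintegral_tsum fun n => (ha n).aemeasurable, ← lintegral_add_left hf0,
      lintegral_congr_ae hfull]
    exact lint_inv_betaM hW
  have hE : ∑' n : ℕ, ((n : ℝ≥0∞) + 1) * ∫⁻ w, a n w ∂β < ∞ := by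
    have h1 : ∀ n : ℕ, ((n : ℝ≥0∞) + 1) * ∫⁻ w, a n w ∂β ≤
        (fun k : ℕ => ((k : ℝ≥0∞) + 1) * (2⁻¹ : ℝ≥0∞) ^ k) (n / C0) := by
      intro n
      simp only [a]
      rw [lintegral_const_mul _ (measurable_fcm.indicator (measurableSet_shell _)), ← mul_assoc]
      gcongr
      · rw [← div_eq_mul_inv]
        apply ENNReal.div_le_of_le_mul
        have h2 : n + 1 ≤ (n / C0 + 1) * C0 := by
          have := Nat.div_add_mod n C0
          have h3 := Nat.mod_lt n hC
          nlinarith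
        exact_mod_cast h2
      · exact lint_shell_le hW _
    refine (ENNReal.tsum_le_tsum h1).trans_lt ?_
    rw [tsum_div hC (fun k : ℕ => ((k : ℝ≥0∞) + 1) * (2⁻¹ : ℝ≥0∞) ^ k)]
    exact ENNReal.mul_lt_top hCnt.lt_top tsum_geo
  obtain ⟨T, h1, h2, h3, h4⟩ := assemble hb hf0 ha hs0 htot hE
    (by
      intro n c hc
      obtain ⟨H, T, g, k1, k2, k3⟩ := exists_cand_scale hc hW (n / C0)
      refine ⟨H, T, g, k1, ?_, k3⟩
      intro w
      simp only [a]
      by_cases hw : w ∈ shell (n / C0)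
      · rw [indicator_of_mem hw]
        have hw1 : (0 : ℝ) < (1 / 2 : ℝ) ^ (n / C0 + 1) := by positivity
        have hf : fcm w ≤ 2 * 2 ^ (n / C0) := by
          unfold fcm
          rw [ENNReal.inv_le_iff_inv_le]
          have e1 : ENNReal.ofReal ((1 / 2 : ℝ) ^ (n / C0 + 1)) = (2 * 2 ^ (n / C0) : ℝ≥0∞)⁻¹ := by
            rw [ENNReal.ofReal_pow (by norm_num), one_div, ENNReal.ofReal_inv_of_pos (by norm_num),
              ← ENNReal.inv_pow]
            norm_num
            rw [pow_succ, mul_comm]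
          rw [← e1]
          exact ENNReal.ofReal_le_ofReal hw.1.le
        calc (C0 : ℝ≥0∞)⁻¹ * fcm w ≤ (C0 : ℝ≥0∞)⁻¹ * (2 * 2 ^ (n / C0)) := by gcongr
          _ = ((C0 : ℝ≥0∞)⁻¹ * 2) * 2 ^ (n / C0) := by ring
          _ ≤ (s0 * Cc β) * 2 ^ (n / C0) := by gcongr
          _ = s0 * (Cc β * 2 ^ (n / C0)) := by ring
          _ ≤ s0 * g w := by
              gcongr
              exact k2 w hw
      · rw [indicator_of_notMem hw, mul_zero]
        exact bot_le)
    (θ := κm β) (κm_ne_zero hW)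
    (by
      intro c hc
      obtain ⟨H, T, g, k1, k2, k3⟩ := exists_cand_one hc hW
      refine ⟨H, T, g, k1, ?_, k3⟩
      intro w
      refine le_trans ?_ (k2 w)
      by_cases hw : w ∈ big
      · rw [indicator_of_mem hw]
        have : fcm w ≤ 1 := by
          unfold fcm
          rw [ENNReal.inv_le_one, ← ENNReal.ofReal_one]
          exact ENNReal.ofReal_le_ofReal (le_of_lt hw)
        calc κm β * fcm w ≤ κm β * 1 := by gcongr
          _ = κm β := mul_one _
      · rw [indicator_of_notMem hw, mul_zero]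
        exact bot_le)
  refine ⟨T, h1, h2, h3, ?_⟩
  intro A hA
  rw [h4 A hA]
  exact lintegral_congr_ae (ae_restrict_of_ae hfull)

/-! ### The Bessel process -/

/-- density of the Bessel process with respect to the reference measure -/
noncomputable def fbes (w : C(unitInterval, ℝ)) : ℝ≥0∞ := ENNReal.ofReal (w 1)

theorem measurable_fbes : Measurable fbes := by
  unfold fbes
  exact (measurable_eval 1).ennreal_ofReal

theorem min_layer (x ε : ℝ≥0∞) (n : ℕ) :
    min x (1 + (n + 1 : ℕ) * ε) = min x (1 + n * ε) + min (x - (1 + n * ε)) ε := by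
  have e : (1 : ℝ≥0∞) + ((n + 1 : ℕ) : ℝ≥0∞) * ε = (1 + n * ε) + ε := by
    push_cast
    ring
  rw [e]
  rcases le_total x (1 + n * ε) with h | h
  · have h0 : min 0 ε = 0 := min_eq_left bot_le
    rw [min_eq_left (h.trans le_self_add), min_eq_left h, tsub_eq_zero_of_le h, h0, add_zero]
  · rw [min_eq_right h, ← min_add_add_left, add_tsub_cancel_of_le h]

theorem sum_layers (x ε : ℝ≥0∞) (N : ℕ) :
    min x 1 + ∑ n ∈ Finset.range N, min (x - (1 + n * ε)) ε = min x (1 + N * ε) := by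
  induction N with
  | zero => simp
  | succ N ih => rw [Finset.sum_range_succ, ← add_assoc, ih, ← min_layer]

theorem tsum_layers {x ε : ℝ≥0∞} (hx : x ≠ ∞) (hε : ε ≠ 0) :
    min x 1 + ∑' n : ℕ, min (x - (1 + n * ε)) ε = x := by
  have h1 : Tendsto (fun N : ℕ => min x 1 + ∑ n ∈ Finset.range N, min (x - (1 + n * ε)) ε) atTop
      (𝓝 (min x 1 + ∑' n : ℕ, min (x - (1 + n * ε)) ε)) :=
    tendsto_const_nhds.add ENNReal.summable.hasSum.tendsto_sum_nat
  have h2 : Tendsto (fun N : ℕ => min x 1 + ∑ n ∈ Finset.range N, min (x - (1 + n * ε)) ε) atTop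
      (𝓝 x) := by
    simp only [sum_layers]
    apply tendsto_const_nhds.congr'
    obtain ⟨M, hM⟩ := ENNReal.exists_nat_gt (ENNReal.div_ne_top hx hε)
    filter_upwards [eventually_ge_atTop M] with N hN
    rw [min_eq_left]
    rcases eq_or_ne ε ∞ with htop | htop
    · rcases eq_or_ne N 0 with h0 | h0
      · have : M = 0 := by omega
        rw [this] at hM
        simp at hM
      · rw [htop, ENNReal.mul_top (by exact_mod_cast h0)]
        simp
    · have h3 : x ≤ M * ε := by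
        rw [← ENNReal.div_le_iff hε htop]
        exact hM.le
      have h4 : (M : ℝ≥0∞) * ε ≤ N * ε := by
        gcongr
      exact (h3.trans h4).trans le_add_self
  exact tendsto_nhds_unique h1 h2

/-- The Bessel process in finite expected time. -/
theorem exists_bessel (hb : NBM b P) (hW : TBM W P') :
    ∃ T : Ω → ℝ, Measurable T ∧ (∀ ω, 0 ≤ T ω) ∧ ∫⁻ ω, ENNReal.ofReal (T ω) ∂P < ∞ ∧
      ∀ A, MeasurableSet A → P {ω | win (fun t => b t ω) (T ω) ∈ A} =
        ∫⁻ w in A, fbes w ∂(betaM W P') := by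
  have hβ := isFinite_betaM hW
  set β := betaM W P' with hβdef
  let f0 : C(unitInterval, ℝ) → ℝ≥0∞ := fun w => min (fbes w) 1
  have hf0 : Measurable f0 := measurable_fbes.min measurable_const
  set s0 : ℝ≥0∞ := ∫⁻ w, f0 w ∂β with hs0def
  have htotal : ∫⁻ w, fbes w ∂β = 1 := lint_id_betaM hW
  have hs0 : s0 ≠ 0 := by
    rw [hs0def]
    intro h0
    rw [lintegral_eq_zero_iff hf0] at h0
    have h1 : ∀ᵐ w ∂β, False := by
      filter_upwards [h0, betaM_pos hW] with w hw hw1
      simp only [Pi.zero_apply, f0] at hw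
      have h2 : fbes w ≠ 0 := by
        unfold fbes
        rw [Ne, ENNReal.ofReal_eq_zero, not_le]
        exact hw1
      rcases min_choice (fbes w) 1 with h | h
      · rw [h] at hw; exact h2 hw
      · rw [h] at hw; exact one_ne_zero hw
    rw [ae_iff] at h1
    simp only [not_false_eq_true] at h1
    exact betaM_univ_ne_zero hW h1
  have hs0t : s0 ≠ ∞ := by
    have : s0 ≤ 1 := by
      rw [← htotal]
      exact lintegral_mono fun w => min_le_left _ _
    exact ne_top_of_le_ne_top ENNReal.one_ne_top this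
  set ε : ℝ≥0∞ := s0 * κm β with hε
  have hε0 : ε ≠ 0 := mul_ne_zero hs0 (κm_ne_zero hW)
  have hεt : ε ≠ ∞ := ENNReal.mul_ne_top hs0t (κm_ne_top hW)
  let a : ℕ → C(unitInterval, ℝ) → ℝ≥0∞ := fun n w => min (fbes w - (1 + n * ε)) ε
  have ha : ∀ n, Measurable (a n) := fun n =>
    (measurable_fbes.sub measurable_const).min measurable_const
  have hfull : ∀ w, f0 w + ∑' n, a n w = fbes w := fun w =>
    tsum_layers ENNReal.ofReal_ne_top hε0
  have htot : ∫⁻ w, f0 w ∂β + ∑' n, ∫⁻ w, a n w ∂β = 1 := by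
    rw [← lintegral_tsum fun n => (ha n).aemeasurable, ← lintegral_add_left hf0]
    simp only [hfull]
    exact htotal
  have hE : ∑' n : ℕ, ((n : ℝ≥0∞) + 1) * ∫⁻ w, a n w ∂β < ∞ := by
    have h1 : ∀ w, ∑' n : ℕ, ((n : ℝ≥0∞) + 1) * a n w ≤ (fbes w / ε + 1) * fbes w := by
      intro w
      have h2 : ∀ n : ℕ, ((n : ℝ≥0∞) + 1) * a n w ≤ (fbes w / ε + 1) * a n w := by
        intro n
        rcases le_or_gt (fbes w) (1 + n * ε) with h | h
        · have : a n w = 0 := by
            simp only [a]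
            rw [tsub_eq_zero_of_le h]
            exact min_eq_left bot_le
          rw [this, mul_zero, mul_zero]
        · gcongr
          rw [ENNReal.le_div_iff_mul_le (Or.inl hε0) (Or.inl hεt)]
          exact le_add_self.trans h.le
      calc ∑' n : ℕ, ((n : ℝ≥0∞) + 1) * a n w ≤ ∑' n : ℕ, (fbes w / ε + 1) * a n w :=
            ENNReal.tsum_le_tsum h2
        _ = (fbes w / ε + 1) * ∑' n : ℕ, a n w := ENNReal.tsum_mul_left
        _ ≤ (fbes w / ε + 1) * fbes w := by
            gcongr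
            rw [← hfull w]
            exact le_add_self
    have h3 : ∑' n : ℕ, ((n : ℝ≥0∞) + 1) * ∫⁻ w, a n w ∂β =
        ∫⁻ w, ∑' n : ℕ, ((n : ℝ≥0∞) + 1) * a n w ∂β := by
      rw [lintegral_tsum fun n => ((ha n).const_mul _).aemeasurable]
      congr 1
      funext n
      rw [lintegral_const_mul _ (ha n)]
    rw [h3]
    refine (lintegral_mono h1).trans_lt ?_
    have h4 : ∀ w, (fbes w / ε + 1) * fbes w = ε⁻¹ * (fbes w * fbes w) + fbes w := by
      intro w
      rw [div_eq_mul_inv]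
      ring
    simp only [h4]
    have hsqm : Measurable fun w => fbes w * fbes w := measurable_fbes.mul measurable_fbes
    rw [lintegral_add_right _ measurable_fbes, lintegral_const_mul _ hsqm, htotal]
    refine ENNReal.add_lt_top.2 ⟨ENNReal.mul_lt_top (ENNReal.inv_lt_top.2
      (pos_iff_ne_zero.2 hε0)) (lint_sq_betaM hW), ENNReal.one_lt_top⟩
  obtain ⟨T, h1, h2, h3, h4⟩ := assemble hb hf0 ha hs0 htot hE
    (by
      intro n c hc
      obtain ⟨H, T, g, k1, k2, k3⟩ := exists_cand_one hc hW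
      refine ⟨H, T, g, k1, ?_, k3⟩
      intro w
      calc a n w ≤ ε := min_le_right _ _
        _ = s0 * κm β := rfl
        _ ≤ s0 * g w := by
            gcongr
            exact k2 w)
    (θ := κm β) (κm_ne_zero hW)
    (by
      intro c hc
      obtain ⟨H, T, g, k1, k2, k3⟩ := exists_cand_one hc hW
      refine ⟨H, T, g, k1, ?_, k3⟩
      intro w
      refine le_trans ?_ (k2 w)
      calc κm β * f0 w ≤ κm β * 1 := by
            gcongr
            exact min_le_right _ _
        _ = κm β := mul_one _)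
  refine ⟨T, h1, h2, h3, ?_⟩
  intro A hA
  rw [h4 A hA]
  simp only [hfull]

end Helper78.BW
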