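import Mathlib
import Pool.Agent.Helper78.BW.App

/-!
From Brownian motions with almost surely continuous paths to normalised ones, uniqueness of the
law of the Bessel process, and the final form of the two results.
-/

open MeasureTheory ProbabilityTheory Set Filter Topology
open scoped ENNReal NNReal Real unitInterval BoundedContinuousFunction

namespace Helper78.BW

variable {Ω : Type*} {mΩ : MeasurableSpace Ω} {P : Measure Ω}
variable {Ω' : Type*} {mΩ' : MeasurableSpace Ω'} {P' : Measure Ω'}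

theorem exists_NBM {B : ℝ≥0 → Ω → ℝ} (hB : IsBrownianReal B P) :
    ∃ b : ℝ → Ω → ℝ, NBM b P ∧ ∀ᵐ ω ∂P, ∀ t : ℝ≥0, b t ω = B t ω := by
  classical
  have hP : IsProbabilityMeasure P := hB.isGaussianProcess.isProbabilityMeasure
  -- the good event
  have hgood : ∀ᵐ ω ∂P, Continuous (B · ω) ∧ B 0 ω = 0 ∧
      ∀ q : ℕ × ℕ, B ((q.1 : ℝ≥0) / q.2) ω = (hB.aemeasurable ((q.1 : ℝ≥0) / q.2)).mk _ ω := by
    have h1 : ∀ᵐ ω ∂P, ∀ q : ℕ × ℕ,
        B ((q.1 : ℝ≥0) / q.2) ω = (hB.aemeasurable ((q.1 : ℝ≥0) / q.2)).mk _ ω := by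
      rw [ae_all_iff]
      intro q
      exact (hB.aemeasurable _).ae_eq_mk
    filter_upwards [hB.cont, hB.eval_zero_ae_eq_zero, h1] with ω a1 a2 a3
    exact ⟨a1, a2, a3⟩
  rw [ae_iff] at hgood
  set N : Set Ω := toMeasurable P {ω | ¬ (Continuous (B · ω) ∧ B 0 ω = 0 ∧
      ∀ q : ℕ × ℕ, B ((q.1 : ℝ≥0) / q.2) ω =
        (hB.aemeasurable ((q.1 : ℝ≥0) / q.2)).mk _ ω)} with hN
  have hNm : MeasurableSet N := measurableSet_toMeasurable _ _
  have hN0 : P N = 0 := by rw [hN, measure_toMeasurable, hgood]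
  have hNg : ∀ ω, ω ∉ N → Continuous (B · ω) ∧ B 0 ω = 0 ∧
      ∀ q : ℕ × ℕ, B ((q.1 : ℝ≥0) / q.2) ω =
        (hB.aemeasurable ((q.1 : ℝ≥0) / q.2)).mk _ ω := by
    intro ω hω
    by_contra hcon
    exact hω (subset_toMeasurable _ _ hcon)
  let b : ℝ → Ω → ℝ := fun t => Nᶜ.indicator (fun ω => B t.toNNReal ω)
  have hbN : ∀ t ω, ω ∉ N → b t ω = B t.toNNReal ω := fun t ω hω =>
    indicator_of_mem (show ω ∈ Nᶜ from hω) _
  have hbN' : ∀ t ω, ω ∈ N → b t ω = 0 := fun t ω hω =>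
    indicator_of_notMem (show ω ∉ Nᶜ from fun h => h hω) _
  have hcont : ∀ ω, Continuous fun t => b t ω := by
    intro ω
    by_cases hω : ω ∈ N
    · simp only [fun t => hbN' t ω hω]
      exact continuous_const
    · simp only [fun t => hbN t ω hω]
      exact (hNg ω hω).1.comp continuous_real_toNNReal
  have hae : ∀ᵐ ω ∂P, ω ∉ N := measure_eq_zero_iff_ae_notMem.1 hN0
  have hmeasq : ∀ q : ℕ × ℕ, Measurable (b ((q.1 : ℝ) / q.2)) := by
    intro q
    have e : b ((q.1 : ℝ) / q.2) = Nᶜ.indicator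
        ((hB.aemeasurable ((q.1 : ℝ≥0) / q.2)).mk _) := by
      funext ω
      by_cases hω : ω ∈ N
      · rw [hbN' _ _ hω, indicator_of_notMem (show ω ∉ Nᶜ from fun h => h hω)]
      · rw [hbN _ _ hω, indicator_of_mem (show ω ∈ Nᶜ from hω)]
        have e2 : ((q.1 : ℝ) / q.2).toNNReal = (q.1 : ℝ≥0) / q.2 := by
          rw [Real.toNNReal_div (by positivity)]
          simp
        rw [e2]
        exact (hNg ω hω).2.2 q
    rw [e]
    exact (hB.aemeasurable _).measurable_mk.indicator hNm.compl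
  have hmeas : ∀ t, Measurable (b t) := by
    intro t
    have hb_pos : b t = b t.toNNReal := by
      funext ω
      by_cases hω : ω ∈ N
      · rw [hbN' _ _ hω, hbN' _ _ hω]
      · rw [hbN _ _ hω, hbN _ _ hω, Real.toNNReal_coe]
    rw [hb_pos]
    set s : ℝ := (t.toNNReal : ℝ) with hs
    have hs0 : 0 ≤ s := t.toNNReal.2
    have hlim : Tendsto (fun n : ℕ => ((⌊s * (n : ℝ)⌋₊ : ℕ) : ℝ) / (n : ℝ)) atTop (𝓝 s) :=
      (tendsto_nat_floor_mul_div_atTop hs0).comp tendsto_natCast_atTop_atTop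
    apply measurable_of_tendsto_metrizable (f := fun n : ℕ =>
      b (((⌊s * (n : ℝ)⌋₊ : ℕ) : ℝ) / (n : ℝ)))
    · intro n
      exact hmeasq (⌊s * (n : ℝ)⌋₊, n)
    · rw [tendsto_pi_nhds]
      intro ω
      exact ((hcont ω).tendsto s).comp hlim
  have heq : ∀ᵐ ω ∂P, ∀ t : ℝ≥0, b t ω = B t ω := by
    filter_upwards [hae] with ω hω t
    rw [hbN _ _ hω, Real.toNNReal_coe]
  refine ⟨b, ⟨hcont, hmeas, ?_, ?_⟩, heq⟩
  · intro ω
    by_cases hω : ω ∈ N
    · exact hbN' _ _ hω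
    · rw [hbN _ _ hω, Real.toNNReal_zero]
      exact (hNg ω hω).2.1
  · apply hB.toIsPreBrownianReal.congr
    intro t
    filter_upwards [heq] with ω hω
    exact (hω t).symm

theorem exists_TBM {W : Fin 3 → ℝ≥0 → Ω' → ℝ} (hW : ∀ i, IsBrownianReal (W i) P')
    (hind : iIndepFun (fun i ω t => W i t ω) P') :
    ∃ w : Fin 3 → ℝ → Ω' → ℝ, TBM w P' ∧ ∀ᵐ ω ∂P', ∀ i, ∀ t : ℝ≥0, w i t ω = W i t ω := by
  choose w hw hweq using fun i => exists_NBM (hW i)
  refine ⟨w, ⟨hw, ?_⟩, ae_all_iff.2 hweq⟩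
  apply hind.congr
  intro i
  filter_upwards [hweq i] with ω hω
  funext t
  exact (hω t).symm

/-- Uniqueness of the law of the three-dimensional process, at the level of `S3`. -/
theorem S3_unique {w : Fin 3 → ℝ → Ω → ℝ} {w' : Fin 3 → ℝ → Ω' → ℝ} (hw : TBM w P)
    (hw' : TBM w' P') {h : ℝ} (hh : 0 < h) {n : ℕ} (hn : 0 < (n : ℝ) * h) (f : ℕ → ℝ →ᵇ ℝ≥0) :
    S3 w P h n (fun i x => (f i x : ℝ≥0∞)) (ax 0) =
      S3 w' P' h n (fun i x => (f i x : ℝ≥0∞)) (ax 0) := by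
  have h1 := (S3_tendsto hw hn f).mono_left (nhdsWithin_le_nhds (s := Ioi (0 : ℝ)))
  have h2 := (S3_tendsto hw' hn f).mono_left (nhdsWithin_le_nhds (s := Ioi (0 : ℝ)))
  refine tendsto_nhds_unique (h1.congr' ?_) h2
  filter_upwards [self_mem_nhdsWithin] with y hy
  have hy' : (0 : ℝ) < y := hy
  have e1 := chain3 hh n hw (measurable_f f) (ax_ne_zero hy'.ne')
  have e2 := chain3 hh n hw' (measurable_f f) (ax_ne_zero hy'.ne')
  rw [norm_ax, abs_of_pos hy'] at e1 e2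
  have hy0 : ENNReal.ofReal y ≠ 0 := by simpa using hy'
  exact (ENNReal.mul_right_inj hy0 ENNReal.ofReal_ne_top).1 (e1.trans e2.symm)

theorem betaM_unique {w : Fin 3 → ℝ → Ω → ℝ} {w' : Fin 3 → ℝ → Ω' → ℝ} (hw : TBM w P)
    (hw' : TBM w' P') : betaM w P = betaM w' P' := by
  have h1 := isFinite_betaM hw
  have h2 := isFinite_betaM hw'
  apply ext_path
  intro m f
  rw [lint_betaM_prod hw f, lint_betaM_prod hw' f]
  congr 1
  apply S3_unique hw hw' (by positivity)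
  rw [nh_eq]
  exact one_pos

theorem bessel_eq {w : Fin 3 → ℝ → Ω' → ℝ} (hw : TBM w P') {W : Fin 3 → ℝ≥0 → Ω' → ℝ}
    (hweq : ∀ᵐ ω ∂P', ∀ i, ∀ t : ℝ≥0, w i t ω = W i t ω) {R : Ω' → C(unitInterval, ℝ)}
    (hR : ∀ᵐ ω ∂P', ∀ u : unitInterval, R ω u = √(∑ i, W i (unitInterval.toNNReal u) ω ^ 2)) :
    R =ᵐ[P'] Rp w := by
  filter_upwards [hweq, hR] with ω h1 h2
  ext u
  rw [h2 u, Rp_apply hw, EuclideanSpace.norm_eq]
  congr 1
  apply Finset.sum_congr rfl
  intro i _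
  rw [Real.norm_eq_abs, sq_abs]
  show _ = (w i u ω) ^ 2
  rw [← h1 i]
  rfl

theorem ae_norm_pos {w : Fin 3 → ℝ → Ω' → ℝ} (hw : TBM w P') :
    ∀ᵐ ω ∂P', 0 < ‖vec w 1 ω‖ := by
  have h1 := G3_ne one_pos 0
  rw [← hw.map_vec zero_le_one] at h1
  have h2 := ae_of_ae_map (hw.measurable_vec 1).aemeasurable h1
  filter_upwards [h2] with ω hω
  rw [zero_add] at hω
  exact norm_pos_iff.2 hω

/-- from laws with density to expectations -/
theorem lint_of_law {w : Fin 3 → ℝ → Ω' → ℝ} (hw : TBM w P') {X : Ω → C(unitInterval, ℝ)}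
    (hX : Measurable X) {f : C(unitInterval, ℝ) → ℝ≥0∞} (hf : Measurable f)
    (hlaw : ∀ A, MeasurableSet A → P {ω | X ω ∈ A} = ∫⁻ v in A, f v ∂(betaM w P'))
    {F : C(unitInterval, ℝ) → ℝ≥0∞} (hF : Measurable F) :
    ∫⁻ ω, F (X ω) ∂P = ∫⁻ ω, f (Rp w ω) * F (Rp w ω) * dens w ω ∂P' := by
  have h1 : P.map X = (betaM w P').withDensity f := by
    ext A hA
    rw [Measure.map_apply hX hA, withDensity_apply _ hA, ← hlaw A hA]
    rfl
  rw [← lintegral_map hF hX, h1, lintegral_withDensity_eq_lintegral_mul _ hf hF]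
  exact lint_betaM hw (hf.mul hF)

/-- Three independent copies on the product space. -/
theorem tbm_pi {b : ℝ → Ω → ℝ} (hb : NBM b P) :
    TBM (fun i t (ω : Fin 3 → Ω) => b t (ω i)) (Measure.pi fun _ : Fin 3 => P) := by
  have hP := hb.isProb
  have hmp : ∀ i : Fin 3, MeasurePreserving (Function.eval i)
      (Measure.pi fun _ : Fin 3 => P) P := fun i => measurePreserving_eval _ i
  refine ⟨fun i => ⟨fun ω => hb.cont (ω i), fun t => (hb.meas t).comp (measurable_pi_apply i),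
    fun ω => hb.zero (ω i), ⟨fun J => ?_⟩⟩, ?_⟩
  · have hm : Measurable fun ω => J.restrict (fun t : ℝ≥0 => b t ω) :=
      measurable_pi_lambda _ fun t => hb.meas _
    refine ⟨(hm.comp (measurable_pi_apply i)).aemeasurable, ?_⟩
    have h1 := (hb.pre.hasLaw J).map_eq
    have h2 : (Measure.pi fun _ : Fin 3 => P).map
        ((fun ω => J.restrict (fun t : ℝ≥0 => b t ω)) ∘ Function.eval i) =
        P.map (fun ω => J.restrict (fun t : ℝ≥0 => b t ω)) := by
      rw [← Measure.map_map hm (measurable_pi_apply i), (hmp i).map_eq]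
    rw [← h1, ← h2]
    rfl
  · exact iIndepFun_pi (X := fun _ ω (t : ℝ≥0) => b t ω) fun i =>
      (measurable_pi_lambda _ fun t => hb.meas _).aemeasurable

/-- Brownian motion exists on the product space, hence so does the Bessel process. -/
theorem exists_bessel3 {B : ℝ≥0 → Ω → ℝ} (hB : IsBrownianReal B P) :
    ∃ R : (Fin 3 → Ω) → C(unitInterval, ℝ), Measurable R ∧
      IsBessel3 R (Measure.pi fun _ : Fin 3 => P) := by
  obtain ⟨b, hb, _⟩ := exists_NBM hB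
  have hw := tbm_pi hb
  refine ⟨Rp _, measurable_Rp hw, fun i t ω => b t (ω i), fun i => ?_, hw.indep, ?_⟩
  · refine ⟨(hw.nbm i).pre, ?_⟩
    refine Eventually.of_forall fun ω => ?_
    exact ((hw.nbm i).cont ω).comp NNReal.continuous_coe
  · refine Eventually.of_forall fun ω u => ?_
    rw [Rp_apply hw, EuclideanSpace.norm_eq]
    congr 1
    apply Finset.sum_congr rfl
    intro i _
    rw [Real.norm_eq_abs, sq_abs]
    rfl

/-- The two random times, in final form. -/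
theorem final {Ω : Type*} {mΩ : MeasurableSpace Ω} {P : Measure Ω} {B : ℝ≥0 → Ω → ℝ}
    (hB : IsBrownianReal B P) {κ : ℝ≥0∞ → ℝ≥0∞} (hκm : Measurable κ)
    (hκ : ∀ {b : ℝ → Ω → ℝ}, NBM b P → ∀ (w : Fin 3 → ℝ → (Fin 3 → Ω) → ℝ),
      TBM w (Measure.pi fun _ : Fin 3 => P) →
      ∃ T : Ω → ℝ, Measurable T ∧ (∀ ω, 0 ≤ T ω) ∧ ∫⁻ ω, ENNReal.ofReal (T ω) ∂P < ∞ ∧
      ∀ A, MeasurableSet A → P {ω | win (fun t => b t ω) (T ω) ∈ A} =
        ∫⁻ v in A, κ (ENNReal.ofReal (v 1)) ∂(betaM w (Measure.pi fun _ : Fin 3 => P))) :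
    ∃ T : Ω → ℝ≥0, Measurable T ∧ ∫⁻ ω, T ω ∂P < ∞ ∧
      ∃ X : Ω → C(unitInterval, ℝ), Measurable X ∧
        IsWindow B T X P ∧
        ∀ (Ω' : Type*) (mΩ' : MeasurableSpace Ω') (P' : Measure Ω')
          (R : Ω' → C(unitInterval, ℝ)), IsBessel3 R P' →
          ∀ F : C(unitInterval, ℝ) → ℝ≥0∞, Measurable F →
            ∫⁻ ω, F (X ω) ∂P = ∫⁻ ω, F (R ω) *
              (κ (ENNReal.ofReal (R ω 1)) * (ENNReal.ofReal (R ω 1))⁻¹) ∂P' := by
  obtain ⟨b, hb, hbeq⟩ := exists_NBM hB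
  have hw0 := tbm_pi hb
  obtain ⟨T, hT, hT0, hTfin, hlaw⟩ := hκ hb _ hw0
  have hXm : Measurable fun ω => win (fun t => b t ω) (T ω) := by
    apply measurable_of_eval
    intro s
    have hu : Measurable (Function.uncurry fun (t : ℝ) ω => b t ω) :=
      measurable_uncurry_of_continuous_of_measurable hb.cont hb.meas
    have e : (fun ω => win (fun t => b t ω) (T ω) s) = fun ω =>
        (Function.uncurry fun (t : ℝ) ω => b t ω) (T ω + s, ω) -
          (Function.uncurry fun (t : ℝ) ω => b t ω) (T ω, ω) := by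
      funext ω
      rw [win_apply (hb.cont ω)]
      rfl
    rw [e]
    exact (hu.comp ((hT.add_const _).prodMk measurable_id)).sub
      (hu.comp (hT.prodMk measurable_id))
  refine ⟨fun ω => (T ω).toNNReal, hT.real_toNNReal, hTfin, _, hXm, ?_, ?_⟩
  · filter_upwards [hbeq] with ω hω u
    rw [win_apply (hb.cont ω), ← hω, ← hω, NNReal.coe_add, Real.coe_toNNReal _ (hT0 ω)]
    rfl
  · intro Ω' mΩ' P' R hR F hF
    obtain ⟨W, hW, hind, hRW⟩ := hR
    obtain ⟨w, hw, hweq⟩ := exists_TBM hW hind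
    have hRR := bessel_eq hw hweq hRW
    rw [betaM_unique hw0 hw] at hlaw
    have hκ' : Measurable fun v : C(unitInterval, ℝ) => κ (ENNReal.ofReal (v 1)) :=
      hκm.comp (measurable_eval 1).ennreal_ofReal
    rw [lint_of_law hw hXm hκ' hlaw hF]
    apply lintegral_congr_ae
    filter_upwards [hRR] with ω hω
    rw [hω]
    have e1 : dens w ω = (ENNReal.ofReal (Rp w ω 1))⁻¹ := by
      rw [Rp_apply hw]
      rfl
    rw [e1]
    ring

/-- A positive end point almost surely. -/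
theorem bessel3_pos {R : Ω' → C(unitInterval, ℝ)} (hR : IsBessel3 R P') :
    ∀ᵐ ω ∂P', 0 < R ω 1 := by
  obtain ⟨W, hW, hind, hRW⟩ := hR
  obtain ⟨w, hw, hweq⟩ := exists_TBM hW hind
  filter_upwards [bessel_eq hw hweq hRW, ae_norm_pos hw] with ω h1 h2
  rw [h1, Rp_apply hw]
  exact h2

end Helper78.BW
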